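import Pool.Agent.H4.Fold3.Defs

/-!
# Project FOLD, third stage: the module of the local step
-/

set_option autoImplicit false

open Finset

namespace Pool.Agent.H4.Fold3

open Pool.Agent.H85.Fold Pool.Agent.H85.Fold2

/-- an involution of the plane with both eigenlines positive for the form `x² - y²` -/
def matU (R : Type) [CommRing R] : Matrix (Fin 2) (Fin 2) R := !![-1, 4; 0, 1]

/-- the involution which changes the sign of the form `x² - y²` -/
def matE (R : Type) [CommRing R] : Matrix (Fin 2) (Fin 2) R := !![0, 1; 1, 0]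

open Classical in
/-- The module of the local step at the vertex `u`: `b v` on the link of `u`, `matU` at `u`, `matE`
at the other vertices. -/
noncomputable def bloc {V D : Type} [DecidableEq D] (G : SimpleGraph V) (u : V) {R : Type}
    [CommRing R] (b : V → Matrix D D R) (v : V) : Matrix (D × Fin 2) (D × Fin 2) R :=
  if v = u then Matrix.kroneckerMap (· * ·) (1 : Matrix D D R) (matU R)
  else if G.Adj u v then Matrix.kroneckerMap (· * ·) (b v) (1 : Matrix (Fin 2) (Fin 2) R)
  else Matrix.kroneckerMap (· * ·) (1 : Matrix D D R) (matE R)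

open Classical in
/-- the operators of the local step, for a general space of coefficients -/
noncomputable def A2 {V : Type} {S : Type} [AddCommGroup S] [Module ℝ S] (G : SimpleGraph V)
    (u : V) (A : V → S →ₗ[ℝ] S) (v : V) : (Fin 2 → S) →ₗ[ℝ] (Fin 2 → S) :=
  if v = u then
    LinearMap.pi ![(4 : ℝ) • LinearMap.proj 1 - LinearMap.proj 0, LinearMap.proj 1]
  else if G.Adj u v then LinearMap.pi fun j => (A v).comp (LinearMap.proj j)
  else LinearMap.pi ![LinearMap.proj 1, LinearMap.proj 0]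

/-- Normalized folding vectors on the vertices in `L`. -/
structure IsFoldL {V : Type} (G : SimpleGraph V) (L : Finset V) {n m : ℕ} (p : V → Fin n → ℝ)
    (a : V → Fin m → ℝ) : Prop where
  one : ∀ v ∈ L, p v ⬝ᵥ p v = a v ⬝ᵥ a v + 1
  zero : ∀ u ∈ L, ∀ v ∈ L, G.Adj u v → p u ⬝ᵥ p v = a u ⬝ᵥ a v
  neg : ∀ u ∈ L, ∀ v ∈ L, u ≠ v → ¬ G.Adj u v → p u ⬝ᵥ p v < a u ⬝ᵥ a v

/-- Clifford generators: `n` of square `1`, `m` of square `-1`, and for every vertex two of
square `-1` -/
structure IsCliff3 {V D : Type} [Fintype D] [DecidableEq D] {n m : ℕ}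
    (c : (Fin n ⊕ Fin m) ⊕ (V ⊕ V) → Matrix D D ℤ) : Prop where
  sq_p : ∀ i, c (.inl (.inl i)) * c (.inl (.inl i)) = 1
  sq_a : ∀ j, c (.inl (.inr j)) * c (.inl (.inr j)) = -1
  sq_g : ∀ v, c (.inr (.inl v)) * c (.inr (.inl v)) = -1
  sq_c : ∀ v, c (.inr (.inr v)) * c (.inr (.inr v)) = -1
  anti : ∀ i j, i ≠ j → c i * c j = -(c j * c i)
  tr_p : ∀ i, (c (.inl (.inl i))).transpose = c (.inl (.inl i))
  tr_a : ∀ j, (c (.inl (.inr j))).transpose = -c (.inl (.inr j))
  tr_g : ∀ v, (c (.inr (.inl v))).transpose = -c (.inr (.inl v))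
  tr_c : ∀ v, (c (.inr (.inr v))).transpose = -c (.inr (.inr v))

/-- the involutions of the link, over a commutative ring -/
def xmat {V D : Type} [Fintype D] {n m : ℕ} (c : (Fin n ⊕ Fin m) ⊕ (V ⊕ V) → Matrix D D ℤ)
    {R : Type} [CommRing R] (p : V → Fin n → R) (a : V → Fin m → R) (μ : R) (v : V) :
    Matrix D D R :=
  (∑ i, p v i • (c (.inl (.inl i))).map (Int.cast : ℤ → R) +
      ∑ j, a v j • (c (.inl (.inr j))).map (Int.cast : ℤ → R) +
      μ • (c (.inr (.inl v))).map (Int.cast : ℤ → R)) *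
    (c (.inr (.inr v))).map (Int.cast : ℤ → R)

end Pool.Agent.H4.Fold3
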