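import Pool.Agent.H85.Fold2.Defs

/-!
# Project FOLD, third stage: Betti numbers of embedded subgraphs
-/

set_option autoImplicit false
set_option linter.unusedSectionVars false

open Finset

namespace Pool.Agent.H4.Fold3

open Pool.Agent.H85.Fold Pool.Agent.H85.Fold2

section

variable {V W : Type} [DecidableEq V] [DecidableEq W]

private def pre (Y : Finset V) (φ : V → W) (τ : Finset W) : Finset V := Y.filter fun v => φ v ∈ τ

private theorem mem_pre {Y : Finset V} {φ : V → W} {τ : Finset W} {v : V} :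
    v ∈ pre Y φ τ ↔ v ∈ Y ∧ φ v ∈ τ := Finset.mem_filter

private theorem pre_subset (Y : Finset V) (φ : V → W) (τ : Finset W) : pre Y φ τ ⊆ Y :=
  Finset.filter_subset _ _

private theorem image_pre {Y : Finset V} {φ : V → W} {τ : Finset W} (h : τ ⊆ Y.image φ) :
    (pre Y φ τ).image φ = τ := by
  ext w
  rw [Finset.mem_image]
  constructor
  · rintro ⟨v, hv, rfl⟩
    exact (mem_pre.1 hv).2
  · intro hw
    obtain ⟨v, hv, rfl⟩ := Finset.mem_image.1 (h hw)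
    exact ⟨v, mem_pre.2 ⟨hv, hw⟩, rfl⟩

private theorem pre_image {Y : Finset V} {φ : V → W}
    (hφ : ∀ u ∈ Y, ∀ v ∈ Y, φ u = φ v → u = v) {σ : Finset V} (h : σ ⊆ Y) :
    pre Y φ (σ.image φ) = σ := by
  ext v
  rw [mem_pre, Finset.mem_image]
  constructor
  · rintro ⟨h1, u, hu, huv⟩
    rwa [← hφ u (h hu) v h1 huv]
  · intro hv
    exact ⟨h hv, v, hv, rfl⟩

private theorem pre_insert {Y : Finset V} {φ : V → W}
    (hφ : ∀ u ∈ Y, ∀ v ∈ Y, φ u = φ v → u = v) {v : V} (hv : v ∈ Y) (τ : Finset W) :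
    pre Y φ (insert (φ v) τ) = insert v (pre Y φ τ) := by
  ext u
  rw [mem_pre, Finset.mem_insert, Finset.mem_insert, mem_pre]
  constructor
  · rintro ⟨h1, h2 | h2⟩
    · exact Or.inl (hφ u h1 v hv h2)
    · exact Or.inr ⟨h1, h2⟩
  · rintro (rfl | h)
    · exact ⟨hv, Or.inl rfl⟩
    · exact ⟨h.1, Or.inr h.2⟩

private theorem injOn {Y : Finset V} {φ : V → W}
    (hφ : ∀ u ∈ Y, ∀ v ∈ Y, φ u = φ v → u = v) {σ : Finset V} (h : σ ⊆ Y) :
    Set.InjOn φ (σ : Set V) :=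
  fun u hu v hv huv => hφ u (h hu) v (h hv) huv

private theorem card_pre {Y : Finset V} {φ : V → W}
    (hφ : ∀ u ∈ Y, ∀ v ∈ Y, φ u = φ v → u = v) {τ : Finset W} (h : τ ⊆ Y.image φ) :
    (pre Y φ τ).card = τ.card := by
  have h1 := Finset.card_image_of_injOn (injOn hφ (pre_subset Y φ τ))
  rw [image_pre h] at h1
  exact h1.symm

private theorem sg_pre {Y : Finset V} {φ : V → W}
    (hφ : ∀ u ∈ Y, ∀ v ∈ Y, φ u = φ v → u = v) {ν : V → ℕ} {ν' : W → ℕ}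
    (hν : ∀ u ∈ Y, ∀ v ∈ Y, (ν' (φ u) < ν' (φ v) ↔ ν u < ν v)) {τ : Finset W}
    (h : τ ⊆ Y.image φ) {v : V} (hv : v ∈ Y) :
    Pool.Agent.H4.Singer.sg ν' (φ v) τ = Pool.Agent.H4.Singer.sg ν v (pre Y φ τ) := by
  unfold Pool.Agent.H4.Singer.sg
  congr 1
  have h1 : τ.filter (fun w => ν' w < ν' (φ v)) =
      ((pre Y φ τ).filter fun u => ν u < ν v).image φ := by
    ext w
    rw [Finset.mem_filter, Finset.mem_image]
    constructor
    · rintro ⟨hw, hlt⟩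
      obtain ⟨u, hu, rfl⟩ := Finset.mem_image.1 (h hw)
      exact ⟨u, Finset.mem_filter.2 ⟨mem_pre.2 ⟨hu, hw⟩, (hν u hu v hv).1 hlt⟩, rfl⟩
    · rintro ⟨u, hu, rfl⟩
      obtain ⟨h2, h3⟩ := Finset.mem_filter.1 hu
      obtain ⟨h4, h5⟩ := mem_pre.1 h2
      exact ⟨h5, (hν u h4 v hv).2 h3⟩
  rw [h1, Finset.card_image_of_injOn
    (injOn hφ ((Finset.filter_subset _ _).trans (pre_subset Y φ τ)))]

private theorem tdl_embed [Fintype V] [Fintype W] {D Ω : Type} [Fintype D] [DecidableEq D]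
    {K : Type} [Field K] {Y : Finset V} {φ : V → W}
    (hφ : ∀ u ∈ Y, ∀ v ∈ Y, φ u = φ v → u = v) {ν : V → ℕ} {ν' : W → ℕ}
    (hν : ∀ u ∈ Y, ∀ v ∈ Y, (ν' (φ u) < ν' (φ v) ↔ ν u < ν v))
    {f : Finset V → Ω → D → K} (hf : ∀ σ, ¬ σ ⊆ Y → f σ = 0)
    {f' : Finset W → Ω → D → K} (hf1 : ∀ τ, τ ⊆ Y.image φ → f' τ = f (pre Y φ τ))
    (hf2 : ∀ τ, ¬ τ ⊆ Y.image φ → f' τ = 0) {τ : Finset W} (hτ : τ ⊆ Y.image φ) :
    tdl K ν' f' τ = tdl K ν f (pre Y φ τ) := by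
  funext ω
  change ∑ w ∈ τᶜ, (Pool.Agent.H4.Singer.sg ν' w τ : K) • f' (insert w τ) ω =
    ∑ v ∈ (pre Y φ τ)ᶜ, (Pool.Agent.H4.Singer.sg ν v (pre Y φ τ) : K) •
      f (insert v (pre Y φ τ)) ω
  have e1 : ∑ v ∈ (pre Y φ τ)ᶜ, (Pool.Agent.H4.Singer.sg ν v (pre Y φ τ) : K) •
      f (insert v (pre Y φ τ)) ω = ∑ v ∈ Y \ pre Y φ τ,
        (Pool.Agent.H4.Singer.sg ν v (pre Y φ τ) : K) • f (insert v (pre Y φ τ)) ω := by
    symm
    refine Finset.sum_subset (fun v hv => ?_) fun v hv hv2 => ?_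
    · rw [Finset.mem_compl]
      exact (Finset.mem_sdiff.1 hv).2
    · have h3 : v ∉ Y := fun h => hv2 (Finset.mem_sdiff.2 ⟨h, Finset.mem_compl.1 hv⟩)
      rw [hf _ fun h => h3 (h (Finset.mem_insert_self _ _)), Pi.zero_apply, smul_zero]
  have e2 : ∑ w ∈ τᶜ, (Pool.Agent.H4.Singer.sg ν' w τ : K) • f' (insert w τ) ω =
      ∑ w ∈ (Y \ pre Y φ τ).image φ,
        (Pool.Agent.H4.Singer.sg ν' w τ : K) • f' (insert w τ) ω := by
    symm
    refine Finset.sum_subset (fun w hw => ?_) fun w hw hw2 => ?_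
    · obtain ⟨v, hv, rfl⟩ := Finset.mem_image.1 hw
      obtain ⟨h1, h2⟩ := Finset.mem_sdiff.1 hv
      rw [Finset.mem_compl]
      exact fun h => h2 (mem_pre.2 ⟨h1, h⟩)
    · have h3 : ¬ insert w τ ⊆ Y.image φ := by
        intro h
        obtain ⟨v, hv, hvw⟩ := Finset.mem_image.1 (h (Finset.mem_insert_self _ _))
        refine hw2 (Finset.mem_image.2 ⟨v, Finset.mem_sdiff.2 ⟨hv, fun h4 => ?_⟩, hvw⟩)
        exact Finset.mem_compl.1 hw (hvw ▸ (mem_pre.1 h4).2)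
      rw [hf2 _ h3, Pi.zero_apply, smul_zero]
  rw [e1, e2, Finset.sum_image (injOn hφ Finset.sdiff_subset)]
  refine Finset.sum_congr rfl fun v hv => ?_
  have hvY := (Finset.mem_sdiff.1 hv).1
  have h4 : insert (φ v) τ ⊆ Y.image φ := by
    intro w hw
    rcases Finset.mem_insert.1 hw with rfl | hw
    · exact Finset.mem_image_of_mem φ hvY
    · exact hτ hw
  rw [sg_pre hφ hν hτ hvY, hf1 _ h4, pre_insert hφ hvY]

end


section

variable {V W D : Type} [DecidableEq V] [Fintype V] [DecidableEq W] [Fintype W]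
    [Fintype D] [DecidableEq D]

/-- transport of functions on the subsets of `Y` -/
private def tr (K : Type) [Field K] (Y : Finset V) (φ : V → W) (Ω : Type) :
    (Finset V → Ω → D → K) →ₗ[K] (Finset W → Ω → D → K) where
  toFun f τ := if τ ⊆ Y.image φ then f (pre Y φ τ) else 0
  map_add' f g := by
    funext τ
    by_cases h : τ ⊆ Y.image φ <;> simp [h]
  map_smul' r f := by
    funext τ
    by_cases h : τ ⊆ Y.image φ <;> simp [h]

variable {K : Type} [Field K] {Y : Finset V} {φ : V → W} {Ω : Type}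

private theorem tr_sub {f : Finset V → Ω → D → K} {τ : Finset W} (h : τ ⊆ Y.image φ) :
    tr K Y φ Ω f τ = f (pre Y φ τ) := if_pos h

private theorem tr_not {f : Finset V → Ω → D → K} {τ : Finset W} (h : ¬ τ ⊆ Y.image φ) :
    tr K Y φ Ω f τ = 0 := if_neg h

private theorem ych_zero {G : SimpleGraph V} {B : V → Matrix D D K} {s : V → Ω → Ω} {i : ℕ}
    {f : Finset V → Ω → D → K} (hf : f ∈ YCh K G Y B s i) {σ : Finset V} (hσ : ¬ σ ⊆ Y) :
    f σ = 0 := by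
  funext ω
  by_contra hne
  exact hσ (hf.1 σ ω hne).1

private theorem tr_inj (hφ : ∀ u ∈ Y, ∀ v ∈ Y, φ u = φ v → u = v)
    {f : Finset V → Ω → D → K} (hf : ∀ σ, ¬ σ ⊆ Y → f σ = 0) (h : tr K Y φ Ω f = 0) : f = 0 := by
  funext σ
  by_cases hσ : σ ⊆ Y
  · have h1 := congrFun h (σ.image φ)
    rw [tr_sub (Finset.image_subset_image hσ), pre_image hφ hσ] at h1
    exact h1
  · exact hf σ hσ

private theorem tr_tdl (hφ : ∀ u ∈ Y, ∀ v ∈ Y, φ u = φ v → u = v) {ν : V → ℕ} {ν' : W → ℕ}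
    (hν : ∀ u ∈ Y, ∀ v ∈ Y, (ν' (φ u) < ν' (φ v) ↔ ν u < ν v))
    {f : Finset V → Ω → D → K} (hf : ∀ σ, ¬ σ ⊆ Y → f σ = 0) :
    tr K Y φ Ω (tdl K ν f) = tdl K ν' (tr K Y φ Ω f) := by
  funext τ
  by_cases hτ : τ ⊆ Y.image φ
  · rw [tr_sub hτ, tdl_embed hφ hν hf (fun τ h => tr_sub h) (fun τ h => tr_not h) hτ]
  · rw [tr_not hτ]
    funext ω
    symm
    change ∑ w ∈ τᶜ, (Pool.Agent.H4.Singer.sg ν' w τ : K) •
      tr K Y φ Ω f (insert w τ) ω = 0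
    refine Finset.sum_eq_zero fun w _ => ?_
    rw [tr_not fun hc => hτ ((Finset.subset_insert w τ).trans hc), Pi.zero_apply, smul_zero]

private theorem tr_map_ych (hφ : ∀ u ∈ Y, ∀ v ∈ Y, φ u = φ v → u = v) {G : SimpleGraph V}
    {H : SimpleGraph W} (hadj : ∀ u ∈ Y, ∀ v ∈ Y, G.Adj u v ↔ H.Adj (φ u) (φ v))
    {B : V → Matrix D D K} {B' : W → Matrix D D K} (hB : ∀ v ∈ Y, B v = B' (φ v))
    {s : V → Ω → Ω} {s' : W → Ω → Ω} (hs : ∀ v ∈ Y, s' (φ v) = s v) (i : ℕ) :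
    (YCh K G Y B s i).map (tr K Y φ Ω) = YCh K H (Y.image φ) B' s' i := by
  apply le_antisymm
  · rintro _ ⟨f, ⟨hf1, hf2⟩, rfl⟩
    refine ⟨fun τ ω hne => ?_, fun τ w hw ω => ?_⟩
    · by_cases hτ : τ ⊆ Y.image φ
      · rw [tr_sub hτ] at hne
        obtain ⟨h1, h2, h3⟩ := hf1 _ ω hne
        refine ⟨hτ, fun w hw w' hw' hww => ?_, (card_pre hφ hτ).symm.trans h3⟩
        obtain ⟨v, hv, rfl⟩ := Finset.mem_image.1 (hτ hw)
        obtain ⟨v', hv', rfl⟩ := Finset.mem_image.1 (hτ hw')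
        exact (hadj v hv v' hv').1 (h2 v (mem_pre.2 ⟨hv, hw⟩) v' (mem_pre.2 ⟨hv', hw'⟩)
          fun hc => hww (by rw [hc]))
      · rw [tr_not hτ] at hne
        exact absurd rfl hne
    · by_cases hτ : τ ⊆ Y.image φ
      · obtain ⟨v, hv, rfl⟩ := Finset.mem_image.1 (hτ hw)
        rw [tr_sub hτ, hs v hv, ← hB v hv]
        exact hf2 _ v (mem_pre.2 ⟨hv, hw⟩) ω
      · rw [tr_not hτ]
        simp
  · rintro y' ⟨hy1, hy2⟩
    have hy'0 : ∀ τ, ¬ τ ⊆ Y.image φ → y' τ = 0 := fun τ hτ => ych_zero ⟨hy1, hy2⟩ hτ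
    let y : Finset V → Ω → D → K := fun σ => if σ ⊆ Y then y' (σ.image φ) else 0
    have hyY : ∀ σ, σ ⊆ Y → y σ = y' (σ.image φ) := fun σ hσ => if_pos hσ
    have hyN : ∀ σ, ¬ σ ⊆ Y → y σ = 0 := fun σ hσ => if_neg hσ
    refine ⟨y, ⟨fun σ ω hne => ?_, fun σ v hv ω => ?_⟩, ?_⟩
    · by_cases hσ : σ ⊆ Y
      · rw [hyY σ hσ] at hne
        obtain ⟨h1, h2, h3⟩ := hy1 _ ω hne
        rw [Finset.card_image_of_injOn (injOn hφ hσ)] at h3
        refine ⟨hσ, fun u hu v hv huv => ?_, h3⟩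
        exact (hadj u (hσ hu) v (hσ hv)).2 (h2 _ (Finset.mem_image_of_mem φ hu) _
          (Finset.mem_image_of_mem φ hv) fun hc => huv (hφ u (hσ hu) v (hσ hv) hc))
      · rw [hyN σ hσ] at hne
        exact absurd rfl hne
    · by_cases hσ : σ ⊆ Y
      · rw [hyY σ hσ, ← hs v (hσ hv), hB v (hσ hv)]
        exact hy2 _ (φ v) (Finset.mem_image_of_mem φ hv) ω
      · rw [hyN σ hσ]
        simp
    · funext τ
      by_cases hτ : τ ⊆ Y.image φ
      · rw [tr_sub hτ, hyY _ (pre_subset Y φ τ), image_pre hτ]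
      · rw [tr_not hτ, hy'0 τ hτ]

private theorem finrank_tr (hφ : ∀ u ∈ Y, ∀ v ∈ Y, φ u = φ v → u = v)
    (P : Submodule K (Finset V → Ω → D → K)) (hP : ∀ f ∈ P, ∀ σ, ¬ σ ⊆ Y → f σ = 0) :
    Module.finrank K (P.map (tr K Y φ Ω)) = Module.finrank K P := by
  have h1 : Function.Injective ((tr K Y φ Ω).domRestrict P) := by
    rw [injective_iff_map_eq_zero]
    rintro ⟨f, hf⟩ h
    exact Subtype.ext (tr_inj hφ (hP f hf) h)
  have h2 := LinearMap.finrank_range_of_inj h1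
  rw [LinearMap.range_domRestrict] at h2
  exact h2

end

/-- Betti numbers of embedded subgraphs -/
theorem bY_embed {V W D : Type} [DecidableEq V] [Fintype V] [DecidableEq W] [Fintype W]
    [Fintype D] [DecidableEq D] (G : SimpleGraph V) (H : SimpleGraph W) (Y : Finset V)
    (φ : V → W) (hφ : ∀ u ∈ Y, ∀ v ∈ Y, φ u = φ v → u = v)
    (hadj : ∀ u ∈ Y, ∀ v ∈ Y, G.Adj u v ↔ H.Adj (φ u) (φ v)) (ν : V → ℕ) (ν' : W → ℕ)
    (hν : ∀ u ∈ Y, ∀ v ∈ Y, (ν' (φ u) < ν' (φ v) ↔ ν u < ν v)) (K : Type) [Field K]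
    (B : V → Matrix D D K) (B' : W → Matrix D D K) (hB : ∀ v ∈ Y, B v = B' (φ v)) (i : ℕ)
    (Ω : Type) [Fintype Ω] (s : V → Ω → Ω) (s' : W → Ω → Ω) (hs : ∀ v ∈ Y, s' (φ v) = s v) :
    bY K G Y B s ν i = bY K H (Y.image φ) B' s' ν' i := by
  have hZ : (YZ K G Y B s ν i).map (tr K Y φ Ω) = YZ K H (Y.image φ) B' s' ν' i := by
    apply le_antisymm
    · rintro _ ⟨f, ⟨hf1, hf2⟩, rfl⟩
      refine ⟨?_, ?_⟩
      · rw [SetLike.mem_coe, ← tr_map_ych hφ hadj hB hs i]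
        exact Submodule.mem_map_of_mem hf1
      · rw [SetLike.mem_coe, LinearMap.mem_ker,
          ← tr_tdl hφ hν (fun σ hσ => ych_zero hf1 hσ)]
        have h3 : tdl K ν f = 0 := hf2
        rw [h3, map_zero]
    · rintro g ⟨hg1, hg2⟩
      rw [SetLike.mem_coe, ← tr_map_ych hφ hadj hB hs i] at hg1
      obtain ⟨f, hf, rfl⟩ := hg1
      refine ⟨f, ⟨hf, ?_⟩, rfl⟩
      rw [SetLike.mem_coe, LinearMap.mem_ker] at hg2 ⊢
      have hf0 : ∀ σ, ¬ σ ⊆ Y → f σ = 0 := fun σ hσ => ych_zero hf hσ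
      rw [← tr_tdl hφ hν hf0] at hg2
      refine tr_inj hφ (fun σ hσ => ?_) hg2
      funext ω
      change ∑ v ∈ σᶜ, (Pool.Agent.H4.Singer.sg ν v σ : K) • f (insert v σ) ω = 0
      refine Finset.sum_eq_zero fun v _ => ?_
      rw [hf0 _ fun hc => hσ ((Finset.subset_insert v σ).trans hc), Pi.zero_apply, smul_zero]
  have hB' : (YB K G Y B s ν i).map (tr K Y φ Ω) = YB K H (Y.image φ) B' s' ν' i := by
    unfold YB
    rw [← tr_map_ych hφ hadj hB hs (i + 1)]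
    apply le_antisymm
    · rintro _ ⟨_, ⟨f, hf, rfl⟩, rfl⟩
      exact ⟨tr K Y φ Ω f, Submodule.mem_map_of_mem hf,
        (tr_tdl hφ hν (fun σ hσ => ych_zero hf hσ)).symm⟩
    · rintro _ ⟨_, ⟨f, hf, rfl⟩, rfl⟩
      exact ⟨tdl K ν f, Submodule.mem_map_of_mem hf, tr_tdl hφ hν (fun σ hσ => ych_zero hf hσ)⟩
  unfold bY
  rw [← hZ, ← hB', finrank_tr hφ, finrank_tr hφ]
  · rintro _ ⟨f, hf, rfl⟩ σ hσ
    funext ω
    change ∑ v ∈ σᶜ, (Pool.Agent.H4.Singer.sg ν v σ : K) • f (insert v σ) ω = 0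
    refine Finset.sum_eq_zero fun v _ => ?_
    rw [ych_zero hf fun hc => hσ ((Finset.subset_insert v σ).trans hc), Pi.zero_apply, smul_zero]
  · rintro f hf σ hσ
    exact ych_zero hf.1 hσ

end Pool.Agent.H4.Fold3
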