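import Pool.Agent.H4.Fold3.IntLoc
import Pool.Agent.H4.Fold3.EmbedB
import Pool.Agent.H4.Fold3.RVan
import Pool.Agent.H85.Fold2.Embed

/-!
# Project FOLD, third stage: the local step for zero growth
-/

set_option autoImplicit false

open Finset

namespace Pool.Agent.H4.Fold3

open Pool.Agent.H85.Fold Pool.Agent.H85.Fold2

open Classical in
/-- the representation pulled back to `G` -/
private noncomputable def pullMod {V W : Type} (G : SimpleGraph V) (H : SimpleGraph W)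
    (Y : Finset V) (φ : V → W) (hadj : ∀ u ∈ Y, ∀ v ∈ Y, G.Adj u v ↔ H.Adj (φ u) (φ v))
    (ρ : IMod H) : IMod G where
  D := ρ.D
  fin := ρ.fin
  dec := ρ.dec
  A v := if v ∈ Y then ρ.A (φ v) else 1
  sq v := by
    by_cases hv : v ∈ Y
    · simp only [if_pos hv]
      exact ρ.sq (φ v)
    · simp only [if_neg hv, mul_one]
  comm u v huv := by
    by_cases hu : u ∈ Y
    · by_cases hv : v ∈ Y
      · simp only [if_pos hu, if_pos hv]
        exact ρ.comm (φ u) (φ v) ((hadj u hu v hv).1 huv)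
      · simp only [if_neg hv, mul_one, one_mul]
    · simp only [if_neg hu, mul_one, one_mul]

open Classical in
/-- the action pushed to the larger graph -/
private noncomputable def pushAct {V W Ω : Type} (Y : Finset V) (φ : V → W) (s : V → Ω → Ω)
    (w : W) : Ω → Ω :=
  if h : ∃ v ∈ Y, φ v = w then s h.choose else id

private theorem pushAct_eq {V W Ω : Type} (Y : Finset V) (φ : V → W)
    (hφ : ∀ u ∈ Y, ∀ v ∈ Y, φ u = φ v → u = v) (s : V → Ω → Ω) (v : V) (hv : v ∈ Y) :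
    pushAct Y φ s (φ v) = s v := by
  have h : ∃ v' ∈ Y, φ v' = φ v := ⟨v, hv, rfl⟩
  unfold pushAct
  rw [dif_pos h]
  have h1 := h.choose_spec
  rw [hφ _ h1.1 v hv h1.2]

/-- **Zero growth, local step.** -/
theorem gvan_loc {V : Type} [DecidableEq V] [Fintype V] (ν : V → ℕ)
    (hν : Function.Injective ν) (G : SimpleGraph V) (k : ℕ) (Y : Finset V) {W : Type}
    [DecidableEq W] [Fintype W] (H : SimpleGraph W) (hH : IsHomologySphere H (2 * k + 1))
    (φ : V → W) (hφ : ∀ u ∈ Y, ∀ v ∈ Y, φ u = φ v → u = v)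
    (hadj : ∀ u ∈ Y, ∀ v ∈ Y, G.Adj u v ↔ H.Adj (φ u) (φ v)) (u : V) (hu : u ∈ Y) {m : ℕ}
    (p : W → Fin (2 * k) → ℝ) (a : W → Fin m → ℝ)
    (hf : IsFoldL H (nbr H (φ u) univ) p a) (i : ℕ) (hi : k < i)
    (hg : GVan ν G (Y.erase u) i) : GVan ν G Y i := by
  obtain ⟨ν', hν', hνν⟩ := exists_nu Y φ hφ ν hν
  obtain ⟨ρ, hne, hle⟩ := exists_imod_loc H k hH (φ u) p a hf ν' hν'
  have : Nonempty (pullMod G H Y φ hadj ρ).D := hne
  refine gvan_of_bY_le ν hν G Y (Y.erase u) i (pullMod G H Y φ hadj ρ) ?_ hg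
  intro Ω _ s hs
  have hs' : ∀ v ∈ Y, pushAct Y φ s (φ v) = s v := fun v hv => pushAct_eq Y φ hφ s v hv
  have hB : ∀ v ∈ Y, mc ℝ (pullMod G H Y φ hadj ρ).A v = mc ℝ ρ.A (φ v) := by
    intro v hv
    show ((pullMod G H Y φ hadj ρ).A v).map _ = (ρ.A (φ v)).map _
    have : (pullMod G H Y φ hadj ρ).A v = ρ.A (φ v) := by
      unfold pullMod
      exact if_pos hv
    rw [this]
    rfl
  have e1 : bY ℝ G Y (mc ℝ (pullMod G H Y φ hadj ρ).A) s ν i =
      bY ℝ H (Y.image φ) (mc ℝ ρ.A) (pushAct Y φ s) ν' i :=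
    bY_embed G H Y φ hφ hadj ν ν' hνν ℝ (mc ℝ (pullMod G H Y φ hadj ρ).A) (mc ℝ ρ.A) hB i Ω s
      (pushAct Y φ s) hs'
  have hsub : ∀ v ∈ Y.erase u, v ∈ Y := fun v hv => Finset.mem_of_mem_erase hv
  have e2 : bY ℝ G (Y.erase u) (mc ℝ (pullMod G H Y φ hadj ρ).A) s ν i =
      bY ℝ H ((Y.erase u).image φ) (mc ℝ ρ.A) (pushAct Y φ s) ν' i :=
    bY_embed G H (Y.erase u) φ (fun x hx y hy => hφ x (hsub x hx) y (hsub y hy))
      (fun x hx y hy => hadj x (hsub x hx) y (hsub y hy)) ν ν'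
      (fun x hx y hy => hνν x (hsub x hx) y (hsub y hy)) ℝ
      (mc ℝ (pullMod G H Y φ hadj ρ).A) (mc ℝ ρ.A) (fun v hv => hB v (hsub v hv)) i Ω s
      (pushAct Y φ s) (fun v hv => hs' v (hsub v hv))
  have e3 : (Y.erase u).image φ = (Y.image φ).erase (φ u) := by
    ext w
    simp only [Finset.mem_image, Finset.mem_erase]
    constructor
    · rintro ⟨v, ⟨hvu, hv⟩, rfl⟩
      exact ⟨fun h => hvu (hφ v hv u hu h), v, hv, rfl⟩
    · rintro ⟨hw, v, hv, rfl⟩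
      exact ⟨v, ⟨fun h => hw (by rw [h]), hv⟩, rfl⟩
  rw [e1, e2, e3]
  refine hle (Y.image φ) (Finset.mem_image_of_mem φ hu) i hi Ω (pushAct Y φ s) ?_
  constructor
  · intro w hw ω
    obtain ⟨v, hv, rfl⟩ := Finset.mem_image.1 hw
    rw [hs' v hv]
    exact hs.inv v (Finset.mem_univ v) ω
  · intro w hw w' hw' hww ω
    obtain ⟨v, hv, rfl⟩ := Finset.mem_image.1 hw
    obtain ⟨v', hv', rfl⟩ := Finset.mem_image.1 hw'
    rw [hs' v hv, hs' v' hv']
    exact hs.comm v (Finset.mem_univ v) v' (Finset.mem_univ v') ((hadj v hv v' hv').2 hww) ω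

end Pool.Agent.H4.Fold3
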