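import Pool.Agent.H4.Fold3.LocDefs
import Pool.Agent.H85.Fold2.ToAlg
import Pool.Agent.H85.Fold2.NumInt

/-!
# Project FOLD, third stage: algebraic folding vectors
-/

set_option autoImplicit false

open Finset

namespace Pool.Agent.H4.Fold3

open Pool.Agent.H85.Fold Pool.Agent.H85.Fold2

/-- real folding vectors give real algebraic ones -/
theorem exists_alg_foldL {V : Type} [Finite V] (G : SimpleGraph V) (L : Finset V) {n m : ℕ}
    (p : V → Fin n → ℝ) (a : V → Fin m → ℝ) (hf : IsFoldL G L p a) :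
    ∃ (p' : V → Fin n → ℝ) (a' : V → Fin m → ℝ), IsFoldL G L p' a' ∧
      (∀ v i, IsAlgebraic ℚ (p' v i)) ∧ ∀ v j, IsAlgebraic ℚ (a' v j) := by
  classical
  have : Fintype V := Fintype.ofFinite V
  -- the polynomials
  set Q : V → V → MvPolynomial ((V × Fin n) ⊕ (V × Fin m)) ℚ := fun u v =>
    (∑ i, MvPolynomial.X (Sum.inl (u, i)) * MvPolynomial.X (Sum.inl (v, i))) -
      ∑ j, MvPolynomial.X (Sum.inr (u, j)) * MvPolynomial.X (Sum.inr (v, j)) with hQ
  have hQe : ∀ (z : (V × Fin n) ⊕ (V × Fin m) → ℝ) (u v : V), MvPolynomial.aeval z (Q u v) =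
      (fun i => z (Sum.inl (u, i))) ⬝ᵥ (fun i => z (Sum.inl (v, i))) -
      (fun j => z (Sum.inr (u, j))) ⬝ᵥ (fun j => z (Sum.inr (v, j))) := by
    intro z u v
    simp only [hQ, map_sub, map_sum, map_mul, MvPolynomial.aeval_X, dotProduct]
  obtain ⟨y, hyalg, hyF, hyP⟩ := real_to_alg
    ((L.image fun v => Q v v - 1) ∪
      ((Finset.univ.filter fun q : V × V => q.1 ∈ L ∧ q.2 ∈ L ∧ G.Adj q.1 q.2).image
        fun q => Q q.1 q.2))
    ((Finset.univ.filter fun q : V × V => q.1 ∈ L ∧ q.2 ∈ L ∧ q.1 ≠ q.2 ∧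
      ¬ G.Adj q.1 q.2).image fun q => -Q q.1 q.2)
    (Sum.elim (fun q => p q.1 q.2) (fun q => a q.1 q.2))
    (by
      intro f hfm
      rcases Finset.mem_union.mp hfm with hfm | hfm
      · obtain ⟨v, hv, rfl⟩ := Finset.mem_image.mp hfm
        have h := hf.one v hv
        rw [map_sub, hQe, map_one]
        simp only [Sum.elim_inl, Sum.elim_inr]
        change p v ⬝ᵥ p v - a v ⬝ᵥ a v - 1 = 0
        rw [h]
        ring
      · obtain ⟨q, hq, rfl⟩ := Finset.mem_image.mp hfm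
        obtain ⟨h1, h2, h3⟩ := (Finset.mem_filter.mp hq).2
        have h := hf.zero q.1 h1 q.2 h2 h3
        rw [hQe]
        exact sub_eq_zero.mpr h)
    (by
      intro f hfm
      obtain ⟨q, hq, rfl⟩ := Finset.mem_image.mp hfm
      obtain ⟨h1, h2, h3, h4⟩ := (Finset.mem_filter.mp hq).2
      have h := hf.neg q.1 h1 q.2 h2 h3 h4
      rw [map_neg, hQe, neg_sub]
      exact sub_pos.mpr h)
  refine ⟨fun v i => y (Sum.inl (v, i)), fun v j => y (Sum.inr (v, j)), ?_,
    fun v i => hyalg _, fun v j => hyalg _⟩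
  constructor
  · intro v hv
    have h := hyF (Q v v - 1) (Finset.mem_union_left _ (Finset.mem_image.mpr ⟨v, hv, rfl⟩))
    rw [map_sub, hQe, map_one] at h
    linarith
  · intro u hu v hv huv
    have h := hyF (Q u v) (Finset.mem_union_right _ (Finset.mem_image.mpr
      ⟨(u, v), Finset.mem_filter.mpr ⟨Finset.mem_univ _, hu, hv, huv⟩, rfl⟩))
    rw [hQe] at h
    exact sub_eq_zero.mp h
  · intro u hu v hv h1 h2
    have h := hyP (-Q u v) (Finset.mem_image.mpr
      ⟨(u, v), Finset.mem_filter.mpr ⟨Finset.mem_univ _, hu, hv, h1, h2⟩, rfl⟩)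
    rw [map_neg, hQe, neg_sub] at h
    exact sub_pos.mp h

/-- large multiples, and the square root, in the ring of integers of a number field -/
theorem exists_numberField {ι : Type} [Finite ι] (x : ι → ℝ) (hx : ∀ i, IsAlgebraic ℚ (x i))
    (t₀ : ℝ) :
    ∃ t μ : ℝ, t₀ ≤ t ∧ 0 ≤ μ ∧ t * t - μ * μ = 1 ∧
      ∃ (K : Type) (_ : Field K) (_ : NumberField K) (τ : K →+* ℝ)
        (y : ι → NumberField.RingOfIntegers K) (w : NumberField.RingOfIntegers K),
        (∀ i, τ (y i) = t * x i) ∧ τ w = μ := by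
  classical
  obtain ⟨N, hN, hNi⟩ := exists_int_mul_integral x hx
  obtain ⟨j, hj⟩ := exists_nat_ge (max t₀ 1)
  have hj1 : (1 : ℝ) ≤ j := le_trans (le_max_right _ _) hj
  have hN1 : (1 : ℝ) ≤ (N : ℝ) := by exact_mod_cast hN
  set t : ℝ := (j : ℝ) * (N : ℝ) with ht
  have htj : (j : ℝ) ≤ t := by
    rw [ht]
    nlinarith
  have ht1 : 1 ≤ t := le_trans hj1 htj
  have ht0 : t₀ ≤ t := le_trans (le_trans (le_max_left _ _) hj) htj
  have hnn : 0 ≤ t * t - 1 := by nlinarith
  set μ : ℝ := Real.sqrt (t * t - 1) with hμ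
  have hμμ : μ * μ = t * t - 1 := Real.mul_self_sqrt hnn
  have hti : IsIntegral ℤ t := by
    rw [ht]
    have h1 : IsIntegral ℤ ((j : ℤ) : ℝ) := isIntegral_algebraMap (R := ℤ) (A := ℝ) (x := (j : ℤ))
    have h2 : IsIntegral ℤ ((N : ℤ) : ℝ) := isIntegral_algebraMap (R := ℤ) (A := ℝ) (x := N)
    have h1' : IsIntegral ℤ ((j : ℕ) : ℝ) := by
      have : (((j : ℤ) : ℝ)) = ((j : ℕ) : ℝ) := by push_cast; rfl
      rwa [this] at h1
    exact h1'.mul h2
  have hμi : IsIntegral ℤ μ := by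
    have h3 : IsIntegral ℤ (μ ^ 2) := by
      rw [pow_two, hμμ]
      exact (hti.mul hti).sub isIntegral_one
    exact h3.of_pow (by norm_num)
  have hfam : ∀ o : Option ι, IsIntegral ℤ (Option.elim o μ fun i => t * x i) := by
    intro o
    cases o with
    | none => exact hμi
    | some i =>
      change IsIntegral ℤ (t * x i)
      have h1 : t * x i = (j : ℝ) * ((N : ℝ) * x i) := by
        rw [ht]
        ring
      rw [h1]
      have h2 : IsIntegral ℤ ((j : ℕ) : ℝ) := by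
        have h3 : IsIntegral ℤ ((j : ℤ) : ℝ) :=
          isIntegral_algebraMap (R := ℤ) (A := ℝ) (x := (j : ℤ))
        have : (((j : ℤ) : ℝ)) = ((j : ℕ) : ℝ) := by push_cast; rfl
        rwa [this] at h3
      exact h2.mul (hNi i)
  obtain ⟨K, iK, iN, τ, w, hw⟩ := exists_numberField_int
    (fun o : Option ι => Option.elim o μ fun i => t * x i) hfam
  refine ⟨t, μ, ht0, Real.sqrt_nonneg _, by rw [hμμ]; ring, K, iK, iN, τ,
    fun i => w (some i), w none, fun i => hw (some i), hw none⟩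

end Pool.Agent.H4.Fold3
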