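import Pool.Agent.H4.Fold3.Deform2

/-!
# Project FOLD, third stage: exactness of twisted complexes
-/

set_option autoImplicit false

open Finset

namespace Pool.Agent.H4.Fold3

open Pool.Agent.H85.Fold Pool.Agent.H85.Fold2

section General

variable {V : Type} [DecidableEq V] [Fintype V] {S : Type} [AddCommGroup S] [Module ℝ S]
  {e : V → S →ₗ[ℝ] S} {Q : Finset V → Prop} {ν : V → ℕ}

private theorem exK_bdK_apply (c : Finset V → S) (ρ : Finset V) :
    (Q ρ → bdK ν Q c ρ = bd ν c ρ) ∧ (¬ Q ρ → bdK ν Q c ρ = 0) := by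
  classical
  constructor
  · intro h
    simp only [bdK, LinearMap.coe_mk, AddHom.coe_mk]
    rw [if_pos h]
  · intro h
    simp only [bdK, LinearMap.coe_mk, AddHom.coe_mk]
    rw [if_neg h]

private theorem exK_bd_apply (c : Finset V → S) (ρ : Finset V) :
    bd ν c ρ = ∑ v ∈ ρᶜ, sgn ν v ρ • c (insert v ρ) := rfl

private theorem exK_bdK_bdK (hν : Function.Injective ν)
    (hconv : ∀ ρ τ σ, ρ ⊆ τ → τ ⊆ σ → Q ρ → Q σ → Q τ) (c : Finset V → S)
    (hc : ∀ σ, c σ ≠ 0 → Q σ) : bdK ν Q (bdK ν Q c) = 0 := by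
  classical
  funext ρ
  by_cases hρ : Q ρ
  · rw [(exK_bdK_apply _ ρ).1 hρ, exK_bd_apply]
    have h1 : ∀ v ∈ ρᶜ, sgn ν v ρ • bdK ν Q c (insert v ρ) =
        sgn ν v ρ • bd ν c (insert v ρ) := by
      intro v _
      by_cases hv : Q (insert v ρ)
      · rw [(exK_bdK_apply _ _).1 hv]
      · rw [(exK_bdK_apply _ _).2 hv, exK_bd_apply, Finset.sum_eq_zero]
        intro w _
        have h2 : c (insert w (insert v ρ)) = 0 := by
          by_contra h3
          exact hv (hconv ρ _ _ (Finset.subset_insert _ _) (Finset.subset_insert _ _) hρ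
            (hc _ h3))
        rw [h2, smul_zero]
    rw [Finset.sum_congr rfl h1, ← exK_bd_apply, bd_bd ν hν c]
  · rw [(exK_bdK_apply _ ρ).2 hρ]
    rfl

private theorem exK_isFK_bdK {i : ℕ} {y : Finset V → S} (hy : IsFK e Q (i + 1) y) :
    IsFK e Q i (bdK ν Q y) := by
  classical
  refine ⟨fun σ v hv => ?_, fun σ hσ => ?_⟩
  · by_cases h : Q σ
    · rw [(exK_bdK_apply _ σ).1 h, exK_bd_apply, map_sum]
      apply Finset.sum_eq_zero
      intro w _
      rw [map_smul, hy.ker _ v (Finset.mem_insert_of_mem hv), smul_zero]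
    · rw [(exK_bdK_apply _ σ).2 h, map_zero]
  · have h : Q σ := by
      by_contra h
      exact hσ ((exK_bdK_apply _ σ).2 h)
    refine ⟨h, ?_⟩
    rw [(exK_bdK_apply _ σ).1 h, exK_bd_apply] at hσ
    obtain ⟨w, hw, hw'⟩ := Finset.exists_ne_zero_of_sum_ne_zero hσ
    have hne : y (insert w σ) ≠ 0 := by
      intro h0
      exact hw' (by rw [h0, smul_zero])
    have h2 := (hy.supp _ hne).2
    rw [Finset.card_insert_of_notMem (Finset.mem_compl.mp hw)] at h2
    omega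

/-- the chains as a submodule -/
private def exKSub (e : V → S →ₗ[ℝ] S) (Q : Finset V → Prop) (i : ℕ) :
    Submodule ℝ (Finset V → S) where
  carrier := {c | IsFK e Q i c}
  zero_mem' := by
    refine ⟨fun σ v _ => ?_, fun σ h => absurd rfl h⟩
    show e v 0 = 0
    rw [map_zero]
  add_mem' := by
    intro a b ha hb
    refine ⟨fun σ v hv => ?_, fun σ h => ?_⟩
    · show e v (a σ + b σ) = 0
      rw [map_add, ha.ker σ v hv, hb.ker σ v hv, add_zero]
    · by_cases h1 : a σ = 0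
      · refine hb.supp σ fun h' => h ?_
        show a σ + b σ = 0
        rw [h1, h', add_zero]
      · exact ha.supp σ h1
  smul_mem' := by
    intro r a ha
    refine ⟨fun σ v hv => ?_, fun σ h => ?_⟩
    · show e v (r • a σ) = 0
      rw [map_smul, ha.ker σ v hv, smul_zero]
    · refine ha.supp σ fun h' => h ?_
      show r • a σ = 0
      rw [h', smul_zero]

private theorem exK_factor {K X Y : Type} [AddCommGroup K] [Module ℝ K] [AddCommGroup X]
    [Module ℝ X] [AddCommGroup Y] [Module ℝ Y] (f : K →ₗ[ℝ] Y) (g : K →ₗ[ℝ] X)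
    (h : ∀ x, f x = 0 → g x = 0) : ∃ Φ : Y →ₗ[ℝ] X, ∀ x, Φ (f x) = g x := by
  obtain ⟨r, hr⟩ := f.rangeRestrict.exists_rightInverse_of_surjective
    (LinearMap.range_eq_top.2 f.surjective_rangeRestrict)
  obtain ⟨Φ, hΦ⟩ := (g.comp r).exists_extend
  refine ⟨Φ, fun x => ?_⟩
  have h1 : Φ (f x) = g (r (f.rangeRestrict x)) := by
    have := congrArg (fun k => k (f.rangeRestrict x)) hΦ
    simpa using this
  have h2 : f (r (f.rangeRestrict x)) = f x := by
    have := congrArg (fun k => k (f.rangeRestrict x)) hr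
    have := congrArg Subtype.val this
    simpa using this
  have h3 : g (r (f.rangeRestrict x) - x) = 0 := h _ (by rw [map_sub, h2, sub_self])
  rw [h1]
  rw [map_sub, sub_eq_zero] at h3
  exact h3

private theorem exK_homotopy (ν : V → ℕ) (e : V → S →ₗ[ℝ] S) (Q : Finset V → Prop) (i : ℕ)
    (hex : ∀ x : Finset V → S, IsFK e Q i x → bdK ν Q x = 0 →
      ∃ y, IsFK e Q (i + 1) y ∧ bdK ν Q y = x) :
    ∃ (H : (Finset V → S) →ₗ[ℝ] (Finset V → S))
      (Φ : ((Finset V → V → S) × (Finset V → S)) →ₗ[ℝ] (Finset V → S)),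
      (∀ x, IsFK e Q (i + 1) (H x)) ∧
      ∀ x : Finset V → S, (∀ σ, x σ ≠ 0 → Q σ ∧ σ.card = i) →
        x = bdK ν Q (H x) + Φ (fun σ v => if v ∈ σ then e v (x σ) else 0, bdK ν Q x) := by
  let C : Submodule ℝ (Finset V → S) := exKSub e Q (i + 1)
  let K : Submodule ℝ (Finset V → S) :=
    { carrier := {x | ∀ σ, x σ ≠ 0 → Q σ ∧ σ.card = i}
      add_mem' := by
        intro a b ha hb σ hσ
        by_cases h : a σ = 0
        · refine hb σ fun h' => hσ ?_
          rw [Pi.add_apply, h, h', add_zero]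
        · exact ha σ h
      zero_mem' := by
        intro σ hσ
        exact absurd rfl hσ
      smul_mem' := by
        intro r a ha σ hσ
        refine ha σ fun h' => hσ ?_
        rw [Pi.smul_apply, h', smul_zero] }
  let f : C →ₗ[ℝ] (Finset V → S) := (bdK ν Q).comp C.subtype
  obtain ⟨s, hs⟩ := f.rangeRestrict.exists_rightInverse_of_surjective
    (LinearMap.range_eq_top.2 f.surjective_rangeRestrict)
  obtain ⟨s', hs'⟩ := s.exists_extend
  let H : (Finset V → S) →ₗ[ℝ] (Finset V → S) := C.subtype.comp s'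
  have hH : ∀ x, IsFK e Q (i + 1) (H x) := fun x => (s' x).2
  have hbd : ∀ z, IsFK e Q i z → bdK ν Q z = 0 → bdK ν Q (H z) = z := by
    intro z hz hz0
    obtain ⟨y, hy, hyz⟩ := hex z hz hz0
    have hmem : z ∈ LinearMap.range f := ⟨⟨y, hy⟩, hyz⟩
    have h1 : s' z = s ⟨z, hmem⟩ := by
      have := congrArg (fun k => k ⟨z, hmem⟩) hs'
      simpa using this
    have h2 : f (s ⟨z, hmem⟩) = z := by
      have := congrArg (fun k => k ⟨z, hmem⟩) hs
      have := congrArg Subtype.val this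
      simpa using this
    show f (s' z) = z
    rw [h1, h2]
  let T : (Finset V → S) →ₗ[ℝ] ((Finset V → V → S) × (Finset V → S)) :=
    { toFun := fun x => (fun σ v => if v ∈ σ then e v (x σ) else 0, bdK ν Q x)
      map_add' := by
        intro x y
        refine Prod.ext ?_ ?_
        · funext σ v
          by_cases h : v ∈ σ <;> simp [h]
        · simp
      map_smul' := by
        intro r x
        refine Prod.ext ?_ ?_
        · funext σ v
          by_cases h : v ∈ σ <;> simp [h]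
        · simp }
  obtain ⟨Φ, hΦ⟩ := exK_factor (T.comp K.subtype)
    ((LinearMap.id - (bdK ν Q).comp H).comp K.subtype) (by
      rintro ⟨x, hx⟩ h0
      have h1 : ∀ σ, ∀ v ∈ σ, e v (x σ) = 0 := by
        intro σ v hv
        have := congrFun (congrFun (congrArg Prod.fst h0) σ) v
        have h2 : (if v ∈ σ then e v (x σ) else 0) = 0 := this
        rwa [if_pos hv] at h2
      have h2 : bdK ν Q x = 0 := congrArg Prod.snd h0
      have h3 := hbd x ⟨h1, hx⟩ h2
      show x - bdK ν Q (H x) = 0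
      rw [h3, sub_self])
  refine ⟨H, Φ, hH, fun x hx => ?_⟩
  have h1 : Φ (T x) = x - bdK ν Q (H x) := hΦ ⟨x, hx⟩
  show x = bdK ν Q (H x) + Φ (T x)
  rw [h1]
  abel

private theorem exK_eval {Ω : Type} (f : Finset V → Ω → S) (ρ : Finset V) (ω : Ω) :
    bdK ν Q f ρ ω = bdK ν Q (fun σ => f σ ω) ρ := by
  classical
  by_cases h : Q ρ
  · rw [(exK_bdK_apply f ρ).1 h, (exK_bdK_apply (fun σ => f σ ω) ρ).1 h]
    simp only [bd, LinearMap.coe_mk, AddHom.coe_mk, Finset.sum_apply, Pi.smul_apply]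
  · rw [(exK_bdK_apply f ρ).2 h, (exK_bdK_apply (fun σ => f σ ω) ρ).2 h]
    rfl

/-- exchange of the two variables -/
private def exKT (Ω : Type) : (Finset V → Ω → S) →ₗ[ℝ] (Ω → Finset V → S) where
  toFun f ω σ := f σ ω
  map_add' _ _ := rfl
  map_smul' _ _ := rfl

end General

variable {V : Type} [DecidableEq V] [Fintype V] {S : Type} [NormedAddCommGroup S]
  [NormedSpace ℝ S] [FiniteDimensional ℝ S] {G : SimpleGraph V} {e c : V → S →ₗ[ℝ] S}
  {U : Finset V} {ν : V → ℕ}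

/-- **Exactness of the twisted complexes** of families of cliques, for all small parameters,
uniformly in the finite set. -/
theorem exK (hν : Function.Injective ν) (h : IsLim G e c U) (K : ℝ) (hK : 0 ≤ K)
    (Q : Finset V → Prop) (hQ : ∀ σ, Q σ → σ ⊆ U ∧ Cl G σ)
    (hconv : ∀ ρ τ σ, ρ ⊆ τ → τ ⊆ σ → Q ρ → Q σ → Q τ) (i : ℕ)
    (hex : ∀ x : Finset V → S, IsFK e Q i x → bdK ν Q x = 0 →
      ∃ y, IsFK e Q (i + 1) y ∧ bdK ν Q y = x) :
    ∃ δ₀ : ℝ, 0 < δ₀ ∧ δ₀ ≤ 1 ∧ ∀ δ : ℝ, 0 < δ → δ ≤ δ₀ →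
      ∀ A : V → S →ₗ[ℝ] S, IsApp G e c U K δ A →
        ∀ (Ω : Type) [Fintype Ω] (s : V → Ω → Ω), IsActOn G U s →
          ∀ f : Finset V → Ω → S, IsFK (etw A s) Q i f → bdK ν Q f = 0 →
            ∃ y, IsFK (etw A s) Q (i + 1) y ∧ bdK ν Q y = f := by
  obtain ⟨H, Φ, hH, hHΦ⟩ := exK_homotopy ν e Q i hex
  obtain ⟨CH, hCH0, hCH⟩ := exists_bound H
  obtain ⟨CΦ, hCΦ0, hCΦ⟩ := exists_bound Φ
  obtain ⟨Cb, hCb0, hCb⟩ := exists_bound (bdK ν Q : (Finset V → S) →ₗ[ℝ] (Finset V → S))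
  obtain ⟨C, hC0, hC⟩ := deform2 (e := e) (c := c) (G := G) (U := U) h K hK
  obtain ⟨Ck, hCk0, hCk⟩ := ker_near (e := e) (c := c) (G := G) (U := U) h K hK
  set L : ℝ := CΦ * Ck + Cb * (C * CH) with hL
  have hL0 : 0 ≤ L := by positivity
  have hL1 : 0 < 2 * L + 1 := by linarith
  refine ⟨(2 * L + 1)⁻¹, inv_pos.mpr hL1, inv_le_one_of_one_le₀ (by linarith), ?_⟩
  intro δ hδ0 hδ A hA Ω _ s hs f hf hbd
  have hδ1 : δ ≤ 1 := hδ.trans (inv_le_one_of_one_le₀ (by linarith))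
  have hδL : δ * L ≤ 1 / 2 := by
    have h1 : δ * L ≤ (2 * L + 1)⁻¹ * L := mul_le_mul_of_nonneg_right hδ hL0
    have h2 : (2 * L + 1)⁻¹ * L ≤ 1 / 2 := by
      rw [inv_mul_le_iff₀ hL1]
      linarith
    exact h1.trans h2
  -- the estimate
  have key : ∀ f : Finset V → Ω → S, IsFK (etw A s) Q i f → bdK ν Q f = 0 →
      ∃ z', IsFK (etw A s) Q (i + 1) z' ∧
        n2 (exKT Ω (f - bdK ν Q z')) ≤ n2 (exKT Ω f) / 2 := by
    intro f hf hbd
    set z : Finset V → Ω → S := fun σ ω => H (fun τ => f τ ω) σ with hz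
    have hzsupp : ∀ σ, z σ ≠ 0 → Q σ ∧ σ.card = i + 1 := by
      intro σ hσ
      obtain ⟨ω, hω⟩ := Function.ne_iff.1 hσ
      exact (hH (fun τ => f τ ω)).supp σ hω
    obtain ⟨z', hz0, hz1, hzz⟩ := hC δ hδ0 hδ1 A hA Ω s hs z
      (fun σ hσ => hQ σ (hzsupp σ hσ).1)
      (fun σ v hv ω => (hH (fun τ => f τ ω)).ker σ v hv)
    have hz' : IsFK (etw A s) Q (i + 1) z' :=
      ⟨fun σ v hv => hz1 σ v hv, fun σ hσ => hzsupp σ fun h0 => hσ (hz0 σ h0)⟩
    refine ⟨z', hz', ?_⟩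
    have hzn : n2 (fun ω σ => z σ ω) ≤ CH * n2 (exKT Ω f) :=
      n2_le_mul _ _ CH hCH0 fun ω => hCH (fun τ => f τ ω)
    have hfz : n2 (exKT Ω (f - bdK ν Q z)) ≤ CΦ * (Ck * δ * n2 (exKT Ω f)) := by
      have h1 : n2 (exKT Ω (f - bdK ν Q z)) ≤
          CΦ * n2 (fun ω => (fun σ v => if v ∈ σ then e v (f σ ω) else 0 :
            Finset V → V → S)) := by
        apply n2_le_mul _ _ CΦ hCΦ0
        intro ω
        have h2 : exKT Ω (f - bdK ν Q z) ω =
            Φ (fun σ v => if v ∈ σ then e v (f σ ω) else 0, 0) := by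
          have h3 := hHΦ (fun τ => f τ ω) (fun τ hτ => hf.supp τ fun h0 => hτ (by rw [h0]; rfl))
          have h4 : bdK ν Q (fun τ => f τ ω) = 0 := by
            funext ρ
            rw [← exK_eval, hbd]
            rfl
          rw [h4] at h3
          funext σ
          have h5 := congrFun h3 σ
          simp only [Pi.add_apply] at h5
          show f σ ω - bdK ν Q z σ ω = _
          rw [exK_eval, h5]
          simp only [hz]
          abel
        rw [h2]
        refine (hCΦ _).trans ?_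
        apply mul_le_mul_of_nonneg_left _ hCΦ0
        rw [Prod.norm_def]
        apply max_le le_rfl
        rw [norm_zero]
        exact norm_nonneg _
      refine h1.trans (mul_le_mul_of_nonneg_left ?_ hCΦ0)
      exact hCk δ hδ0 hδ1 A hA Ω s hs f (fun σ hσ => (hQ σ (hf.supp σ hσ).1).1)
        (fun σ v hv => hf.ker σ v hv)
    have hbw : ∀ w : Finset V → Ω → S, n2 (exKT Ω (bdK ν Q w)) ≤ Cb * n2 (exKT Ω w) := by
      intro w
      apply n2_le_mul _ _ Cb hCb0
      intro ω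
      have h2 : exKT Ω (bdK ν Q w) ω = bdK ν Q (fun τ => w τ ω) := by
        funext σ
        show bdK ν Q w σ ω = _
        rw [exK_eval]
      rw [h2]
      exact hCb _
    have e1 : exKT Ω (f - bdK ν Q z') =
        exKT Ω (f - bdK ν Q z) - exKT Ω (bdK ν Q (z' - z)) := by
      rw [← map_sub, map_sub (bdK ν Q)]
      congr 1
      abel
    have hn0 : 0 ≤ n2 (exKT Ω f) := n2_nonneg _
    rw [e1]
    calc n2 (exKT Ω (f - bdK ν Q z) - exKT Ω (bdK ν Q (z' - z)))
        ≤ n2 (exKT Ω (f - bdK ν Q z)) + n2 (exKT Ω (bdK ν Q (z' - z))) := n2_sub_le _ _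
      _ ≤ CΦ * (Ck * δ * n2 (exKT Ω f)) + Cb * (C * δ * (CH * n2 (exKT Ω f))) := by
          apply add_le_add hfz
          refine (hbw _).trans (mul_le_mul_of_nonneg_left ?_ hCb0)
          exact hzz.trans (mul_le_mul_of_nonneg_left hzn (by positivity))
      _ = (δ * L) * n2 (exKT Ω f) := by rw [hL]; ring
      _ ≤ 1 / 2 * n2 (exKT Ω f) := mul_le_mul_of_nonneg_right hδL hn0
      _ = n2 (exKT Ω f) / 2 := by ring
  -- the closest boundary
  obtain ⟨b, hb, hbmin⟩ := n2_closest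
    ((((exKSub (etw A s) Q (i + 1)).map (bdK ν Q)).map (exKT Ω)) :
      Submodule ℝ (Ω → Finset V → S)) (exKT Ω f)
  obtain ⟨_, ⟨y0, hy0, rfl⟩, rfl⟩ := hb
  have hy0' : IsFK (etw A s) Q (i + 1) y0 := hy0
  have hf1 : IsFK (etw A s) Q i (f - bdK ν Q y0) :=
    (exKSub (etw A s) Q i).sub_mem (show f ∈ exKSub (etw A s) Q i from hf)
      (show bdK ν Q y0 ∈ exKSub (etw A s) Q i from exK_isFK_bdK hy0')
  have hb1 : bdK ν Q (f - bdK ν Q y0) = 0 := by
    rw [map_sub, hbd, exK_bdK_bdK hν hconv y0 fun σ hσ => (hy0'.supp σ hσ).1, sub_zero]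
  obtain ⟨z', hz', hle⟩ := key _ hf1 hb1
  have hmem : exKT Ω (bdK ν Q (y0 + z')) ∈
      ((((exKSub (etw A s) Q (i + 1)).map (bdK ν Q)).map (exKT Ω)) :
        Submodule ℝ (Ω → Finset V → S)) :=
    ⟨_, ⟨y0 + z', (exKSub (etw A s) Q (i + 1)).add_mem hy0 hz', rfl⟩, rfl⟩
  have h1 := hbmin _ hmem
  have e2 : exKT Ω f - exKT Ω (bdK ν Q (y0 + z')) =
      exKT Ω (f - bdK ν Q y0 - bdK ν Q z') := by
    rw [← map_sub, map_add]
    congr 1
    abel
  rw [e2] at h1
  have e3 : exKT Ω (f - bdK ν Q y0) = exKT Ω f - exKT Ω (bdK ν Q y0) := map_sub _ _ _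
  rw [e3] at hle
  have h3 := h1.trans hle
  have h4 : n2 (exKT Ω f - exKT Ω (bdK ν Q y0)) = 0 := by
    have := n2_nonneg (exKT Ω f - exKT Ω (bdK ν Q y0))
    linarith
  have h5 := n2_eq_zero _ h4
  refine ⟨y0, hy0', ?_⟩
  rw [sub_eq_zero] at h5
  funext σ ω
  exact (congrFun (congrFun h5 ω) σ).symm

end Pool.Agent.H4.Fold3
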