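import Pool.Agent.H4.Fold3.Defs
import Pool.Agent.H85.Fold.Res

/-!
# Project FOLD, third stage: resolutions by a formula which does not depend on the coefficients
-/

set_option autoImplicit false

open Finset

namespace Pool.Agent.H4.Fold3

open Pool.Agent.H85.Fold Pool.Agent.H85.Fold2

section FVersion

set_option linter.unusedSectionVars false

variable {V : Type} [DecidableEq V] [Fintype V] {S : Type} [AddCommGroup S] [Module ℝ S]
  {ν : V → ℕ} {G : SimpleGraph V} {n : ℕ} {U : Finset V} {o : Finset V → ℝ}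

private theorem th_cl_sub {σ τ : Finset V} (h : Cl G τ) (hs : σ ⊆ τ) : Cl G σ :=
  fun u hu v hv huv => h u (hs hu) v (hs hv) huv

private theorem th_d2_pos {x : Finset V → Finset V → S} {ρ σ : Finset V} (h : σ ⊆ U)
    (hc : Cl G σ) : d2 ν G U x ρ σ = ∑ v ∈ σ \ ρ, sgn ν v σ • x ρ (σ.erase v) := by
  classical
  show (if σ ⊆ U ∧ Cl G σ then ∑ v ∈ σ \ ρ, sgn ν v σ • x ρ (σ.erase v) else 0) = _
  rw [if_pos ⟨h, hc⟩]

private theorem th_d2_zero {x : Finset V → Finset V → S} {ρ σ : Finset V}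
    (h : σ ⊆ U → Cl G σ → ∀ v ∈ σ \ ρ, x ρ (σ.erase v) = 0) : d2 ν G U x ρ σ = 0 := by
  classical
  show (if σ ⊆ U ∧ Cl G σ then ∑ v ∈ σ \ ρ, sgn ν v σ • x ρ (σ.erase v) else 0) = _
  split_ifs with h1
  · refine Finset.sum_eq_zero fun v hv => ?_
    rw [h h1.1 h1.2 v hv, smul_zero]
  · rfl

private theorem th_d1_zero {x : Finset V → Finset V → S} {ρ σ : Finset V}
    (h : ∀ v ∈ σ \ ρ, x (insert v ρ) σ = 0) : d1 ν x ρ σ = 0 := by
  show ∑ v ∈ σ \ ρ, sgn ν v ρ • x (insert v ρ) σ = 0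
  refine Finset.sum_eq_zero fun v hv => ?_
  rw [h v hv, smul_zero]

private theorem th_mem_fac {σ : Finset V} {m : ℕ} :
    σ ∈ fac G m U ↔ σ ⊆ U ∧ Cl G σ ∧ σ.card = m := by
  classical
  simp [fac]

/-- double chains of type `i` with values in a family of submodules -/
private structure IsDF (F : Finset V → Submodule ℝ S) (G : SimpleGraph V) (n : ℕ) (U : Finset V)
    (i : ℕ) (x : Finset V → Finset V → S) : Prop where
  mem : ∀ ρ σ, x ρ σ ∈ F ρ
  supp : ∀ ρ σ, x ρ σ ≠ 0 → ρ ⊆ σ ∧ σ ⊆ U ∧ Cl G σ ∧ σ.card + i = n + ρ.card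

variable {F : Finset V → Submodule ℝ S}

private theorem IsDF.zero {i : ℕ} : IsDF F G n U i 0 :=
  ⟨fun ρ _ => (F ρ).zero_mem, fun _ _ h => absurd rfl h⟩

private theorem IsDF.add {i : ℕ} {x y : Finset V → Finset V → S} (hx : IsDF F G n U i x)
    (hy : IsDF F G n U i y) : IsDF F G n U i (x + y) := by
  refine ⟨fun ρ σ => (F ρ).add_mem (hx.mem ρ σ) (hy.mem ρ σ), fun ρ σ h => ?_⟩
  by_cases h1 : x ρ σ = 0
  · refine hy.supp ρ σ fun h2 => h ?_
    show x ρ σ + y ρ σ = 0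
    rw [h1, h2, add_zero]
  · exact hx.supp ρ σ h1

private theorem isDF_d1 (hF : ∀ ρ τ, ρ ⊆ τ → F τ ≤ F ρ) {i : ℕ} {x : Finset V → Finset V → S}
    (hx : IsDF F G n U (i + 1) x) : IsDF F G n U i (d1 ν x) := by
  refine ⟨fun ρ σ => ?_, fun ρ σ h => ?_⟩
  · show ∑ v ∈ σ \ ρ, sgn ν v ρ • x (insert v ρ) σ ∈ F ρ
    exact (F ρ).sum_mem fun v _ => (F ρ).smul_mem _
      (hF ρ (insert v ρ) (Finset.subset_insert _ _) (hx.mem _ _))
  · obtain ⟨v, hv, hne⟩ : ∃ v ∈ σ \ ρ, x (insert v ρ) σ ≠ 0 := by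
      by_contra hcon
      push Not at hcon
      exact h (th_d1_zero hcon)
    obtain ⟨a1, a2, a3, a4⟩ := hx.supp _ _ hne
    rw [Finset.card_insert_of_notMem (Finset.mem_sdiff.1 hv).2] at a4
    exact ⟨(Finset.subset_insert _ _).trans a1, a2, a3, by omega⟩

/-- the row lemma -/
private theorem th_row (hK : IsSphere ν G n U o) {ρ : Finset V} (hρ : ρ ⊆ U) (hcl : Cl G ρ)
    {j : ℕ} (hj : j ≤ n) (ψ : Finset V → S) (hψ : ∀ σ, ψ σ ∈ F ρ)
    (h1 : j < n → ∀ σ ⊆ U, Cl G σ → ρ ⊆ σ → σ.card = j + 1 →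
      ∑ v ∈ σ \ ρ, sgn ν v σ • ψ (σ.erase v) = 0)
    (h2 : j = n → ∑ σ ∈ fac G n U, (if ρ ⊆ σ then o σ • ψ σ else 0) = 0) :
    ∃ χ : Finset V → S, (∀ σ, χ σ ∈ F ρ) ∧
      (∀ σ, χ σ ≠ 0 → ρ ⊆ σ ∧ σ ⊆ U ∧ Cl G σ ∧ σ.card + 1 = j) ∧
      ∀ σ ⊆ U, Cl G σ → ρ ⊆ σ → σ.card = j →
        ψ σ = ∑ v ∈ σ \ ρ, sgn ν v σ • χ (σ.erase v) := by
  classical
  obtain ⟨χ, hχ, hχ'⟩ : ∃ χ : Finset V → S, (∀ σ, χ σ ∈ F ρ) ∧
      ∀ σ ⊆ U, Cl G σ → ρ ⊆ σ → σ.card = j →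
        ψ σ = ∑ v ∈ σ \ ρ, sgn ν v σ • χ (σ.erase v) := by
    rcases Nat.lt_or_ge j n with hlt | hge
    · exact hK.exactS (F ρ) hρ hcl hlt ψ hψ (h1 hlt)
    · obtain rfl : j = n := le_antisymm hj hge
      exact hK.topS (F ρ) hρ hcl ψ hψ (h2 rfl)
  refine ⟨fun σ => if ρ ⊆ σ ∧ σ ⊆ U ∧ Cl G σ ∧ σ.card + 1 = j then χ σ else 0, ?_, ?_, ?_⟩
  · intro σ
    dsimp only
    split_ifs
    · exact hχ σ
    · exact (F ρ).zero_mem
  · intro σ hσ
    by_contra hcon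
    exact hσ (if_neg hcon)
  · intro σ hσU hσc hσρ hσj
    rw [hχ' σ hσU hσc hσρ hσj]
    refine Finset.sum_congr rfl fun v hv => ?_
    rw [Finset.mem_sdiff] at hv
    have h3 : ρ ⊆ σ.erase v := fun u hu =>
      Finset.mem_erase.2 ⟨fun h => hv.2 (h ▸ hu), hσρ hu⟩
    have h4 : (σ.erase v).card + 1 = j := by
      rw [Finset.card_erase_add_one hv.1, hσj]
    have h5 : ρ ⊆ σ.erase v ∧ σ.erase v ⊆ U ∧ Cl G (σ.erase v) ∧ (σ.erase v).card + 1 = j :=
      ⟨h3, (Finset.erase_subset _ _).trans hσU, th_cl_sub hσc (Finset.erase_subset _ _), h4⟩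
    show _ = sgn ν v σ • (if ρ ⊆ σ.erase v ∧ σ.erase v ⊆ U ∧ Cl G (σ.erase v) ∧
      (σ.erase v).card + 1 = j then χ (σ.erase v) else 0)
    rw [if_pos h5]

private theorem th_exists_aug (hK : IsSphere ν G n U o) {i : ℕ} {c : Finset V → S}
    (hc : ∀ ρ, c ρ ∈ F ρ) (hcs : ∀ σ, c σ ≠ 0 → σ ⊆ U ∧ Cl G σ ∧ σ.card = i) :
    ∃ y, IsDF F G n U i y ∧ (∀ ρ σ, y ρ σ ≠ 0 → ρ.card = i) ∧ aug G n U o y = c := by
  classical
  have hex : ∀ ρ : Finset V, ∃ τ : Finset V, c ρ ≠ 0 →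
      τ ⊆ U ∧ Cl G τ ∧ τ.card = n ∧ ρ ⊆ τ := by
    intro ρ
    by_cases h : c ρ = 0
    · exact ⟨∅, fun h' => absurd h h'⟩
    · obtain ⟨h1, h2, -⟩ := hcs ρ h
      obtain ⟨τ, h3, h4⟩ := hK.pure ρ h1 h2
      exact ⟨τ, fun _ => ⟨h3, h4⟩⟩
  choose τ hτ using hex
  refine ⟨fun ρ σ => if σ = τ ρ then (o (τ ρ))⁻¹ • c ρ else 0, ⟨?_, ?_⟩, ?_, ?_⟩
  · intro ρ σ
    split_ifs
    · exact (F ρ).smul_mem _ (hc ρ)
    · exact (F ρ).zero_mem
  · intro ρ σ h
    split_ifs at h with h1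
    · have h2 : c ρ ≠ 0 := fun h3 => h (by rw [h3, smul_zero])
      obtain ⟨a1, a2, a3, a4⟩ := hτ ρ h2
      rw [h1]
      refine ⟨a4, a1, a2, ?_⟩
      rw [a3, (hcs ρ h2).2.2]
    · exact absurd rfl h
  · intro ρ σ h
    have h2 : c ρ ≠ 0 := by
      intro h3
      apply h
      show (if σ = τ ρ then (o (τ ρ))⁻¹ • c ρ else 0) = 0
      rw [h3, smul_zero, ite_self]
    exact (hcs ρ h2).2.2
  · funext ρ
    show ∑ σ ∈ fac G n U, o σ • (if σ = τ ρ then (o (τ ρ))⁻¹ • c ρ else 0) = c ρ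
    by_cases h : c ρ = 0
    · rw [h]
      refine Finset.sum_eq_zero fun σ _ => ?_
      rw [smul_zero, ite_self, smul_zero]
    · obtain ⟨a1, a2, a3, a4⟩ := hτ ρ h
      rw [Finset.sum_eq_single (τ ρ)]
      · rw [if_pos rfl, smul_smul, mul_inv_cancel₀ (hK.ne _ a1 a2 a3), one_smul]
      · intro σ _ hσ
        rw [if_neg hσ, smul_zero]
      · intro hn
        exact absurd (th_mem_fac.2 ⟨a1, a2, a3⟩) hn

/-- `d2` of a double chain composed of rows -/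
private theorem th_rows {l j i : ℕ} (hli : j + i = n + l)
    (ψ : Finset V → Finset V → S)
    (hrow : ∀ ρ ⊆ U, Cl G ρ → ρ.card = l → ∃ χ : Finset V → S, (∀ σ, χ σ ∈ F ρ) ∧
      (∀ σ, χ σ ≠ 0 → ρ ⊆ σ ∧ σ ⊆ U ∧ Cl G σ ∧ σ.card + 1 = j) ∧
      ∀ σ ⊆ U, Cl G σ → ρ ⊆ σ → σ.card = j →
        ψ ρ σ = ∑ v ∈ σ \ ρ, sgn ν v σ • χ (σ.erase v))
    (hψ : ∀ ρ σ, ψ ρ σ ≠ 0 → ρ ⊆ σ ∧ σ ⊆ U ∧ Cl G σ ∧ σ.card + i = n + ρ.card) :
    ∃ y, IsDF F G n U (i + 1) y ∧ (∀ ρ σ, y ρ σ ≠ 0 → ρ.card = l) ∧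
      ∀ ρ σ, ρ.card = l → ψ ρ σ = d2 ν G U y ρ σ := by
  classical
  have hrow' : ∀ ρ : Finset V, ∃ χ : Finset V → S, (∀ σ, χ σ ∈ F ρ) ∧
      (∀ σ, χ σ ≠ 0 → ρ.card = l ∧ ρ ⊆ σ ∧ σ ⊆ U ∧ Cl G σ ∧ σ.card + 1 = j) ∧
      (ρ.card = l → ∀ σ ⊆ U, Cl G σ → ρ ⊆ σ → σ.card = j →
        ψ ρ σ = ∑ v ∈ σ \ ρ, sgn ν v σ • χ (σ.erase v)) := by
    intro ρ
    by_cases h : ρ ⊆ U ∧ Cl G ρ ∧ ρ.card = l
    · obtain ⟨χ, h1, h2, h3⟩ := hrow ρ h.1 h.2.1 h.2.2
      exact ⟨χ, h1, fun σ hσ => ⟨h.2.2, h2 σ hσ⟩, fun _ => h3⟩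
    · refine ⟨fun _ => 0, fun _ => (F ρ).zero_mem, fun σ hσ => absurd rfl hσ, ?_⟩
      intro hl σ h1 h2 h3 _
      exact absurd ⟨h3.trans h1, th_cl_sub h2 h3, hl⟩ h
  choose χ hχ1 hχ2 hχ3 using hrow'
  refine ⟨χ, ⟨fun ρ σ => hχ1 ρ σ, ?_⟩, fun ρ σ h => (hχ2 ρ σ h).1, ?_⟩
  · intro ρ σ h
    obtain ⟨a1, a2, a3, a4, a5⟩ := hχ2 ρ σ h
    refine ⟨a2, a3, a4, ?_⟩
    omega
  · intro ρ σ hl
    by_cases hgood : ρ ⊆ σ ∧ σ ⊆ U ∧ Cl G σ ∧ σ.card = j
    · obtain ⟨a1, a2, a3, a4⟩ := hgood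
      rw [hχ3 ρ hl σ a2 a3 a1 a4, th_d2_pos a2 a3]
    · have h1 : ψ ρ σ = 0 := by
        by_contra hne
        obtain ⟨a1, a2, a3, a4⟩ := hψ ρ σ hne
        exact hgood ⟨a1, a2, a3, by omega⟩
      rw [h1, eq_comm]
      refine th_d2_zero fun h2 h3 v hv => ?_
      by_contra hne
      obtain ⟨-, a2, -, -, a5⟩ := hχ2 ρ _ hne
      refine hgood ⟨a2.trans (Finset.erase_subset _ _), h2, h3, ?_⟩
      rw [Finset.card_erase_add_one (Finset.mem_sdiff.1 hv).1] at a5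
      exact a5

/-- every cycle has a resolution -/
private theorem th_exists_res (hν : Function.Injective ν) (hK : IsSphere ν G n U o)
    (hF : ∀ ρ τ, ρ ⊆ τ → F τ ≤ F ρ) {i : ℕ}
    {c : Finset V → S} (hc : ∀ ρ, c ρ ∈ F ρ)
    (hcs : ∀ σ, c σ ≠ 0 → σ ⊆ U ∧ Cl G σ ∧ σ.card = i) (hbd : bd ν c = 0) :
    ∃ x, IsDF F G n U i x ∧ d1 ν x = d2 ν G U x ∧ aug G n U o x = c := by
  classical
  rcases Nat.lt_or_ge n i with hni | hin
  · have hc0 : c = 0 := by
      funext σ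
      by_contra hne
      obtain ⟨h1, h2, h3⟩ := hcs σ hne
      have := hK.dim σ h1 h2
      omega
    exact ⟨0, IsDF.zero, by rw [map_zero, map_zero], by rw [map_zero, hc0]⟩
  have key : ∀ k, k ≤ i → ∃ x, IsDF F G n U i x ∧ (∀ ρ σ, x ρ σ ≠ 0 → i ≤ ρ.card + k) ∧
      aug G n U o x = c ∧ ∀ ρ σ, i ≤ ρ.card + k → d1 ν x ρ σ = d2 ν G U x ρ σ := by
    intro k
    induction k with
    | zero =>
      intro _
      obtain ⟨y, h1, h2, h3⟩ := th_exists_aug hK hc hcs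
      refine ⟨y, h1, fun ρ σ h => (h2 ρ σ h).ge, h3, fun ρ σ hρ => ?_⟩
      rw [th_d1_zero, th_d2_zero]
      · intro h4 h5 v hv
        by_contra hne
        obtain ⟨-, -, -, a4⟩ := h1.supp _ _ hne
        have h6 := h2 _ _ hne
        have h7 := hK.dim σ h4 h5
        have h8 := Finset.card_erase_add_one (Finset.mem_sdiff.1 hv).1
        omega
      · intro v hv
        by_contra hne
        have h6 := h2 _ _ hne
        rw [Finset.card_insert_of_notMem (Finset.mem_sdiff.1 hv).2] at h6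
        omega
    | succ k ih =>
      intro hk
      obtain ⟨x, hx1, hx2, hx3, hx4⟩ := ih (by omega)
      obtain ⟨i', rfl⟩ : ∃ i', i = i' + 1 := ⟨i - 1, by omega⟩
      obtain ⟨l, hl⟩ : ∃ l, i' = l + k := ⟨i' - k, by omega⟩
      have hd1 : IsDF F G n U i' (d1 ν x) := isDF_d1 hF hx1
      have hxsub : ∀ ρ σ, x ρ σ ≠ 0 → ρ ⊆ σ := fun ρ σ h => (hx1.supp ρ σ h).1
      -- the rows at level l
      have hj : (n - k) + i' = n + l := by omega
      obtain ⟨y, hy1, hy2, hy3⟩ := th_rows (F := F) (ν := ν) (U := U) (G := G) hj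
        (d1 ν x) (by
          intro ρ hρU hρc hρl
          refine th_row hK hρU hρc (Nat.sub_le _ _) (d1 ν x ρ)
            (fun σ => hd1.mem ρ σ) ?_ ?_
          · intro hlt σ hσU hσc hσρ hσj
            rw [← th_d2_pos hσU hσc, ← d1_d2]
            have h5 : d1 ν (d2 ν G U x) ρ σ = d1 ν (d1 ν x) ρ σ := by
              show ∑ v ∈ σ \ ρ, sgn ν v ρ • (d2 ν G U x) (insert v ρ) σ =
                ∑ v ∈ σ \ ρ, sgn ν v ρ • (d1 ν x) (insert v ρ) σ
              refine Finset.sum_congr rfl fun v hv => ?_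
              rw [hx4]
              rw [Finset.card_insert_of_notMem (Finset.mem_sdiff.1 hv).2]
              omega
            rw [h5, d1_d1 ν hν]
            rfl
          · intro _
            have h5 : aug G n U o (d1 ν x) ρ = 0 := by
              rw [aug_d1 ν G n U o x hxsub, hx3, hbd]
              rfl
            refine Eq.trans ?_ h5
            show _ = ∑ σ ∈ fac G n U, o σ • d1 ν x ρ σ
            refine Finset.sum_congr rfl fun σ _ => ?_
            split_ifs with h6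
            · rfl
            · have : d1 ν x ρ σ = 0 := by
                by_contra hne
                exact h6 (hd1.supp _ _ hne).1
              rw [this, smul_zero])
        hd1.supp
      refine ⟨x + y, hx1.add hy1, ?_, ?_, ?_⟩
      · intro ρ σ h
        by_cases h5 : x ρ σ = 0
        · have h6 : y ρ σ ≠ 0 := by
            intro h7
            apply h
            show x ρ σ + y ρ σ = 0
            rw [h5, h7, add_zero]
          have := hy2 ρ σ h6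
          omega
        · have := hx2 ρ σ h5
          omega
      · rw [map_add, hx3]
        have : aug G n U o y = 0 := by
          funext ρ
          show ∑ σ ∈ fac G n U, o σ • y ρ σ = 0
          refine Finset.sum_eq_zero fun σ hσ => ?_
          have : y ρ σ = 0 := by
            by_contra hne
            obtain ⟨-, -, -, a4⟩ := hy1.supp _ _ hne
            have h6 := hy2 _ _ hne
            have h7 := (th_mem_fac.1 hσ).2.2
            omega
          rw [this, smul_zero]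
        rw [this, add_zero]
      · intro ρ σ hρ
        have hy4 : l ≤ ρ.card → d1 ν y ρ σ = 0 := by
          intro hle
          refine th_d1_zero fun v hv => ?_
          by_contra hne
          have h6 := hy2 _ _ hne
          rw [Finset.card_insert_of_notMem (Finset.mem_sdiff.1 hv).2] at h6
          omega
        rw [map_add, map_add]
        show d1 ν x ρ σ + d1 ν y ρ σ = d2 ν G U x ρ σ + d2 ν G U y ρ σ
        rw [hy4 (by omega), add_zero]
        rcases Nat.lt_or_ge l ρ.card with hlt | hge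
        · rw [hx4 ρ σ (by omega)]
          have : d2 ν G U y ρ σ = 0 := by
            refine th_d2_zero fun _ _ v _ => ?_
            by_contra hne
            have := hy2 _ _ hne
            omega
          rw [this, add_zero]
        · have hρl : ρ.card = l := by omega
          have : d2 ν G U x ρ σ = 0 := by
            refine th_d2_zero fun _ _ v _ => ?_
            by_contra hne
            have := hx2 _ _ hne
            omega
          rw [this, zero_add, hy3 ρ σ hρl]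
  obtain ⟨x, h1, -, h3, h4⟩ := key i le_rfl
  refine ⟨x, h1, ?_, h3⟩
  funext ρ σ
  exact h4 ρ σ (by omega)

/-- the real cycles -/
private def thZ (ν : V → ℕ) (G : SimpleGraph V) (U : Finset V) (i : ℕ) :
    Submodule ℝ (Finset V → ℝ) where
  carrier := {z | (∀ σ, z σ ≠ 0 → σ ⊆ U ∧ Cl G σ ∧ σ.card = i) ∧ bd ν z = 0}
  add_mem' := by
    rintro a b ⟨ha, ha'⟩ ⟨hb, hb'⟩
    refine ⟨fun σ h => ?_, by rw [map_add, ha', hb', add_zero]⟩
    by_cases h1 : a σ = 0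
    · refine hb σ fun h2 => h ?_
      rw [Pi.add_apply, h1, h2, add_zero]
    · exact ha σ h1
  zero_mem' := ⟨fun σ h => absurd rfl h, map_zero _⟩
  smul_mem' := by
    rintro r a ⟨ha, ha'⟩
    refine ⟨fun σ h => ha σ fun h1 => h ?_, by rw [map_smul, ha', smul_zero]⟩
    rw [Pi.smul_apply, h1, smul_zero]

/-- the universal cycle -/
private def thC (ν : V → ℕ) (G : SimpleGraph V) (U : Finset V) (i : ℕ) (ρ : Finset V) :
    Module.Dual ℝ (thZ ν G U i) where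
  toFun z := z.1 ρ
  map_add' _ _ := rfl
  map_smul' _ _ := rfl

/-- the universal family of submodules -/
private def thF (ν : V → ℕ) (G : SimpleGraph V) (U : Finset V) (i : ℕ) (ρ : Finset V) :
    Submodule ℝ (Module.Dual ℝ (thZ ν G U i)) :=
  Submodule.span ℝ {f | ∃ ρ', ρ ⊆ ρ' ∧ f = thC ν G U i ρ'}

private theorem thF_repr {i : ℕ} {ρ : Finset V} {f : Module.Dual ℝ (thZ ν G U i)}
    (hf : f ∈ thF ν G U i ρ) :
    ∃ t : Finset V → ℝ, (∀ ρ', t ρ' ≠ 0 → ρ ⊆ ρ') ∧ f = ∑ ρ', t ρ' • thC ν G U i ρ' := by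
  classical
  unfold thF at hf
  induction hf using Submodule.span_induction with
  | mem x hx =>
    obtain ⟨ρ', h1, rfl⟩ := hx
    refine ⟨fun τ => if τ = ρ' then 1 else 0, ?_, ?_⟩
    · intro τ hτ
      by_cases h : τ = ρ'
      · rw [h]; exact h1
      · exact absurd (if_neg h) hτ
    · rw [Finset.sum_eq_single ρ']
      · show _ = (if ρ' = ρ' then (1 : ℝ) else 0) • thC ν G U i ρ'
        rw [if_pos rfl, one_smul]
      · intro τ _ hτ
        show (if τ = ρ' then (1 : ℝ) else 0) • thC ν G U i τ = 0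
        rw [if_neg hτ, zero_smul]
      · intro h
        exact absurd (Finset.mem_univ _) h
  | zero =>
    exact ⟨0, fun _ h => absurd rfl h, by simp⟩
  | add x y _ _ hx hy =>
    obtain ⟨t, h1, h2⟩ := hx
    obtain ⟨t', h1', h2'⟩ := hy
    refine ⟨t + t', ?_, ?_⟩
    · intro τ hτ
      by_cases h : t τ = 0
      · refine h1' τ fun h3 => hτ ?_
        rw [Pi.add_apply, h, h3, add_zero]
      · exact h1 τ h
    · rw [h2, h2', ← Finset.sum_add_distrib]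
      refine Finset.sum_congr rfl fun τ _ => ?_
      rw [Pi.add_apply, add_smul]
  | smul r x _ hx =>
    obtain ⟨t, h1, h2⟩ := hx
    refine ⟨r • t, ?_, ?_⟩
    · intro τ hτ
      refine h1 τ fun h3 => hτ ?_
      rw [Pi.smul_apply, h3, smul_zero]
    · rw [h2, Finset.smul_sum]
      refine Finset.sum_congr rfl fun τ _ => ?_
      rw [Pi.smul_apply, smul_eq_mul, mul_smul]

end FVersion

/-- **Universal resolutions.** -/
theorem exists_theta {V : Type} [DecidableEq V] [Fintype V] {ν : V → ℕ}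
    (hν : Function.Injective ν) {G : SimpleGraph V} {n : ℕ} {U : Finset V} {o : Finset V → ℝ}
    (hK : IsSphere ν G n U o) (i : ℕ) : ∃ Θ, IsTheta ν G n U o i Θ := by
  classical
  obtain ⟨x, hx1, hx2, hx3⟩ := th_exists_res (F := thF ν G U i) (c := thC ν G U i) (i := i) hν hK
    (by
      intro ρ τ h
      refine Submodule.span_mono ?_
      rintro f ⟨ρ', h1, rfl⟩
      exact ⟨ρ', h.trans h1, rfl⟩)
    (fun ρ => Submodule.subset_span ⟨ρ, Finset.Subset.refl _, rfl⟩)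
    (by
      intro σ h
      by_contra hcon
      apply h
      refine LinearMap.ext fun z => ?_
      show z.1 σ = 0
      by_contra h1
      exact hcon (z.2.1 σ h1))
    (by
      funext ρ
      refine LinearMap.ext fun z => ?_
      have h1 := congrFun z.2.2 ρ
      have h2 : (bd ν (thC ν G U i) ρ) z = bd ν z.1 ρ := by
        show (∑ v ∈ ρᶜ, sgn ν v ρ • thC ν G U i (insert v ρ)) z =
          ∑ v ∈ ρᶜ, sgn ν v ρ • z.1 (insert v ρ)
        rw [LinearMap.sum_apply]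
        rfl
      rw [h2, h1]
      rfl)
  have hT : ∀ ρ σ : Finset V, ∃ t : Finset V → ℝ, (∀ ρ', t ρ' ≠ 0 → ρ ⊆ ρ') ∧
      x ρ σ = ∑ ρ', t ρ' • thC ν G U i ρ' ∧ ((∃ ρ', t ρ' ≠ 0) → x ρ σ ≠ 0) := by
    intro ρ σ
    by_cases h : x ρ σ = 0
    · exact ⟨0, fun _ h' => absurd rfl h', by rw [h]; simp, fun ⟨_, h'⟩ => absurd rfl h'⟩
    · obtain ⟨t, h1, h2⟩ := thF_repr (hx1.mem ρ σ)
      exact ⟨t, h1, h2, fun _ => h⟩
  choose T hT1 hT2 hT3 using hT
  refine ⟨T ∅, ?_⟩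
  intro S _ _ e M c hc hbd
  set y : Finset V → Finset V → S := fun ρ σ => ∑ ρ', T ρ σ ρ' • c ρ' with hy
  -- evaluation of functionals
  have hz : ∀ φ : Module.Dual ℝ S, (fun ρ => φ (c ρ)) ∈ thZ ν G U i := by
    intro φ
    refine ⟨fun σ h => hc.supp σ fun h1 => h (by
      show φ (c σ) = 0
      rw [h1, map_zero]), ?_⟩
    funext ρ
    show ∑ v ∈ ρᶜ, sgn ν v ρ • φ (c (insert v ρ)) = 0
    have h1 := congrFun hbd ρ
    have h2 : φ (bd ν c ρ) = ∑ v ∈ ρᶜ, sgn ν v ρ • φ (c (insert v ρ)) := by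
      show φ (∑ v ∈ ρᶜ, sgn ν v ρ • c (insert v ρ)) = _
      rw [map_sum]
      refine Finset.sum_congr rfl fun v _ => ?_
      rw [map_smul]
    rw [← h2, h1]
    exact map_zero φ
  have hev : ∀ (φ : Module.Dual ℝ S) (ρ σ : Finset V), φ (y ρ σ) = x ρ σ ⟨_, hz φ⟩ := by
    intro φ ρ σ
    rw [hT2 ρ σ, hy, LinearMap.sum_apply, map_sum]
    refine Finset.sum_congr rfl fun ρ' _ => ?_
    rw [map_smul]
    rfl
  have hsep : ∀ a b : S, (∀ φ : Module.Dual ℝ S, φ a = φ b) → a = b := by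
    intro a b h
    rw [← sub_eq_zero, ← Module.forall_dual_apply_eq_zero_iff ℝ]
    intro φ
    rw [map_sub, h φ, sub_self]
  refine ⟨y, ⟨⟨?_, ?_, ?_⟩, ?_, ?_⟩, fun σ => rfl⟩
  · intro ρ σ
    exact M.sum_mem fun ρ' _ => M.smul_mem _ (hc.mem ρ')
  · intro ρ σ v hv
    show e v (∑ ρ', T ρ σ ρ' • c ρ') = 0
    rw [map_sum]
    refine Finset.sum_eq_zero fun ρ' _ => ?_
    rw [map_smul]
    by_cases h : T ρ σ ρ' = 0
    · rw [h, zero_smul]
    · rw [hc.ker ρ' v (hT1 ρ σ ρ' h hv), smul_zero]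
  · intro ρ σ h
    refine hx1.supp ρ σ (hT3 ρ σ ?_)
    by_contra hcon
    push Not at hcon
    apply h
    show ∑ ρ', T ρ σ ρ' • c ρ' = 0
    refine Finset.sum_eq_zero fun ρ' _ => ?_
    rw [hcon ρ', zero_smul]
  · funext ρ σ
    refine hsep _ _ fun φ => ?_
    have h1 : φ (d1 ν y ρ σ) = (d1 ν x ρ σ) ⟨_, hz φ⟩ := by
      show φ (∑ v ∈ σ \ ρ, sgn ν v ρ • y (insert v ρ) σ) =
        (∑ v ∈ σ \ ρ, sgn ν v ρ • x (insert v ρ) σ) ⟨_, hz φ⟩
      rw [map_sum, LinearMap.sum_apply]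
      refine Finset.sum_congr rfl fun v _ => ?_
      rw [map_smul, hev, LinearMap.smul_apply]
    have h2 : φ (d2 ν G U y ρ σ) = (d2 ν G U x ρ σ) ⟨_, hz φ⟩ := by
      by_cases hg : σ ⊆ U ∧ Cl G σ
      · rw [th_d2_pos hg.1 hg.2, th_d2_pos hg.1 hg.2, map_sum, LinearMap.sum_apply]
        refine Finset.sum_congr rfl fun v _ => ?_
        rw [map_smul, hev, LinearMap.smul_apply]
      · rw [th_d2_zero fun a b => absurd ⟨a, b⟩ hg, th_d2_zero fun a b => absurd ⟨a, b⟩ hg,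
          map_zero]
        rfl
    rw [h1, h2, hx2]
  · funext ρ
    refine hsep _ _ fun φ => ?_
    have h1 : φ (aug G n U o y ρ) = (aug G n U o x ρ) ⟨_, hz φ⟩ := by
      show φ (∑ σ ∈ fac G n U, o σ • y ρ σ) = (∑ σ ∈ fac G n U, o σ • x ρ σ) ⟨_, hz φ⟩
      rw [map_sum, LinearMap.sum_apply]
      refine Finset.sum_congr rfl fun v _ => ?_
      rw [map_smul, hev, LinearMap.smul_apply]
    rw [h1, hx3]
    rfl

end Pool.Agent.H4.Fold3
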