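import Pool.Agent.H4.Fold3.DefTw
import Pool.Agent.H4.Fold3.ExK
import Pool.Agent.H4.Fold3.Theta

/-!
# Project FOLD, third stage: certificates from systems
-/

set_option autoImplicit false

open Finset

namespace Pool.Agent.H4.Fold3

open Pool.Agent.H85.Fold Pool.Agent.H85.Fold2

section Aux

private theorem exists_common {ι : Type} (s : Finset ι) (P : ι → ℝ → Prop)
    (h : ∀ i ∈ s, ∃ δ₀ : ℝ, 0 < δ₀ ∧ ∀ δ : ℝ, 0 < δ → δ ≤ δ₀ → P i δ) :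
    ∃ δ₀ : ℝ, 0 < δ₀ ∧ ∀ δ : ℝ, 0 < δ → δ ≤ δ₀ → ∀ i ∈ s, P i δ := by
  classical
  induction s using Finset.induction_on with
  | empty => exact ⟨1, one_pos, fun δ _ _ i hi => absurd hi (Finset.notMem_empty i)⟩
  | insert a s _ ih =>
    obtain ⟨d1, hd1, h1⟩ := ih fun i hi => h i (Finset.mem_insert_of_mem hi)
    obtain ⟨d2, hd2, h2⟩ := h a (Finset.mem_insert_self a s)
    refine ⟨min d1 d2, lt_min hd1 hd2, fun δ h0 hδ i hi => ?_⟩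
    rcases Finset.mem_insert.1 hi with rfl | hi
    · exact h2 δ h0 (hδ.trans (min_le_right _ _))
    · exact h1 δ h0 (hδ.trans (min_le_left _ _)) i hi

variable {V : Type} [DecidableEq V] [Fintype V] {S : Type} [AddCommGroup S] [Module ℝ S]
  {ν : V → ℕ} {G : SimpleGraph V} {e : V → S →ₗ[ℝ] S} {Y U : Finset V} {i : ℕ}

private theorem bdK_apply (Q : Finset V → Prop) (x : Finset V → S) (ρ : Finset V) :
    (Q ρ → bdK ν Q x ρ = bd ν x ρ) ∧ (¬ Q ρ → bdK ν Q x ρ = 0) := by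
  constructor
  · intro h
    exact if_pos h
  · intro h
    exact if_neg h

private theorem bd_eq_of {x y : Finset V → S} {ρ : Finset V}
    (h : ∀ v, v ∉ ρ → x (insert v ρ) = y (insert v ρ)) : bd ν x ρ = bd ν y ρ := by
  change ∑ v ∈ ρᶜ, sgn ν v ρ • x (insert v ρ) = ∑ v ∈ ρᶜ, sgn ν v ρ • y (insert v ρ)
  refine Finset.sum_congr rfl fun v hv => ?_
  rw [h v (Finset.mem_compl.1 hv)]

omit [DecidableEq V] [Fintype V] in
/-- absolute chains are chains supported in the family of cliques -/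
private theorem isFK_iff {x : Finset V → S} :
    IsFK e (fun σ => σ ⊆ Y ∧ Cl G σ) i x ↔ IsF G e ⊤ Y i x := by
  constructor
  · intro h
    exact ⟨fun _ => trivial, h.ker, fun σ hσ => ⟨(h.supp σ hσ).1.1, (h.supp σ hσ).1.2,
      (h.supp σ hσ).2⟩⟩
  · intro h
    exact ⟨h.ker, fun σ hσ => ⟨⟨(h.supp σ hσ).1, (h.supp σ hσ).2.1⟩, (h.supp σ hσ).2.2⟩⟩

private theorem bdK_abs {x : Finset V → S} (h : IsF G e ⊤ Y i x) :
    bdK ν (fun σ => σ ⊆ Y ∧ Cl G σ) x = bd ν x := by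
  funext ρ
  by_cases hρ : ρ ⊆ Y ∧ Cl G ρ
  · exact (bdK_apply _ x ρ).1 hρ
  · rw [(bdK_apply _ x ρ).2 hρ]
    symm
    change ∑ v ∈ ρᶜ, sgn ν v ρ • x (insert v ρ) = 0
    refine Finset.sum_eq_zero fun v _ => ?_
    by_cases h0 : x (insert v ρ) = 0
    · rw [h0, smul_zero]
    · exfalso
      obtain ⟨h1, h2, -⟩ := h.supp _ h0
      refine hρ ⟨fun u hu => h1 (Finset.mem_insert_of_mem hu), fun u hu w hw huw => ?_⟩
      exact h2 u (Finset.mem_insert_of_mem hu) w (Finset.mem_insert_of_mem hw) huw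

/-- relative chains: the truncation -/
private theorem exists_trunc (ν : V → ℕ) {x : Finset V → S} (h : IsF G e ⊤ U i x)
    (Y : Finset V) :
    ∃ z : Finset V → S, IsFK e (fun σ => σ ⊆ U ∧ Cl G σ ∧ ¬ σ ⊆ Y) i z ∧
      (∀ σ, ¬ σ ⊆ Y → z σ = x σ) ∧
      ∀ ρ, ρ ⊆ U ∧ Cl G ρ ∧ ¬ ρ ⊆ Y →
        bdK ν (fun σ => σ ⊆ U ∧ Cl G σ ∧ ¬ σ ⊆ Y) z ρ = bd ν x ρ := by
  classical
  refine ⟨fun σ => if σ ⊆ Y then 0 else x σ, ⟨?_, ?_⟩, ?_, ?_⟩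
  · intro σ v hv
    by_cases hσ : σ ⊆ Y
    · simp only [if_pos hσ, map_zero]
    · simp only [if_neg hσ]
      exact h.ker σ v hv
  · intro σ hσ
    by_cases hY : σ ⊆ Y
    · exact absurd (if_pos hY) hσ
    · simp only [if_neg hY] at hσ
      obtain ⟨h1, h2, h3⟩ := h.supp σ hσ
      exact ⟨⟨h1, h2, hY⟩, h3⟩
  · intro σ hσ
    exact if_neg hσ
  · intro ρ hρ
    rw [(bdK_apply _ _ ρ).1 hρ]
    refine bd_eq_of fun v _ => ?_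
    refine if_neg fun hY => hρ.2.2 fun u hu => hY (Finset.mem_insert_of_mem hu)

omit [DecidableEq V] [Fintype V] in
/-- relative chains are chains -/
private theorem IsFK.toF {x : Finset V → S}
    (h : IsFK e (fun σ => σ ⊆ U ∧ Cl G σ ∧ ¬ σ ⊆ Y) i x) : IsF G e ⊤ U i x :=
  ⟨fun _ => trivial, h.ker, fun σ hσ => ⟨(h.supp σ hσ).1.1, (h.supp σ hσ).1.2.1,
    (h.supp σ hσ).2⟩⟩

/-- the faces of the support -/
private theorem face_of_bd {x : Finset V → S} (h : IsF G e ⊤ U i x) {ρ : Finset V}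
    (hρ : bd ν x ρ ≠ 0) : ρ ⊆ U ∧ Cl G ρ := by
  by_contra hne
  apply hρ
  change ∑ v ∈ ρᶜ, sgn ν v ρ • x (insert v ρ) = 0
  refine Finset.sum_eq_zero fun v _ => ?_
  by_cases h0 : x (insert v ρ) = 0
  · rw [h0, smul_zero]
  · exfalso
    obtain ⟨h1, h2, -⟩ := h.supp _ h0
    refine hne ⟨fun u hu => h1 (Finset.mem_insert_of_mem hu), fun u hu w hw huw => ?_⟩
    exact h2 u (Finset.mem_insert_of_mem hu) w (Finset.mem_insert_of_mem hw) huw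

/-- relative exactness from exactness of the truncated complex -/
private theorem rel_of {k : ℕ} (hν : Function.Injective ν)
    (hex : ∀ x : Finset V → S, IsFK e (fun σ => σ ⊆ U ∧ Cl G σ ∧ ¬ σ ⊆ Y) (k + 1) x →
      bdK ν (fun σ => σ ⊆ U ∧ Cl G σ ∧ ¬ σ ⊆ Y) x = 0 →
      ∃ y, IsFK e (fun σ => σ ⊆ U ∧ Cl G σ ∧ ¬ σ ⊆ Y) (k + 1 + 1) y ∧
        bdK ν (fun σ => σ ⊆ U ∧ Cl G σ ∧ ¬ σ ⊆ Y) y = x)
    {y : Finset V → S} (hy : IsF G e ⊤ U (k + 1) y) (hbd : ∀ σ, bd ν y σ ≠ 0 → σ ⊆ Y) :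
    ∃ y', IsF G e ⊤ Y (k + 1) y' ∧ bd ν y' = bd ν y := by
  obtain ⟨z, hz, hzy, hzb⟩ := exists_trunc ν hy Y
  have hz0 : bdK ν (fun σ => σ ⊆ U ∧ Cl G σ ∧ ¬ σ ⊆ Y) z = 0 := by
    funext ρ
    by_cases hρ : ρ ⊆ U ∧ Cl G ρ ∧ ¬ ρ ⊆ Y
    · rw [hzb ρ hρ]
      by_contra h0
      exact hρ.2.2 (hbd ρ h0)
    · exact (bdK_apply _ z ρ).2 hρ
  obtain ⟨w, hw, hwz⟩ := hex z hz hz0
  have hwF : IsF G e ⊤ U (k + 1 + 1) w := hw.toF
  have hF : IsF G e ⊤ U (k + 1) (y - bd ν w) := hy.sub (isF_bd ν hwF)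
  refine ⟨y - bd ν w, ⟨fun _ => trivial, hF.ker, fun σ hσ => ?_⟩, ?_⟩
  · obtain ⟨h1, h2, h3⟩ := hF.supp σ hσ
    refine ⟨?_, h2, h3⟩
    by_contra hY
    apply hσ
    have h4 : bdK ν (fun σ => σ ⊆ U ∧ Cl G σ ∧ ¬ σ ⊆ Y) w σ = bd ν w σ :=
      (bdK_apply _ w σ).1 ⟨h1, h2, hY⟩
    change y σ - bd ν w σ = 0
    rw [← h4, hwz, hzy σ hY, sub_self]
  · rw [map_sub, bd_bd ν hν, sub_zero]

end Aux

variable {V : Type} [DecidableEq V] [Fintype V] {S : Type} [NormedAddCommGroup S]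
  [NormedSpace ℝ S] [FiniteDimensional ℝ S] {ν : V → ℕ} {G : SimpleGraph V}
  {e c : V → S →ₗ[ℝ] S} {ep : Finset V → S →ₗ[ℝ] S} {b : V → V → ℝ} {k : ℕ} {U : Finset V}
  {β : S →ₗ[ℝ] S →ₗ[ℝ] ℝ} {ε κ : ℝ} {o : Finset V → ℝ}

/-- the relative exactness of the limit -/
private theorem rel_lim (hs : Sys ν G e ep b (2 * k) U ⊤ β ε κ o) {Y : Finset V} (hY : Y ⊆ U)
    (x : Finset V → S) (hx : IsFK e (fun σ => σ ⊆ U ∧ Cl G σ ∧ ¬ σ ⊆ Y) (k + 1) x)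
    (hx0 : bdK ν (fun σ => σ ⊆ U ∧ Cl G σ ∧ ¬ σ ⊆ Y) x = 0) :
    ∃ y, IsFK e (fun σ => σ ⊆ U ∧ Cl G σ ∧ ¬ σ ⊆ Y) (k + 1 + 1) y ∧
      bdK ν (fun σ => σ ⊆ U ∧ Cl G σ ∧ ¬ σ ⊆ Y) y = x := by
  have hxF : IsF G e ⊤ U (k + 1) x := hx.toF
  have hbd : ∀ ρ, bd ν x ρ ≠ 0 → ρ ⊆ Y := by
    intro ρ hρ
    by_contra hne
    obtain ⟨h1, h2⟩ := face_of_bd hxF hρ
    have h3 : bdK ν (fun σ => σ ⊆ U ∧ Cl G σ ∧ ¬ σ ⊆ Y) x ρ = bd ν x ρ :=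
      (bdK_apply _ x ρ).1 ⟨h1, h2, hne⟩
    rw [hx0] at h3
    exact hρ h3.symm
  obtain ⟨y', hy', hbd'⟩ := fill_sub_sys hs (fun m _ => pk_all ν G e ep b m) hY
    (i := k) le_rfl hxF hbd
  have hcyc : bd ν (x - y') = 0 := by rw [map_sub, hbd', sub_self]
  obtain ⟨w, hw, hwb⟩ := ((pk_all ν G e ep b (2 * k)) U ⊤ β ε κ o hs).1 U subset_rfl (k + 1)
    (by omega) (x - y') (hxF.sub (hy'.mono hY)) hcyc
  obtain ⟨z, hz, -, hzb⟩ := exists_trunc ν hw Y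
  refine ⟨z, hz, ?_⟩
  funext ρ
  by_cases hρ : ρ ⊆ U ∧ Cl G ρ ∧ ¬ ρ ⊆ Y
  · rw [hzb ρ hρ, hwb]
    have h0 : y' ρ = 0 := by
      by_contra h0
      exact hρ.2.2 (hy'.supp ρ h0).1
    change x ρ - y' ρ = x ρ
    rw [h0, sub_zero]
  · rw [(bdK_apply _ z ρ).2 hρ]
    by_contra h0
    exact hρ (hx.supp ρ (fun h => h0 h.symm)).1

/-- **Certificates.** -/
theorem exists_cert (hs : Sys ν G e ep b (2 * k) U ⊤ β ε κ o) (h : IsLim G e c U) (K : ℝ)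
    (hK : 0 ≤ K) :
    ∃ δ₀ : ℝ, 0 < δ₀ ∧ ∀ δ : ℝ, 0 < δ → δ ≤ δ₀ →
      ∀ A : V → S →ₗ[ℝ] S, IsApp G e c U K δ A →
        (∀ v ∈ U, ∀ x y, β (A v x) (A v y) = -β x y) →
        IsCert ν G k U o β (sgk ε κ k) A := by
  classical
  obtain ⟨Θ, hΘ⟩ := exists_theta hs.inj hs.sphere (i := k)
  obtain ⟨d0, hd0, -, hdfn⟩ := def_tw hs h Θ hΘ K hK
  -- exactness above the middle
  have habs : ∀ p ∈ U.powerset ×ˢ Finset.range (Fintype.card V + 1),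
      ∃ δ₀ : ℝ, 0 < δ₀ ∧ ∀ δ : ℝ, 0 < δ → δ ≤ δ₀ →
        (k < p.2 → ∀ A : V → S →ₗ[ℝ] S, IsApp G e c U K δ A →
          ∀ (Ω : Type) [Fintype Ω] (s : V → Ω → Ω), IsActOn G U s →
            HV ν G (etw A s) ⊤ p.1 p.2) := by
    rintro ⟨Y, i⟩ hp
    have hY : Y ⊆ U := Finset.mem_powerset.1 (Finset.mem_product.1 hp).1
    by_cases hki : k < i
    · obtain ⟨δ₀, h1, -, h2⟩ := exK hs.inj h K hK (fun σ => σ ⊆ Y ∧ Cl G σ)
        (fun σ hσ => ⟨hσ.1.trans hY, hσ.2⟩)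
        (fun ρ τ σ _ hτσ _ hσ => ⟨hτσ.trans hσ.1, fun u hu v hv huv =>
          hσ.2 u (hτσ hu) v (hτσ hv) huv⟩) i (fun x hx hx0 => by
          have hxF : IsF G e ⊤ Y i x := isFK_iff.1 hx
          rw [bdK_abs hxF] at hx0
          obtain ⟨y, hy, hyx⟩ := ((pk_all ν G e ep b (2 * k)) U ⊤ β ε κ o hs).1 Y hY i
            (by omega) x hxF hx0
          exact ⟨y, isFK_iff.2 hy, by rw [bdK_abs hy, hyx]⟩)
      refine ⟨δ₀, h1, fun δ hδ hδ' _ A hA Ω _ s hact f hf hf0 => ?_⟩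
      obtain ⟨y, hy, hyf⟩ := h2 δ hδ hδ' A hA Ω s hact f (isFK_iff.2 hf)
        (by rw [bdK_abs hf]; exact hf0)
      have hyF : IsF G (etw A s) ⊤ Y (i + 1) y := isFK_iff.1 hy
      exact ⟨y, hyF, by rw [← bdK_abs hyF]; exact hyf⟩
    · exact ⟨1, one_pos, fun δ _ _ hki' => absurd hki' hki⟩
  obtain ⟨d1, hd1, habs⟩ := exists_common _ _ habs
  -- relative cycles
  have hrel : ∀ Y ∈ U.powerset,
      ∃ δ₀ : ℝ, 0 < δ₀ ∧ ∀ δ : ℝ, 0 < δ → δ ≤ δ₀ →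
        (∀ A : V → S →ₗ[ℝ] S, IsApp G e c U K δ A →
          ∀ (Ω : Type) [Fintype Ω] (s : V → Ω → Ω), IsActOn G U s →
            ∀ y, IsF G (etw A s) ⊤ U (k + 1) y → (∀ σ, bd ν y σ ≠ 0 → σ ⊆ Y) →
              ∃ y', IsF G (etw A s) ⊤ Y (k + 1) y' ∧ bd ν y' = bd ν y) := by
    intro Y hY
    have hYU : Y ⊆ U := Finset.mem_powerset.1 hY
    obtain ⟨δ₀, h1, -, h2⟩ := exK hs.inj h K hK (fun σ => σ ⊆ U ∧ Cl G σ ∧ ¬ σ ⊆ Y)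
      (fun σ hσ => ⟨hσ.1, hσ.2.1⟩)
      (fun ρ τ σ hρτ hτσ hρ hσ => ⟨hτσ.trans hσ.1, fun u hu v hv huv =>
        hσ.2.1 u (hτσ hu) v (hτσ hv) huv, fun hτ => hρ.2.2 (hρτ.trans hτ)⟩) (k + 1)
      (rel_lim hs hYU)
    refine ⟨δ₀, h1, fun δ hδ hδ' A hA Ω _ s hact y hy hbd => ?_⟩
    exact rel_of hs.inj (fun x hx hx0 => h2 δ hδ hδ' A hA Ω s hact x hx hx0) hy hbd
  obtain ⟨d2, hd2, hrel⟩ := exists_common _ _ hrel
  refine ⟨min d0 (min d1 d2), lt_min hd0 (lt_min hd1 hd2), fun δ hδ hδ' A hA hβ => ?_⟩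
  have hδ0 : δ ≤ d0 := hδ'.trans (min_le_left _ _)
  have hδ1 : δ ≤ d1 := hδ'.trans ((min_le_right _ _).trans (min_le_left _ _))
  have hδ2 : δ ≤ d2 := hδ'.trans ((min_le_right _ _).trans (min_le_right _ _))
  refine ⟨hA.sq, hA.comm, hβ, ?_, ?_, ?_⟩
  · intro Ω _ s hact Y hY i hi
    by_cases hc : i ≤ Fintype.card V
    · exact habs δ hδ hδ1 (Y, i) (Finset.mem_product.2 ⟨Finset.mem_powerset.2 hY,
        Finset.mem_range.2 (by omega)⟩) hi A hA Ω s hact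
    · intro f hf _
      have hf0 : f = 0 := by
        funext σ
        by_contra h0
        have h1 := (hf.supp σ h0).2.2
        have h2 := Finset.card_le_univ σ
        omega
      exact ⟨0, IsF.zero, by rw [map_zero, hf0]⟩
  · intro Ω _ s hact Y hY
    exact hrel δ hδ hδ2 Y (Finset.mem_powerset.2 hY) A hA Ω s hact
  · intro Ω _ s hact f x hf hf0 hx
    exact hdfn δ hδ hδ0 A hA hβ Ω s hact f x hf hf0 hx

end Pool.Agent.H4.Fold3
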