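import Pool.Agent.H4.Fold3.SysU
import Pool.Agent.H4.Fold3.CertA
import Pool.Agent.H85.Fold.Cliff

/-!
# Project FOLD, third stage: certificates from folding vectors
-/

set_option autoImplicit false

open Finset

namespace Pool.Agent.H4.Fold3

open Pool.Agent.H85.Fold Pool.Agent.H85.Fold2

theorem exists_cliff3 (V : Type) [Fintype V] [DecidableEq V] (n m : ℕ) :
    ∃ (D : Type) (_ : Fintype D) (_ : DecidableEq D) (_ : Nonempty D)
      (c : (Fin n ⊕ Fin m) ⊕ (V ⊕ V) → Matrix D D ℤ), IsCliff3 c := by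
  obtain ⟨D, iD1, iD2, iD3, c, hsq, hanti, htr⟩ :=
    exists_cliff ((Fin n ⊕ Fin m) ⊕ (V ⊕ V)) (Sum.elim (Sum.elim (fun _ => true)
      (fun _ => false)) (fun _ => false))
  refine ⟨D, iD1, iD2, iD3, c, ?_, ?_, ?_, ?_, hanti, ?_, ?_, ?_, ?_⟩
  · intro i
    simpa using hsq (Sum.inl (Sum.inl i))
  · intro i
    simpa using hsq (Sum.inl (Sum.inr i))
  · intro i
    simpa using hsq (Sum.inr (Sum.inl i))
  · intro i
    simpa using hsq (Sum.inr (Sum.inr i))
  · intro i
    simpa using htr (Sum.inl (Sum.inl i))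
  · intro i
    simpa using htr (Sum.inl (Sum.inr i))
  · intro i
    simpa using htr (Sum.inr (Sum.inl i))
  · intro i
    simpa using htr (Sum.inr (Sum.inr i))

section general

variable {R M ι : Type*} [CommRing R] [Ring M] [Algebra R M] [Fintype ι] [DecidableEq ι]

omit [DecidableEq ι] in
private lemma gen_anti {C : ι → M} {s : ι → R} (hs : ∀ i, C i * C i = s i • (1 : M))
    (ha : ∀ i j, i ≠ j → C i * C j = -(C j * C i)) (x y : ι → R) :
    (∑ i, x i • C i) * (∑ j, y j • C j) + (∑ i, y i • C i) * (∑ j, x j • C j) =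
      (2 * ∑ i, s i * (x i * y i)) • (1 : M) := by
  have h1 : (∑ i, y i • C i) * (∑ j, x j • C j) = ∑ i, ∑ j, (x i * y j) • (C j * C i) := by
    rw [Finset.sum_mul_sum, Finset.sum_comm]
    refine Finset.sum_congr rfl fun i _ => Finset.sum_congr rfl fun j _ => ?_
    rw [smul_mul_smul_comm, mul_comm]
  have h2 : (∑ i, x i • C i) * (∑ j, y j • C j) = ∑ i, ∑ j, (x i * y j) • (C i * C j) := by
    rw [Finset.sum_mul_sum]
    refine Finset.sum_congr rfl fun i _ => Finset.sum_congr rfl fun j _ => ?_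
    rw [smul_mul_smul_comm]
  rw [h1, h2, ← Finset.sum_add_distrib]
  have h3 : ∀ i, ∑ j, (x i * y j) • (C i * C j) + ∑ j, (x i * y j) • (C j * C i) =
      (2 * (s i * (x i * y i))) • (1 : M) := by
    intro i
    rw [← Finset.sum_add_distrib, Finset.sum_eq_single i]
    · rw [hs, smul_smul, ← add_smul]
      congr 1
      ring
    · intro j _ hj
      rw [← smul_add, ha i j hj.symm, neg_add_cancel, smul_zero]
    · intro h
      exact absurd (Finset.mem_univ i) h
  rw [Finset.sum_congr rfl fun i _ => h3 i, ← Finset.sum_smul, ← Finset.mul_sum]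

omit [Fintype ι] in
private lemma gen_sq {C : ι → M} {s : ι → R} (hs : ∀ i, C i * C i = s i • (1 : M))
    (ha : ∀ i j, i ≠ j → C i * C j = -(C j * C i)) (x : ι → R) (T : Finset ι) :
    (∑ i ∈ T, x i • C i) * (∑ j ∈ T, x j • C j) = (∑ i ∈ T, s i * (x i * x i)) • (1 : M) := by
  induction T using Finset.induction_on with
  | empty => simp
  | insert k T hk ih =>
    rw [Finset.sum_insert hk, Finset.sum_insert hk, add_mul, mul_add, mul_add, ih, add_smul]
    have h1 : (x k • C k) * (∑ j ∈ T, x j • C j) + (∑ j ∈ T, x j • C j) * (x k • C k) = 0 := by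
      rw [Finset.mul_sum, Finset.sum_mul, ← Finset.sum_add_distrib]
      refine Finset.sum_eq_zero fun j hj => ?_
      have hjk : k ≠ j := fun h => hk (h ▸ hj)
      rw [smul_mul_smul_comm, smul_mul_smul_comm, ha k j hjk, smul_neg, mul_comm (x k),
        neg_add_cancel]
    have h2 : (x k • C k) * (x k • C k) = (s k * (x k * x k)) • (1 : M) := by
      rw [smul_mul_smul_comm, hs, smul_smul, mul_comm]
    rw [h2]
    calc _ = (s k * (x k * x k)) • (1 : M) + ((x k • C k) * (∑ j ∈ T, x j • C j) +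
          (∑ j ∈ T, x j • C j) * (x k • C k)) + (∑ i ∈ T, s i * (x i * x i)) • (1 : M) := by abel
      _ = _ := by rw [h1, add_zero]

end general

variable {V D : Type} [DecidableEq V] [Fintype V] [Fintype D] [DecidableEq D] {n m : ℕ}
  {c : (Fin n ⊕ Fin m) ⊕ (V ⊕ V) → Matrix D D ℤ} {R : Type} [CommRing R]

/-- the generators over the ring `R` -/
private def cr (c : (Fin n ⊕ Fin m) ⊕ (V ⊕ V) → Matrix D D ℤ) (R : Type) [CommRing R]
    (i : (Fin n ⊕ Fin m) ⊕ (V ⊕ V)) : Matrix D D R :=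
  (Int.castRingHom R).mapMatrix (c i)

omit [DecidableEq V] [Fintype V] in
private lemma cr_anti (hc : IsCliff3 c) (i j : (Fin n ⊕ Fin m) ⊕ (V ⊕ V)) (h : i ≠ j) :
    cr c R i * cr c R j = -(cr c R j * cr c R i) := by
  unfold cr
  rw [← map_mul, ← map_mul, hc.anti i j h, map_neg]

/-- the generators in the first factor -/
private def ix : (Fin n ⊕ Fin m) ⊕ V → (Fin n ⊕ Fin m) ⊕ (V ⊕ V) :=
  Sum.elim Sum.inl (fun v => Sum.inr (Sum.inl v))

omit [DecidableEq V] [Fintype V] in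
private lemma ix_inj : Function.Injective (ix (n := n) (m := m) (V := V)) := by
  rintro (i | i) (j | j) h <;> simp [ix] at h ⊢ <;> exact h

private def ys (p : V → Fin n → R) (a : V → Fin m → R) (μ : R) (v : V) :
    (Fin n ⊕ Fin m) ⊕ V → R :=
  Sum.elim (Sum.elim (p v) (a v)) (Pi.single v μ)

private def sg3 (V : Type) (n m : ℕ) (R : Type) [CommRing R] : (Fin n ⊕ Fin m) ⊕ V → R :=
  Sum.elim (Sum.elim (fun _ => 1) (fun _ => -1)) (fun _ => -1)

/-- the first factor of `xmat` -/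
private def xx (c : (Fin n ⊕ Fin m) ⊕ (V ⊕ V) → Matrix D D ℤ) (p : V → Fin n → R)
    (a : V → Fin m → R) (μ : R) (v : V) : Matrix D D R :=
  ∑ i, ys p a μ v i • cr c R (ix i)

private lemma xx_eq (p : V → Fin n → R) (a : V → Fin m → R) (μ : R) (v : V) :
    xx c p a μ v = ∑ i, p v i • cr c R (.inl (.inl i)) + ∑ j, a v j • cr c R (.inl (.inr j)) +
      μ • cr c R (.inr (.inl v)) := by
  unfold xx
  rw [Fintype.sum_sum_type, Fintype.sum_sum_type]
  have h1 : ∑ w : V, ys p a μ v (Sum.inr w) • cr c R (ix (Sum.inr w)) =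
      μ • cr c R (Sum.inr (Sum.inl v)) := by
    rw [Finset.sum_eq_single v]
    · simp [ys, ix]
    · intro w _ hw
      simp [ys, Pi.single_eq_of_ne hw]
    · intro h
      exact absurd (Finset.mem_univ v) h
  rw [h1]
  rfl

private lemma xmat_eq (p : V → Fin n → R) (a : V → Fin m → R) (μ : R) (v : V) :
    xmat c p a μ v = xx c p a μ v * cr c R (.inr (.inr v)) := by
  rw [xx_eq]
  rfl

omit [DecidableEq V] [Fintype V] in
private lemma cr_sq (hc : IsCliff3 c) (i : (Fin n ⊕ Fin m) ⊕ V) :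
    cr c R (ix i) * cr c R (ix i) = sg3 V n m R i • (1 : Matrix D D R) := by
  unfold cr
  rw [← map_mul]
  rcases i with (i | j) | v
  · simp only [ix, Sum.elim_inl]
    rw [hc.sq_p, map_one]; simp [sg3]
  · simp only [ix, Sum.elim_inl]
    rw [hc.sq_a, map_neg, map_one]; simp [sg3]
  · simp only [ix, Sum.elim_inr]
    rw [hc.sq_g, map_neg, map_one]; simp [sg3]

omit [DecidableEq V] [Fintype V] in
private lemma cr_anti' (hc : IsCliff3 c) (i j : (Fin n ⊕ Fin m) ⊕ V) (h : i ≠ j) :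
    cr c R (ix i) * cr c R (ix j) = -(cr c R (ix j) * cr c R (ix i)) :=
  cr_anti hc _ _ fun h' => h (ix_inj h')

private lemma ys_sum_self (p : V → Fin n → R) (a : V → Fin m → R) (μ : R) (v : V) :
    ∑ i, sg3 V n m R i * (ys p a μ v i * ys p a μ v i) =
      p v ⬝ᵥ p v - a v ⬝ᵥ a v - μ * μ := by
  rw [Fintype.sum_sum_type, Fintype.sum_sum_type]
  have h1 : ∑ w : V, sg3 V n m R (Sum.inr w) * (ys p a μ v (Sum.inr w) * ys p a μ v (Sum.inr w)) =
      -(μ * μ) := by
    rw [Finset.sum_eq_single v]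
    · simp [ys, sg3]
    · intro w _ hw
      simp [ys, Pi.single_eq_of_ne hw]
    · intro h
      exact absurd (Finset.mem_univ v) h
  rw [h1]
  simp [sg3, ys, dotProduct, sub_eq_add_neg]

private lemma ys_sum (p : V → Fin n → R) (a : V → Fin m → R) (μ : R) (u v : V) (huv : u ≠ v) :
    ∑ i, sg3 V n m R i * (ys p a μ u i * ys p a μ v i) = p u ⬝ᵥ p v - a u ⬝ᵥ a v := by
  rw [Fintype.sum_sum_type, Fintype.sum_sum_type]
  have h1 : ∑ w : V, sg3 V n m R (Sum.inr w) * (ys p a μ u (Sum.inr w) * ys p a μ v (Sum.inr w)) =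
      0 := by
    refine Finset.sum_eq_zero fun w _ => ?_
    by_cases hw : w = u
    · have hw' : w ≠ v := fun h => huv (hw ▸ h)
      simp [ys, Pi.single_eq_of_ne hw']
    · simp [ys, Pi.single_eq_of_ne hw]
  rw [h1]
  simp [sg3, ys, dotProduct, sub_eq_add_neg]

private lemma xx_sq (hc : IsCliff3 c) (p : V → Fin n → R) (a : V → Fin m → R) (μ : R) (v : V) :
    xx c p a μ v * xx c p a μ v =
      (p v ⬝ᵥ p v - a v ⬝ᵥ a v - μ * μ) • (1 : Matrix D D R) := by
  unfold xx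
  rw [gen_sq (cr_sq hc) (cr_anti' hc), ys_sum_self]

private lemma xx_anti (hc : IsCliff3 c) (p : V → Fin n → R) (a : V → Fin m → R) (μ : R) (u v : V)
    (huv : u ≠ v) (h : p u ⬝ᵥ p v = a u ⬝ᵥ a v) :
    xx c p a μ u * xx c p a μ v = -(xx c p a μ v * xx c p a μ u) := by
  rw [← add_eq_zero_iff_eq_neg]
  unfold xx
  rw [gen_anti (cr_sq hc) (cr_anti' hc), ys_sum p a μ u v huv, h, sub_self, mul_zero, zero_smul]

private lemma xx_cr (hc : IsCliff3 c) (p : V → Fin n → R) (a : V → Fin m → R) (μ : R) (u v : V) :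
    xx c p a μ u * cr c R (.inr (.inr v)) = -(cr c R (.inr (.inr v)) * xx c p a μ u) := by
  unfold xx
  rw [Finset.sum_mul, Finset.mul_sum, ← Finset.sum_neg_distrib]
  refine Finset.sum_congr rfl fun i _ => ?_
  rw [smul_mul_assoc, mul_smul_comm, cr_anti hc (ix i) (.inr (.inr v)), smul_neg]
  rcases i with i | i <;> simp [ix]

omit [DecidableEq V] [Fintype V] in
private lemma cc_sq (hc : IsCliff3 c) (v : V) :
    cr c R (.inr (.inr v)) * cr c R (.inr (.inr v)) = -(1 : Matrix D D R) := by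
  unfold cr
  rw [← map_mul, hc.sq_c, map_neg, map_one]

theorem xmat_sq (hc : IsCliff3 c) (p : V → Fin n → R) (a : V → Fin m → R) (μ : R) (v : V)
    (h : p v ⬝ᵥ p v - a v ⬝ᵥ a v - μ * μ = 1) : xmat c p a μ v * xmat c p a μ v = 1 := by
  have h2 := xx_cr hc p a μ v v
  have h1 := cc_sq (R := R) hc v
  rw [xmat_eq]
  calc _ = xx c p a μ v * (cr c R (.inr (.inr v)) * xx c p a μ v) *
        cr c R (.inr (.inr v)) := by simp only [mul_assoc]
    _ = xx c p a μ v * (-(xx c p a μ v * cr c R (.inr (.inr v)))) *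
        cr c R (.inr (.inr v)) := by rw [h2, neg_neg]
    _ = -((xx c p a μ v * xx c p a μ v) *
        (cr c R (.inr (.inr v)) * cr c R (.inr (.inr v)))) := by
      simp only [mul_neg, neg_mul, mul_assoc]
    _ = 1 := by rw [xx_sq hc p a μ v, h, h1, one_smul, one_mul, neg_neg]

theorem xmat_comm (hc : IsCliff3 c) (p : V → Fin n → R) (a : V → Fin m → R) (μ : R) (u v : V)
    (huv : u ≠ v) (h : p u ⬝ᵥ p v = a u ⬝ᵥ a v) :
    xmat c p a μ u * xmat c p a μ v = xmat c p a μ v * xmat c p a μ u := by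
  have key : ∀ u v : V, xmat c p a μ u * xmat c p a μ v =
      -((xx c p a μ u * xx c p a μ v) * (cr c R (.inr (.inr u)) * cr c R (.inr (.inr v)))) := by
    intro u v
    rw [xmat_eq, xmat_eq]
    calc _ = xx c p a μ u * (cr c R (.inr (.inr u)) * xx c p a μ v) *
          cr c R (.inr (.inr v)) := by simp only [mul_assoc]
      _ = xx c p a μ u * (-(xx c p a μ v * cr c R (.inr (.inr u)))) *
          cr c R (.inr (.inr v)) := by rw [xx_cr hc p a μ v u, neg_neg]
      _ = _ := by simp only [mul_neg, neg_mul, mul_assoc]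
  rw [key u v, key v u, xx_anti hc p a μ u v huv h,
    cr_anti (R := R) hc (.inr (.inr u)) (.inr (.inr v)) (by simpa using huv), neg_mul_neg]

theorem xmat_map {R' : Type} [CommRing R'] (f : R →+* R') (p : V → Fin n → R)
    (a : V → Fin m → R) (μ : R) (v : V) :
    (xmat c p a μ v).map f = xmat c (fun v i => f (p v i)) (fun v j => f (a v j)) (f μ) v := by
  have h0 : ∀ (r : R) (A : Matrix D D R), f.mapMatrix (r • A) = f r • f.mapMatrix A := by
    intro r A
    ext i j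
    simp [Matrix.smul_apply]
  have h1 : ∀ A : Matrix D D ℤ, f.mapMatrix (A.map (Int.cast : ℤ → R)) =
      A.map (Int.cast : ℤ → R') := by
    intro A
    ext i j
    simp
  change f.mapMatrix (xmat c p a μ v) = _
  unfold xmat
  simp only [map_mul, map_add, map_sum, h0, h1]

section real

/-- the dot product -/
private noncomputable def dotC (D : Type) [Fintype D] : (D → ℝ) →ₗ[ℝ] (D → ℝ) →ₗ[ℝ] ℝ :=
  LinearMap.mk₂ ℝ (fun x y => x ⬝ᵥ y) (fun x y z => add_dotProduct x y z)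
    (fun c x y => smul_dotProduct c x y) (fun x y z => dotProduct_add x y z)
    (fun c x y => dotProduct_smul c x y)

/-- the operators of the generators -/
private noncomputable def gl (c : (Fin n ⊕ Fin m) ⊕ (V ⊕ V) → Matrix D D ℤ)
    (i : (Fin n ⊕ Fin m) ⊕ (V ⊕ V)) : (D → ℝ) →ₗ[ℝ] (D → ℝ) := Matrix.toLin' (cr c ℝ i)

omit [DecidableEq V] [Fintype V] in
private lemma gl_anti (hc : IsCliff3 c) (i j : (Fin n ⊕ Fin m) ⊕ (V ⊕ V)) (h : i ≠ j)
    (x : D → ℝ) : gl c i (gl c j x) = -gl c j (gl c i x) := by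
  unfold gl
  rw [← LinearMap.comp_apply, ← LinearMap.comp_apply, ← Matrix.toLin'_mul, ← Matrix.toLin'_mul,
    cr_anti hc i j h, map_neg, LinearMap.neg_apply]

/-- signs -/
private def sJ (V : Type) (n m : ℕ) : (Fin n ⊕ Fin m) ⊕ (V ⊕ V) → ℝ :=
  Sum.elim (Sum.elim (fun _ => 1) (fun _ => -1)) (fun _ => -1)

omit [DecidableEq V] [Fintype V] in
private lemma gl_sq (hc : IsCliff3 c) (i : (Fin n ⊕ Fin m) ⊕ (V ⊕ V)) (x : D → ℝ) :
    gl c i (gl c i x) = sJ V n m i • x := by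
  unfold gl
  rw [← LinearMap.comp_apply, ← Matrix.toLin'_mul]
  have h : cr c ℝ i * cr c ℝ i = sJ V n m i • (1 : Matrix D D ℝ) := by
    unfold cr
    rw [← map_mul]
    rcases i with (i | j) | (v | v)
    · rw [hc.sq_p, map_one]; simp [sJ]
    · rw [hc.sq_a, map_neg, map_one]; simp [sJ]
    · rw [hc.sq_g, map_neg, map_one]; simp [sJ]
    · rw [hc.sq_c, map_neg, map_one]; simp [sJ]
  rw [h, map_smul, Matrix.toLin'_one, LinearMap.smul_apply, LinearMap.id_apply]

omit [DecidableEq V] [Fintype V] in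
private lemma gl_adj (hc : IsCliff3 c) (i : (Fin n ⊕ Fin m) ⊕ (V ⊕ V)) (x y : D → ℝ) :
    dotC D (gl c i x) y = sJ V n m i * dotC D x (gl c i y) := by
  have h : (cr c ℝ i).transpose = sJ V n m i • cr c ℝ i := by
    have h0 : (cr c ℝ i).transpose = (Int.castRingHom ℝ).mapMatrix (c i).transpose := by
      ext a b
      simp [cr]
    rw [h0]
    unfold cr
    rcases i with (i | j) | (v | v)
    · rw [hc.tr_p]; simp [sJ]
    · rw [hc.tr_a, map_neg]; simp [sJ]
    · rw [hc.tr_g, map_neg]; simp [sJ]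
    · rw [hc.tr_c, map_neg]; simp [sJ]
  have h2 : dotC D (gl c i x) y = x ⬝ᵥ ((cr c ℝ i).transpose.mulVec y) := by
    change (cr c ℝ i).mulVec x ⬝ᵥ y = _
    rw [Matrix.mulVec_transpose, dotProduct_comm, Matrix.dotProduct_mulVec, dotProduct_comm]
  rw [h2, h, Matrix.smul_mulVec, dotProduct_smul, smul_eq_mul]
  rfl

/-- the generators of square `-1` in the first factor -/
private def ia : Fin m ⊕ V → (Fin n ⊕ Fin m) ⊕ (V ⊕ V) :=
  Sum.elim (fun j => Sum.inl (Sum.inr j)) (fun v => Sum.inr (Sum.inl v))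

omit [DecidableEq V] [Fintype V] in
private lemma ia_inj : Function.Injective (ia (n := n) (m := m) (V := V)) := by
  rintro (i | i) (j | j) h <;> simp [ia] at h ⊢ <;> exact h

omit [DecidableEq V] [Fintype V] in
private lemma isClMod3 (hc : IsCliff3 c) {m' : ℕ} (e : Fin m' ≃ Fin m ⊕ V) :
    IsClMod (dotC D) (fun i => gl c (Sum.inl (Sum.inl i))) (fun j => gl c (ia (e j))) where
  symm x y := dotProduct_comm x y
  pos x hx := by
    change (0 : ℝ) < x ⬝ᵥ x
    have h0 : (0 : ℝ) ≤ x ⬝ᵥ x := Finset.sum_nonneg fun i _ => mul_self_nonneg _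
    rcases h0.lt_or_eq with h | h
    · exact h
    · exact absurd (dotProduct_self_eq_zero.1 h.symm) hx
  γ_sq i x := by
    rw [gl_sq hc]
    simp [sJ]
  η_sq i x := by
    rw [gl_sq hc]
    rcases e i with j | v <;> simp [sJ, ia]
  γγ i j hij x := gl_anti hc _ _ (by simpa using hij) x
  ηη i j hij x := gl_anti hc _ _ (fun h => hij (e.injective (ia_inj h))) x
  γη i j x := gl_anti hc _ _ (by rcases e j with k | v <;> simp [ia]) x
  γ_adj i x y := by
    rw [gl_adj hc]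
    simp [sJ]
  η_adj i x y := by
    rw [gl_adj hc]
    rcases e i with j | v <;> simp [sJ, ia]

private lemma sgk_sq3 (ε : ℝ) (hε : ε * ε = 1) : ∀ (k : ℕ) (κ : ℝ), κ * κ = 1 →
    sgk ε κ k * sgk ε κ k = 1 := by
  intro k
  induction k with
  | zero => intro κ hκ; simpa [sgk] using hκ
  | succ k ih =>
    intro κ hκ
    have h1 := ih (-κ) (by rw [neg_mul_neg]; exact hκ)
    have h2 : ((-1 : ℝ) ^ k) * (-1) ^ k = 1 := by
      rw [← mul_pow]; norm_num
    simp only [sgk]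
    calc ε * (-1) ^ k * sgk ε (-κ) k * (ε * (-1) ^ k * sgk ε (-κ) k)
        = (ε * ε) * (((-1 : ℝ) ^ k) * (-1) ^ k) * (sgk ε (-κ) k * sgk ε (-κ) k) := by ring
      _ = 1 := by rw [hε, h1, h2]; norm_num

/-- the vectors `a` with the unit vectors of the vertices -/
private def aa {m' : ℕ} (e : Fin m' ≃ Fin m ⊕ V) (a : V → Fin m → ℝ) (v : V) (j : Fin m') : ℝ :=
  Sum.elim (a v) (Pi.single v 1) (e j)

private lemma aa_dot {m' : ℕ} (e : Fin m' ≃ Fin m ⊕ V) (a : V → Fin m → ℝ) (u v : V) :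
    aa e a u ⬝ᵥ aa e a v = a u ⬝ᵥ a v + if u = v then 1 else 0 := by
  unfold aa
  simp only [dotProduct]
  rw [Equiv.sum_comp e (fun x => Sum.elim (a u) (Pi.single u (1 : ℝ)) x *
    Sum.elim (a v) (Pi.single v (1 : ℝ)) x), Fintype.sum_sum_type]
  simp only [Sum.elim_inl, Sum.elim_inr]
  congr 1
  rw [Finset.sum_eq_single u]
  · rw [Pi.single_eq_same, one_mul]
    by_cases h : u = v
    · subst h
      simp
    · rw [if_neg h, Pi.single_eq_of_ne h]
  · intro w _ hw
    rw [Pi.single_eq_of_ne hw, zero_mul]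
  · intro h
    exact absurd (Finset.mem_univ u) h

private lemma ev_eq {m' : ℕ} (e : Fin m' ≃ Fin m ⊕ V) (p : V → Fin n → ℝ) (a : V → Fin m → ℝ)
    (v : V) :
    ev (fun i => gl c (Sum.inl (Sum.inl i))) (fun j => gl c (ia (e j))) p (aa e a) v =
      ∑ i, p v i • gl c (Sum.inl (Sum.inl i)) + (∑ j, a v j • gl c (Sum.inl (Sum.inr j)) +
        gl c (Sum.inr (Sum.inl v))) := by
  unfold ev lc aa
  congr 1
  rw [Equiv.sum_comp e (fun x => Sum.elim (a v) (Pi.single v (1 : ℝ)) x • gl c (ia x)),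
    Fintype.sum_sum_type]
  simp only [Sum.elim_inl, Sum.elim_inr]
  congr 1
  rw [Finset.sum_eq_single v]
  · rw [Pi.single_eq_same, one_smul]
    rfl
  · intro w _ hw
    rw [Pi.single_eq_of_ne hw, zero_smul]
  · intro h
    exact absurd (Finset.mem_univ v) h

private lemma xx_lin {m' : ℕ} (e : Fin m' ≃ Fin m ⊕ V) (p : V → Fin n → ℝ) (a : V → Fin m → ℝ)
    (t μ : ℝ) (v : V) :
    Matrix.toLin' (xx c (fun v i => t * p v i) (fun v j => t * a v j) μ v) =
      t • ev (fun i => gl c (Sum.inl (Sum.inl i))) (fun j => gl c (ia (e j))) p (aa e a) v -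
        (t - μ) • gl c (Sum.inr (Sum.inl v)) := by
  rw [ev_eq, xx_eq, map_add, map_add, map_sum, map_sum, map_smul]
  have h1 : ∑ i, Matrix.toLin' ((t * p v i) • cr c ℝ (Sum.inl (Sum.inl i))) =
      t • ∑ i, p v i • gl c (Sum.inl (Sum.inl i)) := by
    rw [Finset.smul_sum]
    refine Finset.sum_congr rfl fun i _ => ?_
    rw [map_smul, smul_smul]
    rfl
  have h2 : ∑ j, Matrix.toLin' ((t * a v j) • cr c ℝ (Sum.inl (Sum.inr j))) =
      t • ∑ j, a v j • gl c (Sum.inl (Sum.inr j)) := by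
    rw [Finset.smul_sum]
    refine Finset.sum_congr rfl fun i _ => ?_
    rw [map_smul, smul_smul]
    rfl
  have h3 : ∀ P Q g : (D → ℝ) →ₗ[ℝ] (D → ℝ),
      t • P + t • Q + μ • g = t • (P + (Q + g)) - (t - μ) • g := by
    intro P Q g
    module
  rw [h1, h2]
  exact h3 _ _ _

end real

/-- **Certificates from folding vectors.** -/
theorem cert_fold {k : ℕ} {c : (Fin (2 * k) ⊕ Fin m) ⊕ (V ⊕ V) → Matrix D D ℤ}
    (hc : IsCliff3 c) {ν : V → ℕ} (hν : Function.Injective ν) {G : SimpleGraph V}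
    {L : Finset V} {o : Finset V → ℝ} (hK : IsSphere ν G (2 * k) L o)
    {p : V → Fin (2 * k) → ℝ} {a : V → Fin m → ℝ} (hf : IsFoldL G L p a) :
    ∃ (β : (D → ℝ) →ₗ[ℝ] (D → ℝ) →ₗ[ℝ] ℝ) (κ t₀ : ℝ), κ ≠ 0 ∧
      ∀ t μ : ℝ, t₀ ≤ t → 0 ≤ μ → t * t - μ * μ = 1 →
        IsCert ν G k L o β κ fun v =>
          (xmat c (fun v i => t * p v i) (fun v j => t * a v j) μ v).mulVecLin := by
  classical
  obtain ⟨m', e⟩ : ∃ m' : ℕ, Nonempty (Fin m' ≃ Fin m ⊕ V) :=
    ⟨Fintype.card (Fin m ⊕ V), ⟨(Fintype.equivFin _).symm⟩⟩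
  obtain ⟨e⟩ := e
  have hmod := isClMod3 hc e
  obtain ⟨γ, hγ⟩ : ∃ γ : Fin (2 * k) → (D → ℝ) →ₗ[ℝ] (D → ℝ),
    γ = fun i => gl c (Sum.inl (Sum.inl i)) := ⟨_, rfl⟩
  obtain ⟨η, hη⟩ : ∃ η : Fin m' → (D → ℝ) →ₗ[ℝ] (D → ℝ),
    η = fun j => gl c (ia (e j)) := ⟨_, rfl⟩
  rw [← hγ, ← hη] at hmod
  obtain ⟨ep, β, κ, hsys, hT⟩ := exists_sysU (o := o) (p := p) (a := aa e a) hν hK
    (fun u hu v hv huv => by
      rw [aa_dot]
      rcases huv with rfl | huv
      · rw [if_pos rfl]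
        exact hf.one u hu
      · rw [if_neg huv.ne, add_zero]
        exact hf.zero u hu v hv huv)
    (fun u hu v hv h1 h2 => by
      rw [aa_dot, if_neg h1, add_zero]
      exact hf.neg u hu v hv h1 h2) hmod
  have hε : ((-1 : ℝ) ^ (2 * k + 1)) = -1 := by
    rw [pow_succ, pow_mul]
    norm_num
  obtain ⟨E, hE⟩ : ∃ E : V → (D → ℝ) →ₗ[ℝ] (D → ℝ), E = ev γ η p (aa e a) := ⟨_, rfl⟩
  rw [← hE] at hsys
  obtain ⟨cc, hcc⟩ : ∃ cc : V → (D → ℝ) →ₗ[ℝ] (D → ℝ),
    cc = fun v => gl c (Sum.inr (Sum.inr v)) := ⟨_, rfl⟩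
  obtain ⟨gg, hgg⟩ : ∃ gg : V → (D → ℝ) →ₗ[ℝ] (D → ℝ),
    gg = fun v => gl c (Sum.inr (Sum.inl v)) := ⟨_, rfl⟩
  have hccT : ∀ v x y, β (cc v x) y = -β x (cc v y) := by
    intro v x y
    rw [hT (cc v) ?_ ?_ x y, hε, neg_one_mul]
    · intro x y
      rw [hcc]
      simp only
      rw [gl_adj hc]
      simp [sJ]
    · intro i x
      rw [hcc, hγ]
      exact gl_anti hc _ _ (by simp) x
  have hggT : ∀ v x y, β (gg v x) y = -β x (gg v y) := by
    intro v x y
    rw [hT (gg v) ?_ ?_ x y, hε, neg_one_mul]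
    · intro x y
      rw [hgg]
      simp only
      rw [gl_adj hc]
      simp [sJ]
    · intro i x
      rw [hgg, hγ]
      exact gl_anti hc _ _ (by simp) x
  have hlim : IsLim G E cc L := by
    refine ⟨fun u _ v _ x => ?_, fun v _ x => ?_, fun σ v hv hσ hcl x hx => ?_⟩
    · rw [hE, hγ, hη, ev_eq, hcc]
      simp only [LinearMap.add_apply, LinearMap.sum_apply, LinearMap.smul_apply, map_add, map_sum,
        map_smul, neg_add]
      rw [gl_anti hc (Sum.inr (Sum.inl u)) (Sum.inr (Sum.inr v)) (by simp)]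
      congr 1
      · rw [← Finset.sum_neg_distrib]
        refine Finset.sum_congr rfl fun i _ => ?_
        rw [gl_anti hc _ _ (by simp), smul_neg]
      · congr 1
        rw [← Finset.sum_neg_distrib]
        refine Finset.sum_congr rfl fun i _ => ?_
        rw [gl_anti hc _ _ (by simp), smul_neg]
    · rw [hcc]
      simp only
      rw [gl_sq hc]
      simp [sJ]
    · obtain ⟨w, -, h1, h2⟩ := hsys.lift hv hσ hcl (Submodule.mem_top (x := x)) hx
      exact ⟨w, h1, h2⟩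
  -- the bound
  obtain ⟨K, hKdef⟩ : ∃ K : ℝ, K = ∑ v : V,
    ‖LinearMap.toContinuousLinearMap ((gg v).comp (cc v))‖ := ⟨_, rfl⟩
  have hK0 : 0 ≤ K := by
    rw [hKdef]
    exact Finset.sum_nonneg fun v _ => norm_nonneg _
  have hKb : ∀ v x, ‖gg v (cc v x)‖ ≤ K * ‖x‖ := by
    intro v x
    have h1 := (LinearMap.toContinuousLinearMap ((gg v).comp (cc v))).le_opNorm x
    refine h1.trans (mul_le_mul_of_nonneg_right ?_ (norm_nonneg _))
    rw [hKdef]
    exact Finset.single_le_sum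
      (f := fun v => ‖LinearMap.toContinuousLinearMap ((gg v).comp (cc v))‖)
      (fun v _ => norm_nonneg _) (Finset.mem_univ v)
  obtain ⟨δ₀, hδ₀, hcert⟩ := exists_cert hsys hlim K hK0
  have hsg : sgk ((-1 : ℝ) ^ (2 * k + 1)) κ k ≠ 0 := by
    intro h0
    have h1 := sgk_sq3 ((-1 : ℝ) ^ (2 * k + 1)) (by rw [hε]; norm_num) k κ hsys.κ_sq
    rw [h0, mul_zero] at h1
    exact zero_ne_one h1
  refine ⟨β, sgk ((-1 : ℝ) ^ (2 * k + 1)) κ k, max 1 (1 / δ₀), hsg, ?_⟩
  intro t μ ht hμ htμ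
  have ht1 : 1 ≤ t := (le_max_left _ _).trans ht
  have ht0 : 0 < t := lt_of_lt_of_le one_pos ht1
  have htδ : 1 / t ≤ δ₀ := by
    rw [div_le_iff₀ ht0]
    have h1 : 1 / δ₀ ≤ t := (le_max_right _ _).trans ht
    rwa [div_le_iff₀ hδ₀, mul_comm] at h1
  have hθ0 : 0 ≤ t - μ := by nlinarith
  have hθ1 : t - μ ≤ 1 := by nlinarith
  obtain ⟨X, hX⟩ : ∃ X : V → (D → ℝ) →ₗ[ℝ] (D → ℝ), X = fun v =>
    Matrix.toLin' (xx c (fun v i => t * p v i) (fun v j => t * a v j) μ v) := ⟨_, rfl⟩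
  have hXE : ∀ v x, X v x = t • E v x - (t - μ) • gg v x := by
    intro v x
    rw [hX, hE, hgg, hγ, hη]
    simp only
    rw [xx_lin e p a t μ v]
    rfl
  have hAX : ∀ v x, (xmat c (fun v i => t * p v i) (fun v j => t * a v j) μ v).mulVecLin x =
      X v (cc v x) := by
    intro v x
    rw [hX, hcc, xmat_eq]
    change Matrix.toLin' _ x = _
    rw [Matrix.toLin'_mul]
    rfl
  have hdot : ∀ {r : ℕ} (x y : Fin r → ℝ), (fun i => t * x i) ⬝ᵥ (fun i => t * y i) =
      t * t * (x ⬝ᵥ y) := by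
    intro r x y
    simp only [dotProduct, Finset.mul_sum]
    exact Finset.sum_congr rfl fun i _ => by ring
  have hone : ∀ v ∈ L, (fun i => t * p v i) ⬝ᵥ (fun i => t * p v i) -
      (fun i => t * a v i) ⬝ᵥ (fun i => t * a v i) - μ * μ = 1 := by
    intro v hv
    rw [hdot, hdot, hf.one v hv]
    linear_combination htμ
  have hXX : ∀ v ∈ L, ∀ x, X v (X v x) = x := by
    intro v hv x
    rw [hX]
    simp only
    rw [← LinearMap.comp_apply, ← Matrix.toLin'_mul, xx_sq hc]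
    rw [hone v hv, one_smul, Matrix.toLin'_one, LinearMap.id_apply]
  have hXT : ∀ v ∈ L, ∀ x y, β (X v x) y = -β x (X v y) := by
    intro v hv x y
    have h1 := hsys.adj v hv x Submodule.mem_top y Submodule.mem_top
    have h2 := hggT v x y
    rw [hε] at h1
    rw [hXE, hXE]
    simp only [map_sub, map_smul, LinearMap.sub_apply, LinearMap.smul_apply, smul_eq_mul]
    rw [h1, h2]
    ring
  have hc2 : ∀ v x, cc v (cc v x) = -x := by
    intro v x
    rw [hcc]
    simp only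
    rw [gl_sq hc]
    simp [sJ]
  refine hcert (1 / t) (by positivity) htδ _ ⟨?_, ?_, ?_⟩ ?_
  · intro v hv x
    change Matrix.toLin' _ (Matrix.toLin' _ x) = x
    rw [← LinearMap.comp_apply, ← Matrix.toLin'_mul, xmat_sq hc, Matrix.toLin'_one,
      LinearMap.id_apply]
    exact hone v hv
  · intro u hu v hv huv x
    change Matrix.toLin' _ (Matrix.toLin' _ x) = Matrix.toLin' _ (Matrix.toLin' _ x)
    rw [← LinearMap.comp_apply, ← LinearMap.comp_apply, ← Matrix.toLin'_mul,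
      ← Matrix.toLin'_mul, xmat_comm hc _ _ _ u v huv.ne]
    rw [hdot, hdot, hf.zero u hu v hv huv]
  · intro v hv x
    rw [hAX, hXE]
    have h1 : (1 / t) • (t • E v (cc v x) - (t - μ) • gg v (cc v x)) - E v (cc v x) =
        -(((1 / t) * (t - μ)) • gg v (cc v x)) := by
      rw [smul_sub, smul_smul, smul_smul, one_div, inv_mul_cancel₀ ht0.ne', one_smul]
      abel
    rw [h1, norm_neg, norm_smul, Real.norm_eq_abs, abs_of_nonneg (by positivity)]
    have h2 := hKb v x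
    have h3 : 0 ≤ 1 / t := by positivity
    calc 1 / t * (t - μ) * ‖gg v (cc v x)‖ ≤ 1 / t * 1 * (K * ‖x‖) := by
          refine mul_le_mul ?_ h2 (norm_nonneg _) (by positivity)
          exact mul_le_mul_of_nonneg_left hθ1 h3
      _ = K * (1 / t) * ‖x‖ := by ring
  · intro v hv x y
    rw [hAX, hAX, hXT v hv, hXX v hv, hccT, hc2, map_neg, neg_neg]

end Pool.Agent.H4.Fold3
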