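import Pool.Agent.H4.Fold3.LocDefs
import Pool.Agent.H85.Fold.Sphere
import Pool.Agent.H85.Fold.SignS

/-!
# Project FOLD, third stage: circles
-/

set_option autoImplicit false

open Finset

namespace Pool.Agent.H4.Fold3

open Pool.Agent.H85.Fold Pool.Agent.H85.Fold2

section Cyc

variable {V : Type} [DecidableEq V] [Fintype V]

/-- the induced subgraph on `L` -/
private def circH (G : SimpleGraph V) (L : Finset V) : SimpleGraph V where
  Adj u v := u ∈ L ∧ v ∈ L ∧ G.Adj u v
  symm := ⟨fun _ _ h => ⟨h.2.1, h.1, h.2.2.symm⟩⟩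
  loopless := ⟨fun u h => G.loopless.irrefl u h.2.2⟩

omit [DecidableEq V] [Fintype V] in
private theorem circ_mem_fac {G : SimpleGraph V} {n : ℕ} {U σ : Finset V} :
    σ ∈ fac G n U ↔ σ ⊆ U ∧ Cl G σ ∧ σ.card = n := by
  classical
  unfold fac
  simp only [Finset.mem_filter, Finset.mem_powerset]

omit [Fintype V] in
private theorem circ_edge {G : SimpleGraph V} {L : Finset V} {u v : V} :
    insert u {v} ∈ fac G 2 L ↔ (circH G L).Adj v u := by
  rw [circ_mem_fac]
  constructor
  · rintro ⟨h1, h2, h3⟩
    have hne : u ≠ v := by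
      rintro rfl
      simp at h3
    exact ⟨h1 (by simp), h1 (by simp), h2 v (by simp) u (by simp) hne.symm⟩
  · rintro ⟨h1, h2, h3⟩
    have hne : u ≠ v := h3.ne'
    refine ⟨?_, ?_, by simp [hne]⟩
    · intro x hx
      simp only [mem_insert, mem_singleton] at hx
      rcases hx with rfl | rfl
      · exact h2
      · exact h1
    · intro x hx y hy hxy
      simp only [mem_insert, mem_singleton] at hx hy
      rcases hx with rfl | rfl <;> rcases hy with rfl | rfl
      · exact absurd rfl hxy
      · exact h3.symm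
      · exact h3
      · exact absurd rfl hxy

private theorem circ_nbr {ν : V → ℕ} {G : SimpleGraph V} {L : Finset V} {o : Finset V → ℝ}
    (hL : IsSphere ν G 2 L o) {v : V} (hv : v ∈ L) :
    ∃ a b, a ≠ b ∧ (circH G L).neighborSet v = {a, b} := by
  have hcl : Cl G ({v} : Finset V) := by
    intro x hx y hy hxy
    simp only [mem_singleton] at hx hy
    exact absurd (hx.trans hy.symm) hxy
  obtain ⟨a, b, hab, ha, hb, ha', hb', hall, -⟩ :=
    hL.ridge (κ := {v}) (by simpa using hv) hcl (by simp)
  refine ⟨a, b, hab, ?_⟩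
  ext x
  simp only [SimpleGraph.mem_neighborSet, Set.mem_insert_iff, Set.mem_singleton_iff]
  constructor
  · intro hx
    refine hall x ?_ (circ_edge.mpr hx)
    simp only [mem_singleton]
    exact hx.ne'
  · rintro (rfl | rfl)
    · exact circ_edge.mp ha'
    · exact circ_edge.mp hb'

private theorem circ_isCycles {ν : V → ℕ} {G : SimpleGraph V} {L : Finset V} {o : Finset V → ℝ}
    (hL : IsSphere ν G 2 L o) : (circH G L).IsCycles := by
  intro v hv
  obtain ⟨x, hx⟩ := hv
  obtain ⟨a, b, hab, h⟩ := circ_nbr hL hx.1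
  rw [h, Set.ncard_pair hab]

omit [Fintype V] in
/-- connectedness -/
private theorem circ_conn {ν : V → ℕ} (hν : Function.Injective ν) {G : SimpleGraph V}
    {L : Finset V} {o : Finset V → ℝ} (hL : IsSphere ν G 2 L o) (P : V → Prop)
    (hP : ∀ u v, (circH G L).Adj u v → (P u ↔ P v)) {u v : V} (hu : u ∈ L) (hv : v ∈ L)
    (hPu : P u) : P v := by
  classical
  have hex := hL.exact ∅ (by simp) (by intro x hx; simp at hx) 1 (by norm_num)
    (fun σ => if ∃ x ∈ σ, P x then 1 else 0) (by
      intro σ hσ hcl _ hc
      obtain ⟨a, b, hab, rfl⟩ := Finset.card_eq_two.mp hc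
      have hadj : (circH G L).Adj b a := by
        rw [← circ_edge, circ_mem_fac]
        exact ⟨hσ, hcl, by simpa using hc⟩
      have hiff := hP _ _ hadj
      rw [Finset.sdiff_empty, Finset.sum_pair hab]
      have e1 : ({a, b} : Finset V).erase a = {b} := by
        ext x
        simp only [mem_erase, mem_insert, mem_singleton]
        constructor
        · rintro ⟨h1, h2 | h2⟩
          · exact absurd h2 h1
          · exact h2
        · rintro rfl
          exact ⟨hab.symm, Or.inr rfl⟩
      have e2 : ({a, b} : Finset V).erase b = {a} := by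
        ext x
        simp only [mem_erase, mem_insert, mem_singleton]
        constructor
        · rintro ⟨h1, h2 | h2⟩
          · exact h2
          · exact absurd h2 h1
        · rintro rfl
          exact ⟨hab, Or.inl rfl⟩
      rw [e1, e2]
      simp only [mem_singleton, exists_eq_left, hiff]
      have hsg : sgn ν a {a, b} + sgn ν b {a, b} = 0 := by
        have hne : ν a ≠ ν b := fun h => hab (hν h)
        unfold sgn
        rcases lt_or_gt_of_ne hne with h | h
        · have f1 : ({a, b} : Finset V).filter (fun u => ν u < ν a) = ∅ := by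
            ext x
            simp only [mem_filter, mem_insert, mem_singleton, notMem_empty, iff_false]
            rintro ⟨rfl | rfl, h2⟩ <;> omega
          have f2 : ({a, b} : Finset V).filter (fun u => ν u < ν b) = {a} := by
            ext x
            simp only [mem_filter, mem_insert, mem_singleton]
            constructor
            · rintro ⟨rfl | rfl, h2⟩
              · rfl
              · omega
            · rintro rfl
              exact ⟨Or.inl rfl, h⟩
          rw [f1, f2]
          simp
        · have f1 : ({a, b} : Finset V).filter (fun u => ν u < ν b) = ∅ := by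
            ext x
            simp only [mem_filter, mem_insert, mem_singleton, notMem_empty, iff_false]
            rintro ⟨rfl | rfl, h2⟩ <;> omega
          have f2 : ({a, b} : Finset V).filter (fun u => ν u < ν a) = {b} := by
            ext x
            simp only [mem_filter, mem_insert, mem_singleton]
            constructor
            · rintro ⟨rfl | rfl, h2⟩
              · omega
              · rfl
            · rintro rfl
              exact ⟨Or.inr rfl, h⟩
          rw [f1, f2]
          simp
      rw [← add_mul, hsg, zero_mul])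
  obtain ⟨χ, hχ⟩ := hex
  have key : ∀ x ∈ L, (if P x then (1 : ℝ) else 0) = χ ∅ := by
    intro x hx
    have h := hχ {x} (by simpa using hx) (by
      intro a ha b hb hab
      simp only [mem_singleton] at ha hb
      exact absurd (ha.trans hb.symm) hab) (by simp) (by simp)
    have hs : sgn ν x {x} = 1 := by
      unfold sgn
      have : ({x} : Finset V).filter (fun u => ν u < ν x) = ∅ := by
        ext y
        simp only [mem_filter, mem_singleton, notMem_empty, iff_false]
        rintro ⟨rfl, h2⟩
        omega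
      rw [this]
      simp
    simpa [hs] using h
  have h1 := key u hu
  have h2 := key v hv
  rw [if_pos hPu] at h1
  by_contra hne
  rw [if_neg hne] at h2
  linarith

/-- the cyclic enumeration -/
private theorem circ_enum {ν : V → ℕ} (hν : Function.Injective ν) {G : SimpleGraph V}
    {L : Finset V} {o : Finset V → ℝ} (hL : IsSphere ν G 2 L o) :
    ∃ (m : ℕ) (w : ℕ → V), 4 ≤ m ∧ (∀ i < m, ∀ j < m, w i = w j → i = j) ∧
      (∀ v ∈ L, ∃ i < m, w i = v) ∧ w m = w 0 ∧
      (∀ u ∈ L, ∀ v ∈ L, G.Adj u v ↔ ∃ i < m, (u = w i ∧ v = w (i + 1)) ∨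
        (u = w (i + 1) ∧ v = w i)) := by
  classical
  have hcyc := circ_isCycles hL
  obtain ⟨τ, hτ, -, hτ2, -⟩ := hL.pure ∅ (by simp) (by intro x hx; simp at hx)
  have hne : τ.Nonempty := by
    rw [← Finset.card_pos]
    omega
  obtain ⟨v0, hv0'⟩ := hne
  have hv0 : v0 ∈ L := hτ hv0'
  obtain ⟨a, b, hab, hnb⟩ := circ_nbr hL hv0
  have hnon : ((circH G L).neighborSet v0).Nonempty := by
    rw [hnb]
    exact ⟨a, by simp⟩
  obtain ⟨p, hp, hpv⟩ := hcyc.exists_cycle_toSubgraph_verts_eq_connectedComponentSupp
    (c := (circH G L).connectedComponentMk v0) (by simp) hnon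
  have hverts : ∀ v ∈ L, v ∈ p.support := by
    intro v hv
    rw [← SimpleGraph.Walk.mem_verts_toSubgraph, hpv]
    refine circ_conn hν hL (fun x => x ∈ ((circH G L).connectedComponentMk v0).supp) ?_ hv0 hv
      (by simp)
    intro x y hxy
    simp only [SimpleGraph.ConnectedComponent.mem_supp_iff, SimpleGraph.ConnectedComponent.eq]
    constructor
    · intro h
      exact hxy.symm.reachable.trans h
    · intro h
      exact hxy.reachable.trans h
  have hadj : ∀ u ∈ L, ∀ v ∈ L, G.Adj u v ↔ ∃ i < p.length,
      (u = p.getVert i ∧ v = p.getVert (i + 1)) ∨ (u = p.getVert (i + 1) ∧ v = p.getVert i) := by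
    intro u hu v hv
    have h1 : G.Adj u v ↔ (circH G L).Adj u v := ⟨fun h => ⟨hu, hv, h⟩, fun h => h.2.2⟩
    have h2 : u ∈ p.toSubgraph.verts := by
      rw [SimpleGraph.Walk.mem_verts_toSubgraph]
      exact hverts u hu
    rw [h1, ← hp.adj_toSubgraph_iff_of_isCycles hcyc h2 v, SimpleGraph.Walk.toSubgraph_adj_iff]
    constructor
    · rintro ⟨i, h3, h4⟩
      refine ⟨i, h4, ?_⟩
      rw [Sym2.eq_iff] at h3
      rcases h3 with ⟨h5, h6⟩ | ⟨h5, h6⟩
      · exact Or.inl ⟨h5.symm, h6.symm⟩
      · exact Or.inr ⟨h6.symm, h5.symm⟩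
    · rintro ⟨i, h4, h3⟩
      refine ⟨i, ?_, h4⟩
      rw [Sym2.eq_iff]
      rcases h3 with ⟨h5, h6⟩ | ⟨h5, h6⟩
      · exact Or.inl ⟨h5.symm, h6.symm⟩
      · exact Or.inr ⟨h6.symm, h5.symm⟩
  have hinj : ∀ i < p.length, ∀ j < p.length, p.getVert i = p.getVert j → i = j := by
    intro i hi j hj h
    exact hp.getVert_injOn' (by simp; omega) (by simp; omega) h
  refine ⟨p.length, p.getVert, ?_, hinj, ?_, by simp, hadj⟩
  · have h3 := hp.three_le_length
    by_contra hlt
    have hlen : p.length = 3 := by omega
    have hmem : ∀ i < 3, p.getVert i ∈ L := by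
      intro i hi
      exact (p.adj_getVert_succ (i := i) (by omega)).1
    have had : ∀ i < 3, G.Adj (p.getVert i) (p.getVert (i + 1)) := by
      intro i hi
      exact (p.adj_getVert_succ (i := i) (by omega)).2.2
    have h30 : p.getVert 3 = p.getVert 0 := by
      rw [← hlen]
      simp
    have a0 := had 0 (by norm_num)
    have a1 := had 1 (by norm_num)
    have a2 := had 2 (by norm_num)
    norm_num at a0 a1 a2
    have h30' : p.getVert 3 = v0 := by simpa using h30
    rw [h30'] at a2
    have hd := hL.dim {v0, p.getVert 1, p.getVert 2} (by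
      intro x hx
      simp only [mem_insert, mem_singleton] at hx
      rcases hx with rfl | rfl | rfl
      · exact hv0
      · exact hmem 1 (by norm_num)
      · exact hmem 2 (by norm_num)) (by
      intro x hx y hy hxy
      simp only [mem_insert, mem_singleton] at hx hy
      rcases hx with rfl | rfl | rfl <;> rcases hy with rfl | rfl | rfl
      all_goals first
        | exact absurd rfl hxy
        | exact a0
        | exact a0.symm
        | exact a1
        | exact a1.symm
        | exact a2
        | exact a2.symm)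
    have hcard : ({v0, p.getVert 1, p.getVert 2} : Finset V).card = 3 := by
      rw [Finset.card_eq_three]
      exact ⟨v0, _, _, a0.ne, a2.ne', a1.ne, rfl⟩
    omega
  · intro v hv
    have h1 := hverts v hv
    rw [SimpleGraph.Walk.mem_support_iff_exists_getVert] at h1
    obtain ⟨n, hn, hle⟩ := h1
    rcases lt_or_eq_of_le hle with h | h
    · exact ⟨n, h, hn⟩
    · refine ⟨0, by have := hp.three_le_length; omega, ?_⟩
      rw [← hn, h]
      simp

end Cyc

/-- **Circles** have normalized folding vectors: the normals of the right-angled polygons. -/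
theorem circle_foldL {V : Type} [DecidableEq V] [Fintype V] {ν : V → ℕ}
    (hν : Function.Injective ν) {G : SimpleGraph V} {L : Finset V} {o : Finset V → ℝ}
    (hL : IsSphere ν G 2 L o) :
    ∃ (p : V → Fin (2 * 1) → ℝ) (a : V → Fin 1 → ℝ), IsFoldL G L p a := by
  classical
  obtain ⟨m, w, hm, hinj, hsurj, hw0, hadj⟩ := circ_enum hν hL
  choose! idx hidx1 hidx2 using hsurj
  have hmR : (4 : ℝ) ≤ m := by exact_mod_cast hm
  set φ : ℝ := 2 * Real.pi / m with hφ
  have hπ := Real.pi_pos
  have hφpos : 0 < φ := by positivity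
  have hφle : φ ≤ Real.pi / 2 := by
    rw [hφ, div_le_div_iff₀ (by linarith) (by norm_num)]
    nlinarith
  have hmφ : (m : ℝ) * φ = 2 * Real.pi := by
    rw [hφ]
    field_simp
  have hcos0 : 0 ≤ Real.cos φ :=
    Real.cos_nonneg_of_neg_pi_div_two_le_of_le (by linarith) hφle
  have hcos1 : Real.cos φ < 1 := by
    rw [← Real.cos_zero]
    exact Real.cos_lt_cos_of_nonneg_of_le_pi (le_refl 0) (by linarith) hφpos
  have hden : 0 < 1 - Real.cos φ := by linarith
  set r : ℝ := Real.sqrt (1 / (1 - Real.cos φ)) with hr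
  set α : ℝ := Real.sqrt (Real.cos φ / (1 - Real.cos φ)) with hα
  have hr2 : r * r = 1 / (1 - Real.cos φ) := Real.mul_self_sqrt (by positivity)
  have hα2 : α * α = Real.cos φ / (1 - Real.cos φ) := Real.mul_self_sqrt (by positivity)
  have hrα : r * r * Real.cos φ = α * α := by
    rw [hr2, hα2]
    ring
  have hr2pos : 0 < r * r := by
    rw [hr2]
    positivity
  have hdot : ∀ i j : ℕ, (![r * Real.cos (i * φ), r * Real.sin (i * φ)] : Fin (2 * 1) → ℝ) ⬝ᵥ
      (![r * Real.cos (j * φ), r * Real.sin (j * φ)] : Fin (2 * 1) → ℝ) =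
      r * r * Real.cos (i * φ - j * φ) := by
    intro i j
    rw [Real.cos_sub]
    simp [dotProduct, Fin.sum_univ_two]
    ring
  -- the cosines
  have hcosm : ∀ i j : ℕ, Real.cos ((i : ℝ) * φ - ((j + m : ℕ) : ℝ) * φ) =
      Real.cos ((i : ℝ) * φ - (j : ℝ) * φ) := by
    intro i j
    have : (i : ℝ) * φ - ((j + m : ℕ) : ℝ) * φ = ((i : ℝ) * φ - (j : ℝ) * φ) - 2 * Real.pi := by
      push_cast
      linarith
    rw [this, Real.cos_sub_two_pi]
  have hlt : ∀ d : ℕ, 2 ≤ d → d + 2 ≤ m → Real.cos ((d : ℝ) * φ) < Real.cos φ := by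
    intro d hd hdm
    have hdR : (2 : ℝ) ≤ d := by exact_mod_cast hd
    have hdmR : (d : ℝ) + 2 ≤ m := by exact_mod_cast hdm
    rcases le_total ((d : ℝ) * φ) Real.pi with h | h
    · exact Real.cos_lt_cos_of_nonneg_of_le_pi hφpos.le h (by nlinarith)
    · rw [← Real.cos_two_pi_sub]
      exact Real.cos_lt_cos_of_nonneg_of_le_pi hφpos.le (by linarith) (by nlinarith)
  have hnonadj : ∀ i < m, ∀ j < m, i < j → ¬ G.Adj (w i) (w j) → w i ∈ L → w j ∈ L →
      2 ≤ j - i ∧ (j - i) + 2 ≤ m := by
    intro i hi j hj hij hna hwi hwj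
    constructor
    · by_contra hlt'
      have : j = i + 1 := by omega
      subst this
      exact hna ((hadj _ hwi _ hwj).mpr ⟨i, hi, Or.inl ⟨rfl, rfl⟩⟩)
    · by_contra hlt'
      have h1 : i = 0 := by omega
      have h2 : j + 1 = m := by omega
      subst h1
      refine hna ((hadj _ hwi _ hwj).mpr ⟨j, hj, Or.inr ⟨?_, rfl⟩⟩)
      rw [h2, hw0]
  refine ⟨fun v => ![r * Real.cos ((idx v : ℕ) * φ), r * Real.sin ((idx v : ℕ) * φ)],
    fun _ => ![α], ?_, ?_, ?_⟩
  · intro v _
    simp only [hdot, sub_self, Real.cos_zero, mul_one]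
    simp only [dotProduct, univ_unique, Fin.default_eq_zero, Matrix.cons_val_fin_one,
      sum_singleton]
    rw [hr2, hα2]
    field_simp
    ring
  · intro u hu v hv huv
    simp only [hdot]
    simp only [dotProduct, univ_unique, Fin.default_eq_zero, Matrix.cons_val_fin_one,
      sum_singleton]
    rw [← hrα]
    congr 1
    obtain ⟨i, hi, h⟩ := (hadj u hu v hv).mp huv
    -- the cosine of the difference of consecutive indices
    have hstep : ∀ x ∈ L, ∀ y ∈ L, x = w i → y = w (i + 1) →
        Real.cos ((idx x : ℝ) * φ - (idx y : ℝ) * φ) = Real.cos φ := by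
      intro x hx y hy hxi hyi
      have h1 : idx x = i := hinj _ (hidx1 x hx) _ hi (by rw [hidx2 x hx, hxi])
      rcases Nat.lt_or_ge (i + 1) m with h2 | h2
      · have h3 : idx y = i + 1 := hinj _ (hidx1 y hy) _ h2 (by rw [hidx2 y hy, hyi])
        rw [h1, h3]
        have : (i : ℝ) * φ - ((i + 1 : ℕ) : ℝ) * φ = -φ := by
          push_cast
          ring
        rw [this, Real.cos_neg]
      · have h4 : i + 1 = m := by omega
        have h3 : idx y = 0 := hinj _ (hidx1 y hy) _ (by omega) (by
          rw [hidx2 y hy, hyi, h4, hw0])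
        rw [h1, h3]
        have : (i : ℝ) * φ - ((0 : ℕ) : ℝ) * φ = 2 * Real.pi - φ := by
          have h5 : (i : ℝ) + 1 = m := by exact_mod_cast h4
          rw [← hmφ, ← h5]
          push_cast
          ring
        rw [this, Real.cos_two_pi_sub]
    rcases h with ⟨h1, h2⟩ | ⟨h1, h2⟩
    · exact hstep u hu v hv h1 h2
    · rw [← Real.cos_neg, neg_sub]
      exact hstep v hv u hu h2 h1
  · intro u hu v hv hne hna
    simp only [hdot]
    simp only [dotProduct, univ_unique, Fin.default_eq_zero, Matrix.cons_val_fin_one,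
      sum_singleton]
    rw [← hrα]
    refine mul_lt_mul_of_pos_left ?_ hr2pos
    have hmain : ∀ x ∈ L, ∀ y ∈ L, ¬ G.Adj x y → idx x < idx y →
        Real.cos ((idx y : ℝ) * φ - (idx x : ℝ) * φ) < Real.cos φ := by
      intro x hx y hy hxy hlt'
      have h := hnonadj _ (hidx1 x hx) _ (hidx1 y hy) hlt' (by rwa [hidx2 x hx, hidx2 y hy])
        (by rwa [hidx2 x hx]) (by rwa [hidx2 y hy])
      have h2 := hlt _ h.1 h.2
      rw [Nat.cast_sub hlt'.le, sub_mul] at h2
      exact h2
    have hidne : idx u ≠ idx v := by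
      intro h
      apply hne
      rw [← hidx2 u hu, ← hidx2 v hv, h]
    rcases lt_or_gt_of_ne hidne with h | h
    · rw [← Real.cos_neg, neg_sub]
      exact hmain u hu v hv hna h
    · exact hmain v hv u hu (fun h' => hna h'.symm) h

end Pool.Agent.H4.Fold3
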