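import Pool.Agent.H4.Fold3.LocVan
import Pool.Agent.H85.Fold2.GRules

/-!
# Project FOLD, third stage: the class of graphs
-/

set_option autoImplicit false

open Finset

namespace Pool.Agent.H4.Fold3

open Pool.Agent.H85.Fold Pool.Agent.H85.Fold2

/-- A homology sphere of dimension `2 k` in which the link of the vertex `u` is folded with normalized
folding vectors: the right-angled Coxeter group of the link is a reflection group in `O(2 k, m)`. -/
def IsFoldLink {W : Type} [DecidableEq W] [Fintype W] (H : SimpleGraph W) (k : ℕ) (u : W) : Prop :=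
  IsHomologySphere H (2 * k + 1) ∧
    ∃ (m : ℕ) (p : W → Fin (2 * k) → ℝ) (a : W → Fin m → ℝ), IsFoldL H (nbr H u univ) p a

/-- The class of (sets of vertices of) graphs: `fold`: induced subgraphs of folded homology spheres
of dimension `n - 1`; `up`: from `n` to `n + 1`; cones; unions for `n + 2` without edges between the
complements, if the intersection is in the class for `n`; `vertex`: adding a vertex whose link is in
the class for `n - 2`; `even`: for even `n`, adding a vertex whose link is in the class for `n - 1`;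
`loc`: for odd `n`, adding a vertex `u` to an induced subgraph of a homology sphere of dimension
`n - 1` in which the link of `u` has normalized folding vectors. -/
inductive FW {V : Type} [DecidableEq V] [Fintype V] (G : SimpleGraph V) : ℕ → Finset V → Prop
  | empty (n : ℕ) : FW G n ∅
  | fold (n : ℕ) (Y : Finset V) (W : Type) (decW : DecidableEq W) (finW : Fintype W)
      (H : SimpleGraph W) (hH : IsFoldSphere H n) (φ : V → W)
      (hφ : ∀ u ∈ Y, ∀ v ∈ Y, φ u = φ v → u = v)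
      (hadj : ∀ u ∈ Y, ∀ v ∈ Y, G.Adj u v ↔ H.Adj (φ u) (φ v)) : FW G n Y
  | up (n : ℕ) (Y : Finset V) : FW G n Y → FW G (n + 1) Y
  | cone (n : ℕ) (Y : Finset V) (v : V) (hv : ∀ u ∈ Y, G.Adj v u) : FW G n Y →
      FW G n (insert v Y)
  | glue (n : ℕ) (Y Y' : Finset V) (hYY : ∀ u ∈ Y \ Y', ∀ v ∈ Y' \ Y, ¬ G.Adj u v) :
      FW G (n + 2) Y → FW G (n + 2) Y' → FW G n (Y ∩ Y') → FW G (n + 2) (Y ∪ Y')
  | vertex (n : ℕ) (Y : Finset V) (v : V) (hv : v ∈ Y) : FW G n (nbr G v Y) →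
      FW G (n + 2) (Y.erase v) → FW G (n + 2) Y
  | even (n : ℕ) (hn : Even n) (Y : Finset V) (v : V) (hv : v ∈ Y) :
      FW G (n + 1) (nbr G v Y) → FW G (n + 2) (Y.erase v) → FW G (n + 2) Y
  | loc (k : ℕ) (Y : Finset V) (u : V) (hu : u ∈ Y) (W : Type) (decW : DecidableEq W)
      (finW : Fintype W) (H : SimpleGraph W) (φ : V → W)
      (hφ : ∀ u ∈ Y, ∀ v ∈ Y, φ u = φ v → u = v)
      (hadj : ∀ u ∈ Y, ∀ v ∈ Y, G.Adj u v ↔ H.Adj (φ u) (φ v))
      (hH : IsFoldLink H k (φ u)) : FW G (2 * k + 1) (Y.erase u) → FW G (2 * k + 1) Y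

variable {V : Type} [DecidableEq V] [Fintype V] {ν : V → ℕ} {G : SimpleGraph V}

/-- zero growth of all induced subgraphs above the middle -/
def PV (ν : V → ℕ) (G : SimpleGraph V) (n : ℕ) (Y : Finset V) : Prop :=
  ∀ Z ⊆ Y, ∀ i, n < 2 * i → GVan ν G Z i

/-- adding a vertex -/
theorem PV.vertex_aux (hν : Function.Injective ν) {n : ℕ} {Y : Finset V} {v : V}
    (h1 : ∀ Z ⊆ nbr G v Y, ∀ j, n < 2 * (j + 1) → GVan ν G Z j) (h2 : PV ν G n (Y.erase v)) :
    PV ν G n Y := by
  intro Z hZ i hi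
  obtain ⟨j, rfl⟩ : ∃ j, i = j + 1 := ⟨i - 1, by omega⟩
  by_cases hvZ : v ∈ Z
  · have hsub : nbr G v Z ⊆ nbr G v Y := by
      intro u hu
      rw [mem_nbr] at hu ⊢
      exact ⟨hZ hu.1, hu.2⟩
    have g1 := h1 (nbr G v Z) hsub j hi
    have g2 := h2 (Z.erase v) (Finset.erase_subset_erase v hZ) (j + 1) hi
    refine GVan.of_le g2 g1 g1 ?_
    intro P _ _ g hg hgc
    have h3 := bP_vertex ν hν G Z g hg hgc v hvZ j
    omega
  · refine h2 Z ?_ (j + 1) hi
    intro u hu
    exact Finset.mem_erase.2 ⟨fun h => hvZ (h ▸ hu), hZ hu⟩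

/-- **Zero growth for the class.** -/
theorem FW.gvan (hν : Function.Injective ν) {n : ℕ} {Y : Finset V} (h : FW G n Y) :
    PV ν G n Y := by
  induction h with
  | empty n =>
    intro Z hZ i hi
    rw [Finset.subset_empty.1 hZ]
    obtain ⟨j, rfl⟩ : ∃ j, i = j + 1 := ⟨i - 1, by omega⟩
    exact gvan_empty j
  | fold n Y W decW finW H hH φ hφ hadj =>
    intro Z hZ i hi
    exact gvan_fold ν hν G n Z H hH φ (fun u hu v hv => hφ u (hZ hu) v (hZ hv))
      (fun u hu v hv => hadj u (hZ hu) v (hZ hv)) i hi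
  | up n Y _ ih =>
    intro Z hZ i hi
    exact ih Z hZ i (by omega)
  | cone n Y v hv _ ih =>
    intro Z hZ i hi
    by_cases hvZ : v ∈ Z
    · have hZ' : Z.erase v ⊆ Y := by
        intro u hu
        rw [Finset.mem_erase] at hu
        exact (Finset.mem_insert.1 (hZ hu.2)).resolve_left hu.1
      have h1 := ih (Z.erase v) hZ' i hi
      have h2 : Z = insert v (Z.erase v) := (Finset.insert_erase hvZ).symm
      rw [h2]
      refine GVan.of_le h1 h1 h1 ?_
      intro P _ _ g hg hgc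
      have h3 := bP_cone ν hν G (Z.erase v) g hg hgc v (fun u hu => hv u (hZ' hu)) i
      omega
    · refine ih Z ?_ i hi
      intro u hu
      exact (Finset.mem_insert.1 (hZ hu)).resolve_left (fun h => hvZ (h ▸ hu))
  | glue n Y Y' hYY _ _ _ ih1 ih2 ih3 =>
    intro Z hZ i hi
    obtain ⟨j, rfl⟩ : ∃ j, i = j + 1 := ⟨i - 1, by omega⟩
    have h1 := ih1 (Z ∩ Y) Finset.inter_subset_right (j + 1) hi
    have h2 := ih2 (Z ∩ Y') Finset.inter_subset_right (j + 1) hi
    have h3 := ih3 ((Z ∩ Y) ∩ (Z ∩ Y')) (Finset.inter_subset_inter Finset.inter_subset_right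
      Finset.inter_subset_right) j (by omega)
    have hZe : Z = (Z ∩ Y) ∪ (Z ∩ Y') := by
      rw [← Finset.inter_union_distrib_left, Finset.inter_eq_left.2 hZ]
    rw [hZe]
    refine GVan.of_le h1 h2 h3 ?_
    intro P _ _ g hg hgc
    refine bP_glue ν hν G (Z ∩ Y) (Z ∩ Y') ?_ g hg hgc j
    intro u hu v hv
    rw [Finset.mem_sdiff, Finset.mem_inter, Finset.mem_inter] at hu hv
    exact hYY u (Finset.mem_sdiff.2 ⟨hu.1.2, fun h => hu.2 ⟨hu.1.1, h⟩⟩) v
      (Finset.mem_sdiff.2 ⟨hv.1.2, fun h => hv.2 ⟨hv.1.1, h⟩⟩)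
  | vertex n Y v hv _ _ ih1 ih2 =>
    exact PV.vertex_aux hν (fun Z hZ j hj => ih1 Z hZ j (by omega)) ih2
  | even n hn Y v hv _ _ ih1 ih2 =>
    refine PV.vertex_aux hν (fun Z hZ j hj => ih1 Z hZ j ?_) ih2
    obtain ⟨k, rfl⟩ := hn
    omega
  | loc k Y u hu W decW finW H φ hφ hadj hH _ ih =>
    obtain ⟨h1, m, p, a, hf⟩ := hH
    intro Z hZ i hi
    by_cases huZ : u ∈ Z
    · refine gvan_loc ν hν G k Z H h1 φ (fun u hu v hv => hφ u (hZ hu) v (hZ hv))
        (fun u hu v hv => hadj u (hZ hu) v (hZ hv)) u huZ p a hf i (by omega) ?_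
      exact ih (Z.erase u) (Finset.erase_subset_erase u hZ) i hi
    · refine ih Z ?_ i hi
      intro v hv
      exact Finset.mem_erase.2 ⟨fun h => huZ (h ▸ hv), hZ hv⟩

end Pool.Agent.H4.Fold3
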