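import Pool.Agent.H4.Fold3.Defs
import Pool.Agent.H85.Fold.MainA
import Pool.Agent.H85.Fold.TwA

/-!
# Project FOLD, third stage: the middle homology of the limit complex
-/

set_option autoImplicit false

open Finset

namespace Pool.Agent.H4.Fold3

open Pool.Agent.H85.Fold Pool.Agent.H85.Fold2

private theorem near_factor {K X Y : Type} [AddCommGroup K] [Module ℝ K] [AddCommGroup X]
    [Module ℝ X] [AddCommGroup Y] [Module ℝ Y] (f : K →ₗ[ℝ] Y) (g : K →ₗ[ℝ] X)
    (h : ∀ x, f x = 0 → g x = 0) : ∃ Φ : Y →ₗ[ℝ] X, ∀ x, Φ (f x) = g x := by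
  obtain ⟨r, hr⟩ := f.rangeRestrict.exists_rightInverse_of_surjective
    (LinearMap.range_eq_top.2 f.surjective_rangeRestrict)
  obtain ⟨Φ, hΦ⟩ := (g.comp r).exists_extend
  refine ⟨Φ, fun x => ?_⟩
  have h1 : Φ (f x) = g (r (f.rangeRestrict x)) := by
    have := congrArg (fun k => k (f.rangeRestrict x)) hΦ
    simpa using this
  have h2 : f (r (f.rangeRestrict x)) = f x := by
    have := congrArg (fun k => k (f.rangeRestrict x)) hr
    have := congrArg Subtype.val this
    simpa using this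
  have h3 : g (r (f.rangeRestrict x) - x) = 0 := h _ (by rw [map_sub, h2, sub_self])
  rw [h1]
  rw [map_sub, sub_eq_zero] at h3
  exact h3

/-- a left inverse of the inclusion of a subspace -/
private theorem near_proj {E : Type} [AddCommGroup E] [Module ℝ E] (Z : Submodule ℝ E) :
    ∃ P : E →ₗ[ℝ] Z, ∀ z (hz : z ∈ Z), P z = ⟨z, hz⟩ := by
  obtain ⟨P, hP⟩ := Z.subtype.exists_leftInverse_of_injective Z.ker_subtype
  exact ⟨P, fun z hz => congrArg (fun k => k ⟨z, hz⟩) hP⟩

/-- a positive definite form bounds the norm -/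
private theorem near_bound {W : Type} [NormedAddCommGroup W] [NormedSpace ℝ W]
    [FiniteDimensional ℝ W] (q : W →ₗ[ℝ] W →ₗ[ℝ] ℝ) (hq : ∀ w, w ≠ 0 → 0 < q w w) :
    ∃ C : ℝ, 0 ≤ C ∧ ∀ w, ‖w‖ ^ 2 ≤ C * q w w := by
  have hproper : ProperSpace W := FiniteDimensional.proper ℝ W
  rcases subsingleton_or_nontrivial W with hsub | hnt
  · refine ⟨0, le_refl 0, fun w => ?_⟩
    rw [Subsingleton.elim w 0, norm_zero]
    simp
  · have hcont : Continuous fun w : W => q w w := by
      let q' : W →ₗ[ℝ] (W →L[ℝ] ℝ) :=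
        (LinearMap.toContinuousLinearMap : (W →ₗ[ℝ] ℝ) ≃ₗ[ℝ] (W →L[ℝ] ℝ)).toLinearMap.comp q
      have h1 : Continuous q' := q'.continuous_of_finiteDimensional
      exact h1.clm_apply continuous_id
    have hne : (Metric.sphere (0 : W) 1).Nonempty := NormedSpace.sphere_nonempty.2 zero_le_one
    obtain ⟨w0, hw0, hmin⟩ := (isCompact_sphere (0 : W) 1).exists_isMinOn hne hcont.continuousOn
    have hw0' : ‖w0‖ = 1 := by simpa using hw0
    have hm : 0 < q w0 w0 := hq w0 (by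
      intro h
      rw [h, norm_zero] at hw0'
      exact zero_ne_one hw0')
    refine ⟨(q w0 w0)⁻¹, (inv_pos.2 hm).le, fun w => ?_⟩
    by_cases hw : w = 0
    · rw [hw, norm_zero]
      simp
    · have hn : 0 < ‖w‖ := norm_pos_iff.2 hw
      have hmem : ‖w‖⁻¹ • w ∈ Metric.sphere (0 : W) 1 := by
        rw [mem_sphere_zero_iff_norm, norm_smul, norm_inv, norm_norm, inv_mul_cancel₀ hn.ne']
      have h2 : q w0 w0 ≤ q (‖w‖⁻¹ • w) (‖w‖⁻¹ • w) := hmin hmem
      rw [map_smul, map_smul, LinearMap.smul_apply, smul_eq_mul, smul_eq_mul] at h2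
      have h3 : ‖w‖ ^ 2 * q w0 w0 ≤ q w w := by
        calc ‖w‖ ^ 2 * q w0 w0 ≤ ‖w‖ ^ 2 * (‖w‖⁻¹ * (‖w‖⁻¹ * q w w)) :=
              mul_le_mul_of_nonneg_left h2 (sq_nonneg _)
          _ = q w w := by field_simp
      rw [← div_eq_inv_mul, le_div_iff₀ hm]
      exact h3

variable {V : Type} [DecidableEq V] [Fintype V] {S : Type} [NormedAddCommGroup S]
  [NormedSpace ℝ S] [FiniteDimensional ℝ S] {ν : V → ℕ} {G : SimpleGraph V}
  {e : V → S →ₗ[ℝ] S} {ep : Finset V → S →ₗ[ℝ] S} {b : V → V → ℝ} {k : ℕ} {U : Finset V}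
  {β : S →ₗ[ℝ] S →ₗ[ℝ] ℝ} {ε κ : ℝ} {o : Finset V → ℝ}

/-- the form `qT` as a bilinear map -/
private noncomputable def nearQ (Θ : Finset V → Finset V → ℝ) (β : S →ₗ[ℝ] S →ₗ[ℝ] ℝ) :
    (Finset V → S) →ₗ[ℝ] (Finset V → S) →ₗ[ℝ] ℝ :=
  LinearMap.mk₂ ℝ (fun c c' => ∑ σ, ∑ ρ, Θ σ ρ * β (c ρ) (c' σ))
    (fun c c' d => by simp [mul_add, Finset.sum_add_distrib])
    (fun r c d => by
      simp only [Pi.smul_apply, map_smul, LinearMap.smul_apply, smul_eq_mul, Finset.mul_sum]
      exact Finset.sum_congr rfl fun σ _ => Finset.sum_congr rfl fun ρ _ => by ring)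
    (fun c d d' => by simp [mul_add, Finset.sum_add_distrib])
    (fun r c d => by
      simp only [Pi.smul_apply, map_smul, smul_eq_mul, Finset.mul_sum]
      exact Finset.sum_congr rfl fun σ _ => Finset.sum_congr rfl fun ρ _ => by ring)

omit [FiniteDimensional ℝ S] [DecidableEq V] in
private theorem nearQ_apply (Θ : Finset V → Finset V → ℝ) (β : S →ₗ[ℝ] S →ₗ[ℝ] ℝ)
    (c c' : Finset V → S) : nearQ Θ β c c' = qT Θ β c c' := rfl

omit [FiniteDimensional ℝ S] [DecidableEq V] in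
private theorem near_pr {Θ : Finset V → Finset V → ℝ} {y : Finset V → Finset V → S}
    {c : Finset V → S} (hy : ∀ σ, y ∅ σ = ∑ ρ, Θ σ ρ • c ρ) (c' : Finset V → S) :
    pr β y c' = qT Θ β c c' := by
  unfold pr qT
  refine Finset.sum_congr rfl fun σ _ => ?_
  rw [hy, map_sum, LinearMap.sum_apply]
  refine Finset.sum_congr rfl fun ρ _ => ?_
  rw [map_smul, LinearMap.smul_apply, smul_eq_mul]

/-- Projections to the cycles, primitives of their boundary parts, and a bound of the rest by the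
form on the middle homology. -/
theorem exists_near (hs : Sys ν G e ep b (2 * k) U ⊤ β ε κ o) (Θ : Finset V → Finset V → ℝ)
    (hΘ : IsTheta ν G (2 * k) U o k Θ) :
    ∃ (P H : (Finset V → S) →ₗ[ℝ] (Finset V → S))
      (Φ : ((Finset V → V → S) × (Finset V → S)) →ₗ[ℝ] (Finset V → S)) (C : ℝ), 0 ≤ C ∧
      (∀ x, IsF G e ⊤ U k (P x) ∧ bd ν (P x) = 0) ∧
      (∀ x, IsF G e ⊤ U (k + 1) (H x)) ∧
      (∀ x : Finset V → S, (∀ σ, x σ ≠ 0 → σ ⊆ U ∧ Cl G σ ∧ σ.card = k) →
        x = P x + Φ (fun σ v => if v ∈ σ then e v (x σ) else 0, bd ν x)) ∧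
      ∀ x, ‖P x - bd ν (H x)‖ ^ 2 ≤ C * (sgk ε κ k * qT Θ β (P x) (P x)) := by
  -- definiteness
  have hdef : Definite ν G e k U ⊤ β ε κ o := (pk_all ν G e ep b (2 * k) U ⊤ β ε κ o hs).2.2 k rfl
  have hpos : ∀ z, IsF G e ⊤ U k z → bd ν z = 0 → 0 ≤ sgk ε κ k * qT Θ β z z ∧
      (qT Θ β z z = 0 → ∃ y, IsF G e ⊤ U (k + 1) y ∧ bd ν y = z) := by
    intro z hz hz0
    obtain ⟨x, hx, hx1⟩ := hΘ S e ⊤ z hz hz0
    have := hdef z x hz hz0 hx
    rwa [near_pr hx1] at this
  have hleft : ∀ g, IsF G e ⊤ U (k + 1) g → ∀ z, IsF G e ⊤ U k z → bd ν z = 0 →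
      IsF G e ⊤ U k (bd ν g) → qT Θ β (bd ν g) z = 0 ∧ qT Θ β z (bd ν g) = 0 := by
    intro g hg z hz hz0 hgF
    constructor
    · obtain ⟨x, hx, hx1⟩ := hΘ S e ⊤ (bd ν g) hgF (bd_bd ν hs.inj g)
      rw [← near_pr hx1]
      exact pr_bd_left hs hx hg rfl hz hz0
    · obtain ⟨x, hx, hx1⟩ := hΘ S e ⊤ z hz hz0
      rw [← near_pr hx1]
      exact pr_bd hs hx.isD hx.closed hg
  let Cs : ℕ → Submodule ℝ (Finset V → S) := fun i =>
    { carrier := {y | IsF G e ⊤ U i y}
      add_mem' := fun ha hb => IsF.add ha hb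
      zero_mem' := IsF.zero
      smul_mem' := fun r _ ha => IsF.smul ha r }
  let Z : Submodule ℝ (Finset V → S) := Cs k ⊓ LinearMap.ker (bd ν)
  let f : Cs (k + 1) →ₗ[ℝ] (Finset V → S) := (bd ν).comp (Cs (k + 1)).subtype
  let B : Submodule ℝ (Finset V → S) := LinearMap.range f
  have hBZ : ∀ y, IsF G e ⊤ U (k + 1) y → bd ν y ∈ Z := by
    intro y hy
    refine ⟨?_, ?_⟩
    · exact isF_bd ν hy
    · exact bd_bd ν hs.inj y
  obtain ⟨P0, hP0⟩ := near_proj Z
  obtain ⟨π, hπ⟩ := near_proj B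
  obtain ⟨s, hs'⟩ := f.rangeRestrict.exists_rightInverse_of_surjective
    (LinearMap.range_eq_top.2 f.surjective_rangeRestrict)
  let P : (Finset V → S) →ₗ[ℝ] (Finset V → S) := Z.subtype.comp P0
  let H : (Finset V → S) →ₗ[ℝ] (Finset V → S) :=
    (Cs (k + 1)).subtype.comp (s.comp (π.comp P))
  have hPZ : ∀ x, P x ∈ Z := fun x => (P0 x).2
  have hPid : ∀ z ∈ Z, P z = z := fun z hz => by
    change ((P0 z : Z) : Finset V → S) = z
    rw [hP0 z hz]
  have hH : ∀ x, IsF G e ⊤ U (k + 1) (H x) := fun x => (s (π (P x))).2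
  have hbH : ∀ x, bd ν (H x) = (π (P x) : Finset V → S) := by
    intro x
    have := congrArg (fun k => k (π (P x))) hs'
    have := congrArg Subtype.val this
    exact this
  let W : Submodule ℝ (Finset V → S) := Z ⊓ LinearMap.ker π
  let q : W →ₗ[ℝ] W →ₗ[ℝ] ℝ :=
    (sgk ε κ k) • ((nearQ Θ β).compl₁₂ W.subtype W.subtype)
  have hq : ∀ w : W, q w w = sgk ε κ k * qT Θ β (w : Finset V → S) (w : Finset V → S) :=
    fun w => rfl
  obtain ⟨C, hC, hCb⟩ := near_bound q (by
    intro w hw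
    have hwZ : (w : Finset V → S) ∈ Z := w.2.1
    have h1 := hpos w hwZ.1 hwZ.2
    rw [hq]
    refine lt_of_le_of_ne h1.1 (fun h2 => hw ?_)
    have h3 : sgk ε κ k ≠ 0 := by
      have h4 : ∀ (k : ℕ) (κ : ℝ), κ * κ = 1 → sgk ε κ k ≠ 0 := by
        intro k
        induction k with
        | zero =>
          intro κ hκ h
          change κ = 0 at h
          rw [h] at hκ
          norm_num at hκ
        | succ k ih =>
          intro κ hκ
          change ε * (-1) ^ k * sgk ε (-κ) k ≠ 0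
          refine mul_ne_zero (mul_ne_zero ?_ (pow_ne_zero _ (by norm_num))) (ih _ (by linarith))
          intro h
          have := hs.ε_sq
          rw [h] at this
          norm_num at this
      exact h4 k κ hs.κ_sq
    have h5 : qT Θ β (w : Finset V → S) (w : Finset V → S) = 0 := by
      rcases mul_eq_zero.1 h2.symm with h | h
      · exact absurd h h3
      · exact h
    obtain ⟨y, hy, hyw⟩ := h1.2 h5
    have h6 : (w : Finset V → S) ∈ B := ⟨⟨y, hy⟩, hyw⟩
    have h7 : π (w : Finset V → S) = 0 := w.2.2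
    rw [hπ _ h6] at h7
    have h8 := congrArg Subtype.val h7
    exact Subtype.ext h8)
  -- the factorization
  let K : Submodule ℝ (Finset V → S) :=
    { carrier := {x | ∀ σ, x σ ≠ 0 → σ ⊆ U ∧ Cl G σ ∧ σ.card = k}
      add_mem' := by
        intro a b ha hb σ hσ
        by_cases h : a σ = 0
        · refine hb σ fun h' => hσ ?_
          rw [Pi.add_apply, h, h', add_zero]
        · exact ha σ h
      zero_mem' := by
        intro σ hσ
        exact absurd rfl hσ
      smul_mem' := by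
        intro r a ha σ hσ
        refine ha σ fun h' => hσ ?_
        rw [Pi.smul_apply, h', smul_zero] }
  let T : (Finset V → S) →ₗ[ℝ] ((Finset V → V → S) × (Finset V → S)) :=
    { toFun := fun x => (fun σ v => if v ∈ σ then e v (x σ) else 0, bd ν x)
      map_add' := by
        intro x y
        refine Prod.ext ?_ ?_
        · funext σ v
          by_cases h : v ∈ σ <;> simp [h]
        · simp
      map_smul' := by
        intro r x
        refine Prod.ext ?_ ?_
        · funext σ v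
          by_cases h : v ∈ σ <;> simp [h]
        · simp }
  obtain ⟨Φ, hΦ⟩ := near_factor (T.comp K.subtype) ((LinearMap.id - P).comp K.subtype) (by
      rintro ⟨x, hx⟩ h0
      have h1 : ∀ σ, ∀ v ∈ σ, e v (x σ) = 0 := by
        intro σ v hv
        have := congrFun (congrFun (congrArg Prod.fst h0) σ) v
        have h2 : (if v ∈ σ then e v (x σ) else 0) = 0 := this
        rwa [if_pos hv] at h2
      have h2 : bd ν x = 0 := congrArg Prod.snd h0
      have h3 : x ∈ Z := ⟨⟨fun _ => Submodule.mem_top, h1, hx⟩, h2⟩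
      change x - P x = 0
      rw [hPid x h3, sub_self])
  refine ⟨P, H, Φ, C, hC, fun x => hPZ x, hH, fun x hx => ?_, fun x => ?_⟩
  · have h1 : Φ (T x) = x - P x := hΦ ⟨x, hx⟩
    change x = P x + Φ (T x)
    rw [h1]
    abel
  · have hw1 : P x - bd ν (H x) ∈ Z := Z.sub_mem (hPZ x) (hBZ _ (hH x))
    have hw2 : π (P x - bd ν (H x)) = 0 := by
      rw [map_sub, hbH, hπ _ (π (P x)).2, sub_self]
    have h1 := hCb ⟨P x - bd ν (H x), hw1, hw2⟩
    rw [hq] at h1
    have h2 : qT Θ β (P x - bd ν (H x)) (P x - bd ν (H x)) = qT Θ β (P x) (P x) := by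
      have ha := hleft (H x) (hH x) (P x) (hPZ x).1 (hPZ x).2 (hBZ _ (hH x)).1
      have hb := hleft (H x) (hH x) (bd ν (H x)) (hBZ _ (hH x)).1 (hBZ _ (hH x)).2
        (hBZ _ (hH x)).1
      simp only [← nearQ_apply] at ha hb ⊢
      simp only [map_sub, LinearMap.sub_apply]
      rw [ha.1, ha.2, hb.1]
      ring
    rw [← h2]
    exact h1

end Pool.Agent.H4.Fold3
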