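import Pool.Agent.H4.Fold3.Defs
import Pool.Agent.H85.Fold.Res
import Pool.Agent.H85.Fold.Flux

/-!
# Project FOLD, third stage: the pairing for general isotropic kernels, and the local flux
-/

set_option autoImplicit false

open Finset

namespace Pool.Agent.H4.Fold3

open Pool.Agent.H85.Fold Pool.Agent.H85.Fold2

variable {V : Type} [DecidableEq V] [Fintype V] {S : Type} [AddCommGroup S] [Module ℝ S]
  {ν : V → ℕ} {G : SimpleGraph V} {n : ℕ} {U : Finset V} {o : Finset V → ℝ}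
  {e : V → S →ₗ[ℝ] S} {β : S →ₗ[ℝ] S →ₗ[ℝ] ℝ}

/-- `d1` of a double chain is orthogonal to chains with coefficients in the kernels -/
private theorem prI_d1 (hiso : ∀ v ∈ U, ∀ x y, e v x = 0 → e v y = 0 → β x y = 0) {m i j : ℕ}
    {c : Finset V → S} {x : Finset V → Finset V → S} (hx : IsD G e m ⊤ U i x)
    (hc : IsF G e ⊤ U j c) : pr β (d1 ν x) c = 0 := by
  refine sum_eq_zero fun σ _ => ?_
  by_cases h0 : c σ = 0
  · rw [h0, map_zero]
  · have h3 : d1 ν x ∅ σ = ∑ v ∈ σ \ ∅, sgn ν v ∅ • x (insert v ∅) σ := rfl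
    rw [h3, map_sum, LinearMap.sum_apply]
    refine sum_eq_zero fun v hv => ?_
    rw [sdiff_empty] at hv
    rw [map_smul, LinearMap.smul_apply,
      hiso v ((hc.supp σ h0).1 hv) _ _ (hx.ker _ _ v (mem_insert_self v ∅)) (hc.ker σ v hv),
      smul_zero]

/-- resolutions of boundaries are orthogonal to cycles -/
theorem prI_bd_left (hν : Function.Injective ν) (hK : IsSphere ν G n U o)
    (hiso : ∀ v ∈ U, ∀ x y, e v x = 0 → e v y = 0 → β x y = 0) {i j : ℕ} {c c' g : Finset V → S}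
    {x : Finset V → Finset V → S} (hx : IsRes ν G e n ⊤ U o i c x) (hg : IsF G e ⊤ U (i + 1) g)
    (hgc : bd ν g = c) (hc' : IsF G e ⊤ U j c') (hbd : bd ν c' = 0) : pr β x c' = 0 := by
  obtain ⟨y, hy, rfl⟩ := hx.of_bd hν hK hg hgc
  rw [pr_add_left, prI_d1 hiso hy hc',
    ← pr_bd_right hy fun σ h => ⟨(hc'.supp σ h).1, (hc'.supp σ h).2.1⟩, hbd, zero_add]
  exact sum_eq_zero fun σ _ => map_zero _

/-- resolutions are orthogonal to boundaries -/
theorem prI_bd_right (hiso : ∀ v ∈ U, ∀ x y, e v x = 0 → e v y = 0 → β x y = 0) {i j : ℕ}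
    {c : Finset V → S} {x : Finset V → Finset V → S} (hx : IsD G e n ⊤ U i x)
    (hcl : d1 ν x = d2 ν G U x) (hc : IsF G e ⊤ U (j + 1) c) : pr β x (bd ν c) = 0 := by
  rw [pr_bd_right hx fun σ h => ⟨(hc.supp σ h).1, (hc.supp σ h).2.1⟩, ← hcl]
  exact prI_d1 hiso hx hc

private theorem fluxL_pr (ν : V → ℕ) (w : V) (B : S →ₗ[ℝ] S →ₗ[ℝ] ℝ)
    (x : Finset V → Finset V → S) (c : Finset V → S) :
    pr B (comp2 ν w x) (comp ν w c) =
      ∑ σ : Finset V, if w ∈ σ then B (x {w} σ) (c σ) else 0 := by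
  have h1 : pr B (comp2 ν w x) (comp ν w c) =
      ∑ κ : Finset V, if w ∉ κ then B (x {w} (insert w κ)) (c (insert w κ)) else 0 := by
    unfold pr
    apply Finset.sum_congr rfl
    intro κ _
    by_cases hw : w ∈ κ
    · rw [if_neg (not_not_intro hw)]
      have : comp ν w c κ = 0 := by
        change (if w ∈ κ then (0 : S) else _) = 0
        rw [if_pos hw]
      rw [this, map_zero]
    · rw [if_pos hw]
      have e1 : comp ν w c κ = sgn ν w κ • c (insert w κ) := by
        change (if w ∈ κ then (0 : S) else _) = _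
        rw [if_neg hw]
      have e2 : comp2 ν w x ∅ κ = (sgn ν w ∅ * sgn ν w κ) • x (insert w ∅) (insert w κ) := by
        change (if w ∈ (∅ : Finset V) ∨ w ∈ κ then (0 : S) else _) = _
        rw [if_neg]
        rintro (h | h)
        · exact absurd h (Finset.notMem_empty _)
        · exact hw h
      have e3 : (insert w ∅ : Finset V) = {w} := rfl
      rw [e1, e2, sgn_empty, one_mul, e3, map_smul, map_smul, LinearMap.smul_apply, smul_eq_mul,
        smul_eq_mul, ← mul_assoc, sgn_sq, one_mul]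
  rw [h1, ← Finset.sum_filter, ← Finset.sum_filter]
  apply Finset.sum_nbij' (fun κ => insert w κ) (fun σ => σ.erase w)
  · intro κ _
    rw [Finset.mem_filter]
    exact ⟨Finset.mem_univ _, Finset.mem_insert_self _ _⟩
  · intro σ _
    rw [Finset.mem_filter]
    exact ⟨Finset.mem_univ _, Finset.notMem_erase _ _⟩
  · intro κ hκ
    exact Finset.erase_insert (Finset.mem_filter.mp hκ).2
  · intro σ hσ
    exact Finset.insert_erase (Finset.mem_filter.mp hσ).2
  · intro κ _
    rfl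

/-- **The local flux.** If all kernels but one are isotropic, the components at the exceptional
vertex are orthogonal. -/
theorem fluxL {u : V} (hu : u ∈ U)
    (hiso : ∀ v ∈ U, v ≠ u → ∀ x y, e v x = 0 → e v y = 0 → β x y = 0) {i j : ℕ}
    {c : Finset V → S} {x : Finset V → Finset V → S} (hx : IsD G e n ⊤ U i x)
    (hcl : d1 ν x = d2 ν G U x) (hc : IsF G e ⊤ U j c) (hbd : bd ν c = 0) :
    pr β (comp2 ν u x) (comp ν u c) = 0 := by
  have h0 : pr β (d1 ν x) c = 0 := by
    rw [hcl, ← pr_bd_right hx fun σ h => ⟨(hc.supp σ h).1, (hc.supp σ h).2.1⟩, hbd]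
    exact sum_eq_zero fun σ _ => map_zero _
  rw [fluxL_pr]
  refine Eq.trans ?_ h0
  unfold pr
  refine sum_congr rfl fun σ _ => ?_
  by_cases h1 : c σ = 0
  · rw [h1, map_zero, map_zero, ite_self]
  have h3 : d1 ν x ∅ σ = ∑ v ∈ σ, x {v} σ := by
    change ∑ v ∈ σ \ ∅, sgn ν v ∅ • x (insert v ∅) σ = _
    rw [sdiff_empty]
    refine sum_congr rfl fun v _ => ?_
    rw [sgn_empty, one_smul]
    rfl
  rw [h3, map_sum, LinearMap.sum_apply]
  have h4 : ∀ v ∈ σ, v ≠ u → β (x {v} σ) (c σ) = 0 := fun v hv hvu =>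
    hiso v ((hc.supp σ h1).1 hv) hvu _ _ (hx.ker _ _ v (mem_singleton_self v)) (hc.ker σ v hv)
  by_cases h5 : u ∈ σ
  · rw [if_pos h5, sum_eq_single_of_mem u h5 h4]
  · rw [if_neg h5]
    symm
    refine sum_eq_zero fun v hv => h4 v hv ?_
    rintro rfl
    exact h5 hv

/-- the twisted kernels are isotropic -/
theorem iso_tw {A : V → S →ₗ[ℝ] S} {Ω : Type} [Fintype Ω] {s : V → Ω → Ω} {v : V}
    (hs : ∀ ω, s v (s v ω) = ω) (hA : ∀ x y, β (A v x) (A v y) = -β x y) (f g : Ω → S)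
    (hf : etw A s v f = 0) (hg : etw A s v g = 0) : bsum β Ω f g = 0 := by
  have hf' : ∀ ω, f (s v ω) = -A v (f ω) := fun ω => by
    have h : f (s v ω) + A v (f ω) = 0 := congrFun hf ω
    exact eq_neg_of_add_eq_zero_left h
  have hg' : ∀ ω, g (s v ω) = -A v (g ω) := fun ω => by
    have h : g (s v ω) + A v (g ω) = 0 := congrFun hg ω
    exact eq_neg_of_add_eq_zero_left h
  have h1 : bsum β Ω f g = ∑ ω, β (f ω) (g ω) := rfl
  have h2 : ∑ ω, β (f (s v ω)) (g (s v ω)) = ∑ ω, β (f ω) (g ω) :=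
    Equiv.sum_comp (Function.Involutive.toPerm (s v) hs) fun ω => β (f ω) (g ω)
  have h3 : ∑ ω, β (f (s v ω)) (g (s v ω)) = -∑ ω, β (f ω) (g ω) := by
    rw [← sum_neg_distrib]
    refine sum_congr rfl fun ω _ => ?_
    rw [hf', hg', map_neg, map_neg, LinearMap.neg_apply, neg_neg, hA]
  rw [h1]
  linarith

end Pool.Agent.H4.Fold3
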