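import Pool.Agent.H4.Fold3.Deform2
import Pool.Agent.H4.Fold3.PairI
import Pool.Agent.H4.Fold3.Near

/-!
# Project FOLD, third stage: definiteness of the form on the twisted middle homology
-/

set_option autoImplicit false

open Finset

namespace Pool.Agent.H4.Fold3

open Pool.Agent.H85.Fold Pool.Agent.H85.Fold2

section aux

variable {V : Type} [DecidableEq V] [Fintype V] {S : Type} [NormedAddCommGroup S]
  [NormedSpace ℝ S] [FiniteDimensional ℝ S]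

private theorem bilin_bound (β : S →ₗ[ℝ] S →ₗ[ℝ] ℝ) :
    ∃ C : ℝ, 0 ≤ C ∧ ∀ x y, |β x y| ≤ C * ‖x‖ * ‖y‖ := by
  obtain ⟨C, hC, h⟩ := exists_bound
    ((LinearMap.toContinuousLinearMap : (S →ₗ[ℝ] ℝ) ≃ₗ[ℝ] (S →L[ℝ] ℝ)).toLinearMap.comp β)
  refine ⟨C, hC, fun x y => ?_⟩
  have h1 := (LinearMap.toContinuousLinearMap (β x)).le_opNorm y
  have h2 : ‖LinearMap.toContinuousLinearMap (β x)‖ ≤ C * ‖x‖ := h x
  calc |β x y| = ‖LinearMap.toContinuousLinearMap (β x) y‖ := rfl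
    _ ≤ ‖LinearMap.toContinuousLinearMap (β x)‖ * ‖y‖ := h1
    _ ≤ C * ‖x‖ * ‖y‖ := by gcongr

omit [DecidableEq V] in
private theorem qT_bound (Θ : Finset V → Finset V → ℝ) (β : S →ₗ[ℝ] S →ₗ[ℝ] ℝ) :
    ∃ C : ℝ, 0 ≤ C ∧ ∀ a b : Finset V → S, |qT Θ β a b| ≤ C * (‖a‖ * ‖b‖) := by
  obtain ⟨C, hC, h⟩ := bilin_bound β
  refine ⟨(∑ σ, ∑ ρ, |Θ σ ρ|) * C, mul_nonneg (sum_nonneg fun σ _ => sum_nonneg fun ρ _ =>
    abs_nonneg _) hC, fun a b => ?_⟩
  have key : ∀ σ ρ, |Θ σ ρ * β (a ρ) (b σ)| ≤ |Θ σ ρ| * (C * (‖a‖ * ‖b‖)) := by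
    intro σ ρ
    rw [abs_mul]
    refine mul_le_mul_of_nonneg_left ((h _ _).trans ?_) (abs_nonneg _)
    rw [mul_assoc]
    refine mul_le_mul_of_nonneg_left ?_ hC
    exact mul_le_mul (norm_le_pi_norm a ρ) (norm_le_pi_norm b σ) (norm_nonneg _) (norm_nonneg _)
  calc |qT Θ β a b| ≤ ∑ σ, |∑ ρ, Θ σ ρ * β (a ρ) (b σ)| := abs_sum_le_sum_abs _ _
    _ ≤ ∑ σ, ∑ ρ, |Θ σ ρ * β (a ρ) (b σ)| := sum_le_sum fun σ _ => abs_sum_le_sum_abs _ _
    _ ≤ ∑ σ, ∑ ρ, |Θ σ ρ| * (C * (‖a‖ * ‖b‖)) :=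
      sum_le_sum fun σ _ => sum_le_sum fun ρ _ => key σ ρ
    _ = (∑ σ, ∑ ρ, |Θ σ ρ|) * C * (‖a‖ * ‖b‖) := by
      simp only [← Finset.sum_mul]
      ring

omit [DecidableEq V] [FiniteDimensional ℝ S] in
private theorem qT_diff (Θ : Finset V → Finset V → ℝ) (β : S →ₗ[ℝ] S →ₗ[ℝ] ℝ)
    (c p : Finset V → S) :
    qT Θ β p p = qT Θ β c c - (qT Θ β (c - p) c + qT Θ β p (c - p)) := by
  unfold qT
  simp only [Pi.sub_apply, map_sub, LinearMap.sub_apply, mul_sub, Finset.sum_sub_distrib]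
  ring

omit [DecidableEq V] [FiniteDimensional ℝ S] in
private theorem pr_theta (Θ : Finset V → Finset V → ℝ) (β : S →ₗ[ℝ] S →ₗ[ℝ] ℝ) (Ω : Type)
    [Fintype Ω] (f : Finset V → Ω → S) (x : Finset V → Finset V → Ω → S)
    (hx : ∀ σ, x ∅ σ = ∑ ρ, Θ σ ρ • f ρ) :
    pr (bsum β Ω) x f = ∑ ω, qT Θ β (fun σ => f σ ω) (fun σ => f σ ω) := by
  unfold pr qT
  rw [Finset.sum_comm]
  refine Finset.sum_congr rfl fun σ _ => ?_
  rw [hx]
  change (∑ ω, β ((∑ ρ, Θ σ ρ • f ρ) ω) (f σ ω)) = _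
  refine Finset.sum_congr rfl fun ω _ => ?_
  rw [Finset.sum_apply]
  simp only [Pi.smul_apply, map_sum, map_smul, LinearMap.sum_apply, LinearMap.smul_apply,
    smul_eq_mul]

end aux

section aux2

variable {V : Type} [DecidableEq V] [Fintype V] {S : Type} [NormedAddCommGroup S]
  [NormedSpace ℝ S] {ν : V → ℕ} {G : SimpleGraph V} {e : V → S →ₗ[ℝ] S} {β : S →ₗ[ℝ] S →ₗ[ℝ] ℝ}
  {n i : ℕ} {U : Finset V} {o : Finset V → ℝ}

omit [DecidableEq V] in
private theorem pr_sub_left' {S : Type} [AddCommGroup S] [Module ℝ S] (β : S →ₗ[ℝ] S →ₗ[ℝ] ℝ)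
    (x x' : Finset V → Finset V → S) (c : Finset V → S) :
    pr β (x - x') c = pr β x c - pr β x' c := by
  unfold pr
  rw [← Finset.sum_sub_distrib]
  refine Finset.sum_congr rfl fun σ _ => ?_
  rw [Pi.sub_apply, Pi.sub_apply, map_sub, LinearMap.sub_apply]

omit [DecidableEq V] in
private theorem pr_sub_right' {S : Type} [AddCommGroup S] [Module ℝ S] (β : S →ₗ[ℝ] S →ₗ[ℝ] ℝ)
    (x : Finset V → Finset V → S) (c c' : Finset V → S) :
    pr β x (c - c') = pr β x c - pr β x c' := by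
  unfold pr
  rw [← Finset.sum_sub_distrib]
  refine Finset.sum_congr rfl fun σ _ => ?_
  rw [Pi.sub_apply, map_sub]

/-- the value of the form on cycles does not depend on the resolution -/
private theorem pr_indep {S : Type} [AddCommGroup S] [Module ℝ S] {e : V → S →ₗ[ℝ] S}
    {β : S →ₗ[ℝ] S →ₗ[ℝ] ℝ} (hν : Function.Injective ν)
    (hK : IsSphere ν G n U o) (hiso : ∀ v ∈ U, ∀ x y, e v x = 0 → e v y = 0 → β x y = 0)
    {f f' y : Finset V → S} {x x' : Finset V → Finset V → S}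
    (hx : IsRes ν G e n ⊤ U o i f x) (hx' : IsRes ν G e n ⊤ U o i f' x')
    (hy : IsF G e ⊤ U (i + 1) y) (hyf : bd ν y = f - f') (hf' : IsF G e ⊤ U i f')
    (hb' : bd ν f' = 0) : pr β x f = pr β x' f' := by
  have h1 : pr β (x - x') f' = 0 := prI_bd_left hν hK hiso (hx.sub hx') hy hyf hf' hb'
  have h2 : pr β x (bd ν y) = 0 := prI_bd_right hiso hx.isD hx.closed hy
  rw [hyf, pr_sub_right'] at h2
  rw [pr_sub_left'] at h1
  linarith

end aux2

variable {V : Type} [DecidableEq V] [Fintype V] {S : Type} [NormedAddCommGroup S]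
  [NormedSpace ℝ S] [FiniteDimensional ℝ S] {ν : V → ℕ} {G : SimpleGraph V}
  {e c : V → S →ₗ[ℝ] S} {ep : Finset V → S →ₗ[ℝ] S} {b : V → V → ℝ} {k : ℕ} {U : Finset V}
  {β : S →ₗ[ℝ] S →ₗ[ℝ] ℝ} {ε κ : ℝ} {o : Finset V → ℝ}

/-- **The estimate.** A twisted cycle on which the form is not positive is close to a twisted
boundary. -/
private theorem deftw_estimate (hs : Sys ν G e ep b (2 * k) U ⊤ β ε κ o) (h : IsLim G e c U)
    (Θ : Finset V → Finset V → ℝ) (hΘ : IsTheta ν G (2 * k) U o k Θ) (K : ℝ) (hK : 0 ≤ K) :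
    ∃ δ₀ : ℝ, 0 < δ₀ ∧ δ₀ ≤ 1 ∧ ∀ δ : ℝ, 0 < δ → δ ≤ δ₀ →
      ∀ A : V → S →ₗ[ℝ] S, IsApp G e c U K δ A →
        ∀ (Ω : Type) [Fintype Ω] (s : V → Ω → Ω), IsActOn G U s →
          ∀ f, IsF G (etw A s) ⊤ U k f → bd ν f = 0 →
            sgk ε κ k * ∑ ω, qT Θ β (fun σ => f σ ω) (fun σ => f σ ω) ≤ 0 →
              ∃ y, IsF G (etw A s) ⊤ U (k + 1) y ∧
                n2 (fun ω σ => (f - bd ν y) σ ω) ≤ n2 (fun ω σ => f σ ω) / 2 := by
  obtain ⟨P, H, Φ, CQ, hCQ, hP, hH, hΦ, hQ⟩ := exists_near hs Θ hΘ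
  obtain ⟨CD, hCD, hD⟩ := deform2 h K hK
  obtain ⟨CK, hCK, hKn⟩ := ker_near h K hK
  obtain ⟨Cq, hCq, hq⟩ := qT_bound Θ β
  obtain ⟨CΦ, hCΦ, hΦb⟩ := exists_bound Φ
  obtain ⟨CP, hCP, hPb⟩ := exists_bound P
  obtain ⟨CH, hCH, hHb⟩ := exists_bound H
  obtain ⟨Cb, hCb, hbb⟩ := exists_bound (bd ν : (Finset V → S) →ₗ[ℝ] (Finset V → S))
  -- the constants
  set Ca : ℝ := CΦ * CK with hCa
  have hCa0 : 0 ≤ Ca := mul_nonneg hCΦ hCK
  set C3 : ℝ := |sgk ε κ k| * (Cq * (1 + CP) * Ca) with hC3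
  have hC30 : 0 ≤ C3 := mul_nonneg (abs_nonneg _)
    (mul_nonneg (mul_nonneg hCq (by linarith)) hCa0)
  set C4 : ℝ := Ca + Cb * (CD * CH) with hC4
  have hC40 : 0 ≤ C4 := add_nonneg hCa0 (mul_nonneg hCb (mul_nonneg hCD hCH))
  have hM : (0 : ℝ) < 4 * C4 + 16 * (CQ * C3) + 1 := by
    have := mul_nonneg hCQ hC30
    linarith
  refine ⟨1 / (4 * C4 + 16 * (CQ * C3) + 1), one_div_pos.2 hM, ?_, ?_⟩
  · rw [div_le_one hM]
    have := mul_nonneg hCQ hC30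
    linarith
  intro δ hδ hδ0 A hA Ω _ s hact f hf hbf hsg
  have hδM : δ * (4 * C4 + 16 * (CQ * C3) + 1) ≤ 1 := by
    rwa [le_div_iff₀ hM] at hδ0
  have hCC := mul_nonneg hCQ hC30
  have hδ1 : δ ≤ 1 := by nlinarith [mul_nonneg hδ.le hC40, mul_nonneg hδ.le hCC]
  have hδa : δ * C4 ≤ 1 / 4 := by nlinarith [mul_nonneg hδ.le hC40, mul_nonneg hδ.le hCC]
  have hδb : δ * (CQ * C3) ≤ 1 / 16 := by
    nlinarith [mul_nonneg hδ.le hC40, mul_nonneg hδ.le hCC]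
  -- notation
  let cc : Ω → Finset V → S := fun ω σ => f σ ω
  set N : ℝ := n2 (fun ω σ => f σ ω) with hN
  have hNcc : n2 cc = N := rfl
  have hN0 : 0 ≤ N := n2_nonneg _
  have hsuppc : ∀ ω, ∀ σ, cc ω σ ≠ 0 → σ ⊆ U ∧ Cl G σ ∧ σ.card = k := by
    intro ω σ hne
    refine hf.supp σ fun h0 => hne ?_
    change f σ ω = 0
    rw [h0]
    rfl
  have hbdc : ∀ ω, bd ν (cc ω) = 0 := by
    intro ω
    funext ρ
    have h1 : (bd ν f) ρ ω = 0 := by rw [hbf]; rfl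
    refine Eq.trans ?_ h1
    change (∑ v ∈ ρᶜ, sgn ν v ρ • f (insert v ρ) ω) = (∑ v ∈ ρᶜ, sgn ν v ρ • f (insert v ρ)) ω
    rw [Finset.sum_apply]
    rfl
  -- the distance from the cycles of the limit complex
  have e1 : n2 (fun ω => cc ω - P (cc ω)) ≤ Ca * δ * N := by
    have h1 : n2 (fun ω => cc ω - P (cc ω)) ≤
        CΦ * n2 (fun ω => (fun σ v => if v ∈ σ then e v (f σ ω) else 0 : Finset V → V → S)) := by
      refine n2_le_mul _ _ CΦ hCΦ fun ω => ?_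
      have h2 := hΦ (cc ω) (hsuppc ω)
      have h3 : cc ω - P (cc ω) =
          Φ (fun σ v => if v ∈ σ then e v (cc ω σ) else 0, bd ν (cc ω)) := by
        rw [sub_eq_iff_eq_add, add_comm]
        exact h2
      rw [h3, hbdc]
      refine (hΦb _).trans (mul_le_mul_of_nonneg_left ?_ hCΦ)
      rw [Prod.norm_def, norm_zero]
      exact max_le le_rfl (norm_nonneg _)
    have h4 := hKn δ hδ hδ1 A hA Ω s hact f (fun σ hne => (hf.supp σ hne).1) hf.ker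
    calc n2 (fun ω => cc ω - P (cc ω)) ≤ CΦ * (CK * δ * N) :=
          h1.trans (mul_le_mul_of_nonneg_left h4 hCΦ)
      _ = Ca * δ * N := by rw [hCa]; ring
  -- the form
  have e2 : n2 (fun ω => P (cc ω) - bd ν (H (cc ω))) ^ 2 ≤ CQ * C3 * δ * N ^ 2 := by
    rw [n2_sq]
    have h1 : ∑ ω, ‖P (cc ω) - bd ν (H (cc ω))‖ ^ 2 ≤
        CQ * (sgk ε κ k * ∑ ω, qT Θ β (P (cc ω)) (P (cc ω))) := by
      rw [Finset.mul_sum, Finset.mul_sum]
      exact sum_le_sum fun ω _ => hQ (cc ω)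
    have h2 : sgk ε κ k * ∑ ω, qT Θ β (P (cc ω)) (P (cc ω)) ≤ C3 * δ * N ^ 2 := by
      have h3 : ∑ ω, qT Θ β (P (cc ω)) (P (cc ω)) = ∑ ω, qT Θ β (cc ω) (cc ω) -
          ∑ ω, (qT Θ β (cc ω - P (cc ω)) (cc ω) + qT Θ β (P (cc ω)) (cc ω - P (cc ω))) := by
        rw [← Finset.sum_sub_distrib]
        exact Finset.sum_congr rfl fun ω _ => qT_diff Θ β (cc ω) (P (cc ω))
      have h4 : |∑ ω, (qT Θ β (cc ω - P (cc ω)) (cc ω) +
          qT Θ β (P (cc ω)) (cc ω - P (cc ω)))| ≤ Cq * (1 + CP) * (Ca * δ * N) * N := by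
        have h5 : ∀ ω, |qT Θ β (cc ω - P (cc ω)) (cc ω) +
            qT Θ β (P (cc ω)) (cc ω - P (cc ω))| ≤
              Cq * (1 + CP) * (‖cc ω - P (cc ω)‖ * ‖cc ω‖) := by
          intro ω
          refine (abs_add_le _ _).trans ((add_le_add (hq _ _) (hq _ _)).trans ?_)
          have h6 : ‖P (cc ω)‖ * ‖cc ω - P (cc ω)‖ ≤ CP * (‖cc ω - P (cc ω)‖ * ‖cc ω‖) := by
            have := mul_le_mul_of_nonneg_right (hPb (cc ω)) (norm_nonneg (cc ω - P (cc ω)))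
            linarith
          have h7 := mul_le_mul_of_nonneg_left h6 hCq
          linarith
        refine (abs_sum_le_sum_abs _ _).trans ((sum_le_sum fun ω _ => h5 ω).trans ?_)
        rw [← Finset.mul_sum]
        have h8 := n2_cs (fun ω => cc ω - P (cc ω)) cc
        have h9 : n2 (fun ω => cc ω - P (cc ω)) * n2 cc ≤ (Ca * δ * N) * N := by
          rw [hNcc]
          exact mul_le_mul_of_nonneg_right e1 hN0
        have h10 := mul_le_mul_of_nonneg_left (h8.trans h9)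
          (mul_nonneg hCq (by linarith : (0 : ℝ) ≤ 1 + CP))
        linarith
      rw [h3, mul_sub]
      have h11 : sgk ε κ k * ∑ ω, qT Θ β (cc ω) (cc ω) ≤ 0 := hsg
      have h12 := neg_abs_le (sgk ε κ k * ∑ ω, (qT Θ β (cc ω - P (cc ω)) (cc ω) +
          qT Θ β (P (cc ω)) (cc ω - P (cc ω))))
      rw [abs_mul] at h12
      have h13 := mul_le_mul_of_nonneg_left h4 (abs_nonneg (sgk ε κ k))
      have h14 : |sgk ε κ k| * (Cq * (1 + CP) * (Ca * δ * N) * N) = C3 * δ * N ^ 2 := by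
        rw [hC3]
        ring
      linarith
    calc ∑ ω, ‖P (cc ω) - bd ν (H (cc ω))‖ ^ 2 ≤ CQ * (C3 * δ * N ^ 2) :=
          h1.trans (mul_le_mul_of_nonneg_left h2 hCQ)
      _ = CQ * C3 * δ * N ^ 2 := by ring
  have e2' : n2 (fun ω => P (cc ω) - bd ν (H (cc ω))) ≤ N / 4 := by
    have h1 : n2 (fun ω => P (cc ω) - bd ν (H (cc ω))) ^ 2 ≤ (N / 4) ^ 2 := by
      refine e2.trans ?_
      have h2 : CQ * C3 * δ * N ^ 2 ≤ 1 / 16 * N ^ 2 := by
        refine mul_le_mul_of_nonneg_right ?_ (sq_nonneg N)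
        linarith
      refine h2.trans (le_of_eq ?_)
      ring
    exact (sq_le_sq₀ (n2_nonneg _) (by linarith)).1 h1
  -- the deformation
  obtain ⟨z, hz1, hz2, hz3⟩ := hD δ hδ hδ1 A hA Ω s hact (fun σ ω => H (cc ω) σ)
    (fun σ hne => by
      have : ∃ ω, H (cc ω) σ ≠ 0 := by
        by_contra hcon
        push Not at hcon
        exact hne (funext hcon)
      obtain ⟨ω, hω⟩ := this
      exact ⟨((hH (cc ω)).supp σ hω).1, ((hH (cc ω)).supp σ hω).2.1⟩)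
    (fun σ v hv ω => (hH (cc ω)).ker σ v hv)
  have hzF : IsF G (etw A s) ⊤ U (k + 1) z := by
    refine ⟨fun σ => Submodule.mem_top, hz2, fun σ hne => ?_⟩
    have h1 : (fun ω => H (cc ω) σ) ≠ 0 := fun h0 => hne (hz1 σ h0)
    have : ∃ ω, H (cc ω) σ ≠ 0 := by
      by_contra hcon
      push Not at hcon
      exact h1 (funext hcon)
    obtain ⟨ω, hω⟩ := this
    exact (hH (cc ω)).supp σ hω
  refine ⟨z, hzF, ?_⟩
  have e3 : n2 (fun ω => bd ν (fun σ => H (cc ω) σ - z σ ω)) ≤ Cb * (CD * CH) * δ * N := by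
    have h1 : n2 (fun ω => bd ν (fun σ => H (cc ω) σ - z σ ω)) ≤
        Cb * n2 (fun ω => (fun σ => H (cc ω) σ - z σ ω : Finset V → S)) :=
      n2_le_mul _ _ Cb hCb fun ω => hbb _
    have h2 : n2 (fun ω => (fun σ => H (cc ω) σ - z σ ω : Finset V → S)) ≤
        1 * n2 (fun ω σ => (z - fun σ ω => H (cc ω) σ) σ ω) := by
      refine n2_le_mul _ _ 1 zero_le_one fun ω => ?_
      rw [one_mul]
      apply le_of_eq
      have h3 : (fun σ => H (cc ω) σ - z σ ω : Finset V → S) =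
          -(fun σ => (z - fun σ ω => H (cc ω) σ) σ ω : Finset V → S) := by
        funext σ
        simp
      rw [h3, norm_neg]
    have h4 : n2 (fun ω σ => H (cc ω) σ) ≤ CH * N := by
      rw [← hNcc]
      exact n2_le_mul _ _ CH hCH fun ω => hHb _
    have h5 := mul_le_mul_of_nonneg_left h4 (mul_nonneg hCD hδ.le)
    have h6 := mul_le_mul_of_nonneg_left ((h2.trans_eq (one_mul _)).trans (hz3.trans h5)) hCb
    refine h1.trans (h6.trans (le_of_eq ?_))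
    ring
  have hdec : (fun ω σ => (f - bd ν z) σ ω : Ω → Finset V → S) =
      ((fun ω => cc ω - P (cc ω)) + fun ω => P (cc ω) - bd ν (H (cc ω))) +
        fun ω => bd ν (fun σ => H (cc ω) σ - z σ ω) := by
    funext ω
    have h1 : bd ν (fun σ => H (cc ω) σ - z σ ω) = bd ν (H (cc ω)) - bd ν (fun σ => z σ ω) := by
      rw [← map_sub]
      rfl
    have h2 : (fun σ => (f - bd ν z) σ ω : Finset V → S) = cc ω - bd ν (fun σ => z σ ω) := by
      funext ρ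
      change f ρ ω - (bd ν z) ρ ω = f ρ ω - bd ν (fun σ => z σ ω) ρ
      congr 1
      change (∑ v ∈ ρᶜ, sgn ν v ρ • z (insert v ρ)) ω = ∑ v ∈ ρᶜ, sgn ν v ρ • z (insert v ρ) ω
      rw [Finset.sum_apply]
      rfl
    rw [h2, Pi.add_apply, Pi.add_apply, h1]
    abel
  rw [hdec]
  refine (n2_add_le _ _).trans ?_
  have e4 := n2_add_le (fun ω => cc ω - P (cc ω)) (fun ω => P (cc ω) - bd ν (H (cc ω)))
  have e5 : Ca * δ * N + Cb * (CD * CH) * δ * N = δ * C4 * N := by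
    rw [hC4]
    ring
  have e6 : δ * C4 * N ≤ 1 / 4 * N := mul_le_mul_of_nonneg_right hδa hN0
  linarith

/-- **Definiteness.** -/
theorem def_tw (hs : Sys ν G e ep b (2 * k) U ⊤ β ε κ o) (h : IsLim G e c U)
    (Θ : Finset V → Finset V → ℝ) (hΘ : IsTheta ν G (2 * k) U o k Θ) (K : ℝ) (hK : 0 ≤ K) :
    ∃ δ₀ : ℝ, 0 < δ₀ ∧ δ₀ ≤ 1 ∧ ∀ δ : ℝ, 0 < δ → δ ≤ δ₀ →
      ∀ A : V → S →ₗ[ℝ] S, IsApp G e c U K δ A →
        (∀ v ∈ U, ∀ x y, β (A v x) (A v y) = -β x y) →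
        ∀ (Ω : Type) [Fintype Ω] (s : V → Ω → Ω), IsActOn G U s →
          ∀ f x, IsF G (etw A s) ⊤ U k f → bd ν f = 0 →
            IsRes ν G (etw A s) (2 * k) ⊤ U o k f x →
              0 ≤ sgk ε κ k * pr (bsum β Ω) x f ∧
                (pr (bsum β Ω) x f = 0 → ∃ y, IsF G (etw A s) ⊤ U (k + 1) y ∧ bd ν y = f) := by
  obtain ⟨δ₀, h0, h1, hest⟩ := deftw_estimate hs h Θ hΘ K hK
  refine ⟨δ₀, h0, h1, ?_⟩
  intro δ hδ hδ0 A hA hskew Ω _ s hact f x hf hbf hx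
  have hiso : ∀ v ∈ U, ∀ g g' : Ω → S, etw A s v g = 0 → etw A s v g' = 0 →
      bsum β Ω g g' = 0 := fun v hv g g' hg hg' =>
    iso_tw (hact.inv v hv) (hskew v hv) g g' hg hg'
  -- the value of the form
  have hval : ∀ f' x', IsF G (etw A s) ⊤ U k f' → bd ν f' = 0 →
      IsRes ν G (etw A s) (2 * k) ⊤ U o k f' x' →
        pr (bsum β Ω) x' f' = ∑ ω, qT Θ β (fun σ => f' σ ω) (fun σ => f' σ ω) := by
    intro f' x' hf' hb' hx'
    obtain ⟨x0, hx0, hx0'⟩ := hΘ (Ω → S) (etw A s) ⊤ f' hf' hb'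
    rw [← pr_theta Θ β Ω f' x0 hx0']
    exact pr_indep hs.inj hs.sphere hiso hx' hx0 IsF.zero (by rw [map_zero, sub_self])
      hf' hb'
  -- the claim
  have key : sgk ε κ k * pr (bsum β Ω) x f ≤ 0 →
      ∃ y, IsF G (etw A s) ⊤ U (k + 1) y ∧ bd ν y = f := by
    intro hle
    let B : Submodule ℝ (Ω → Finset V → S) :=
      { carrier := {g | ∃ y, IsF G (etw A s) ⊤ U (k + 1) y ∧ g = fun ω σ => (bd ν y) σ ω}
        add_mem' := by
          rintro _ _ ⟨y, hy, rfl⟩ ⟨y', hy', rfl⟩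
          refine ⟨y + y', hy.add hy', ?_⟩
          funext ω σ
          rw [map_add]
          rfl
        zero_mem' := by
          refine ⟨0, IsF.zero, ?_⟩
          funext ω σ
          rw [map_zero]
          rfl
        smul_mem' := by
          rintro r _ ⟨y, hy, rfl⟩
          refine ⟨r • y, hy.smul r, ?_⟩
          funext ω σ
          rw [map_smul]
          rfl }
    obtain ⟨b0, ⟨y0, hy0, hb0⟩, hmin⟩ := n2_closest B (fun ω σ => f σ ω)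
    -- the difference
    have hbb : bd ν (bd ν y0) = 0 := bd_bd ν hs.inj y0
    have hf1b : bd ν (f - bd ν y0) = 0 := by rw [map_sub, hbf, hbb, sub_zero]
    have hbdF : IsF G (etw A s) ⊤ U k (bd ν y0) := isF_bd ν hy0
    have hf1 : IsF G (etw A s) ⊤ U k (f - bd ν y0) := hf.sub hbdF
    obtain ⟨x1, hx1, hx1'⟩ := hΘ (Ω → S) (etw A s) ⊤ (f - bd ν y0) hf1 hf1b
    have hv1 : pr (bsum β Ω) x f = pr (bsum β Ω) x1 (f - bd ν y0) :=
      pr_indep hs.inj hs.sphere hiso hx hx1 hy0 (by abel) hf1 hf1b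
    have hle1 : sgk ε κ k * ∑ ω, qT Θ β (fun σ => (f - bd ν y0) σ ω)
        (fun σ => (f - bd ν y0) σ ω) ≤ 0 := by
      rw [← hval (f - bd ν y0) x1 hf1 hf1b hx1, ← hv1]
      exact hle
    obtain ⟨y1, hy1, hn1⟩ := hest δ hδ hδ0 A hA Ω s hact (f - bd ν y0) hf1 hf1b hle1
    have hmem : (fun ω σ => (bd ν (y0 + y1)) σ ω : Ω → Finset V → S) ∈ B :=
      ⟨y0 + y1, hy0.add hy1, rfl⟩
    have hm := hmin _ hmem
    have g1 : ((fun ω σ => f σ ω) - b0 : Ω → Finset V → S) =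
        fun ω σ => (f - bd ν y0) σ ω := by
      rw [hb0]
      rfl
    have g2 : ((fun ω σ => f σ ω) - fun ω σ => (bd ν (y0 + y1)) σ ω : Ω → Finset V → S) =
        fun ω σ => (f - bd ν y0 - bd ν y1) σ ω := by
      funext ω σ
      rw [map_add]
      change f σ ω - ((bd ν y0) σ ω + (bd ν y1) σ ω) = f σ ω - (bd ν y0) σ ω - (bd ν y1) σ ω
      abel
    rw [g1, g2] at hm
    have hn0 := n2_nonneg (fun ω σ => (f - bd ν y0) σ ω : Ω → Finset V → S)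
    have hz : n2 (fun ω σ => (f - bd ν y0) σ ω : Ω → Finset V → S) = 0 := by linarith
    have hz' := n2_eq_zero _ hz
    refine ⟨y0, hy0, ?_⟩
    have hfin : f - bd ν y0 = 0 := by
      funext σ ω
      exact congrFun (congrFun hz' ω) σ
    exact (sub_eq_zero.1 hfin).symm
  refine ⟨?_, fun hp => key (by rw [hp, mul_zero])⟩
  by_contra hneg
  push Not at hneg
  obtain ⟨y, hy, hyf⟩ := key hneg.le
  have h2 : pr (bsum β Ω) x f = 0 :=
    prI_bd_left hs.inj hs.sphere hiso hx hy hyf hf hbf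
  rw [h2, mul_zero] at hneg
  exact lt_irrefl _ hneg

end Pool.Agent.H4.Fold3
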