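import Pool.Agent.H4.Fold3.L2
import Pool.Agent.H85.Fold.TwA

/-!
# Project FOLD, third stage: deformation in the square norm
-/

set_option autoImplicit false

open Finset

namespace Pool.Agent.H4.Fold3

open Pool.Agent.H85.Fold Pool.Agent.H85.Fold2

variable {V : Type} [DecidableEq V] [Fintype V] {S : Type} [NormedAddCommGroup S]
  [NormedSpace ℝ S] [FiniteDimensional ℝ S] {G : SimpleGraph V} {e c : V → S →ₗ[ℝ] S}
  {U : Finset V}

/-- the common kernel -/
private def dfK (e : V → S →ₗ[ℝ] S) (σ : Finset V) : Submodule ℝ S where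
  carrier := {y | ∀ v ∈ σ, e v y = 0}
  add_mem' := by
    intro a b ha hb v hv
    rw [map_add, ha v hv, hb v hv, add_zero]
  zero_mem' := fun v _ => map_zero _
  smul_mem' := by
    intro r a ha v hv
    rw [map_smul, ha v hv, smul_zero]

/-- a linear section of `e v ∘ c v` -/
private theorem df_section (h : IsLim G e c U) {σ : Finset V} {v : V} (hv : v ∉ σ)
    (hU : insert v σ ⊆ U) (hcl : Cl G (insert v σ)) :
    ∃ D : S →ₗ[ℝ] S, (∀ x, ∀ u ∈ σ, e u (D x) = 0) ∧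
      ∀ x, (∀ u ∈ insert v σ, e u x = 0) → e v (c v (D x)) = x := by
  have hvU : v ∈ U := hU (Finset.mem_insert_self _ _)
  let E : dfK e σ →ₗ[ℝ] S := ((e v).comp (c v)).comp (dfK e σ).subtype
  obtain ⟨r, hr⟩ := LinearMap.exists_rightInverse_of_surjective E.rangeRestrict
    (LinearMap.range_rangeRestrict E)
  obtain ⟨D, hD⟩ := LinearMap.exists_extend r
  refine ⟨(dfK e σ).subtype.comp D, fun x u hu => (D x).2 u hu, fun x hx => ?_⟩
  obtain ⟨m, hm1, hm2⟩ := h.lift σ v hv hU hcl x hx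
  have hmem : x ∈ LinearMap.range E := by
    refine ⟨⟨-c v m, fun u hu => ?_⟩, ?_⟩
    · rw [map_neg, h.ec u (hU (Finset.mem_insert_of_mem hu)) v hvU, hm1 u hu, map_zero, neg_zero,
        neg_zero]
    · show e v (c v (-c v m)) = x
      rw [map_neg, h.c_sq v hvU, neg_neg, hm2]
  have h1 : D x = r ⟨x, hmem⟩ := by
    rw [← hD]
    rfl
  have h2 : E (r ⟨x, hmem⟩) = x := by
    have h3 := congrArg Subtype.val (LinearMap.congr_fun hr ⟨x, hmem⟩)
    exact h3
  have h4 : E (D x) = x := by rw [h1, h2]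
  exact h4

/-- **Deformation for one simplex.** The constant does not depend on the finite set `Ω`. -/
theorem deform2_simplex (h : IsLim G e c U) (K : ℝ) (hK : 0 ≤ K) (σ : Finset V) (hσU : σ ⊆ U)
    (hσ : Cl G σ) :
    ∃ C : ℝ, 0 ≤ C ∧ ∀ δ : ℝ, 0 < δ → δ ≤ 1 → ∀ A : V → S →ₗ[ℝ] S, IsApp G e c U K δ A →
      ∀ (Ω : Type) [Fintype Ω] (s : V → Ω → Ω), IsActOn G U s →
        ∀ z : Ω → S, (∀ ω, ∀ v ∈ σ, e v (z ω) = 0) →
          ∃ z' : Ω → S, (∀ v ∈ σ, etw A s v z' = 0) ∧ n2 (z' - z) ≤ C * δ * n2 z := by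
  induction σ using Finset.induction_on with
  | empty =>
    refine ⟨0, le_rfl, fun δ _ _ A _ Ω _ s _ z _ => ⟨z, fun v hv => absurd hv
      (Finset.notMem_empty v), ?_⟩⟩
    have h0 : n2 (z - z) ≤ 0 * n2 z := n2_le_mul (z - z) z 0 le_rfl fun ω => by simp
    simpa using h0
  | insert v σ hv ih =>
    have hcσ : Cl G σ := fun a ha b hb hab =>
      hσ a (Finset.mem_insert_of_mem ha) b (Finset.mem_insert_of_mem hb) hab
    have hvU : v ∈ U := hσU (Finset.mem_insert_self _ _)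
    have hσU' : σ ⊆ U := fun a ha => hσU (Finset.mem_insert_of_mem ha)
    obtain ⟨C, hC0, hC⟩ := ih hσU' hcσ
    obtain ⟨D, hD1, hD2⟩ := df_section h hv hσU hσ
    obtain ⟨CD, hCD0, hCD⟩ := exists_bound D
    obtain ⟨CE, hCE0, hCE⟩ := exists_bound ((e v).comp (c v))
    refine ⟨CE * C * CD + (K + 1) * (1 + C) * CD, by positivity, ?_⟩
    intro δ hδ hδ1 A hA Ω _ s hs z hz
    have hm : ∀ ω, ∀ u ∈ σ, e u (D (z ω)) = 0 := fun ω u hu => hD1 _ u hu
    obtain ⟨m', hm1, hm2⟩ := hC δ hδ hδ1 A hA Ω s hs (fun ω => D (z ω)) hm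
    have hm1' : ∀ u ∈ σ, ∀ ω, m' (s u ω) = -A u (m' ω) := by
      intro u hu ω
      have h1 : m' (s u ω) + A u (m' ω) = 0 := congrFun (hm1 u hu) ω
      exact eq_neg_of_add_eq_zero_left h1
    have hz0 : 0 ≤ n2 z := n2_nonneg z
    have hmn : n2 (fun ω => D (z ω) : Ω → S) ≤ CD * n2 z :=
      n2_le_mul _ _ CD hCD0 fun ω => hCD _
    have hmn' : n2 m' ≤ (1 + C) * (CD * n2 z) := by
      have h1 : n2 m' ≤ n2 (m' - (fun ω => D (z ω))) + n2 (fun ω => D (z ω) : Ω → S) := by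
        have := n2_add_le (m' - (fun ω => D (z ω))) (fun ω => D (z ω))
        rwa [sub_add_cancel] at this
      have h2 : C * δ * n2 (fun ω => D (z ω) : Ω → S) ≤ C * (CD * n2 z) := by
        have h3 : 0 ≤ CD * n2 z := by positivity
        calc C * δ * n2 (fun ω => D (z ω) : Ω → S) ≤ C * δ * (CD * n2 z) :=
              mul_le_mul_of_nonneg_left hmn (by positivity)
          _ ≤ C * 1 * (CD * n2 z) :=
              mul_le_mul_of_nonneg_right (mul_le_mul_of_nonneg_left hδ1 hC0) h3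
          _ = C * (CD * n2 z) := by ring
      calc n2 m' ≤ C * (CD * n2 z) + CD * n2 z := by linarith
        _ = (1 + C) * (CD * n2 z) := by ring
    refine ⟨fun ω => δ • (A v (m' ω) - m' (s v ω)), ?_, ?_⟩
    · intro u hu
      funext ω
      rcases Finset.mem_insert.1 hu with rfl | huσ
      · show δ • (A u (m' (s u ω)) - m' (s u (s u ω))) +
          A u (δ • (A u (m' ω) - m' (s u ω))) = 0
        rw [hs.inv u hvU, map_smul, map_sub, hA.sq u hvU, ← smul_add]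
        rw [sub_add_sub_cancel, sub_self, smul_zero]
      · have huv : u ≠ v := fun h' => hv (h' ▸ huσ)
        have hadj : G.Adj v u := hσ v (Finset.mem_insert_self _ _) u hu (Ne.symm huv)
        show δ • (A v (m' (s u ω)) - m' (s v (s u ω))) +
          A u (δ • (A v (m' ω) - m' (s v ω))) = 0
        rw [hs.comm v hvU u (hσU' huσ) hadj, hm1' u huσ ω, hm1' u huσ (s v ω), map_smul, map_sub,
          map_neg, hA.comm v hvU u (hσU' huσ) hadj, ← smul_add]
        have h0 : -A u (A v (m' ω)) - -A u (m' (s v ω)) +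
            (A u (A v (m' ω)) - A u (m' (s v ω))) = 0 := by abel
        rw [h0, smul_zero]
    · have hsplit : (fun ω => δ • (A v (m' ω) - m' (s v ω))) - z =
          ((fun ω => δ • A v (m' ω) - e v (c v (m' ω))) +
            (fun ω => ((e v).comp (c v)) (m' ω - D (z ω)))) - δ • (fun ω => m' (s v ω)) := by
        funext ω
        show δ • (A v (m' ω) - m' (s v ω)) - z ω =
          (δ • A v (m' ω) - e v (c v (m' ω))) + e v (c v (m' ω - D (z ω))) - δ • m' (s v ω)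
        rw [smul_sub, map_sub, map_sub, hD2 (z ω) (hz ω)]
        abel
      rw [hsplit]
      have h2 : n2 (fun ω => ((e v).comp (c v)) (m' ω - D (z ω))) ≤
          CE * (C * δ * (CD * n2 z)) := by
        have h3 : n2 (fun ω => ((e v).comp (c v)) (m' ω - D (z ω))) ≤
            CE * n2 (m' - fun ω => D (z ω)) :=
          n2_le_mul _ _ CE hCE0 fun ω => hCE _
        have h4 : C * δ * n2 (fun ω => D (z ω) : Ω → S) ≤ C * δ * (CD * n2 z) :=
          mul_le_mul_of_nonneg_left hmn (by positivity)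
        exact h3.trans (mul_le_mul_of_nonneg_left (hm2.trans h4) hCE0)
      have h1 : n2 (fun ω => δ • A v (m' ω) - e v (c v (m' ω))) ≤
          K * δ * ((1 + C) * (CD * n2 z)) := by
        have h3 : n2 (fun ω => δ • A v (m' ω) - e v (c v (m' ω))) ≤ K * δ * n2 m' :=
          n2_le_mul _ _ (K * δ) (by positivity) fun ω => hA.near v hvU _
        exact h3.trans (mul_le_mul_of_nonneg_left hmn' (by positivity))
      have h5 : n2 (δ • (fun ω => m' (s v ω))) ≤ δ * ((1 + C) * (CD * n2 z)) := by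
        rw [n2_smul, abs_of_pos hδ, n2_invol m' (s v) (hs.inv v hvU)]
        exact mul_le_mul_of_nonneg_left hmn' hδ.le
      refine (n2_sub_le _ _).trans ?_
      have h6 := n2_add_le (fun ω => δ • A v (m' ω) - e v (c v (m' ω)))
        (fun ω => ((e v).comp (c v)) (m' ω - D (z ω)))
      calc _ ≤ K * δ * ((1 + C) * (CD * n2 z)) + CE * (C * δ * (CD * n2 z)) +
            δ * ((1 + C) * (CD * n2 z)) := by linarith
        _ = (CE * C * CD + (K + 1) * (1 + C) * CD) * δ * n2 z := by ring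

/-- **Deformation.** -/
theorem deform2 (h : IsLim G e c U) (K : ℝ) (hK : 0 ≤ K) :
    ∃ C : ℝ, 0 ≤ C ∧ ∀ δ : ℝ, 0 < δ → δ ≤ 1 → ∀ A : V → S →ₗ[ℝ] S, IsApp G e c U K δ A →
      ∀ (Ω : Type) [Fintype Ω] (s : V → Ω → Ω), IsActOn G U s →
        ∀ z : Finset V → Ω → S, (∀ σ, z σ ≠ 0 → σ ⊆ U ∧ Cl G σ) →
          (∀ σ, ∀ v ∈ σ, ∀ ω, e v (z σ ω) = 0) →
          ∃ z' : Finset V → Ω → S, (∀ σ, z σ = 0 → z' σ = 0) ∧
            (∀ σ, ∀ v ∈ σ, etw A s v (z' σ) = 0) ∧
            n2 (fun ω σ => (z' - z) σ ω) ≤ C * δ * n2 (fun ω σ => z σ ω) := by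
  classical
  have hex : ∀ σ : Finset V, ∃ C : ℝ, 0 ≤ C ∧ (σ ⊆ U ∧ Cl G σ → ∀ δ : ℝ, 0 < δ → δ ≤ 1 →
      ∀ A : V → S →ₗ[ℝ] S, IsApp G e c U K δ A →
      ∀ (Ω : Type) [Fintype Ω] (s : V → Ω → Ω), IsActOn G U s →
        ∀ z : Ω → S, (∀ ω, ∀ v ∈ σ, e v (z ω) = 0) →
          ∃ z' : Ω → S, (∀ v ∈ σ, etw A s v z' = 0) ∧ n2 (z' - z) ≤ C * δ * n2 z) := by
    intro σ
    by_cases hσ : σ ⊆ U ∧ Cl G σ
    · obtain ⟨C, h1, h2⟩ := deform2_simplex h K hK σ hσ.1 hσ.2
      exact ⟨C, h1, fun _ => h2⟩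
    · exact ⟨0, le_rfl, fun h' => absurd h' hσ⟩
  choose C hC0 hC using hex
  refine ⟨∑ σ, C σ, Finset.sum_nonneg fun σ _ => hC0 σ, ?_⟩
  intro δ hδ hδ1 A hA Ω _ s hs z hz1 hz2
  have hex2 : ∀ σ : Finset V, ∃ z' : Ω → S, (z σ = 0 → z' = 0) ∧
      (∀ v ∈ σ, etw A s v z' = 0) ∧ n2 (z' - z σ) ≤ C σ * δ * n2 (z σ) := by
    intro σ
    by_cases hσ : z σ = 0
    · refine ⟨0, fun _ => rfl, fun v _ => map_zero _, ?_⟩
      rw [hσ, sub_zero]
      have h1 : 0 ≤ n2 (0 : Ω → S) := n2_nonneg _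
      have h2 : n2 (0 : Ω → S) ≤ 0 * n2 (0 : Ω → S) := n2_le_mul _ _ 0 le_rfl fun ω => by simp
      rw [zero_mul] at h2
      have h3 := mul_nonneg (mul_nonneg (hC0 σ) hδ.le) h1
      linarith
    · obtain ⟨z', h1, h2⟩ := hC σ (hz1 σ hσ) δ hδ hδ1 A hA Ω s hs (z σ)
        (fun ω v hv => hz2 σ v hv ω)
      exact ⟨z', fun h' => absurd h' hσ, h1, h2⟩
  choose z' hz'1 hz'2 hz'3 using hex2
  refine ⟨z', hz'1, hz'2, ?_⟩
  refine (n2_pi_le _).trans ?_
  calc ∑ σ, n2 (fun ω => (z' - z) σ ω) ≤ ∑ σ, C σ * δ * n2 (fun ω σ => z σ ω) := by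
        refine Finset.sum_le_sum fun σ _ => ?_
        have h1 : n2 (z σ) ≤ n2 (fun ω σ => z σ ω) := n2_apply_le (fun ω σ => z σ ω) σ
        exact (hz'3 σ).trans (mul_le_mul_of_nonneg_left h1 (mul_nonneg (hC0 σ) hδ.le))
    _ = (∑ σ, C σ) * δ * n2 (fun ω σ => z σ ω) := by
        rw [← Finset.sum_mul, ← Finset.sum_mul]

/-- twisted functions are almost in the kernels -/
theorem ker_near (h : IsLim G e c U) (K : ℝ) (hK : 0 ≤ K) :
    ∃ C : ℝ, 0 ≤ C ∧ ∀ δ : ℝ, 0 < δ → δ ≤ 1 → ∀ A : V → S →ₗ[ℝ] S, IsApp G e c U K δ A →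
      ∀ (Ω : Type) [Fintype Ω] (s : V → Ω → Ω), IsActOn G U s →
        ∀ f : Finset V → Ω → S, (∀ σ, f σ ≠ 0 → σ ⊆ U) → (∀ σ, ∀ v ∈ σ, etw A s v (f σ) = 0) →
          n2 (fun ω => (fun σ v => if v ∈ σ then e v (f σ ω) else 0 : Finset V → V → S)) ≤
            C * δ * n2 (fun ω σ => f σ ω) := by
  choose Cc hCc0 hCc using fun v => exists_bound (c v)
  refine ⟨∑ _σ : Finset V, ∑ v, Cc v * (1 + K), Finset.sum_nonneg fun σ _ =>
    Finset.sum_nonneg fun v _ => mul_nonneg (hCc0 v) (by linarith), ?_⟩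
  intro δ hδ hδ1 A hA Ω _ s hs f hf1 hf2
  refine (n2_pi_le _).trans ?_
  have key : ∀ (σ : Finset V) (v : V), n2 (fun ω => if v ∈ σ then e v (f σ ω) else 0) ≤
      Cc v * (1 + K) * (δ * n2 (fun ω σ => f σ ω)) := by
    intro σ v
    have hn0 : 0 ≤ n2 (fun ω σ => f σ ω) := n2_nonneg _
    have hR : 0 ≤ Cc v * (1 + K) * (δ * n2 (fun ω σ => f σ ω)) :=
      mul_nonneg (mul_nonneg (hCc0 v) (by linarith)) (mul_nonneg hδ.le hn0)
    have hz : ∀ g : Ω → S, g = 0 → n2 g ≤ 0 := by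
      intro g hg
      have h2 : n2 g ≤ 0 * n2 g := n2_le_mul _ _ 0 le_rfl fun ω => by simp [hg]
      rwa [zero_mul] at h2
    by_cases hv : v ∈ σ
    · by_cases hfσ : f σ = 0
      · refine (hz _ ?_).trans hR
        funext ω
        simp [hfσ]
      · have hvU : v ∈ U := hf1 σ hfσ hv
        have h1 : ∀ ω, f σ (s v ω) = -A v (f σ ω) := by
          intro ω
          have h1 : f σ (s v ω) + A v (f σ ω) = 0 := congrFun (hf2 σ v hv) ω
          exact eq_neg_of_add_eq_zero_left h1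
        have h2 : ∀ x, e v x = c v (e v (c v x)) := by
          intro x
          rw [h.ec v hvU v hvU, map_neg, h.c_sq v hvU, neg_neg]
        have h3 : n2 (fun ω => if v ∈ σ then e v (f σ ω) else 0) ≤
            Cc v * n2 (fun ω => e v (c v (f σ ω))) := by
          refine n2_le_mul _ _ _ (hCc0 v) fun ω => ?_
          simp only [if_pos hv]
          rw [h2 (f σ ω)]
          exact hCc v _
        have h4 : (fun ω => e v (c v (f σ ω))) =
            δ • (fun ω => A v (f σ ω)) - fun ω => δ • A v (f σ ω) - e v (c v (f σ ω)) := by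
          funext ω
          show e v (c v (f σ ω)) = δ • A v (f σ ω) - (δ • A v (f σ ω) - e v (c v (f σ ω)))
          abel
        have h5 : n2 (fun ω => A v (f σ ω)) ≤ n2 (f σ) := by
          have h6 : n2 (fun ω => A v (f σ ω)) ≤ 1 * n2 (fun ω => f σ (s v ω)) := by
            refine n2_le_mul _ _ _ zero_le_one fun ω => ?_
            rw [h1 ω, norm_neg, one_mul]
          rwa [one_mul, n2_invol (f σ) (s v) (hs.inv v hvU)] at h6
        have h7 : n2 (fun ω => δ • A v (f σ ω) - e v (c v (f σ ω))) ≤ K * δ * n2 (f σ) :=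
          n2_le_mul _ _ _ (by positivity) fun ω => hA.near v hvU _
        have h8 : n2 (fun ω => e v (c v (f σ ω))) ≤ (1 + K) * (δ * n2 (f σ)) := by
          rw [h4]
          refine (n2_sub_le _ _).trans ?_
          rw [n2_smul, abs_of_pos hδ]
          have := mul_le_mul_of_nonneg_left h5 hδ.le
          calc _ ≤ δ * n2 (f σ) + K * δ * n2 (f σ) := by linarith
            _ = (1 + K) * (δ * n2 (f σ)) := by ring
        have h9 : n2 (f σ) ≤ n2 (fun ω σ => f σ ω) := n2_apply_le (fun ω σ => f σ ω) σ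
        have h10 : (1 + K) * (δ * n2 (f σ)) ≤ (1 + K) * (δ * n2 (fun ω σ => f σ ω)) :=
          mul_le_mul_of_nonneg_left (mul_le_mul_of_nonneg_left h9 hδ.le) (by linarith)
        calc _ ≤ Cc v * n2 (fun ω => e v (c v (f σ ω))) := h3
          _ ≤ Cc v * ((1 + K) * (δ * n2 (fun ω σ => f σ ω))) :=
              mul_le_mul_of_nonneg_left (h8.trans h10) (hCc0 v)
          _ = Cc v * (1 + K) * (δ * n2 (fun ω σ => f σ ω)) := by ring
    · refine (hz _ ?_).trans hR
      funext ω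
      simp [hv]
  calc ∑ σ, n2 (fun ω => (fun v => if v ∈ σ then e v (f σ ω) else 0 : V → S))
      ≤ ∑ _σ : Finset V, ∑ v, Cc v * (1 + K) * (δ * n2 (fun ω σ => f σ ω)) := by
        refine Finset.sum_le_sum fun σ _ => (n2_pi_le _).trans (Finset.sum_le_sum fun v _ => ?_)
        exact key σ v
    _ = (∑ _σ : Finset V, ∑ v, Cc v * (1 + K)) * δ * n2 (fun ω σ => f σ ω) := by
        simp only [Finset.sum_mul, mul_assoc]

end Pool.Agent.H4.Fold3
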