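import Pool.Agent.H85.Fold2.Defs
import Pool.Agent.H85.Fold.Pair

/-!
# Project FOLD, third stage (local step): definitions
-/

set_option autoImplicit false

open Finset

namespace Pool.Agent.H4.Fold3

open Pool.Agent.H85.Fold Pool.Agent.H85.Fold2

section

variable {V : Type} [DecidableEq V] [Fintype V] {S : Type} [AddCommGroup S] [Module ℝ S]

/-- the operator `1 + A v ⊗ s v` on functions; its kernel consists of the functions `f` with
`f (s v ω) = - A v (f ω)` -/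
def etw (A : V → S →ₗ[ℝ] S) {Ω : Type} (s : V → Ω → Ω) (v : V) : (Ω → S) →ₗ[ℝ] (Ω → S) where
  toFun f ω := f (s v ω) + A v (f ω)
  map_add' f g := by
    funext ω
    simp only [Pi.add_apply, map_add]
    abel
  map_smul' r f := by
    funext ω
    simp only [Pi.smul_apply, map_smul, RingHom.id_apply, smul_add]

/-- the form on functions -/
noncomputable def bsum (β : S →ₗ[ℝ] S →ₗ[ℝ] ℝ) (Ω : Type) [Fintype Ω] :
    (Ω → S) →ₗ[ℝ] (Ω → S) →ₗ[ℝ] ℝ :=
  LinearMap.mk₂ ℝ (fun f g => ∑ ω, β (f ω) (g ω))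
    (fun f f' g => by simp [Finset.sum_add_distrib])
    (fun r f g => by simp [Finset.mul_sum])
    (fun f g g' => by simp [Finset.sum_add_distrib])
    (fun r f g => by simp [Finset.mul_sum])

/-- The limit of the coefficient systems on `U`: Clifford operators `e v` with Koszul property and
complex structures `c v` anticommuting with them. -/
structure IsLim (G : SimpleGraph V) (e c : V → S →ₗ[ℝ] S) (U : Finset V) : Prop where
  ec : ∀ u ∈ U, ∀ v ∈ U, ∀ x, e u (c v x) = -c v (e u x)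
  c_sq : ∀ v ∈ U, ∀ x, c v (c v x) = -x
  lift : ∀ (σ : Finset V) (v : V), v ∉ σ → insert v σ ⊆ U → Cl G (insert v σ) → ∀ x : S,
    (∀ u ∈ insert v σ, e u x = 0) → ∃ m : S, (∀ u ∈ σ, e u m = 0) ∧ e v m = x

/-- the bilinear form on chains given by a matrix -/
noncomputable def qT (Θ : Finset V → Finset V → ℝ) (β : S →ₗ[ℝ] S →ₗ[ℝ] ℝ)
    (c c' : Finset V → S) : ℝ := ∑ σ, ∑ ρ, Θ σ ρ * β (c ρ) (c' σ)

/-- the matrix `Θ` gives the bottom level of a resolution of every `i`-cycle -/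
def IsTheta (ν : V → ℕ) (G : SimpleGraph V) (n : ℕ) (U : Finset V) (o : Finset V → ℝ) (i : ℕ)
    (Θ : Finset V → Finset V → ℝ) : Prop :=
  ∀ (S : Type) [AddCommGroup S] [Module ℝ S] (e : V → S →ₗ[ℝ] S) (M : Submodule ℝ S)
    (c : Finset V → S), IsF G e M U i c → bd ν c = 0 →
      ∃ x, IsRes ν G e n M U o i c x ∧ ∀ σ, x ∅ σ = ∑ ρ, Θ σ ρ • c ρ

/-- chains of degree `i` supported in a family of sets, with coefficients in the kernels -/
structure IsFK (e : V → S →ₗ[ℝ] S) (Q : Finset V → Prop) (i : ℕ) (c : Finset V → S) :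
    Prop where
  ker : ∀ σ, ∀ v ∈ σ, e v (c σ) = 0
  supp : ∀ σ, c σ ≠ 0 → Q σ ∧ σ.card = i

open Classical in
/-- the boundary truncated to a family of sets -/
noncomputable def bdK (ν : V → ℕ) (Q : Finset V → Prop) :
    (Finset V → S) →ₗ[ℝ] (Finset V → S) where
  toFun c ρ := if Q ρ then bd ν c ρ else 0
  map_add' c c' := by
    funext ρ
    by_cases h : Q ρ <;> simp [h]
  map_smul' r c := by
    funext ρ
    by_cases h : Q ρ <;> simp [h]

/-- **Certificate of a link.** `A v`, `v ∈ L`, are commuting (on edges) involutions of `S`, and `β`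
is a form with `β (A v x) (A v y) = - β x y`; for every finite set with an action the complex of
twisted chains on induced subgraphs of `L` is exact above the middle, relative cycles of degree
`k + 1` can be pushed into subgraphs, and the form on the middle homology is definite. -/
structure IsCert (ν : V → ℕ) (G : SimpleGraph V) (k : ℕ) (L : Finset V) (o : Finset V → ℝ)
    (β : S →ₗ[ℝ] S →ₗ[ℝ] ℝ) (κ : ℝ) (A : V → S →ₗ[ℝ] S) : Prop where
  sq : ∀ v ∈ L, ∀ x, A v (A v x) = x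
  comm : ∀ u ∈ L, ∀ v ∈ L, G.Adj u v → ∀ x, A u (A v x) = A v (A u x)
  skew : ∀ v ∈ L, ∀ x y, β (A v x) (A v y) = -β x y
  abs : ∀ (Ω : Type) [Fintype Ω] (s : V → Ω → Ω), IsActOn G L s → ∀ Y ⊆ L, ∀ i, k < i →
    HV ν G (etw A s) ⊤ Y i
  rel : ∀ (Ω : Type) [Fintype Ω] (s : V → Ω → Ω), IsActOn G L s → ∀ Y ⊆ L,
    ∀ y, IsF G (etw A s) ⊤ L (k + 1) y → (∀ σ, bd ν y σ ≠ 0 → σ ⊆ Y) →
      ∃ y', IsF G (etw A s) ⊤ Y (k + 1) y' ∧ bd ν y' = bd ν y
  dfn : ∀ (Ω : Type) [Fintype Ω] (s : V → Ω → Ω), IsActOn G L s →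
    ∀ c x, IsF G (etw A s) ⊤ L k c → bd ν c = 0 → IsRes ν G (etw A s) (2 * k) ⊤ L o k c x →
      0 ≤ κ * pr (bsum β Ω) x c ∧
        (pr (bsum β Ω) x c = 0 → ∃ y, IsF G (etw A s) ⊤ L (k + 1) y ∧ bd ν y = c)

end

section

variable {V : Type} [DecidableEq V] [Fintype V] {S : Type} [NormedAddCommGroup S]
  [NormedSpace ℝ S]

/-- commuting involutions `A v`, `v ∈ U`, such that `δ • A v` is close to `e v ∘ c v` -/
structure IsApp (G : SimpleGraph V) (e c : V → S →ₗ[ℝ] S) (U : Finset V) (K δ : ℝ)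
    (A : V → S →ₗ[ℝ] S) : Prop where
  sq : ∀ v ∈ U, ∀ x, A v (A v x) = x
  comm : ∀ u ∈ U, ∀ v ∈ U, G.Adj u v → ∀ x, A u (A v x) = A v (A u x)
  near : ∀ v ∈ U, ∀ x, ‖δ • A v x - e v (c v x)‖ ≤ K * δ * ‖x‖

/-- the square norm of a function on a finite set -/
noncomputable def n2 {Ω X : Type} [Fintype Ω] [NormedAddCommGroup X] (f : Ω → X) : ℝ :=
  Real.sqrt (∑ ω, ‖f ω‖ ^ 2)

end

end Pool.Agent.H4.Fold3
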