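import Pool.Agent.H4.Fold3.Class
import Pool.Agent.H85.Fold2.Final

/-!
# Project FOLD, third stage: the main theorem
-/

set_option autoImplicit false

open Finset

namespace Pool.Agent.H4.Fold3

open Pool.Agent.H4.Singer Pool.Agent.H85.Fold Pool.Agent.H85.Fold2

variable {V : Type} [DecidableEq V] [Fintype V] {G : SimpleGraph V}

/-- **The main theorem.** -/
theorem main_FW (G : SimpleGraph V) (n : ℕ) (hG : FW G n univ) (i : ℕ) (hi : n < 2 * i) :
    L2HomologyZero G i := by
  intro ν hν z hz hdz ε hε
  exact l2_hodge G ν hν i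
    (GVan.harm hν (hG.gvan hν univ (Finset.Subset.refl _) i hi)) z hz hdz ε hε

/-- if the links of the vertices in `Z` are good, these vertices may be added to a set -/
theorem FW.of_sdiff (k : ℕ) (Y Z : Finset V) (hZ : ∀ u ∈ Z, IsFoldLink G k u)
    (h : FW G (2 * k + 1) (Y \ Z)) : FW G (2 * k + 1) Y := by
  induction Z using Finset.induction_on with
  | empty => simpa using h
  | insert u Z hu ih =>
    refine ih (fun v hv => hZ v (Finset.mem_insert_of_mem hv)) ?_
    have h1 : Y \ insert u Z = (Y \ Z).erase u := by
      ext v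
      simp only [Finset.mem_sdiff, Finset.mem_insert, Finset.mem_erase, not_or]
      tauto
    rw [h1] at h
    by_cases huY : u ∈ Y \ Z
    · exact FW.loc k (Y \ Z) u huY V inferInstance inferInstance G id (fun _ _ _ _ h => h)
        (fun _ _ _ _ => Iff.rfl) (hZ u (Finset.mem_insert_self _ _)) h
    · rwa [Finset.erase_eq_of_notMem huY] at h

/-- **Spheres of even dimension**: all links of vertices are folded. -/
theorem FW.of_links (k : ℕ) (h : ∀ u, IsFoldLink G k u) : FW G (2 * k + 1) univ := by
  refine FW.of_sdiff k univ univ (fun u _ => h u) ?_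
  rw [Finset.sdiff_self]
  exact FW.empty _

end Pool.Agent.H4.Fold3
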