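import Pool.Agent.H85.Fold2.Defs

/-!
# Project FOLD, third stage: Betti numbers, field extensions, restriction of scalars
-/

set_option autoImplicit false

open Finset

namespace Pool.Agent.H4.Fold3

open Pool.Agent.H85.Fold Pool.Agent.H85.Fold2

variable {V D : Type} [DecidableEq V] [Fintype V] [Fintype D] [DecidableEq D]

namespace RestrB

section Transport

variable {k K : Type} [Field k] [Field K] {D' : Type} [Fintype D'] [DecidableEq D']
  {G : SimpleGraph V} {Y : Finset V} {B : V → Matrix D D k} {B' : V → Matrix D' D' K}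
  {Ω : Type} {s : V → Ω → Ω} {ν : V → ℕ} {i : ℕ}

/-- the image of a chain under an additive map of the coefficients -/
def tr (L : (D → k) →+ (D' → K)) (f : Finset V → Ω → D → k) : Finset V → Ω → D' → K :=
  fun σ ω => L (f σ ω)

theorem tr_ch {L : (D → k) →+ (D' → K)}
    (hL : ∀ v x, L ((B v).mulVec x) = (B' v).mulVec (L x)) {f : Finset V → Ω → D → k}
    (hf : f ∈ YCh k G Y B s i) : tr L f ∈ YCh K G Y B' s i := by
  obtain ⟨h1, h2⟩ := hf
  refine ⟨fun σ ω h => h1 σ ω fun h0 => h ?_, fun σ v hv ω => ?_⟩
  · show L (f σ ω) = 0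
    rw [h0, map_zero]
  · show L (f σ (s v ω)) = -(B' v).mulVec (L (f σ ω))
    rw [h2 σ v hv ω, map_neg, hL]

theorem tdl_tr (L : (D → k) →+ (D' → K)) (ν : V → ℕ) (f : Finset V → Ω → D → k) :
    tdl K ν (tr L f) = tr L (tdl k ν f) := by
  funext τ ω
  show ∑ v ∈ τᶜ, (Pool.Agent.H4.Singer.sg ν v τ : K) • L (f (insert v τ) ω) =
    L (∑ v ∈ τᶜ, (Pool.Agent.H4.Singer.sg ν v τ : k) • f (insert v τ) ω)
  rw [map_sum]
  refine Finset.sum_congr rfl fun v _ => ?_
  rw [Int.cast_smul_eq_zsmul, Int.cast_smul_eq_zsmul, map_zsmul]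

theorem tr_z {L : (D → k) →+ (D' → K)}
    (hL : ∀ v x, L ((B v).mulVec x) = (B' v).mulVec (L x)) {f : Finset V → Ω → D → k}
    (hf : f ∈ YZ k G Y B s ν i) : tr L f ∈ YZ K G Y B' s ν i := by
  refine ⟨tr_ch hL hf.1, ?_⟩
  have h1 : tdl k ν f = 0 := hf.2
  show tdl K ν (tr L f) = 0
  rw [tdl_tr, h1]
  funext σ ω
  exact map_zero L

theorem tr_b {L : (D → k) →+ (D' → K)}
    (hL : ∀ v x, L ((B v).mulVec x) = (B' v).mulVec (L x)) {f : Finset V → Ω → D → k}
    (hf : f ∈ YB k G Y B s ν i) : tr L f ∈ YB K G Y B' s ν i := by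
  obtain ⟨y, hy, rfl⟩ := hf
  exact ⟨tr L y, tr_ch hL hy, tdl_tr L ν y⟩

end Transport

section Maps

variable {k K : Type} [Field k] [Field K]

/-- entrywise additive map -/
def ew (D : Type) (π : k →+ K) : (D → k) →+ (D → K) where
  toFun x d := π (x d)
  map_zero' := by
    funext d
    exact map_zero π
  map_add' x y := by
    funext d
    exact map_add π _ _

end Maps

section Ext

variable {k K : Type} [Field k] [Field K] [Algebra k K]

/-- the dimension of a submodule defined over a subfield -/
theorem finrank_ext {ι : Type} (b : Module.Basis ι k K) {X Ω : Type} [Fintype X] [Fintype Ω]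
    (S : Submodule k (X → Ω → D → k)) (S' : Submodule K (X → Ω → D → K))
    (h1 : ∀ f ∈ S, (fun x ω d => algebraMap k K (f x ω d)) ∈ S')
    (h2 : ∀ f ∈ S', ∀ β : ι, (fun x ω d => b.coord β (f x ω d)) ∈ S) :
    Module.finrank K S' = Module.finrank k S := by
  classical
  let w := Module.finBasis k S
  -- the images of the basis vectors
  let e : Fin (Module.finrank k S) → S' := fun j =>
    ⟨fun x ω d => algebraMap k K ((w j : X → Ω → D → k) x ω d), h1 _ (w j).2⟩
  have hli : LinearIndependent K e := by
    rw [Fintype.linearIndependent_iff]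
    intro c hc j
    have h3 : ∀ β : ι, ∑ j, b.coord β (c j) • w j = 0 := by
      intro β
      apply Subtype.ext
      funext x ω d
      have h4 : ∑ j, c j * algebraMap k K ((w j : X → Ω → D → k) x ω d) = 0 := by
        have h5 := congrArg (fun z : S' => (z : X → Ω → D → K) x ω d) hc
        simp only [Submodule.coe_sum, Submodule.coe_smul, Finset.sum_apply, Pi.smul_apply,
          smul_eq_mul, Submodule.coe_zero, Pi.zero_apply] at h5
        exact h5
      have h6 := congrArg (b.coord β) h4
      rw [map_sum, map_zero] at h6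
      simp only [Submodule.coe_sum, Submodule.coe_smul, Finset.sum_apply, Pi.smul_apply,
          smul_eq_mul, Submodule.coe_zero, Pi.zero_apply]
      rw [← h6]
      refine Finset.sum_congr rfl fun j _ => ?_
      have h7 : c j * algebraMap k K ((w j : X → Ω → D → k) x ω d) =
          ((w j : X → Ω → D → k) x ω d) • c j := by
        rw [Algebra.smul_def, mul_comm]
      rw [h7, map_smul, smul_eq_mul, mul_comm]
    have h8 : ∀ β : ι, b.coord β (c j) = 0 := fun β =>
      (Fintype.linearIndependent_iff.1 w.linearIndependent _ (h3 β)) j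
    have h9 : b.repr (c j) = 0 := by
      ext β
      exact h8 β
    exact (LinearEquiv.map_eq_zero_iff b.repr).1 h9
  have hsp : ⊤ ≤ Submodule.span K (Set.range e) := by
    rintro ⟨f, hf⟩ -
    -- every element of `S`, seen in `S'`, is in the span
    have h3 : ∀ g : S, (⟨fun x ω d => algebraMap k K ((g : X → Ω → D → k) x ω d),
        h1 _ g.2⟩ : S') ∈ Submodule.span K (Set.range e) := by
      intro g
      have h4 : (⟨fun x ω d => algebraMap k K ((g : X → Ω → D → k) x ω d),
          h1 _ g.2⟩ : S') = ∑ j, algebraMap k K (w.repr g j) • e j := by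
        apply Subtype.ext
        funext x ω d
        have h5 := congrArg (fun z : S => (z : X → Ω → D → k) x ω d) (w.sum_repr g)
        simp only [Submodule.coe_sum, Submodule.coe_smul, Finset.sum_apply, Pi.smul_apply,
          smul_eq_mul] at h5 ⊢
        rw [← h5, map_sum]
        refine Finset.sum_congr rfl fun j _ => ?_
        rw [map_mul]
      rw [h4]
      exact Submodule.sum_mem _ fun j _ =>
        Submodule.smul_mem _ _ (Submodule.subset_span ⟨j, rfl⟩)
    let F : Finset ι := Finset.univ.biUnion fun q : X × Ω × D =>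
      (b.repr (f q.1 q.2.1 q.2.2)).support
    have h6 : (⟨f, hf⟩ : S') = ∑ β ∈ F, b β • (⟨fun x ω d => algebraMap k K
        (((⟨_, h2 f hf β⟩ : S) : X → Ω → D → k) x ω d), h1 _ (h2 f hf β)⟩ : S') := by
      apply Subtype.ext
      funext x ω d
      simp only [Submodule.coe_sum, Submodule.coe_smul, Finset.sum_apply, Pi.smul_apply,
          smul_eq_mul]
      have h7 : ∀ β, b β * algebraMap k K (b.coord β (f x ω d)) =
          b.repr (f x ω d) β • b β := fun β => by
        rw [Algebra.smul_def, mul_comm]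
        rfl
      simp only [h7]
      have h8 : (b.repr (f x ω d)).support ⊆ F :=
        Finset.subset_biUnion_of_mem
          (fun q : X × Ω × D => (b.repr (f q.1 q.2.1 q.2.2)).support)
          (Finset.mem_univ (x, ω, d))
      have h9 := b.linearCombination_repr (f x ω d)
      rw [Finsupp.linearCombination_apply, Finsupp.sum] at h9
      conv_lhs => rw [← h9]
      refine Finset.sum_subset h8 fun β _ hβ => ?_
      rw [Finsupp.notMem_support_iff.1 hβ, zero_smul]
    rw [h6]
    exact Submodule.sum_mem _ fun β _ => Submodule.smul_mem _ _ (h3 ⟨_, h2 f hf β⟩)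
  have h10 := Module.finrank_eq_card_basis (Module.Basis.mk hli hsp)
  rw [h10, Fintype.card_fin]

end Ext

end RestrB

open RestrB

/-- Betti numbers are invariant under field extensions -/
theorem bY_ext {k K : Type} [Field k] [Field K] (τ : k →+* K) (G : SimpleGraph V)
    (Y : Finset V) (B : V → Matrix D D k) {Ω : Type} [Fintype Ω] (s : V → Ω → Ω) (ν : V → ℕ)
    (i : ℕ) : bY K G Y (fun v => (B v).map τ) s ν i = bY k G Y B s ν i := by
  classical
  letI := τ.toAlgebra
  let b := Module.Basis.ofVectorSpace k K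
  have h1 : ∀ v x, ew D τ.toAddMonoidHom ((B v).mulVec x) =
      ((B v).map τ).mulVec (ew D τ.toAddMonoidHom x) := by
    intro v x
    funext d
    show τ (∑ d', B v d d' * x d') = ∑ d', τ (B v d d') * τ (x d')
    rw [map_sum]
    exact Finset.sum_congr rfl fun d' _ => map_mul τ _ _
  have h2 : ∀ β, ∀ v x, ew D (b.coord β).toAddMonoidHom (((B v).map τ).mulVec x) =
      (B v).mulVec (ew D (b.coord β).toAddMonoidHom x) := by
    intro β v x
    funext d
    show b.coord β (∑ d', τ (B v d d') * x d') = ∑ d', B v d d' * b.coord β (x d')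
    rw [map_sum]
    refine Finset.sum_congr rfl fun d' _ => ?_
    have h2 : τ (B v d d') * x d' = B v d d' • x d' := (Algebra.smul_def _ _).symm
    rw [h2, map_smul, smul_eq_mul]
  have h3 : Module.finrank K (YZ K G Y (fun v => (B v).map τ) s ν i) =
      Module.finrank k (YZ k G Y B s ν i) :=
    finrank_ext b _ _ (fun f hf => tr_z (L := ew D τ.toAddMonoidHom) h1 hf)
      (fun f hf β => tr_z (L := ew D (b.coord β).toAddMonoidHom) (h2 β) hf)
  have h4 : Module.finrank K (YB K G Y (fun v => (B v).map τ) s ν i) =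
      Module.finrank k (YB k G Y B s ν i) :=
    finrank_ext b _ _ (fun f hf => tr_b (L := ew D τ.toAddMonoidHom) h1 hf)
      (fun f hf β => tr_b (L := ew D (b.coord β).toAddMonoidHom) (h2 β) hf)
  rw [bY, bY, h3, h4]

/-- **Restriction of scalars.** -/
theorem restrict_bY (K : Type) [Field K] [NumberField K] (τ : K →+* ℝ)
    (G : SimpleGraph V) (B : V → Matrix D D (NumberField.RingOfIntegers K))
    (hsq : ∀ v, B v * B v = 1) (hcomm : ∀ u v, G.Adj u v → B u * B v = B v * B u)
    [Nonempty D] :
    ∃ (ρ : IMod G) (d : ℕ), 1 ≤ d ∧ Nonempty ρ.D ∧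
      ∀ (Y : Finset V) (ν : V → ℕ) (i : ℕ) (Ω : Type) [Fintype Ω] (s : V → Ω → Ω),
        bY ℝ G Y (mc ℝ ρ.A) s ν i = d * bY ℝ G Y (fun v => (B v).map fun x => τ x) s ν i := by
  classical
  let w := NumberField.RingOfIntegers.basis K
  let ι := Module.Free.ChooseBasisIndex ℤ (NumberField.RingOfIntegers K)
  -- the representation
  let Φ : Matrix D D (NumberField.RingOfIntegers K) →+* Matrix (D × ι) (D × ι) ℤ :=
    (Matrix.compRingEquiv D ι ℤ).toRingHom.comp
      ((Algebra.leftMulMatrix w).toRingHom.mapMatrix : Matrix D D _ →+* Matrix D D _)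
  have hΦ : ∀ (X : Matrix D D (NumberField.RingOfIntegers K)) (d d' : D) (j j' : ι),
      Φ X (d, j) (d', j') = w.repr (X d d' * w j') j := by
    intro X d d' j j'
    exact Algebra.leftMulMatrix_eq_repr_mul w (X d d') j j'
  let ρ : IMod G :=
    { D := D × ι
      fin := inferInstance
      dec := inferInstance
      A := fun v => Φ (B v)
      sq := fun v => by rw [← map_mul, hsq, map_one]
      comm := fun u v huv => by rw [← map_mul, hcomm u v huv, map_mul] }
  have hne : Nonempty ι := w.index_nonempty
  refine ⟨ρ, Module.finrank ℚ K, Module.finrank_pos, (inferInstance : Nonempty (D × ι)),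
    fun Y ν i Ω _ s => ?_⟩
  -- coordinates
  let W := NumberField.integralBasis K
  let L : (D × ι → ℚ) →+ (D → K) :=
    { toFun := fun x d => ∑ j, x (d, j) • W j
      map_zero' := by
        funext d
        simp
      map_add' := fun x y => by
        funext d
        simp [add_smul, Finset.sum_add_distrib] }
  let L' : (D → K) →+ (D × ι → ℚ) :=
    { toFun := fun z q => W.repr (z q.1) q.2
      map_zero' := by
        funext q
        simp
      map_add' := fun x y => by
        funext q
        simp }
  have hLL' : ∀ z, L (L' z) = z := by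
    intro z
    funext d
    exact W.sum_repr (z d)
  have hL'L : ∀ x, L' (L x) = x := by
    intro x
    funext q
    obtain ⟨d, j⟩ := q
    show W.repr (∑ j', x (d, j') • W j') j = x (d, j)
    rw [W.repr_sum_self]
  have hW : ∀ o : NumberField.RingOfIntegers K,
      algebraMap (NumberField.RingOfIntegers K) K o = ∑ j, ((w.repr o j : ℤ) : ℚ) • W j := by
    intro o
    conv_lhs => rw [← W.sum_repr (algebraMap (NumberField.RingOfIntegers K) K o)]
    refine Finset.sum_congr rfl fun j _ => ?_
    rw [NumberField.integralBasis_repr_apply]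
    rfl
  have hL : ∀ v x, L ((mc ℚ ρ.A v).mulVec x) =
      ((B v).map (algebraMap (NumberField.RingOfIntegers K) K)).mulVec (L x) := by
    intro v x
    funext d
    show ∑ j, (∑ q : D × ι, ((Φ (B v) (d, j) q : ℤ) : ℚ) * x q) • W j =
      ∑ d', algebraMap (NumberField.RingOfIntegers K) K (B v d d') * ∑ j', x (d', j') • W j'
    have e1 : ∀ d' j', algebraMap (NumberField.RingOfIntegers K) K (B v d d') *
        (x (d', j') • W j') = ∑ j, (((Φ (B v) (d, j) (d', j') : ℤ) : ℚ) * x (d', j')) • W j := by
      intro d' j'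
      have e2 : W j' = algebraMap (NumberField.RingOfIntegers K) K (w j') :=
        NumberField.integralBasis_apply K j'
      rw [mul_smul_comm, e2, ← map_mul, hW, Finset.smul_sum]
      refine Finset.sum_congr rfl fun j _ => ?_
      rw [hΦ, smul_smul, mul_comm]
    simp only [Finset.mul_sum, e1, Finset.sum_smul]
    rw [Finset.sum_comm, Fintype.sum_prod_type]
  have hL' : ∀ v z, L' (((B v).map (algebraMap (NumberField.RingOfIntegers K) K)).mulVec z) =
      (mc ℚ ρ.A v).mulVec (L' z) := by
    intro v z
    conv_lhs => rw [← hLL' z, ← hL v, hL'L]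
  -- a general comparison
  have hcmp : ∀ (S : Submodule ℚ (Finset V → Ω → D × ι → ℚ))
      (T : Submodule K (Finset V → Ω → D → K)), (∀ f ∈ S, tr L f ∈ T) →
      (∀ f ∈ T, tr L' f ∈ S) →
      Module.finrank ℚ S = Module.finrank ℚ K * Module.finrank K T := by
    intro S T hST hTS
    rw [Module.finrank_mul_finrank ℚ K T]
    refine LinearEquiv.finrank_eq
      { toFun := fun f => ⟨tr L f, hST _ f.2⟩
        invFun := fun f => ⟨tr L' f, hTS _ f.2⟩
        map_add' := fun f g => ?_
        map_smul' := fun c f => ?_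
        left_inv := fun f => ?_
        right_inv := fun f => ?_ }
    · apply Subtype.ext
      funext σ ω
      exact map_add L _ _
    · apply Subtype.ext
      funext σ ω d
      show ∑ j, (c * (f : Finset V → Ω → D × ι → ℚ) σ ω (d, j)) • W j =
        c • ∑ j, (f : Finset V → Ω → D × ι → ℚ) σ ω (d, j) • W j
      rw [Finset.smul_sum]
      exact Finset.sum_congr rfl fun j _ => mul_smul _ _ _
    · apply Subtype.ext
      funext σ ω
      exact hL'L _
    · apply Subtype.ext
      funext σ ω
      exact hLL' _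
  have hK : bY ℚ G Y (mc ℚ ρ.A) s ν i = Module.finrank ℚ K *
      bY K G Y (fun v => (B v).map (algebraMap (NumberField.RingOfIntegers K) K)) s ν i := by
    rw [bY, bY, Nat.mul_sub]
    congr 1
    · exact hcmp _ _ (fun f hf => tr_z hL hf) (fun f hf => tr_z hL' hf)
    · exact hcmp _ _ (fun f hf => tr_b hL hf) (fun f hf => tr_b hL' hf)
  have e3 : (fun v => (mc ℚ ρ.A v).map (algebraMap ℚ ℝ)) = mc ℝ ρ.A := by
    funext v
    ext a c
    show (algebraMap ℚ ℝ) ((ρ.A v a c : ℤ) : ℚ) = ((ρ.A v a c : ℤ) : ℝ)
    simp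
  have hR := bY_ext (algebraMap ℚ ℝ) G Y (mc ℚ ρ.A) s ν i
  rw [e3] at hR
  have hR2 := bY_ext τ G Y
    (fun v => (B v).map (algebraMap (NumberField.RingOfIntegers K) K)) s ν i
  simp only [Matrix.map_map] at hR2
  rw [hR, hK, ← hR2]
  rfl

end Pool.Agent.H4.Fold3
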