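import Pool.Agent.H4.Fold3.LocReal
import Pool.Agent.H4.Fold3.CertFold
import Pool.Agent.H4.Fold3.Alg
import Pool.Agent.H4.Fold3.RestrB
import Pool.Agent.H85.Fold.Sphere

/-!
# Project FOLD, third stage: the integer representation of the local step
-/

set_option autoImplicit false

open Finset

namespace Pool.Agent.H4.Fold3

open Pool.Agent.H85.Fold Pool.Agent.H85.Fold2

/-- **The integer representation of the local step.** -/
theorem exists_imod_loc {V : Type} [DecidableEq V] [Fintype V] (G : SimpleGraph V) (k : ℕ)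
    (hG : IsHomologySphere G (2 * k + 1)) (u : V) {m : ℕ} (p : V → Fin (2 * k) → ℝ)
    (a : V → Fin m → ℝ) (hf : IsFoldL G (nbr G u univ) p a) (ν : V → ℕ)
    (hν : Function.Injective ν) :
    ∃ ρ : IMod G, Nonempty ρ.D ∧ ∀ Y : Finset V, u ∈ Y → ∀ i, k < i →
      ∀ (Ω : Type) [Fintype Ω] (s : V → Ω → Ω), IsActOn G Y s →
        bY ℝ G Y (mc ℝ ρ.A) s ν i ≤ bY ℝ G (Y.erase u) (mc ℝ ρ.A) s ν i := by
  classical
  obtain ⟨p', a', hf', hp', ha'⟩ := exists_alg_foldL G (nbr G u univ) p a hf
  obtain ⟨o, ho⟩ := hG.isSphere ν hν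
  have hL : IsSphere ν G (2 * k) (nbr G u univ) (linkO ν u o) :=
    IsSphere.link hν ho (Finset.mem_univ u)
  obtain ⟨D, iD1, iD2, iD3, c, hc⟩ := exists_cliff3 V (2 * k) m
  obtain ⟨β, κ, t₀, hκ, H⟩ := cert_fold hc hν hL hf'
  obtain ⟨t, μ, ht, hμ, htμ, K, iK1, iK2, τ, y, w, hy, hw⟩ := exists_numberField
    (Sum.elim (fun q : V × Fin (2 * k) => p' q.1 q.2) (fun q : V × Fin m => a' q.1 q.2))
    (by
      rintro (q | q)
      · exact hp' q.1 q.2
      · exact ha' q.1 q.2) t₀
  set P : V → Fin (2 * k) → NumberField.RingOfIntegers K := fun v i => y (Sum.inl (v, i)) with hP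
  set A : V → Fin m → NumberField.RingOfIntegers K := fun v j => y (Sum.inr (v, j)) with hA
  set f : NumberField.RingOfIntegers K →+* ℝ :=
    τ.comp (algebraMap (NumberField.RingOfIntegers K) K) with hfdef
  have hfinj : Function.Injective f :=
    τ.injective.comp (NumberField.RingOfIntegers.coe_injective)
  have hfP : ∀ v i, f (P v i) = t * p' v i := fun v i => hy (Sum.inl (v, i))
  have hfA : ∀ v j, f (A v j) = t * a' v j := fun v j => hy (Sum.inr (v, j))
  have hfw : f w = μ := hw
  have hPdot : ∀ v v', f (P v ⬝ᵥ P v') = t * t * (p' v ⬝ᵥ p' v') := by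
    intro v v'
    simp only [dotProduct, map_sum, map_mul, hfP, Finset.mul_sum]
    exact Finset.sum_congr rfl fun i _ => by ring
  have hAdot : ∀ v v', f (A v ⬝ᵥ A v') = t * t * (a' v ⬝ᵥ a' v') := by
    intro v v'
    simp only [dotProduct, map_sum, map_mul, hfA, Finset.mul_sum]
    exact Finset.sum_congr rfl fun i _ => by ring
  have hmem : ∀ v, G.Adj u v → v ∈ nbr G u univ := by
    intro v hv
    unfold nbr
    simpa using hv
  have hsq : ∀ v, G.Adj u v → xmat c P A w v * xmat c P A w v = 1 := by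
    intro v hv
    apply xmat_sq hc
    apply hfinj
    rw [map_sub, map_sub, hPdot, hAdot, map_mul, hfw, map_one, hf'.one v (hmem v hv)]
    linarith
  have hcomm : ∀ v v', G.Adj u v → G.Adj u v' → G.Adj v v' →
      xmat c P A w v * xmat c P A w v' = xmat c P A w v' * xmat c P A w v := by
    intro v v' hv hv' hvv'
    apply xmat_comm hc P A w v v' hvv'.ne
    apply hfinj
    rw [hPdot, hAdot, hf'.zero v (hmem v hv) v' (hmem v' hv') hvv']
  obtain ⟨ρ, d, hd, hρ, hbY⟩ := restrict_bY K τ G (bloc G u (xmat c P A w))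
    (bloc_sq G u _ hsq) (bloc_comm G u _ hcomm)
  refine ⟨ρ, hρ, fun Y hu i hi Ω _ s hs => ?_⟩
  have hmap : (fun v => (bloc G u (xmat c P A w) v).map fun x => τ x) =
      bloc G u (fun v => xmat c (fun v i => t * p' v i) (fun v j => t * a' v j) μ v) := by
    funext v
    have h1 := bloc_map f G u (xmat c P A w) v
    have h2 : (fun v => (xmat c P A w v).map f) =
        fun v => xmat c (fun v i => t * p' v i) (fun v j => t * a' v j) μ v := by
      funext v
      rw [xmat_map, hfw]
      simp only [hfP, hfA]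
    rw [← h2]
    exact h1
  rw [hbY, hbY, hmap]
  exact Nat.mul_le_mul_left d (loc_real hν ho u hκ (H t μ ht hμ htμ) Y hu i hi Ω s hs)

end Pool.Agent.H4.Fold3
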