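import Pool.Agent.H4.Fold3.Defs

/-!
# Project FOLD, third stage: the square norm
-/

set_option autoImplicit false

open Finset

namespace Pool.Agent.H4.Fold3

open Pool.Agent.H85.Fold Pool.Agent.H85.Fold2

variable {Ω X Y : Type} [Fintype Ω] [NormedAddCommGroup X] [NormedSpace ℝ X]
  [NormedAddCommGroup Y] [NormedSpace ℝ Y]

omit [NormedSpace ℝ X] in
private theorem n2_eq (f : Ω → X) : n2 f = ‖(WithLp.toLp 2 f : PiLp 2 fun _ : Ω => X)‖ := by
  rw [PiLp.norm_eq_of_L2]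
  rfl

omit [NormedSpace ℝ X] in
theorem n2_nonneg (f : Ω → X) : 0 ≤ n2 f := Real.sqrt_nonneg _

omit [NormedSpace ℝ X] in
theorem n2_sq (f : Ω → X) : n2 f ^ 2 = ∑ ω, ‖f ω‖ ^ 2 := by
  unfold n2
  exact Real.sq_sqrt (Finset.sum_nonneg fun ω _ => sq_nonneg _)

omit [NormedSpace ℝ X] in
theorem n2_eq_zero (f : Ω → X) (h : n2 f = 0) : f = 0 := by
  have h1 : ∑ ω, ‖f ω‖ ^ 2 = 0 := by rw [← n2_sq, h]; norm_num
  rw [Finset.sum_eq_zero_iff_of_nonneg fun ω _ => sq_nonneg _] at h1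
  funext ω
  have h2 := h1 ω (Finset.mem_univ ω)
  simpa using h2

omit [NormedSpace ℝ X] [NormedSpace ℝ Y] in
theorem n2_le_mul (f : Ω → X) (g : Ω → Y) (C : ℝ) (hC : 0 ≤ C) (h : ∀ ω, ‖f ω‖ ≤ C * ‖g ω‖) :
    n2 f ≤ C * n2 g := by
  have h0 : 0 ≤ C * n2 g := mul_nonneg hC (n2_nonneg g)
  rw [← abs_of_nonneg (n2_nonneg f), ← abs_of_nonneg h0]
  apply sq_le_sq.mp
  rw [mul_pow, n2_sq, n2_sq, Finset.mul_sum]
  apply Finset.sum_le_sum
  intro ω _
  rw [← mul_pow]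
  exact pow_le_pow_left₀ (norm_nonneg _) (h ω) 2

omit [NormedSpace ℝ X] in
theorem n2_add_le (f g : Ω → X) : n2 (f + g) ≤ n2 f + n2 g := by
  rw [n2_eq, n2_eq, n2_eq, WithLp.toLp_add]
  exact norm_add_le _ _

omit [NormedSpace ℝ X] in
theorem n2_sub_le (f g : Ω → X) : n2 (f - g) ≤ n2 f + n2 g := by
  rw [n2_eq, n2_eq, n2_eq, WithLp.toLp_sub]
  exact norm_sub_le _ _

theorem n2_smul (r : ℝ) (f : Ω → X) : n2 (r • f) = |r| * n2 f := by
  rw [n2_eq, n2_eq, WithLp.toLp_smul, norm_smul, Real.norm_eq_abs]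

omit [NormedSpace ℝ X] in
/-- reindexing by an involution -/
theorem n2_invol (f : Ω → X) (t : Ω → Ω) (ht : ∀ ω, t (t ω) = ω) :
    n2 (fun ω => f (t ω)) = n2 f := by
  unfold n2
  congr 1
  exact Equiv.sum_comp (⟨t, t, ht, ht⟩ : Equiv.Perm Ω) (fun ω => ‖f ω‖ ^ 2)

omit [NormedSpace ℝ X] in
/-- the components of a function with values in a product -/
theorem n2_apply_le {ι : Type} [Fintype ι] (f : Ω → ι → X) (i : ι) :
    n2 (fun ω => f ω i) ≤ n2 f := by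
  have h := n2_le_mul (fun ω => f ω i) f 1 zero_le_one fun ω => by
    rw [one_mul]
    exact norm_le_pi_norm (f ω) i
  rwa [one_mul] at h

omit [NormedSpace ℝ X] in
private theorem n2_sum_norm {ι : Type} (s : Finset ι) (g : ι → Ω → X) :
    n2 (fun ω => ∑ i ∈ s, ‖g i ω‖) ≤ ∑ i ∈ s, n2 (g i) := by
  classical
  induction s using Finset.induction_on with
  | empty =>
    simp only [Finset.sum_empty]
    unfold n2
    simp
  | insert a s ha ih =>
    rw [Finset.sum_insert ha]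
    have h1 : (fun ω => ∑ i ∈ insert a s, ‖g i ω‖) =
        (fun ω => ‖g a ω‖) + fun ω => ∑ i ∈ s, ‖g i ω‖ := by
      funext ω
      rw [Pi.add_apply, Finset.sum_insert ha]
    rw [h1]
    refine (n2_add_le _ _).trans (add_le_add ?_ ih)
    have h2 := n2_le_mul (fun ω => ‖g a ω‖) (g a) 1 zero_le_one fun ω => by
      rw [one_mul, norm_norm]
    rwa [one_mul] at h2

omit [NormedSpace ℝ X] in
/-- functions with values in a product -/
theorem n2_pi_le {ι : Type} [Fintype ι] (f : Ω → ι → X) : n2 f ≤ ∑ i, n2 fun ω => f ω i := by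
  refine le_trans ?_ (n2_sum_norm Finset.univ fun i ω => f ω i)
  have h := n2_le_mul f (fun ω => ∑ i, ‖f ω i‖) 1 zero_le_one fun ω => by
    have h0 : 0 ≤ ∑ i, ‖f ω i‖ := Finset.sum_nonneg fun i _ => norm_nonneg _
    rw [one_mul, Real.norm_of_nonneg h0]
    refine (pi_norm_le_iff_of_nonneg h0).2 fun i => ?_
    exact Finset.single_le_sum (f := fun i => ‖f ω i‖) (fun i _ => norm_nonneg _)
      (Finset.mem_univ i)
  rwa [one_mul] at h

omit [NormedSpace ℝ X] [NormedSpace ℝ Y] in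
/-- Cauchy-Schwarz -/
theorem n2_cs (f : Ω → X) (g : Ω → Y) : ∑ ω, ‖f ω‖ * ‖g ω‖ ≤ n2 f * n2 g := by
  have h0 : 0 ≤ n2 f * n2 g := mul_nonneg (n2_nonneg f) (n2_nonneg g)
  refine abs_le_of_sq_le_sq' ?_ h0 |>.2
  rw [mul_pow, n2_sq, n2_sq]
  exact Finset.sum_mul_sq_le_sq_mul_sq _ _ _

/-- closest points -/
theorem n2_closest [FiniteDimensional ℝ X] (B : Submodule ℝ (Ω → X)) (f : Ω → X) :
    ∃ b ∈ B, ∀ b' ∈ B, n2 (f - b) ≤ n2 (f - b') := by
  let L : (Ω → X) ≃ₗ[ℝ] (PiLp 2 fun _ : Ω => X) := (WithLp.linearEquiv 2 ℝ (Ω → X)).symm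
  let B' : Submodule ℝ (PiLp 2 fun _ : Ω => X) := B.map L.toLinearMap
  have hfin : FiniteDimensional ℝ (PiLp 2 fun _ : Ω => X) :=
    LinearEquiv.finiteDimensional L
  have hcl : IsClosed (B' : Set (PiLp 2 fun _ : Ω => X)) := B'.closed_of_finiteDimensional
  have hprop : ProperSpace (PiLp 2 fun _ : Ω => X) := FiniteDimensional.proper ℝ _
  obtain ⟨y, hy, hd⟩ := hcl.exists_infDist_eq_dist ⟨0, B'.zero_mem⟩ (L f)
  obtain ⟨b, hb, rfl⟩ := hy
  refine ⟨b, hb, fun b' hb' => ?_⟩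
  have key : ∀ c : Ω → X, n2 (f - c) = dist (L f) (L c) := by
    intro c
    rw [n2_eq, WithLp.toLp_sub, dist_eq_norm]
    rfl
  rw [key, key]
  have h1 : Metric.infDist (L f) (B' : Set (PiLp 2 fun _ : Ω => X)) ≤ dist (L f) (L b') :=
    Metric.infDist_le_dist_of_mem ⟨b', hb', rfl⟩
  rw [hd] at h1
  exact h1

end Pool.Agent.H4.Fold3
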