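import Pool.Agent.H85.Fold.Sphere

/-!
# Project FOLD, third stage: links of homology spheres as graphs
-/

set_option autoImplicit false
set_option linter.unusedSectionVars false

open Finset

namespace Pool.Agent.H4.Fold3

open Pool.Agent.H85.Fold

namespace LinkAux

section

variable {V : Type} [DecidableEq V] {G : SimpleGraph V} {v : V}

/-- the inclusion of the link -/
private def em (G : SimpleGraph V) (v : V) : {w // G.Adj v w} ↪ V :=
  Function.Embedding.subtype _

private theorem mem_map_em {σ : Finset {w // G.Adj v w}} {w : V} (h : w ∈ σ.map (em G v)) :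
    G.Adj v w := by
  obtain ⟨u, -, rfl⟩ := Finset.mem_map.1 h
  exact u.2

private theorem exists_map {τ : Finset V} (h : ∀ w ∈ τ, G.Adj v w) :
    ∃ σ : Finset {w // G.Adj v w}, σ.map (em G v) = τ := by
  classical
  refine ⟨τ.subtype _, ?_⟩
  ext w
  simp only [Finset.mem_map, Finset.mem_subtype]
  constructor
  · rintro ⟨u, hu, rfl⟩
    exact hu
  · intro hw
    exact ⟨⟨w, h w hw⟩, hw, rfl⟩

/-- extension of chains by zero -/
private noncomputable def ex (z : Finset {w // G.Adj v w} → ℝ) : Finset V → ℝ :=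
  Function.extend (fun σ => σ.map (em G v)) z 0

private theorem ex_map (z : Finset {w // G.Adj v w} → ℝ) (σ : Finset {w // G.Adj v w}) :
    ex z (σ.map (em G v)) = z σ :=
  (Finset.map_injective (em G v)).extend_apply z 0 σ

private theorem ex_zero (z : Finset {w // G.Adj v w} → ℝ) {τ : Finset V}
    (h : ¬ ∀ w ∈ τ, G.Adj v w) : ex z τ = 0 := by
  refine Function.extend_apply' _ _ _ ?_
  rintro ⟨σ, rfl⟩
  exact h fun w hw => mem_map_em hw

/-- a numbering which extends the numbering of the link -/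
private theorem exists_num [Fintype V] (ν : {w // G.Adj v w} → ℕ) (hν : Function.Injective ν) :
    ∃ ν' : V → ℕ, Function.Injective ν' ∧ ∀ w, ν' (em G v w) = 2 * ν w := by
  classical
  let f : V ≃ Fin (Fintype.card V) := Fintype.equivFin V
  refine ⟨fun w => if h : G.Adj v w then 2 * ν ⟨w, h⟩ else 2 * (f w : ℕ) + 1, ?_, ?_⟩
  · intro a b hab
    simp only at hab
    by_cases ha : G.Adj v a
    · by_cases hb : G.Adj v b
      · rw [dif_pos ha, dif_pos hb] at hab
        have h1 := hν (by omega : ν ⟨a, ha⟩ = ν ⟨b, hb⟩)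
        exact congrArg Subtype.val h1
      · rw [dif_pos ha, dif_neg hb] at hab
        omega
    · by_cases hb : G.Adj v b
      · rw [dif_neg ha, dif_pos hb] at hab
        omega
      · rw [dif_neg ha, dif_neg hb] at hab
        have h1 : (f a : ℕ) = f b := by omega
        exact f.injective (Fin.ext h1)
  · intro w
    exact dif_pos w.2

private theorem sgn_map {ν : {w // G.Adj v w} → ℕ} {ν' : V → ℕ}
    (h : ∀ w, ν' (em G v w) = 2 * ν w) (w : {w // G.Adj v w}) (σ : Finset {w // G.Adj v w}) :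
    sgn ν' (em G v w) (σ.map (em G v)) = sgn ν w σ := by
  unfold sgn
  rw [Finset.filter_map, Finset.card_map]
  congr 2
  refine Finset.filter_congr fun u _ => ?_
  simp only [Function.comp_apply, h]
  omega

variable [Fintype V] [Fintype {w // G.Adj v w}]

private theorem bd_ex {ν : {w // G.Adj v w} → ℕ} {ν' : V → ℕ}
    (h : ∀ w, ν' (em G v w) = 2 * ν w) (z : Finset {w // G.Adj v w} → ℝ) :
    bd ν' (ex z) = ex (bd ν z) := by
  funext τ
  by_cases hτ : ∀ w ∈ τ, G.Adj v w
  · obtain ⟨σ, rfl⟩ := exists_map hτ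
    rw [ex_map]
    change ∑ w ∈ (σ.map (em G v))ᶜ, sgn ν' w (σ.map (em G v)) •
        ex z (insert w (σ.map (em G v))) = ∑ w ∈ σᶜ, sgn ν w σ • z (insert w σ)
    have h1 : ∑ w ∈ σᶜ, sgn ν w σ • z (insert w σ) = ∑ w ∈ (σᶜ).map (em G v),
        sgn ν' w (σ.map (em G v)) • ex z (insert w (σ.map (em G v))) := by
      rw [Finset.sum_map]
      refine Finset.sum_congr rfl fun w _ => ?_
      rw [sgn_map h, ← Finset.map_insert, ex_map]
    rw [h1]
    symm
    refine Finset.sum_subset ?_ ?_
    · intro w hw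
      obtain ⟨u, hu, rfl⟩ := Finset.mem_map.1 hw
      rw [Finset.mem_compl] at hu ⊢
      intro h2
      exact hu ((Finset.mem_map' _).1 h2)
    · intro w hw1 hw2
      rw [ex_zero, smul_zero]
      intro h2
      have h3 := h2 w (Finset.mem_insert_self _ _)
      apply hw2
      refine Finset.mem_map.2 ⟨⟨w, h3⟩, ?_, rfl⟩
      rw [Finset.mem_compl] at hw1 ⊢
      intro h4
      exact hw1 (Finset.mem_map.2 ⟨⟨w, h3⟩, h4, rfl⟩)
  · rw [ex_zero _ hτ]
    change ∑ w ∈ τᶜ, sgn ν' w τ • ex z (insert w τ) = 0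
    refine Finset.sum_eq_zero fun w _ => ?_
    rw [ex_zero, smul_zero]
    intro h2
    exact hτ fun u hu => h2 u (Finset.mem_insert_of_mem hu)

end

section

variable {V : Type} [DecidableEq V] {G : SimpleGraph V} {v : V}

private theorem cl_map {σ : Finset {w // G.Adj v w}} :
    Cl (G.comap Subtype.val) σ ↔ Cl G (insert v (σ.map (em G v))) := by
  constructor
  · intro h a ha b hb hab
    rcases Finset.mem_insert.1 ha with rfl | ha
    · rcases Finset.mem_insert.1 hb with rfl | hb
      · exact absurd rfl hab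
      · exact mem_map_em hb
    · rcases Finset.mem_insert.1 hb with rfl | hb
      · exact (mem_map_em ha).symm
      · obtain ⟨a', ha', rfl⟩ := Finset.mem_map.1 ha
        obtain ⟨b', hb', rfl⟩ := Finset.mem_map.1 hb
        exact h a' ha' b' hb' fun h0 => hab (by rw [h0])
  · intro h a ha b hb hab
    exact h (em G v a) (Finset.mem_insert_of_mem (Finset.mem_map_of_mem _ ha)) (em G v b)
      (Finset.mem_insert_of_mem (Finset.mem_map_of_mem _ hb))
      fun h0 => hab ((em G v).injective h0)

private theorem notMem_map (σ : Finset {w // G.Adj v w}) : v ∉ σ.map (em G v) :=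
  fun h => (mem_map_em h).ne rfl

private theorem card_insert_map (σ : Finset {w // G.Adj v w}) :
    (insert v (σ.map (em G v))).card = σ.card + 1 := by
  rw [Finset.card_insert_of_notMem (notMem_map σ), Finset.card_map]

private theorem insert_union' (σ ρ : Finset {w // G.Adj v w}) :
    insert v ((σ ∪ ρ).map (em G v)) = σ.map (em G v) ∪ insert v (ρ.map (em G v)) := by
  rw [Finset.map_union, Finset.union_insert]

private theorem linkChain_ex {ρ : Finset {w // G.Adj v w}} {j : ℕ}
    {z : Finset {w // G.Adj v w} → ℝ}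
    (h : LinkChain (G.comap Subtype.val) ρ j z) :
    LinkChain G (insert v (ρ.map (em G v))) j (ex z) := by
  intro τ hτ
  have h1 : ∀ w ∈ τ, G.Adj v w := by
    by_contra h1
    exact hτ (ex_zero z h1)
  obtain ⟨σ, rfl⟩ := exists_map h1
  rw [ex_map] at hτ
  obtain ⟨h2, h3, h4⟩ := h σ hτ
  refine ⟨?_, ?_, by rw [Finset.card_map, h4]⟩
  · rw [Finset.disjoint_insert_right]
    exact ⟨notMem_map σ, (Finset.disjoint_map _).2 h2⟩
  · rw [← insert_union']
    exact cl_map.1 h3

private theorem supp_link {ρ : Finset {w // G.Adj v w}} {j : ℕ} {Y : Finset V → ℝ}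
    (h : LinkChain G (insert v (ρ.map (em G v))) j Y) {τ : Finset V} (hτ : Y τ ≠ 0) :
    ∀ w ∈ τ, G.Adj v w := by
  intro w hw
  obtain ⟨h1, h2, -⟩ := h τ hτ
  have hvw : v ≠ w := by
    rintro rfl
    exact Finset.disjoint_left.1 h1 hw (Finset.mem_insert_self _ _)
  exact h2 v (Finset.mem_union_right _ (Finset.mem_insert_self _ _)) w
    (Finset.mem_union_left _ hw) hvw

private theorem linkChain_res {ρ : Finset {w // G.Adj v w}} {j : ℕ} {Y : Finset V → ℝ}
    (h : LinkChain G (insert v (ρ.map (em G v))) j Y) :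
    LinkChain (G.comap Subtype.val) ρ j (fun σ => Y (σ.map (em G v))) := by
  intro σ hσ
  obtain ⟨h1, h2, h3⟩ := h _ hσ
  refine ⟨?_, ?_, by rw [← h3, Finset.card_map]⟩
  · rw [Finset.disjoint_insert_right] at h1
    exact (Finset.disjoint_map _).1 h1.2
  · rw [← insert_union'] at h2
    exact cl_map.2 h2

private theorem ex_res {ρ : Finset {w // G.Adj v w}} {j : ℕ} {Y : Finset V → ℝ}
    (h : LinkChain G (insert v (ρ.map (em G v))) j Y) :
    ex (fun σ : Finset {w // G.Adj v w} => Y (σ.map (em G v))) = Y := by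
  funext τ
  by_cases hτ : ∀ w ∈ τ, G.Adj v w
  · obtain ⟨σ, rfl⟩ := exists_map hτ
    rw [ex_map]
  · rw [ex_zero _ hτ]
    by_contra h0
    exact hτ (supp_link h fun h1 => h0 h1.symm)

end

end LinkAux

open LinkAux in
/-- the link of a vertex of a homology sphere is a homology sphere -/
theorem link_homologySphere {V : Type} [DecidableEq V] [Fintype V] {G : SimpleGraph V} {n : ℕ}
    (hG : IsHomologySphere G (n + 1)) (v : V) [Fintype {w // G.Adj v w}] :
    IsHomologySphere (V := {w // G.Adj v w}) (G.comap Subtype.val) n := by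
  refine ⟨?_, ?_, ?_⟩
  · intro σ hσ
    have h1 := hG.dim _ (cl_map.1 hσ)
    rw [card_insert_map] at h1
    omega
  · intro ν hν ρ hρ j hj z hz hbd
    obtain ⟨ν', hν', hνν⟩ := exists_num ν hν
    obtain ⟨Y, hY, hYb⟩ := hG.low ν' hν' _ (cl_map.1 hρ) j
      (by rw [card_insert_map]; omega) (ex z) (linkChain_ex hz) (by
        rw [bd_ex hνν, hbd]
        funext τ
        by_cases hτ : ∀ w ∈ τ, G.Adj v w
        · obtain ⟨σ, rfl⟩ := exists_map hτ
          rw [ex_map]
          rfl
        · rw [ex_zero _ hτ]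
          rfl)
    refine ⟨fun σ => Y (σ.map (em G v)), linkChain_res hY, ?_⟩
    have h1 := bd_ex hνν (fun σ : Finset {w // G.Adj v w} => Y (σ.map (em G v)))
    rw [ex_res hY, hYb] at h1
    funext σ
    rw [← ex_map (bd ν _) σ, ← h1, ex_map]
  · intro ν hν ρ hρ j hj
    obtain ⟨ν', hν', hνν⟩ := exists_num ν hν
    obtain ⟨O, hO, hOb, hO0, hOu⟩ := hG.top ν' hν' _ (cl_map.1 hρ) j
      (by rw [card_insert_map]; omega)
    refine ⟨fun σ => O (σ.map (em G v)), linkChain_res hO, ?_, ?_, ?_⟩
    · have h1 := bd_ex hνν (fun σ : Finset {w // G.Adj v w} => O (σ.map (em G v)))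
      rw [ex_res hO, hOb] at h1
      funext σ
      rw [← ex_map (bd ν _) σ, ← h1]
      rfl
    · intro h0
      apply hO0
      rw [← ex_res hO, h0]
      funext τ
      by_cases hτ : ∀ w ∈ τ, G.Adj v w
      · obtain ⟨σ, rfl⟩ := exists_map hτ
        rw [ex_map]
        rfl
      · rw [ex_zero _ hτ]
        rfl
    · intro z hz hbd
      obtain ⟨r, hr⟩ := hOu (ex z) (linkChain_ex hz) (by
        rw [bd_ex hνν, hbd]
        funext τ
        by_cases hτ : ∀ w ∈ τ, G.Adj v w
        · obtain ⟨σ, rfl⟩ := exists_map hτ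
          rw [ex_map]
          rfl
        · rw [ex_zero _ hτ]
          rfl)
      refine ⟨r, ?_⟩
      funext σ
      rw [← ex_map z σ, hr]
      rfl

end Pool.Agent.H4.Fold3
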