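import Pool.Agent.H4.Fold3.LocDefs
import Pool.Agent.H4.Fold3.PairI
import Pool.Agent.H85.Fold.Push

/-!
# Project FOLD, third stage: the local step for general coefficients
-/

set_option autoImplicit false
set_option linter.unusedSectionVars false

open Finset

namespace Pool.Agent.H4.Fold3

open Pool.Agent.H85.Fold Pool.Agent.H85.Fold2

section push

variable {V : Type} [DecidableEq V] [Fintype V] {S S' : Type} [AddCommGroup S] [Module ℝ S]
  [AddCommGroup S'] [Module ℝ S'] {ν : V → ℕ} {G : SimpleGraph V} {e : V → S →ₗ[ℝ] S}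
  {e' : V → S' →ₗ[ℝ] S'} {M : Submodule ℝ S} {M' : Submodule ℝ S'} {U : Finset V}

private theorem la_map_isF (T : S →ₗ[ℝ] S') (hM : ∀ x ∈ M, T x ∈ M')
    (hT : ∀ v ∈ U, ∀ x, e v x = 0 → e' v (T x) = 0) {i : ℕ} {c : Finset V → S}
    (hc : IsF G e M U i c) : IsF G e' M' U i (fun σ => T (c σ)) := by
  refine ⟨fun σ => hM _ (hc.mem σ), fun σ v hv => ?_, fun σ hne => ?_⟩
  · by_cases h : c σ = 0
    · simp only [h, map_zero]
    · exact hT v ((hc.supp σ h).1 hv) _ (hc.ker σ v hv)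
  · refine hc.supp σ fun h => hne ?_
    simp only [h, map_zero]

private theorem la_map_isD (T : S →ₗ[ℝ] S') (hM : ∀ x ∈ M, T x ∈ M')
    (hT : ∀ v ∈ U, ∀ x, e v x = 0 → e' v (T x) = 0) {n i : ℕ} {c : Finset V → Finset V → S}
    (hc : IsD G e n M U i c) : IsD G e' n M' U i (fun ρ σ => T (c ρ σ)) := by
  refine ⟨fun ρ σ => hM _ (hc.mem ρ σ), fun ρ σ v hv => ?_, fun ρ σ hne => ?_⟩
  · by_cases h : c ρ σ = 0
    · simp only [h, map_zero]
    · exact hT v ((hc.supp ρ σ h).2.1 ((hc.supp ρ σ h).1 hv)) _ (hc.ker ρ σ v hv)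
  · refine hc.supp ρ σ fun h => hne ?_
    simp only [h, map_zero]

private theorem la_map_bd (T : S →ₗ[ℝ] S') (c : Finset V → S) :
    bd ν (fun σ => T (c σ)) = fun σ => T (bd ν c σ) := by
  funext ρ
  change ∑ v ∈ ρᶜ, sgn ν v ρ • T (c (insert v ρ)) = T (∑ v ∈ ρᶜ, sgn ν v ρ • c (insert v ρ))
  rw [map_sum]
  exact Finset.sum_congr rfl fun v _ => by rw [map_smul]

private theorem la_map_isRes (T : S →ₗ[ℝ] S') (hM : ∀ x ∈ M, T x ∈ M')
    (hT : ∀ v ∈ U, ∀ x, e v x = 0 → e' v (T x) = 0) {n i : ℕ} {o : Finset V → ℝ}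
    {c : Finset V → S} {x : Finset V → Finset V → S} (hx : IsRes ν G e n M U o i c x) :
    IsRes ν G e' n M' U o i (fun σ => T (c σ)) (fun ρ σ => T (x ρ σ)) := by
  classical
  refine ⟨la_map_isD T hM hT hx.isD, ?_, ?_⟩
  · have h1 : d1 ν (fun ρ σ => T (x ρ σ)) = fun ρ σ => T (d1 ν x ρ σ) := by
      funext ρ σ
      change ∑ v ∈ σ \ ρ, sgn ν v ρ • T (x (insert v ρ) σ) =
        T (∑ v ∈ σ \ ρ, sgn ν v ρ • x (insert v ρ) σ)
      rw [map_sum]
      exact Finset.sum_congr rfl fun v _ => by rw [map_smul]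
    have h2 : d2 ν G U (fun ρ σ => T (x ρ σ)) = fun ρ σ => T (d2 ν G U x ρ σ) := by
      funext ρ σ
      by_cases h : σ ⊆ U ∧ Cl G σ
      · have e1 : d2 ν G U (fun ρ σ => T (x ρ σ)) ρ σ =
            ∑ v ∈ σ \ ρ, sgn ν v σ • T (x ρ (σ.erase v)) := if_pos h
        have e2 : d2 ν G U x ρ σ = ∑ v ∈ σ \ ρ, sgn ν v σ • x ρ (σ.erase v) := if_pos h
        rw [e1, e2, map_sum]
        exact Finset.sum_congr rfl fun v _ => by rw [map_smul]
      · have e1 : d2 ν G U (fun ρ σ => T (x ρ σ)) ρ σ = 0 := if_neg h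
        have e2 : d2 ν G U x ρ σ = 0 := if_neg h
        rw [e1, e2, map_zero]
    rw [h1, h2, hx.closed]
  · rw [← hx.aug_eq]
    funext ρ
    change ∑ σ ∈ fac G n U, o σ • T (x ρ σ) = T (∑ σ ∈ fac G n U, o σ • x ρ σ)
    rw [map_sum]
    exact Finset.sum_congr rfl fun v _ => by rw [map_smul]

end push

section loc

variable {V : Type} [DecidableEq V] [Fintype V] {S : Type} [AddCommGroup S] [Module ℝ S]

/-- linear combinations of the two components -/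
private def laLin {Ω : Type} (a b : ℝ) : (Ω → Fin 2 → S) →ₗ[ℝ] (Ω → S) where
  toFun f ω := a • f ω 0 + b • f ω 1
  map_add' f g := by
    funext ω
    simp only [Pi.add_apply, smul_add]
    abel
  map_smul' r f := by
    funext ω
    simp only [Pi.smul_apply, RingHom.id_apply, smul_add, smul_comm r]

private theorem la_A2_self (G : SimpleGraph V) (u : V) (A : V → S →ₗ[ℝ] S) (x : Fin 2 → S) :
    A2 G u A u x = ![(4 : ℝ) • x 1 - x 0, x 1] := by
  unfold A2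
  rw [if_pos rfl]
  funext j
  fin_cases j <;> simp

private theorem la_A2_adj {G : SimpleGraph V} {u v : V} (A : V → S →ₗ[ℝ] S) (h : G.Adj u v)
    (x : Fin 2 → S) : A2 G u A v x = fun j => A v (x j) := by
  unfold A2
  rw [if_neg h.ne', if_pos h]
  funext j
  simp

private theorem la_A2_far {G : SimpleGraph V} {u v : V} (A : V → S →ₗ[ℝ] S) (h : v ≠ u)
    (h' : ¬ G.Adj u v) (x : Fin 2 → S) : A2 G u A v x = ![x 1, x 0] := by
  unfold A2
  rw [if_neg h, if_neg h']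
  funext j
  fin_cases j <;> simp

private theorem la_etw {V' S' : Type} [AddCommGroup S'] [Module ℝ S'] (A : V' → S' →ₗ[ℝ] S')
    {Ω : Type} (s : V' → Ω → Ω) (v : V') (f : Ω → S') (ω : Ω) :
    etw A s v f ω = f (s v ω) + A v (f ω) := rfl

private theorem la_ker_lin {G : SimpleGraph V} {u v : V} (A : V → S →ₗ[ℝ] S) {Ω : Type}
    (s : V → Ω → Ω) (h : G.Adj u v) (a b : ℝ) (f : Ω → Fin 2 → S)
    (hf : etw (A2 G u A) s v f = 0) : etw A s v (laLin a b f) = 0 := by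
  funext ω
  have h0 : f (s v ω) + A2 G u A v (f ω) = 0 := congrFun hf ω
  rw [la_A2_adj A h] at h0
  have h1 : f (s v ω) 0 + A v (f ω 0) = 0 := congrFun h0 0
  have h2 : f (s v ω) 1 + A v (f ω 1) = 0 := congrFun h0 1
  change (a • f (s v ω) 0 + b • f (s v ω) 1) + A v (a • f ω 0 + b • f ω 1) = 0
  rw [map_add, map_smul, map_smul, eq_neg_of_add_eq_zero_left h1, eq_neg_of_add_eq_zero_left h2,
    smul_neg, smul_neg]
  abel

/-- the form of the plane -/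
private noncomputable def laB (β : S →ₗ[ℝ] S →ₗ[ℝ] ℝ) :
    (Fin 2 → S) →ₗ[ℝ] (Fin 2 → S) →ₗ[ℝ] ℝ :=
  LinearMap.mk₂ ℝ (fun x y => β (x 0) (y 0) - β (x 1) (y 1))
    (fun x x' y => by simp; ring) (fun r x y => by simp; ring) (fun x y y' => by simp; ring)
    (fun r x y => by simp; ring)

private theorem laB_apply (β : S →ₗ[ℝ] S →ₗ[ℝ] ℝ) (x y : Fin 2 → S) :
    laB β x y = β (x 0) (y 0) - β (x 1) (y 1) := rfl

private theorem la_skew {G : SimpleGraph V} {u v : V} {β : S →ₗ[ℝ] S →ₗ[ℝ] ℝ}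
    {A : V → S →ₗ[ℝ] S} (h : v ≠ u) (hA : G.Adj u v → ∀ x y, β (A v x) (A v y) = -β x y)
    (x y : Fin 2 → S) : laB β (A2 G u A v x) (A2 G u A v y) = -laB β x y := by
  by_cases h' : G.Adj u v
  · rw [la_A2_adj A h', la_A2_adj A h', laB_apply, laB_apply, hA h', hA h']
    ring
  · rw [la_A2_far A h h', la_A2_far A h h', laB_apply, laB_apply]
    simp only [Matrix.cons_val_zero, Matrix.cons_val_one]
    ring

/-- the form on the kernel of the operator at `u` -/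
private theorem la_form {G : SimpleGraph V} {u : V} (β : S →ₗ[ℝ] S →ₗ[ℝ] ℝ)
    (A : V → S →ₗ[ℝ] S) {Ω : Type} [Fintype Ω] (s : V → Ω → Ω) (hs : ∀ ω, s u (s u ω) = ω)
    (f f' : Ω → Fin 2 → S) (hf : etw (A2 G u A) s u f = 0) (hf' : etw (A2 G u A) s u f' = 0) :
    bsum (laB β) Ω f f' = bsum β Ω (laLin 1 (-2) f) (laLin 1 (-2) f') +
      3 * bsum β Ω (laLin 0 1 f) (laLin 0 1 f') := by
  have key : ∀ f : Ω → Fin 2 → S, etw (A2 G u A) s u f = 0 → ∀ ω,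
      f (s u ω) 0 = f ω 0 - (4 : ℝ) • f ω 1 ∧ f (s u ω) 1 = -f ω 1 := by
    intro f hf ω
    have h0 : f (s u ω) + A2 G u A u (f ω) = 0 := congrFun hf ω
    rw [la_A2_self] at h0
    have h1 : f (s u ω) 0 + ((4 : ℝ) • f ω 1 - f ω 0) = 0 := congrFun h0 0
    have h2 : f (s u ω) 1 + f ω 1 = 0 := congrFun h0 1
    refine ⟨?_, eq_neg_of_add_eq_zero_left h2⟩
    rw [eq_neg_of_add_eq_zero_left h1]
    abel
  have e1 : bsum (laB β) Ω f f' = ∑ ω, (β (f ω 0) (f' ω 0) - β (f ω 1) (f' ω 1)) := rfl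
  have e2 : bsum β Ω (laLin 1 (-2) f) (laLin 1 (-2) f') =
      ∑ ω, β ((1 : ℝ) • f ω 0 + (-2 : ℝ) • f ω 1) ((1 : ℝ) • f' ω 0 + (-2 : ℝ) • f' ω 1) := rfl
  have e3 : bsum β Ω (laLin 0 1 f) (laLin 0 1 f') =
      ∑ ω, β ((0 : ℝ) • f ω 0 + (1 : ℝ) • f ω 1) ((0 : ℝ) • f' ω 0 + (1 : ℝ) • f' ω 1) := rfl
  have e4 : ∑ ω, (β (f ω 0) (f' ω 0) - β (f ω 1) (f' ω 1)) =
      ∑ ω, (β (f (s u ω) 0) (f' (s u ω) 0) - β (f (s u ω) 1) (f' (s u ω) 1)) := by
    refine (Fintype.sum_bijective (s u) ?_ _ _ fun ω => rfl).symm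
    exact Function.Involutive.bijective hs
  have e5 : ∑ ω, (β (f ω 0) (f' ω 0) - β (f ω 1) (f' ω 1)) =
      ∑ ω, (β (f ω 0 - (4 : ℝ) • f ω 1) (f' ω 0 - (4 : ℝ) • f' ω 1) - β (f ω 1) (f' ω 1)) := by
    rw [e4]
    refine Finset.sum_congr rfl fun ω _ => ?_
    rw [(key f hf ω).1, (key f' hf' ω).1, (key f hf ω).2, (key f' hf' ω).2, map_neg, map_neg,
      LinearMap.neg_apply, neg_neg]
  have e6 : (2 : ℝ) * ∑ ω, (β (f ω 0) (f' ω 0) - β (f ω 1) (f' ω 1)) =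
      2 * (∑ ω, β ((1 : ℝ) • f ω 0 + (-2 : ℝ) • f ω 1)
          ((1 : ℝ) • f' ω 0 + (-2 : ℝ) • f' ω 1) +
        3 * ∑ ω, β ((0 : ℝ) • f ω 0 + (1 : ℝ) • f ω 1)
          ((0 : ℝ) • f' ω 0 + (1 : ℝ) • f' ω 1)) := by
    have e7 : (2 : ℝ) * ∑ ω, (β (f ω 0) (f' ω 0) - β (f ω 1) (f' ω 1)) =
        ∑ ω, (β (f ω 0) (f' ω 0) - β (f ω 1) (f' ω 1)) +
        ∑ ω, (β (f ω 0 - (4 : ℝ) • f ω 1) (f' ω 0 - (4 : ℝ) • f' ω 1) -
          β (f ω 1) (f' ω 1)) := by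
      rw [← e5]
      ring
    rw [e7, ← Finset.sum_add_distrib, Finset.mul_sum, ← Finset.sum_add_distrib, Finset.mul_sum]
    refine Finset.sum_congr rfl fun ω _ => ?_
    simp only [one_smul, zero_smul, zero_add, map_add, map_sub, map_smul, LinearMap.add_apply,
      LinearMap.sub_apply, LinearMap.smul_apply, smul_eq_mul]
    ring
  rw [e1, e2, e3]
  linarith [e6]

/-- the average over the operator at `u` -/
private noncomputable def laAvg (G : SimpleGraph V) (u : V) (A : V → S →ₗ[ℝ] S) {Ω : Type}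
    (s : V → Ω → Ω) : (Ω → Fin 2 → S) →ₗ[ℝ] (Ω → Fin 2 → S) where
  toFun f ω := (1 / 2 : ℝ) • (f ω - A2 G u A u (f (s u ω)))
  map_add' f g := by
    funext ω
    simp only [Pi.add_apply, map_add, ← smul_add]
    congr 1
    abel
  map_smul' r f := by
    funext ω
    simp only [Pi.smul_apply, map_smul, RingHom.id_apply, ← smul_sub, smul_comm r]

private theorem la_A2_sq (G : SimpleGraph V) (u : V) (A : V → S →ₗ[ℝ] S) (x : Fin 2 → S) :
    A2 G u A u (A2 G u A u x) = x := by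
  rw [la_A2_self, la_A2_self]
  funext j
  fin_cases j
  · simp
  · simp

private theorem la_A2_comm {G : SimpleGraph V} {u v : V} (A : V → S →ₗ[ℝ] S) (h : G.Adj u v)
    (x : Fin 2 → S) : A2 G u A v (A2 G u A u x) = A2 G u A u (A2 G u A v x) := by
  rw [la_A2_self, la_A2_self, la_A2_adj A h, la_A2_adj A h]
  funext j
  fin_cases j
  · simp
  · simp

private theorem la_avg_mem (G : SimpleGraph V) (u : V) (A : V → S →ₗ[ℝ] S) {Ω : Type}
    (s : V → Ω → Ω) (hs : ∀ ω, s u (s u ω) = ω) (f : Ω → Fin 2 → S) :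
    etw (A2 G u A) s u (laAvg G u A s f) = 0 := by
  funext ω
  change (1 / 2 : ℝ) • (f (s u ω) - A2 G u A u (f (s u (s u ω)))) +
    A2 G u A u ((1 / 2 : ℝ) • (f ω - A2 G u A u (f (s u ω)))) = 0
  rw [hs, map_smul, map_sub, la_A2_sq, ← smul_add]
  simp

private theorem la_avg_ker {G : SimpleGraph V} {u v : V} (A : V → S →ₗ[ℝ] S) {Ω : Type}
    (s : V → Ω → Ω) (h : G.Adj u v) (hs : ∀ ω, s u (s v ω) = s v (s u ω)) (f : Ω → Fin 2 → S)
    (hf : etw (A2 G u A) s v f = 0) : etw (A2 G u A) s v (laAvg G u A s f) = 0 := by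
  funext ω
  have h0 : ∀ ω, f (s v ω) = -A2 G u A v (f ω) := fun ω =>
    eq_neg_of_add_eq_zero_left (congrFun hf ω)
  change (1 / 2 : ℝ) • (f (s v ω) - A2 G u A u (f (s u (s v ω)))) +
    A2 G u A v ((1 / 2 : ℝ) • (f ω - A2 G u A u (f (s u ω)))) = 0
  rw [hs, h0, h0, map_smul, map_sub, la_A2_comm A h, ← smul_add, map_neg]
  simp

private theorem la_avg_self (G : SimpleGraph V) (u : V) (A : V → S →ₗ[ℝ] S) {Ω : Type}
    (s : V → Ω → Ω) (f : Ω → Fin 2 → S) (hf : etw (A2 G u A) s u f = 0) :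
    laAvg G u A s f = f := by
  funext ω
  have h0 : f (s u ω) = -A2 G u A u (f ω) := eq_neg_of_add_eq_zero_left (congrFun hf ω)
  change (1 / 2 : ℝ) • (f ω - A2 G u A u (f (s u ω))) = f ω
  rw [h0, map_neg, la_A2_sq, sub_neg_eq_add, ← two_smul ℝ, smul_smul]
  norm_num

/-- the component at `u` bounds in the link -/
private theorem la_component {ν : V → ℕ} (hν : Function.Injective ν) {G : SimpleGraph V} {k : ℕ}
    {o : Finset V → ℝ} (hG : IsSphere ν G (2 * k + 1) univ o) (u : V)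
    {β : S →ₗ[ℝ] S →ₗ[ℝ] ℝ} {κ : ℝ} (hκ : κ ≠ 0) {A : V → S →ₗ[ℝ] S}
    (hc : IsCert ν G k (nbr G u univ) (linkO ν u o) β κ A) (Ω : Type) [Fintype Ω]
    (s : V → Ω → Ω) (hs : IsActOn G univ s) (Y : Finset V) (i : ℕ) (hi : k < i + 1)
    (z : Finset V → Ω → Fin 2 → S) (hz : IsF G (etw (A2 G u A) s) ⊤ Y (i + 1) z)
    (hbd : bd ν z = 0) :
    (∃ y, IsF G (etw A s) ⊤ (nbr G u Y) (i + 1) y ∧
      bd ν y = fun σ => laLin 1 0 (comp ν u z σ)) ∧
    ∃ y, IsF G (etw A s) ⊤ (nbr G u Y) (i + 1) y ∧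
      bd ν y = fun σ => laLin 0 1 (comp ν u z σ) := by
  have hsL : IsActOn G (nbr G u univ) s :=
    ⟨fun v _ => hs.inv v (mem_univ v), fun v _ w _ => hs.comm v (mem_univ v) w (mem_univ w)⟩
  have hYL : nbr G u Y ⊆ nbr G u univ := fun v hv =>
    mem_nbr.2 ⟨mem_univ v, (mem_nbr.1 hv).2⟩
  have hg := isF_comp ν u hz
  have hgb : bd ν (comp ν u z) = 0 := by
    have h1 : comp ν u (bd ν z) = -bd ν (comp ν u z) := comp_bd ν hν u z
    rw [hbd, map_zero] at h1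
    exact neg_eq_zero.mp h1.symm
  have hlF : ∀ a b : ℝ, IsF G (etw A s) ⊤ (nbr G u Y) i
      (fun σ => laLin a b (comp ν u z σ)) := fun a b =>
    la_map_isF (laLin a b) (fun _ _ => Submodule.mem_top)
      (fun v hv x hx => la_ker_lin A s (mem_nbr.1 hv).2 a b x hx) hg
  have hlb : ∀ a b : ℝ, bd ν (fun σ => laLin a b (comp ν u z σ)) = 0 := by
    intro a b
    rw [la_map_bd, hgb]
    funext σ
    simp only [Pi.zero_apply, map_zero]
  rcases Nat.lt_or_ge k i with hki | hik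
  · exact ⟨hc.abs Ω s hsL (nbr G u Y) hYL i hki _ (hlF 1 0) (hlb 1 0),
      hc.abs Ω s hsL (nbr G u Y) hYL i hki _ (hlF 0 1) (hlb 0 1)⟩
  · have hik' : i = k := by omega
    subst hik'
    have hz' : IsF G (etw (A2 G u A) s) ⊤ univ (i + 1) z := hz.mono (subset_univ Y)
    obtain ⟨x, hx⟩ := exists_res (o := o) hν hG hz' hbd
    have hX := hx.comp2 hν (mem_univ u)
    have hlR : ∀ a b : ℝ, IsRes ν G (etw A s) (2 * i) ⊤ (nbr G u univ) (linkO ν u o) i
        (fun σ => laLin a b (comp ν u z σ)) (fun ρ σ => laLin a b (comp2 ν u x ρ σ)) :=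
      fun a b => la_map_isRes (laLin a b) (fun _ _ => Submodule.mem_top)
        (fun v hv x hx => la_ker_lin A s (mem_nbr.1 hv).2 a b x hx) hX
    have hiso : ∀ v ∈ (univ : Finset V), v ≠ u → ∀ x y, etw (A2 G u A) s v x = 0 →
        etw (A2 G u A) s v y = 0 → bsum (laB β) Ω x y = 0 := by
      intro v _ hvu x y hx hy
      exact iso_tw (fun ω => hs.inv v (mem_univ v) ω)
        (la_skew hvu fun h => hc.skew v (mem_nbr.2 ⟨mem_univ v, h⟩)) x y hx hy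
    have hfl : pr (bsum (laB β) Ω) (comp2 ν u x) (comp ν u z) = 0 :=
      fluxL (mem_univ u) hiso hx.isD hx.closed hz' hbd
    have hsp : pr (bsum (laB β) Ω) (comp2 ν u x) (comp ν u z) =
        pr (bsum β Ω) (fun ρ σ => laLin 1 (-2) (comp2 ν u x ρ σ))
          (fun σ => laLin 1 (-2) (comp ν u z σ)) +
        3 * pr (bsum β Ω) (fun ρ σ => laLin 0 1 (comp2 ν u x ρ σ))
          (fun σ => laLin 0 1 (comp ν u z σ)) := by
      change ∑ σ, bsum (laB β) Ω (comp2 ν u x ∅ σ) (comp ν u z σ) =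
        ∑ σ, bsum β Ω (laLin 1 (-2) (comp2 ν u x ∅ σ)) (laLin 1 (-2) (comp ν u z σ)) +
        3 * ∑ σ, bsum β Ω (laLin 0 1 (comp2 ν u x ∅ σ)) (laLin 0 1 (comp ν u z σ))
      rw [Finset.mul_sum, ← Finset.sum_add_distrib]
      refine Finset.sum_congr rfl fun σ _ => ?_
      exact la_form β A s (fun ω => hs.inv u (mem_univ u) ω) _ _ (hX.isD.mem ∅ σ).2
        (hg.mem σ).2
    have hd1 := hc.dfn Ω s hsL _ _ ((hlF 1 (-2)).mono hYL) (hlb 1 (-2)) (hlR 1 (-2))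
    have hd2 := hc.dfn Ω s hsL _ _ ((hlF 0 1).mono hYL) (hlb 0 1) (hlR 0 1)
    rw [hfl] at hsp
    generalize pr (bsum β Ω) (fun ρ σ => laLin 1 (-2) (comp2 ν u x ρ σ))
          (fun σ => laLin 1 (-2) (comp ν u z σ)) = p at hsp hd1
    generalize pr (bsum β Ω) (fun ρ σ => laLin 0 1 (comp2 ν u x ρ σ))
          (fun σ => laLin 0 1 (comp ν u z σ)) = q at hsp hd2
    have hkp : κ * p + 3 * (κ * q) = 0 := by
      have : κ * (p + 3 * q) = 0 := by rw [← hsp, mul_zero]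
      linarith
    have hp0 : κ * p = 0 := by linarith [hd1.1, hd2.1]
    have hq0 : κ * q = 0 := by linarith [hd1.1, hd2.1]
    obtain ⟨y1, hy1, hb1⟩ := hd1.2 ((mul_eq_zero.1 hp0).resolve_left hκ)
    obtain ⟨y2, hy2, hb2⟩ := hd2.2 ((mul_eq_zero.1 hq0).resolve_left hκ)
    have hsub : ∀ a b : ℝ, ∀ y : Finset V → Ω → S,
        (bd ν y = fun σ => laLin a b (comp ν u z σ)) → ∀ σ, bd ν y σ ≠ 0 → σ ⊆ nbr G u Y := by
      intro a b y hy σ hσ
      rw [hy] at hσ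
      exact ((hlF a b).supp σ hσ).1
    have hb3 : bd ν (y1 + (2 : ℝ) • y2) = fun σ => laLin 1 0 (comp ν u z σ) := by
      rw [map_add, map_smul, hb1, hb2]
      funext σ ω
      change ((1 : ℝ) • comp ν u z σ ω 0 + (-2 : ℝ) • comp ν u z σ ω 1) +
        (2 : ℝ) • ((0 : ℝ) • comp ν u z σ ω 0 + (1 : ℝ) • comp ν u z σ ω 1) =
        (1 : ℝ) • comp ν u z σ ω 0 + (0 : ℝ) • comp ν u z σ ω 1
      simp only [zero_smul, one_smul, zero_add, add_zero, neg_smul, neg_add_cancel_right]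
    obtain ⟨w0, hw0, hwb0⟩ := hc.rel Ω s hsL (nbr G u Y) hYL (y1 + (2 : ℝ) • y2)
      (hy1.add (hy2.smul 2)) (hsub 1 0 _ hb3)
    obtain ⟨w1, hw1, hwb1⟩ := hc.rel Ω s hsL (nbr G u Y) hYL y2 hy2 (hsub 0 1 _ hb2)
    exact ⟨⟨w0, hw0, hwb0.trans hb3⟩, ⟨w1, hw1, hwb1.trans hb2⟩⟩

end loc

/-- **The local step.** A twisted cycle of degree above the middle is homologous to a cycle which
avoids the vertex `u`, if the link of `u` has a certificate. -/
theorem loc_abs {V : Type} [DecidableEq V] [Fintype V] {S : Type} [AddCommGroup S] [Module ℝ S]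
    {ν : V → ℕ} (hν : Function.Injective ν) {G : SimpleGraph V} {k : ℕ} {o : Finset V → ℝ}
    (hG : IsSphere ν G (2 * k + 1) univ o) (u : V) {β : S →ₗ[ℝ] S →ₗ[ℝ] ℝ} {κ : ℝ}
    (hκ : κ ≠ 0) {A : V → S →ₗ[ℝ] S}
    (hc : IsCert ν G k (nbr G u univ) (linkO ν u o) β κ A) (Ω : Type) [Fintype Ω]
    (s : V → Ω → Ω) (hs : IsActOn G univ s) (Y : Finset V) (hu : u ∈ Y) (i : ℕ) (hi : k < i)
    (z : Finset V → Ω → Fin 2 → S) (hz : IsF G (etw (A2 G u A) s) ⊤ Y i z) (hbd : bd ν z = 0) :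
    ∃ y, IsF G (etw (A2 G u A) s) ⊤ Y (i + 1) y ∧
      IsF G (etw (A2 G u A) s) ⊤ (Y.erase u) i (z - bd ν y) := by
  obtain ⟨i, rfl⟩ : ∃ j, i = j + 1 := ⟨i - 1, by omega⟩
  obtain ⟨⟨h0, hh0, hb0⟩, ⟨h1, hh1, hb1⟩⟩ :=
    la_component hν hG u hκ hc Ω s hs Y i hi z hz hbd
  have hpF : IsF G (etw (A2 G u A) s) ⊤ (nbr G u Y) (i + 1)
      (fun σ ω => ![h0 σ ω, h1 σ ω]) := by
    have hsupp : ∀ σ, (fun ω => ![h0 σ ω, h1 σ ω]) ≠ 0 →
        σ ⊆ nbr G u Y ∧ Cl G σ ∧ σ.card = i + 1 := by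
      intro σ hne
      by_cases ha : h0 σ = 0
      · by_cases hb : h1 σ = 0
        · refine absurd ?_ hne
          funext ω j
          rw [ha, hb]
          fin_cases j <;> rfl
        · exact hh1.supp σ hb
      · exact hh0.supp σ ha
    refine ⟨fun σ => Submodule.mem_top, fun σ v hv => ?_, hsupp⟩
    by_cases hne : (fun ω => ![h0 σ ω, h1 σ ω]) = 0
    · rw [hne, map_zero]
    · have hadj : G.Adj u v := (mem_nbr.1 ((hsupp σ hne).1 hv)).2
      funext ω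
      have e0 : h0 σ (s v ω) + A v (h0 σ ω) = 0 := congrFun (hh0.ker σ v hv) ω
      have e1 : h1 σ (s v ω) + A v (h1 σ ω) = 0 := congrFun (hh1.ker σ v hv) ω
      change ![h0 σ (s v ω), h1 σ (s v ω)] + A2 G u A v ![h0 σ ω, h1 σ ω] = 0
      rw [la_A2_adj A hadj]
      funext j
      fin_cases j
      · exact e0
      · exact e1
  have hpb : bd ν (fun σ ω => ![h0 σ ω, h1 σ ω]) = comp ν u z := by
    funext σ ω j
    have e0 : bd ν h0 σ ω = (1 : ℝ) • comp ν u z σ ω 0 + (0 : ℝ) • comp ν u z σ ω 1 :=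
      congrFun (congrFun hb0 σ) ω
    have e1 : bd ν h1 σ ω = (0 : ℝ) • comp ν u z σ ω 0 + (1 : ℝ) • comp ν u z σ ω 1 :=
      congrFun (congrFun hb1 σ) ω
    rw [one_smul, zero_smul, add_zero] at e0
    rw [one_smul, zero_smul, zero_add] at e1
    have e2 : ∀ h : Finset V → Ω → S, bd ν h σ ω =
        ∑ v ∈ σᶜ, sgn ν v σ • h (insert v σ) ω := by
      intro h
      change (∑ v ∈ σᶜ, sgn ν v σ • h (insert v σ)) ω = _
      rw [Finset.sum_apply]
      rfl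
    have e3 : bd ν (fun σ ω => ![h0 σ ω, h1 σ ω]) σ ω j =
        ∑ v ∈ σᶜ, sgn ν v σ • ![h0 (insert v σ) ω, h1 (insert v σ) ω] j := by
      change (∑ v ∈ σᶜ, sgn ν v σ • fun ω => ![h0 (insert v σ) ω, h1 (insert v σ) ω]) ω j = _
      rw [Finset.sum_apply, Finset.sum_apply]
      rfl
    rw [e3]
    fin_cases j
    · exact (e2 h0).symm.trans e0
    · exact (e2 h1).symm.trans e1
  have hgm := isF_comp ν u hz
  have hsu : ∀ ω, s u (s u ω) = ω := fun ω => hs.inv u (mem_univ u) ω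
  have hqF : IsF G (etw (A2 G u A) s) (Mk (etw (A2 G u A) s) ⊤ u) (nbr G u Y) (i + 1)
      (fun σ => laAvg G u A s ((fun σ ω => ![h0 σ ω, h1 σ ω]) σ)) := by
    refine la_map_isF (laAvg G u A s) (fun x _ => Submodule.mem_inf.2
      ⟨Submodule.mem_top, LinearMap.mem_ker.2 (la_avg_mem G u A s hsu x)⟩)
      (fun v hv x hx => ?_) hpF
    have hadj : G.Adj u v := (mem_nbr.1 hv).2
    exact la_avg_ker A s hadj
      (fun ω => hs.comm u (mem_univ u) v (mem_univ v) hadj ω) x hx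
  have hqb : bd ν (fun σ => laAvg G u A s ((fun σ ω => ![h0 σ ω, h1 σ ω]) σ)) =
      comp ν u z := by
    rw [la_map_bd, hpb]
    funext σ
    exact la_avg_self G u A s _ (hgm.mem σ).2
  obtain ⟨y, hy, hzy⟩ := push_off hν hu hz hqF hqb
  refine ⟨-y, hy.neg, ?_⟩
  rw [map_neg, sub_neg_eq_add]
  exact hzy

end Pool.Agent.H4.Fold3
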