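import Pool.Agent.H4.Fold3.LocAbs

/-!
# Project FOLD, third stage: the local step for matrices
-/

set_option autoImplicit false

open Finset

namespace Pool.Agent.H4.Fold3

open Pool.Agent.H85.Fold Pool.Agent.H85.Fold2

variable {V : Type} [DecidableEq V] [Fintype V]

private theorem lr_comp (K : Type) [Field K] {D : Type} {Ω : Type} (ν : V → ℕ)
    (f : Finset V → Ω → D → K) (τ : Finset V) (ω : Ω) (d : D) :
    tdl K ν f τ ω d = Pool.Agent.H4.Singer.dl K ν (fun σ ω => f σ ω d) τ ω := by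
  show (∑ v ∈ τᶜ, (Pool.Agent.H4.Singer.sg ν v τ : K) • f (insert v τ) ω) d =
    ∑ v ∈ τᶜ, (Pool.Agent.H4.Singer.sg ν v τ : K) * f (insert v τ) ω d
  rw [Finset.sum_apply]
  rfl

private theorem lr_tdl_tdl (K : Type) [Field K] {D : Type} {Ω : Type} (ν : V → ℕ)
    (hν : Function.Injective ν) (f : Finset V → Ω → D → K) : tdl K ν (tdl K ν f) = 0 := by
  funext τ ω d
  rw [lr_comp]
  have h1 : (fun σ ω => tdl K ν f σ ω d) =
      Pool.Agent.H4.Singer.dl K ν (fun σ ω => f σ ω d) := by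
    funext σ ω'
    exact lr_comp K ν f σ ω' d
  rw [h1, Pool.Agent.H4.Singer.dl_dl ν hν]
  rfl

private theorem lr_mono (K : Type) [Field K] {D : Type} [Fintype D] [DecidableEq D]
    (G : SimpleGraph V) {Y Y' : Finset V} (hY : Y' ⊆ Y) (B : V → Matrix D D K) {Ω : Type}
    (s : V → Ω → Ω) (i : ℕ) : YCh K G Y' B s i ≤ YCh K G Y B s i := by
  rintro f ⟨h1, h2⟩
  exact ⟨fun σ ω hne => ⟨(h1 σ ω hne).1.trans hY, (h1 σ ω hne).2⟩, h2⟩

private theorem lr_mem (K : Type) [Field K] {D : Type} [Fintype D] [DecidableEq D]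
    {G : SimpleGraph V} {Y : Finset V} {B : V → Matrix D D K} {Ω : Type}
    {s : V → Ω → Ω} {ν : V → ℕ} {i : ℕ} {f : Finset V → Ω → D → K}
    (hf : f ∈ YCh K G Y B s (i + 1)) : tdl K ν f ∈ YCh K G Y B s i := by
  obtain ⟨h1, h2⟩ := hf
  have hap : ∀ τ ω, tdl K ν f τ ω =
      ∑ v ∈ τᶜ, (Pool.Agent.H4.Singer.sg ν v τ : K) • f (insert v τ) ω := fun _ _ => rfl
  constructor
  · intro τ ω hne
    rw [hap] at hne
    obtain ⟨v, hv, hne⟩ := Finset.exists_ne_zero_of_sum_ne_zero hne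
    rw [Finset.mem_compl] at hv
    have hne' : f (insert v τ) ω ≠ 0 := fun h => hne (by rw [h, smul_zero])
    obtain ⟨a1, a2, a3⟩ := h1 _ _ hne'
    refine ⟨fun u hu => a1 (Finset.mem_insert_of_mem hu), fun u hu w hw huw =>
      a2 u (Finset.mem_insert_of_mem hu) w (Finset.mem_insert_of_mem hw) huw, ?_⟩
    rw [Finset.card_insert_of_notMem hv] at a3
    omega
  · intro τ u hu ω
    rw [hap, hap, Matrix.mulVec_sum, ← Finset.sum_neg_distrib]
    refine Finset.sum_congr rfl fun v _ => ?_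
    rw [h2 (insert v τ) u (Finset.mem_insert_of_mem hu) ω, smul_neg, Matrix.mulVec_smul]

/-- Betti numbers do not increase if the cycles can be pushed into a subgraph -/
theorem bY_le_of_sup (K : Type) [Field K] {D : Type} [Fintype D] [DecidableEq D]
    (G : SimpleGraph V) {Y Y' : Finset V} (hY : Y' ⊆ Y) (B : V → Matrix D D K) {Ω : Type}
    [Fintype Ω] (s : V → Ω → Ω) (ν : V → ℕ) (hν : Function.Injective ν) (i : ℕ)
    (h : YZ K G Y B s ν i ≤ YZ K G Y' B s ν i ⊔ YB K G Y B s ν i) :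
    bY K G Y B s ν i ≤ bY K G Y' B s ν i := by
  have h1 : YB K G Y' B s ν i ≤ YZ K G Y' B s ν i := by
    rintro _ ⟨f, hf, rfl⟩
    exact ⟨lr_mem K hf, lr_tdl_tdl K ν hν f⟩
  have h2 : YB K G Y' B s ν i ≤ YB K G Y B s ν i := Submodule.map_mono (lr_mono K G hY B s _)
  have e1 := Submodule.finrank_sup_add_finrank_inf_eq (YZ K G Y' B s ν i) (YB K G Y B s ν i)
  have e2 := Submodule.finrank_mono (le_inf h1 h2)
  have e3 := Submodule.finrank_mono h
  unfold bY
  omega

variable {D : Type} [Fintype D] [DecidableEq D]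

private theorem lr_matU (R : Type) [CommRing R] : matU R * matU R = 1 := by
  ext i j
  fin_cases i <;> fin_cases j <;> simp [matU, Matrix.mul_apply, Fin.sum_univ_two]

private theorem lr_matE (R : Type) [CommRing R] : matE R * matE R = 1 := by
  ext i j
  fin_cases i <;> fin_cases j <;> simp [matE, Matrix.mul_apply, Fin.sum_univ_two]

theorem bloc_sq {R : Type} [CommRing R] (G : SimpleGraph V) (u : V) (b : V → Matrix D D R)
    (hb : ∀ v, G.Adj u v → b v * b v = 1) (v : V) : bloc G u b v * bloc G u b v = 1 := by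
  unfold bloc
  split_ifs with h1 h2
  · rw [← Matrix.mul_kronecker_mul, lr_matU, mul_one, Matrix.one_kronecker_one]
  · rw [← Matrix.mul_kronecker_mul, hb v h2, mul_one, Matrix.one_kronecker_one]
  · rw [← Matrix.mul_kronecker_mul, lr_matE, mul_one, Matrix.one_kronecker_one]

theorem bloc_comm {R : Type} [CommRing R] (G : SimpleGraph V) (u : V) (b : V → Matrix D D R)
    (hb : ∀ v w, G.Adj u v → G.Adj u w → G.Adj v w → b v * b w = b w * b v) (v w : V)
    (hvw : G.Adj v w) : bloc G u b v * bloc G u b w = bloc G u b w * bloc G u b v := by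
  unfold bloc
  split_ifs with h1 h2 h3 h4 h5 h6 h7 h8
  all_goals simp only [← Matrix.mul_kronecker_mul, mul_one, one_mul]
  all_goals first
    | rfl
    | (subst_vars; exact absurd hvw (by assumption))
    | (subst_vars; exact absurd hvw.symm (by assumption))
    | (rw [hb v w (by assumption) (by assumption) hvw])

theorem bloc_map {R R' : Type} [CommRing R] [CommRing R'] (f : R →+* R') (G : SimpleGraph V)
    (u : V) (b : V → Matrix D D R) (v : V) :
    (bloc G u b v).map f = bloc G u (fun w => (b w).map f) v := by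
  have hU : (matU R).map f = matU R' := by
    ext i j
    fin_cases i <;> fin_cases j <;> simp [matU]
    exact map_ofNat f 4
  have hE : (matE R).map f = matE R' := by
    ext i j
    fin_cases i <;> fin_cases j <;> simp [matE]
  have h1 : ∀ {E : Type} [DecidableEq E], ((1 : Matrix E E R)).map f = 1 := by
    intro E _
    exact Matrix.map_one _ (map_zero f) (map_one f)
  have key : ∀ (X : Matrix D D R) (Z : Matrix (Fin 2) (Fin 2) R),
      (Matrix.kroneckerMap (· * ·) X Z).map f =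
        Matrix.kroneckerMap (· * ·) (X.map f) (Z.map f) := by
    intro X Z
    ext i j
    simp [Matrix.kroneckerMap_apply]
  unfold bloc
  split_ifs
  · rw [key, h1, hU]
  · rw [key, h1]
  · rw [key, h1, hE]

/-- a vector with two components -/
private def cu (w : D × Fin 2 → ℝ) : Fin 2 → D → ℝ := fun j d => w (d, j)

/-- a vector with two components -/
private def un (x : Fin 2 → D → ℝ) : D × Fin 2 → ℝ := fun p => x p.2 p.1

private theorem lr_A2 (G : SimpleGraph V) (u : V) (b : V → Matrix D D ℝ) (v : V)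
    (w : D × Fin 2 → ℝ) :
    cu ((bloc G u b v).mulVec w) = A2 G u (fun v => (b v).mulVecLin) v (cu w) := by
  unfold bloc A2
  split_ifs
  · funext j d
    have h : cu ((Matrix.kroneckerMap (· * ·) (1 : Matrix D D ℝ) (matU ℝ)).mulVec w) j d =
        ∑ j', matU ℝ j j' * w (d, j') := by
      show ∑ p : D × Fin 2, (1 : Matrix D D ℝ) d p.1 * matU ℝ j p.2 * w p = _
      rw [Fintype.sum_prod_type, Finset.sum_eq_single d]
      · simp
      · intro d' _ hd
        simp [Matrix.one_apply, hd.symm]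
      · simp
    rw [h, Fin.sum_univ_two]
    fin_cases j
    · simp [matU, cu]
      ring
    · simp [matU, cu]
  · funext j d
    show ∑ p : D × Fin 2, b v d p.1 * (1 : Matrix (Fin 2) (Fin 2) ℝ) j p.2 * w p =
      ∑ d', b v d d' * w (d', j)
    rw [Fintype.sum_prod_type]
    refine Finset.sum_congr rfl fun d' _ => ?_
    rw [Finset.sum_eq_single j]
    · simp
    · intro j' _ hj
      simp [Matrix.one_apply, hj.symm]
    · simp
  · funext j d
    have h : cu ((Matrix.kroneckerMap (· * ·) (1 : Matrix D D ℝ) (matE ℝ)).mulVec w) j d =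
        ∑ j', matE ℝ j j' * w (d, j') := by
      show ∑ p : D × Fin 2, (1 : Matrix D D ℝ) d p.1 * matE ℝ j p.2 * w p = _
      rw [Fintype.sum_prod_type, Finset.sum_eq_single d]
      · simp
      · intro d' _ hd
        simp [Matrix.one_apply, hd.symm]
      · simp
    rw [h, Fin.sum_univ_two]
    fin_cases j
    · simp [matE, cu]
    · simp [matE, cu]

private theorem lr_sg (ν : V → ℕ) (v : V) (τ : Finset V) :
    (Pool.Agent.H4.Singer.sg ν v τ : ℝ) = sgn ν v τ := by
  unfold Pool.Agent.H4.Singer.sg sgn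
  push_cast
  rfl

private theorem lr_bd_cu {Ω : Type} (ν : V → ℕ) (z : Finset V → Ω → D × Fin 2 → ℝ)
    (τ : Finset V) (ω : Ω) :
    bd ν (fun σ ω => cu (z σ ω)) τ ω = cu (tdl ℝ ν z τ ω) := by
  funext j d
  show (∑ v ∈ τᶜ, sgn ν v τ • fun ω => cu (z (insert v τ) ω)) ω j d =
    (∑ v ∈ τᶜ, (Pool.Agent.H4.Singer.sg ν v τ : ℝ) • z (insert v τ) ω) (d, j)
  simp only [Finset.sum_apply]
  refine Finset.sum_congr rfl fun v _ => ?_
  rw [lr_sg]
  rfl

private theorem lr_tdl_un {Ω : Type} (ν : V → ℕ) (y : Finset V → Ω → Fin 2 → D → ℝ)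
    (τ : Finset V) (ω : Ω) :
    tdl ℝ ν (fun σ ω => un (y σ ω)) τ ω = un (bd ν y τ ω) := by
  funext p
  show (∑ v ∈ τᶜ, (Pool.Agent.H4.Singer.sg ν v τ : ℝ) • un (y (insert v τ) ω)) p =
    (∑ v ∈ τᶜ, sgn ν v τ • y (insert v τ)) ω p.2 p.1
  simp only [Finset.sum_apply]
  refine Finset.sum_congr rfl fun v _ => ?_
  rw [lr_sg]
  rfl

/-- the action extended by the identity -/
private def ext1 {Ω : Type} (Y : Finset V) (s : V → Ω → Ω) (v : V) : Ω → Ω :=
  if v ∈ Y then s v else id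

private theorem ext1_act {Ω : Type} {G : SimpleGraph V} {Y : Finset V} {s : V → Ω → Ω}
    (hs : IsActOn G Y s) : IsActOn G univ (ext1 Y s) := by
  refine ⟨fun v _ ω => ?_, fun u _ v _ huv ω => ?_⟩
  · by_cases h : v ∈ Y
    · simp only [ext1, if_pos h]
      exact hs.inv v h ω
    · simp [ext1, h]
  · by_cases h : u ∈ Y <;> by_cases h' : v ∈ Y
    · simp only [ext1, if_pos h, if_pos h']
      exact hs.comm u h v h' huv ω
    · simp [ext1, h, h']
    · simp [ext1, h, h']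
    · simp [ext1, h, h']

private theorem lr_toF {Ω : Type} {G : SimpleGraph V} {Y Y₁ : Finset V} (hY : Y₁ ⊆ Y)
    (s : V → Ω → Ω) (u : V) (b : V → Matrix D D ℝ) {i : ℕ}
    {z : Finset V → Ω → D × Fin 2 → ℝ} (hz : z ∈ YCh ℝ G Y₁ (bloc G u b) s i) :
    IsF G (etw (A2 G u fun v => (b v).mulVecLin) (ext1 Y s)) ⊤ Y₁ i
      (fun σ ω => cu (z σ ω)) := by
  obtain ⟨h1, h2⟩ := hz
  refine ⟨fun _ => Submodule.mem_top, fun σ v hv => ?_, fun σ hne => ?_⟩
  · funext ω
    show cu (z σ (ext1 Y s v ω)) + A2 G u (fun v => (b v).mulVecLin) v (cu (z σ ω)) = 0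
    rw [← lr_A2]
    by_cases hσ : σ ⊆ Y₁
    · rw [ext1, if_pos (hY (hσ hv)), h2 σ v hv ω]
      funext j d
      show -(bloc G u b v).mulVec (z σ ω) (d, j) + (bloc G u b v).mulVec (z σ ω) (d, j) = 0
      ring
    · have h0 : ∀ ω, z σ ω = 0 := fun ω => by
        by_contra hc
        exact hσ (h1 σ ω hc).1
      rw [h0, h0, Matrix.mulVec_zero]
      funext j d
      show (0 : ℝ) + 0 = 0
      ring
  · have : ∃ ω, z σ ω ≠ 0 := by
      by_contra hc
      push Not at hc
      apply hne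
      funext ω j d
      show z σ ω (d, j) = 0
      rw [hc ω]
      rfl
    obtain ⟨ω, hω⟩ := this
    exact h1 σ ω hω

private theorem lr_ofF {Ω : Type} {G : SimpleGraph V} {Y Y₁ : Finset V} (hY : Y₁ ⊆ Y)
    (s : V → Ω → Ω) (u : V) (b : V → Matrix D D ℝ) {i : ℕ}
    {y : Finset V → Ω → Fin 2 → D → ℝ}
    (hy : IsF G (etw (A2 G u fun v => (b v).mulVecLin) (ext1 Y s)) ⊤ Y₁ i y) :
    (fun σ ω => un (y σ ω)) ∈ YCh ℝ G Y₁ (bloc G u b) s i := by
  refine ⟨fun σ ω hne => hy.supp σ fun h => hne ?_, fun σ v hv ω => ?_⟩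
  · show un (y σ ω) = 0
    rw [h]
    rfl
  · show un (y σ (s v ω)) = -(bloc G u b v).mulVec (un (y σ ω))
    by_cases h0 : y σ = 0
    · rw [h0]
      show (0 : D × Fin 2 → ℝ) = -(bloc G u b v).mulVec 0
      rw [Matrix.mulVec_zero, neg_zero]
    · have hσ := (hy.supp σ h0).1
      have h1 : y σ (ext1 Y s v ω) + A2 G u (fun v => (b v).mulVecLin) v (y σ ω) = 0 :=
        congrFun (hy.ker σ v hv) ω
      have h2 : A2 G u (fun v => (b v).mulVecLin) v (y σ ω) =
          cu ((bloc G u b v).mulVec (un (y σ ω))) := (lr_A2 G u b v (un (y σ ω))).symm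
      rw [ext1, if_pos (hY (hσ hv)), h2] at h1
      funext p
      have h3 := congrFun (congrFun (eq_neg_of_add_eq_zero_left h1) p.2) p.1
      exact h3

/-- **The local step for matrices.** -/
theorem loc_real {ν : V → ℕ} (hν : Function.Injective ν) {G : SimpleGraph V} {k : ℕ}
    {o : Finset V → ℝ} (hG : IsSphere ν G (2 * k + 1) univ o) (u : V)
    {β : (D → ℝ) →ₗ[ℝ] (D → ℝ) →ₗ[ℝ] ℝ} {κ : ℝ} (hκ : κ ≠ 0) {b : V → Matrix D D ℝ}
    (hc : IsCert ν G k (nbr G u univ) (linkO ν u o) β κ fun v => (b v).mulVecLin)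
    (Y : Finset V) (hu : u ∈ Y) (i : ℕ) (hi : k < i) (Ω : Type) [Fintype Ω] (s : V → Ω → Ω)
    (hs : IsActOn G Y s) :
    bY ℝ G Y (bloc G u b) s ν i ≤ bY ℝ G (Y.erase u) (bloc G u b) s ν i := by
  refine bY_le_of_sup ℝ G (Finset.erase_subset u Y) _ s ν hν i ?_
  rintro z ⟨hz, hz0⟩
  have hz1 : tdl ℝ ν z = 0 := hz0
  have hbd : bd ν (fun σ ω => cu (z σ ω)) = 0 := by
    funext τ ω
    rw [lr_bd_cu, hz1]
    rfl
  obtain ⟨y, hy, hzy⟩ := loc_abs hν hG u hκ hc Ω (ext1 Y s) (ext1_act hs) Y hu i hi _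
    (lr_toF (Finset.Subset.refl Y) s u b hz) hbd
  have hy1 := lr_ofF (Finset.Subset.refl Y) s u b hy
  have hy2 := lr_ofF (Finset.erase_subset u Y) s u b hzy
  have e : (fun σ ω => un (((fun σ ω => cu (z σ ω)) - bd ν y) σ ω)) =
      z - tdl ℝ ν (fun σ ω => un (y σ ω)) := by
    funext σ ω
    show _ = z σ ω - tdl ℝ ν (fun σ ω => un (y σ ω)) σ ω
    rw [lr_tdl_un]
    rfl
  rw [e] at hy2
  have h3 : z = (z - tdl ℝ ν (fun σ ω => un (y σ ω))) + tdl ℝ ν (fun σ ω => un (y σ ω)) := by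
    rw [sub_add_cancel]
  rw [h3]
  refine Submodule.add_mem_sup ⟨hy2, ?_⟩ ⟨_, hy1, rfl⟩
  show tdl ℝ ν (z - tdl ℝ ν (fun σ ω => un (y σ ω))) = 0
  rw [map_sub, hz1, lr_tdl_tdl ℝ ν hν, sub_zero]

end Pool.Agent.H4.Fold3
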