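import Pool.Agent.H4.Fold3.Final
import Pool.Agent.H4.Fold3.Circle
import Pool.Agent.H4.Fold3.LinkH

/-!
# Project FOLD, third stage: spheres with folded links, spheres of small dimension
-/

set_option autoImplicit false

open Finset

namespace Pool.Agent.H4.Fold3

open Pool.Agent.H4.Singer Pool.Agent.H85.Fold Pool.Agent.H85.Fold2

variable {V : Type} [DecidableEq V] [Fintype V] {G : SimpleGraph V}

/-- normalized folding vectors on the link of `u` in `L` -/
def HasFoldL (G : SimpleGraph V) (k : ℕ) (L : Finset V) : Prop :=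
  ∃ (m : ℕ) (p : V → Fin (2 * k) → ℝ) (a : V → Fin m → ℝ), IsFoldL G L p a

/-- induced subgraphs of a homology sphere with good vertex links, embedded in `G` -/
theorem FW.of_embed (k : ℕ) {W : Type} [DecidableEq W] [Fintype W] (H : SimpleGraph W)
    (hH : ∀ w, IsFoldLink H k w) (φ : V → W) (Y : Finset V)
    (hφ : ∀ u ∈ Y, ∀ v ∈ Y, φ u = φ v → u = v)
    (hadj : ∀ u ∈ Y, ∀ v ∈ Y, G.Adj u v ↔ H.Adj (φ u) (φ v)) : FW G (2 * k + 1) Y := by
  induction Y using Finset.induction_on with
  | empty => exact FW.empty _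
  | insert u Y hu ih =>
    refine FW.loc k (insert u Y) u (Finset.mem_insert_self _ _) W inferInstance inferInstance H φ
      hφ hadj (hH _) ?_
    rw [Finset.erase_insert hu]
    exact ih (fun a ha b hb => hφ a (Finset.mem_insert_of_mem ha) b (Finset.mem_insert_of_mem hb))
      (fun a ha b hb => hadj a (Finset.mem_insert_of_mem ha) b (Finset.mem_insert_of_mem hb))

/-- **Spheres of odd dimension**: it is enough that the links of edges are folded. -/
theorem FW.of_edge_links (k : ℕ) (hG : IsHomologySphere G (2 * k + 2))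
    (h : ∀ v u, G.Adj v u → HasFoldL G k (nbr G u (nbr G v univ))) (Y : Finset V) :
    FW G (2 * k + 2) Y := by
  classical
  induction Y using Finset.induction_on with
  | empty => exact FW.empty _
  | insert v Y hv ih =>
    refine FW.even (2 * k) ⟨k, by ring⟩ (insert v Y) v (Finset.mem_insert_self _ _) ?_ ?_
    · by_cases hne : ∃ w, G.Adj v w
      · obtain ⟨w₀, hw₀⟩ := hne
        have hlk := link_homologySphere hG v
        refine FW.of_embed k (W := {w // G.Adj v w}) (G.comap Subtype.val) ?_
          (fun w => if hw : G.Adj v w then ⟨w, hw⟩ else ⟨w₀, hw₀⟩) _ ?_ ?_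
        · rintro ⟨u, hu⟩
          refine ⟨hlk, ?_⟩
          obtain ⟨m, p, a, hf⟩ := h v u hu
          refine ⟨m, fun w => p w.1, fun w => a w.1, ⟨?_, ?_, ?_⟩⟩
          · rintro ⟨x, hx⟩ hx1
            refine hf.one x ?_
            rw [mem_nbr] at hx1 ⊢
            exact ⟨mem_nbr.2 ⟨Finset.mem_univ _, hx⟩, hx1.2⟩
          · rintro ⟨x, hx⟩ hx1 ⟨y, hy⟩ hy1 hxy
            refine hf.zero x ?_ y ?_ hxy
            · rw [mem_nbr] at hx1 ⊢
              exact ⟨mem_nbr.2 ⟨Finset.mem_univ _, hx⟩, hx1.2⟩
            · rw [mem_nbr] at hy1 ⊢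
              exact ⟨mem_nbr.2 ⟨Finset.mem_univ _, hy⟩, hy1.2⟩
          · rintro ⟨x, hx⟩ hx1 ⟨y, hy⟩ hy1 hne' hxy
            refine hf.neg x ?_ y ?_ (fun he => hne' (Subtype.ext he)) hxy
            · rw [mem_nbr] at hx1 ⊢
              exact ⟨mem_nbr.2 ⟨Finset.mem_univ _, hx⟩, hx1.2⟩
            · rw [mem_nbr] at hy1 ⊢
              exact ⟨mem_nbr.2 ⟨Finset.mem_univ _, hy⟩, hy1.2⟩
        · intro x hx y hy hxy
          have hx' : G.Adj v x := (mem_nbr.1 hx).2
          have hy' : G.Adj v y := (mem_nbr.1 hy).2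
          simp only [hx', hy', dif_pos] at hxy
          exact congrArg Subtype.val hxy
        · intro x hx y hy
          have hx' : G.Adj v x := (mem_nbr.1 hx).2
          have hy' : G.Adj v y := (mem_nbr.1 hy).2
          simp only [hx', hy', dif_pos, SimpleGraph.comap_adj]
      · have h0 : nbr G v (insert v Y) = ∅ := by
          rw [Finset.eq_empty_iff_forall_notMem]
          intro w hw
          exact hne ⟨w, (mem_nbr.1 hw).2⟩
        rw [h0]
        exact FW.empty _
    · rw [Finset.erase_insert hv]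
      exact ih

/-- homology spheres of dimension at most three -/
theorem FW.low {n : ℕ} (hn : n ≤ 4) (hG : IsHomologySphere G n) : FW G n univ := by
  classical
  obtain ⟨ν, hν⟩ : ∃ ν : V → ℕ, Function.Injective ν :=
    ⟨fun v => (Fintype.equivFin V v : ℕ), fun a b h =>
      (Fintype.equivFin V).injective (Fin.ext h)⟩
  obtain ⟨o, ho⟩ := hG.isSphere ν hν
  have h2 : ∀ (L : Finset V) (o' : Finset V → ℝ), IsSphere ν G 2 L o' → HasFoldL G 1 L := by
    intro L o' hL
    obtain ⟨p, a, hf⟩ := circle_foldL hν hL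
    exact ⟨1, p, a, hf⟩
  have h0 : ∀ (L : Finset V) (o' : Finset V → ℝ), IsSphere ν G 0 L o' → HasFoldL G 0 L := by
    intro L o' hL
    have hL0 : ∀ v, v ∉ L := by
      intro v hv
      have h1 := hL.dim {v} (Finset.singleton_subset_iff.2 hv) (by
        intro a ha b hb hab
        rw [Finset.mem_singleton] at ha hb
        exact absurd (ha.trans hb.symm) hab)
      simp at h1
    exact ⟨0, fun _ _ => 0, fun _ _ => 0, ⟨fun v hv => absurd hv (hL0 v),
      fun v hv => absurd hv (hL0 v), fun v hv => absurd hv (hL0 v)⟩⟩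
  interval_cases n
  · have h1 : (univ : Finset V) = ∅ := by
      rw [Finset.eq_empty_iff_forall_notMem]
      intro v _
      have h1 := hG.dim {v} (by
        intro a ha b hb hab
        rw [Finset.mem_singleton] at ha hb
        exact absurd (ha.trans hb.symm) hab)
      simp at h1
    rw [h1]
    exact FW.empty _
  · exact FW.of_links 0 fun u => ⟨hG, h0 _ _ (ho.link hν (Finset.mem_univ u))⟩
  · refine FW.of_edge_links 0 hG (fun v u huv => ?_) univ
    exact h0 _ _ ((ho.link hν (Finset.mem_univ v)).link hν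
      (mem_nbr.2 ⟨Finset.mem_univ _, huv⟩))
  · exact FW.of_links 1 fun u => ⟨hG, h2 _ _ (ho.link hν (Finset.mem_univ u))⟩
  · refine FW.of_edge_links 1 hG (fun v u huv => ?_) univ
    exact h2 _ _ ((ho.link hν (Finset.mem_univ v)).link hν
      (mem_nbr.2 ⟨Finset.mem_univ _, huv⟩))

end Pool.Agent.H4.Fold3
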