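import Pool.Agent.H4.Fold3.LocDefs
import Pool.Agent.H85.Fold.SysFold

/-!
# Project FOLD, third stage: the system of folding vectors on a set of vertices
-/

set_option autoImplicit false

open Finset

namespace Pool.Agent.H4.Fold3

open Pool.Agent.H85.Fold Pool.Agent.H85.Fold2

/-- the conditions on the folding vectors, on a set of vertices -/
private structure SuF {V : Type} (G : SimpleGraph V) (U : Finset V) {n m : ℕ}
    (p : V → Fin n → ℝ) (a : V → Fin m → ℝ) : Prop where
  zero : ∀ u ∈ U, ∀ v ∈ U, u = v ∨ G.Adj u v → p u ⬝ᵥ p v = a u ⬝ᵥ a v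
  neg : ∀ u ∈ U, ∀ v ∈ U, u ≠ v → ¬ G.Adj u v → p u ⬝ᵥ p v < a u ⬝ᵥ a v

section Vectors

variable {V : Type} [DecidableEq V] [Fintype V] {ν : V → ℕ} {G : SimpleGraph V} {n m : ℕ}
  {U : Finset V} {o : Finset V → ℝ} {p : V → Fin n → ℝ} {a : V → Fin m → ℝ}

omit [DecidableEq V] [Fintype V] in
private theorem su_memfac {U σ : Finset V} :
    σ ∈ fac G n U ↔ σ ⊆ U ∧ Cl G σ ∧ σ.card = n := by
  simp [fac]

omit [DecidableEq V] [Fintype V] in
private theorem su_dot_sum_sum {m : ℕ} (s t : Finset V) (c d : V → ℝ) (f : V → Fin m → ℝ) :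
    (∑ u ∈ s, c u • f u) ⬝ᵥ (∑ v ∈ t, d v • f v) =
      ∑ u ∈ s, ∑ v ∈ t, c u * d v * (f u ⬝ᵥ f v) := by
  rw [sum_dotProduct]
  refine Finset.sum_congr rfl fun u _ => ?_
  rw [dotProduct_sum]
  refine Finset.sum_congr rfl fun v _ => ?_
  rw [smul_dotProduct, dotProduct_smul, smul_eq_mul, smul_eq_mul, mul_assoc]

omit [DecidableEq V] [Fintype V] in
private theorem su_dot_sum_one {m : ℕ} (s : Finset V) (c : V → ℝ) (f : V → Fin m → ℝ)
    (x : Fin m → ℝ) : (∑ u ∈ s, c u • f u) ⬝ᵥ x = ∑ u ∈ s, c u * (f u ⬝ᵥ x) := by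
  rw [sum_dotProduct]
  refine Finset.sum_congr rfl fun u _ => ?_
  rw [smul_dotProduct, smul_eq_mul]

/-- the standard basis -/
private def suq (n : ℕ) (i : Fin n) : Fin n → ℝ := Pi.single i 1

private theorem suq_dot (n : ℕ) (i j : Fin n) : suq n i ⬝ᵥ suq n j = if i = j then 1 else 0 := by
  unfold suq
  rw [single_dotProduct, one_mul, Pi.single_apply]

private theorem suq_sum (n : ℕ) (x : Fin n → ℝ) : x = ∑ j, (x ⬝ᵥ suq n j) • suq n j := by
  unfold suq
  funext i
  rw [Finset.sum_apply, Finset.sum_eq_single i]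
  · simp
  · intro j _ hj
    rw [Pi.smul_apply, Pi.single_eq_of_ne (Ne.symm hj), smul_zero]
  · intro h
    exact absurd (Finset.mem_univ i) h

/-- the vectors of a facet are linearly independent -/
private theorem su_indep (hK : IsSphere ν G n U o) (hf : SuF G U p a) {τ : Finset V}
    (hτ : τ ∈ fac G n U) (c : V → ℝ) (hc : ∑ v ∈ τ, c v • p v = 0) : ∀ v ∈ τ, c v = 0 := by
  obtain ⟨hτU, hcl, hcard⟩ := su_memfac.1 hτ
  have hy : ∑ v ∈ τ, c v • a v = 0 := by
    rw [← dotProduct_self_eq_zero, su_dot_sum_sum]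
    have h0 : (∑ v ∈ τ, c v • p v) ⬝ᵥ (∑ v ∈ τ, c v • p v) = 0 := by
      rw [hc, zero_dotProduct]
    rw [su_dot_sum_sum] at h0
    rw [← h0]
    refine Finset.sum_congr rfl fun u hu => Finset.sum_congr rfl fun v hv => ?_
    rw [hf.zero u (hτU hu) v (hτU hv)]
    by_cases huv : u = v
    · exact Or.inl huv
    · exact Or.inr (hcl u hu v hv huv)
  intro v0 hv0
  have hins : insert v0 (τ.erase v0) = τ := Finset.insert_erase hv0
  obtain ⟨w, hwU, hwv, hnadj, hw⟩ := hK.exists_ne (σ := τ.erase v0) (v := v0)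
    (Finset.notMem_erase v0 τ) (by rw [hins]; exact hτU) (by rw [hins]; exact hcl)
  have h1 : ∑ u ∈ τ, c u * (p u ⬝ᵥ p w) = 0 := by
    rw [← su_dot_sum_one, hc, zero_dotProduct]
  have h2 : ∑ u ∈ τ, c u * (a u ⬝ᵥ a w) = 0 := by
    rw [← su_dot_sum_one, hy, zero_dotProduct]
  have h3 : ∑ u ∈ τ, c u * (p u ⬝ᵥ p w - a u ⬝ᵥ a w) = 0 := by
    have : ∑ u ∈ τ, c u * (p u ⬝ᵥ p w - a u ⬝ᵥ a w) =
        ∑ u ∈ τ, c u * (p u ⬝ᵥ p w) - ∑ u ∈ τ, c u * (a u ⬝ᵥ a w) := by
      rw [← Finset.sum_sub_distrib]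
      exact Finset.sum_congr rfl fun u _ => by ring
    rw [this, h1, h2, sub_zero]
  rw [Finset.sum_eq_single_of_mem v0 hv0] at h3
  · rcases mul_eq_zero.1 h3 with h | h
    · exact h
    · have := hf.neg v0 (hτU hv0) w hwU hwv.symm hnadj
      linarith
  · intro u hu huv
    rw [hf.zero u (hτU hu) w hwU (Or.inr (hw u (Finset.mem_erase.2 ⟨huv, hu⟩))), sub_self,
      mul_zero]

private theorem su_li (hK : IsSphere ν G n U o) (hf : SuF G U p a) {τ : Finset V}
    (hτ : τ ∈ fac G n U) : LinearIndependent ℝ (fun v : τ => p v) := by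
  classical
  rw [Fintype.linearIndependent_iff]
  intro g hg
  have h1 : ∑ v ∈ τ, (fun v : V => if h : v ∈ τ then g ⟨v, h⟩ else 0) v • p v = 0 := by
    rw [← hg, ← Finset.sum_coe_sort τ]
    exact Finset.sum_congr rfl fun v _ => by simp
  intro v
  have h2 := su_indep hK hf hτ _ h1 v.1 v.2
  simpa using h2

/-- every vector is a combination of the vectors of a facet -/
private theorem su_span (hK : IsSphere ν G n U o) (hf : SuF G U p a) {τ : Finset V}
    (hτ : τ ∈ fac G n U) (w : V) : ∃ c : V → ℝ, p w = ∑ v ∈ τ, c v • p v := by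
  classical
  have htop : Submodule.span ℝ (Set.range (fun v : τ => p v)) = ⊤ := by
    apply Submodule.eq_top_of_finrank_eq
    rw [finrank_span_eq_card (su_li hK hf hτ), Fintype.card_coe, (su_memfac.1 hτ).2.2,
      Module.finrank_fin_fun]
  have hw : p w ∈ Submodule.span ℝ (Set.range (fun v : τ => p v)) := by
    rw [htop]
    exact Submodule.mem_top
  obtain ⟨c, hc⟩ := (Submodule.mem_span_range_iff_exists_fun ℝ).1 hw
  refine ⟨fun v => if h : v ∈ τ then c ⟨v, h⟩ else 0, ?_⟩
  rw [← hc, ← Finset.sum_coe_sort τ]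
  exact Finset.sum_congr rfl fun v _ => by simp

/-- the vectors opposite to a ridge are on different sides -/
private theorem su_opposite (hK : IsSphere ν G n U o) (hf : SuF G U p a) {κ : Finset V}
    {v w : V} (hvw : v ≠ w) (hv : v ∉ κ) (hw : w ∉ κ) (h1 : insert v κ ∈ fac G n U)
    (h2 : insert w κ ∈ fac G n U) (δ : (Fin n → ℝ) →ₗ[ℝ] ℝ)
    (hδ : ∀ u ∈ κ, δ (p u) = 0) (hδv : δ (p v) ≠ 0) : δ (p v) * δ (p w) < 0 := by
  classical
  obtain ⟨hU1, hcl1, hcard1⟩ := su_memfac.1 h1
  obtain ⟨hU2, hcl2, hcard2⟩ := su_memfac.1 h2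
  have hvU : v ∈ U := hU1 (Finset.mem_insert_self _ _)
  have hwU : w ∈ U := hU2 (Finset.mem_insert_self _ _)
  have hκU : ∀ u ∈ κ, u ∈ U := fun u hu => hU1 (Finset.mem_insert_of_mem hu)
  have hδw : δ (p w) ≠ 0 := by
    intro h
    obtain ⟨c, hc⟩ := su_span hK hf h2 v
    apply hδv
    rw [hc, map_sum]
    refine Finset.sum_eq_zero fun u hu => ?_
    rw [map_smul]
    rcases Finset.mem_insert.1 hu with rfl | hu
    · rw [h, smul_zero]
    · rw [hδ u hu, smul_zero]
  have hnadj : ¬ G.Adj v w := by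
    intro hadj
    have hcl3 : Cl G (insert w (insert v κ)) := by
      intro u hu u' hu' huu'
      rcases Finset.mem_insert.1 hu with e | hu2
      · rcases Finset.mem_insert.1 hu' with e' | hu2'
        · exact absurd (e.trans e'.symm) huu'
        · rcases Finset.mem_insert.1 hu2' with e' | hu3'
          · rw [e, e']
            exact hadj.symm
          · exact hcl2 _ (Finset.mem_insert.2 (Or.inl e)) _ (Finset.mem_insert_of_mem hu3') huu'
      · rcases Finset.mem_insert.1 hu' with e' | hu2'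
        · rcases Finset.mem_insert.1 hu2 with e | hu3
          · rw [e, e']
            exact hadj
          · exact hcl2 _ (Finset.mem_insert_of_mem hu3) _ (Finset.mem_insert.2 (Or.inl e')) huu'
        · exact hcl1 _ hu2 _ hu2' huu'
    have hle := hK.dim _ (Finset.insert_subset hwU hU1) hcl3
    rw [Finset.card_insert_of_notMem, hcard1] at hle
    · omega
    · simp [hvw.symm, hw]
  have hB := hf.neg v hvU w hwU hvw hnadj
  rcases lt_or_gt_of_ne (mul_ne_zero hδv hδw) with h | hpos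
  · exact h
  exfalso
  obtain ⟨c, hc⟩ := su_span hK hf h1 w
  have hδc : δ (p w) = c v * δ (p v) := by
    rw [hc, map_sum, Finset.sum_insert hv, map_smul, smul_eq_mul, Finset.sum_eq_zero, add_zero]
    intro u hu
    rw [map_smul, hδ u hu, smul_zero]
  have hcv : 0 < c v := by
    rw [hδc] at hpos
    have h3 : 0 < c v * (δ (p v) * δ (p v)) := by nlinarith
    exact pos_of_mul_pos_left h3 (mul_self_pos.2 hδv).le
  set T := insert w (insert v κ) with hT
  have hTU : ∀ u ∈ T, u ∈ U := fun u hu => by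
    rcases Finset.mem_insert.1 hu with rfl | hu
    · exact hwU
    · exact hU1 hu
  have hwT : w ∉ insert v κ := by simp [hvw.symm, hw]
  let c' : V → ℝ := fun u => if u = w then 1 else - c u
  have hc'w : c' w = 1 := by simp [c']
  have hc'u : ∀ u ∈ insert v κ, c' u = - c u := by
    intro u hu
    have : u ≠ w := by rintro rfl; exact hwT hu
    simp [c', this]
  have hsum : ∑ u ∈ T, c' u • p u = 0 := by
    rw [hT, Finset.sum_insert hwT, hc'w, one_smul, hc, ← Finset.sum_add_distrib]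
    refine Finset.sum_eq_zero fun u hu => ?_
    rw [hc'u u hu, neg_smul, add_neg_cancel]
  have hp0 : ∑ u ∈ T, ∑ u' ∈ T, c' u * c' u' * (p u ⬝ᵥ p u') = 0 := by
    rw [← su_dot_sum_sum, hsum, zero_dotProduct]
  have ha0 : 0 ≤ ∑ u ∈ T, ∑ u' ∈ T, c' u * c' u' * (a u ⬝ᵥ a u') := by
    rw [← su_dot_sum_sum]
    exact Finset.sum_nonneg fun i _ => mul_self_nonneg _
  have hdiff : ∑ u ∈ T, ∑ u' ∈ T, c' u * c' u' * (p u ⬝ᵥ p u' - a u ⬝ᵥ a u') ≤ 0 := by
    have : ∑ u ∈ T, ∑ u' ∈ T, c' u * c' u' * (p u ⬝ᵥ p u' - a u ⬝ᵥ a u') =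
        ∑ u ∈ T, ∑ u' ∈ T, c' u * c' u' * (p u ⬝ᵥ p u') -
          ∑ u ∈ T, ∑ u' ∈ T, c' u * c' u' * (a u ⬝ᵥ a u') := by
      rw [← Finset.sum_sub_distrib]
      refine Finset.sum_congr rfl fun u _ => ?_
      rw [← Finset.sum_sub_distrib]
      exact Finset.sum_congr rfl fun u' _ => by ring
    rw [this, hp0]
    linarith
  have hvT : v ∈ insert v κ := Finset.mem_insert_self _ _
  have hw1 : ∑ u' ∈ T, c' w * c' u' * (p w ⬝ᵥ p u' - a w ⬝ᵥ a u') =
      c' w * c' v * (p w ⬝ᵥ p v - a w ⬝ᵥ a v) := by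
    apply Finset.sum_eq_single_of_mem v (Finset.mem_insert_of_mem hvT)
    intro u' hu' hne
    rw [hf.zero w hwU u' (hTU u' hu'), sub_self, mul_zero]
    rcases Finset.mem_insert.1 hu' with rfl | hu'
    · exact Or.inl rfl
    · rcases Finset.mem_insert.1 hu' with rfl | hu'
      · exact absurd rfl hne
      · refine Or.inr (hcl2 _ (Finset.mem_insert_self _ _) _ (Finset.mem_insert_of_mem hu') ?_)
        rintro rfl
        exact hw hu'
  have hv1 : ∑ u' ∈ T, c' v * c' u' * (p v ⬝ᵥ p u' - a v ⬝ᵥ a u') =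
      c' v * c' w * (p v ⬝ᵥ p w - a v ⬝ᵥ a w) := by
    apply Finset.sum_eq_single_of_mem w (Finset.mem_insert_self _ _)
    intro u' hu' hne
    rw [hf.zero v hvU u' (hTU u' hu'), sub_self, mul_zero]
    rcases Finset.mem_insert.1 hu' with rfl | hu'
    · exact absurd rfl hne
    · rcases Finset.mem_insert.1 hu' with rfl | hu'
      · exact Or.inl rfl
      · refine Or.inr (hcl1 _ (Finset.mem_insert_self _ _) _ (Finset.mem_insert_of_mem hu') ?_)
        rintro rfl
        exact hv hu'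
  have hκ1 : ∀ u ∈ κ, ∑ u' ∈ T, c' u * c' u' * (p u ⬝ᵥ p u' - a u ⬝ᵥ a u') = 0 := by
    intro u hu
    refine Finset.sum_eq_zero fun u' hu' => ?_
    rw [hf.zero u (hκU u hu) u' (hTU u' hu'), sub_self, mul_zero]
    rcases Finset.mem_insert.1 hu' with rfl | hu'
    · refine Or.inr (hcl2 _ (Finset.mem_insert_of_mem hu) _ (Finset.mem_insert_self _ _) ?_)
      rintro rfl
      exact hw hu
    · by_cases huu : u = u'
      · exact Or.inl huu
      · exact Or.inr (hcl1 _ (Finset.mem_insert_of_mem hu) _ hu' huu)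
  have htot : ∑ u ∈ T, ∑ u' ∈ T, c' u * c' u' * (p u ⬝ᵥ p u' - a u ⬝ᵥ a u') =
      c' w * c' v * (p w ⬝ᵥ p v - a w ⬝ᵥ a v) + (c' v * c' w * (p v ⬝ᵥ p w - a v ⬝ᵥ a w) + 0) := by
    rw [← Finset.sum_eq_zero hκ1, ← hw1, ← hv1]
    conv_lhs => rw [hT, Finset.sum_insert hwT, Finset.sum_insert hv]
  rw [htot, hc'w, hc'u v hvT, dotProduct_comm (p w), dotProduct_comm (a w)] at hdiff
  nlinarith

/-- the determinants of the facets -/
private theorem su_dtl_ne (hK : IsSphere ν G n U o) (hf : SuF G U p a)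
    {srt : Finset V → List V} (hsrt : IsSrt ν srt)
    {τ : Finset V} (hτ : τ ∈ fac G n U) : dtl n (suq n) p (srt τ) ≠ 0 := by
  classical
  have hlen : (srt τ).length = n := by rw [hsrt.length]; exact (su_memfac.1 hτ).2.2
  set l := srt τ with hl
  intro h0
  rw [dtl, dif_pos hlen] at h0
  obtain ⟨x, hx0, hx⟩ := Matrix.exists_vecMul_eq_zero_iff.2 h0
  let f : Fin n → V := fun i => l.get (Fin.cast hlen.symm i)
  have hfinj : Function.Injective f := by
    intro i j hij
    have := (hsrt.nodup τ).injective_get hij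
    exact Fin.cast_injective _ this
  have hfmem : ∀ i, f i ∈ τ := by
    intro i
    have : f i ∈ l.toFinset := List.mem_toFinset.2 (List.get_mem _ _)
    rwa [hl, hsrt.toFinset] at this
  have hj : ∀ j, ∑ i, x i * (p (f i) ⬝ᵥ suq n j) = 0 := by
    intro j
    have := congrFun hx j
    simpa [Matrix.vecMul, dotProduct, f] using this
  have hsum : ∑ i, x i • p (f i) = 0 := by
    have : ∀ i, x i • p (f i) = ∑ j, (x i * (p (f i) ⬝ᵥ suq n j)) • suq n j := by
      intro i
      conv_lhs => rw [suq_sum n (p (f i))]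
      rw [Finset.smul_sum]
      exact Finset.sum_congr rfl fun j _ => by rw [smul_smul]
    rw [Finset.sum_congr rfl fun i _ => this i, Finset.sum_comm]
    refine Finset.sum_eq_zero fun j _ => ?_
    rw [← Finset.sum_smul, hj j, zero_smul]
  let c : V → ℝ := fun u => ∑ i, if f i = u then x i else 0
  have hc : ∑ u ∈ τ, c u • p u = 0 := by
    rw [← hsum]
    have : ∀ u ∈ τ, c u • p u = ∑ i, if f i = u then x i • p (f i) else 0 := by
      intro u _
      rw [Finset.sum_smul]
      refine Finset.sum_congr rfl fun i _ => ?_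
      by_cases h : f i = u
      · simp [h]
      · simp [h]
    rw [Finset.sum_congr rfl this, Finset.sum_comm]
    refine Finset.sum_congr rfl fun i _ => ?_
    rw [Finset.sum_ite_eq, if_pos (hfmem i)]
  apply hx0
  funext i
  have h1 := su_indep hK hf hτ c hc (f i) (hfmem i)
  have h2 : c (f i) = x i := by
    show ∑ j, (if f j = f i then x j else 0) = x i
    rw [Finset.sum_eq_single i]
    · simp
    · intro j _ hji
      rw [if_neg]
      exact fun h => hji (hfinj h)
    · intro h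
      exact absurd (Finset.mem_univ i) h
  rw [← h2, h1]
  rfl

/-- the determinants of the facets have the signs of the orientation -/
private theorem su_sign (hK : IsSphere ν G n U o) (hf : SuF G U p a)
    {srt : Finset V → List V} (hsrt : IsSrt ν srt) :
    ∃ s : ℝ, s * s = 1 ∧ ∀ τ ∈ fac G n U, 0 < s * (o τ * dtl n (suq n) p (srt τ)) := by
  refine hK.sign (fun τ => dtl n (suq n) p (srt τ))
    (fun τ hτ => su_dtl_ne hK hf hsrt hτ) ?_
  intro κ v w hvw hv hw h1 h2
  have hlen : (srt κ).length + 1 = n := by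
    rw [hsrt.length, ← Finset.card_insert_of_notMem hv]
    exact (su_memfac.1 h1).2.2
  obtain ⟨δ, hδ, hδ0⟩ := dtl_cons (suq n) p (srt κ) hlen
  have e1 : sgn ν v κ * dtl n (suq n) p (srt (insert v κ)) = δ (p v) := by
    rw [← dtl_insert hsrt (suq n) p hv, hδ]
  have e2 : sgn ν w κ * dtl n (suq n) p (srt (insert w κ)) = δ (p w) := by
    rw [← dtl_insert hsrt (suq n) p hw, hδ]
  show (sgn ν v κ * dtl n (suq n) p (srt (insert v κ))) *
    (sgn ν w κ * dtl n (suq n) p (srt (insert w κ))) < 0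
  rw [e1, e2]
  refine su_opposite hK hf hvw hv hw h1 h2 δ ?_ ?_
  · intro u hu
    apply hδ0
    rw [← List.mem_toFinset, hsrt.toFinset]
    exact hu
  · rw [← e1]
    refine mul_ne_zero ?_ (su_dtl_ne hK hf hsrt h1)
    intro h
    have := sgn_sq ν v κ
    rw [h] at this
    norm_num at this

end Vectors

section Facet

variable {V : Type} [DecidableEq V] [Fintype V] {S : Type} [AddCommGroup S]
  [Module ℝ S] {ν : V → ℕ} {G : SimpleGraph V} {n m : ℕ} {U : Finset V}
  {o : Finset V → ℝ} {p : V → Fin n → ℝ} {a : V → Fin m → ℝ} {dot : S →ₗ[ℝ] S →ₗ[ℝ] ℝ}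
  {γ : Fin n → S →ₗ[ℝ] S} {η : Fin m → S →ₗ[ℝ] S}

private theorem su_ofFn {α β : Type*} (l : List α) (k : ℕ) (h : l.length = k) (f : α → β) :
    List.ofFn (fun i : Fin k => f (l.get (Fin.cast h.symm i))) = l.map f := by
  subst h
  apply List.ext_getElem
  · simp
  · intro i h1 h2
    simp

private theorem su_dp {k m : ℕ} (c d : Fin k → ℝ) (x y : Fin k → Fin m → ℝ) :
    (∑ i, c i • x i) ⬝ᵥ (∑ j, d j • y j) = ∑ i, ∑ j, c i * d j * (x i ⬝ᵥ y j) := by
  rw [sum_dotProduct]
  refine Finset.sum_congr rfl fun i _ => ?_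
  rw [dotProduct_sum]
  refine Finset.sum_congr rfl fun j _ => ?_
  rw [smul_dotProduct, dotProduct_smul, smul_eq_mul, smul_eq_mul, mul_assoc]

private theorem su_lc_comb {m k : ℕ} (γ : Fin m → S →ₗ[ℝ] S) (c : Fin k → ℝ)
    (x : Fin k → Fin m → ℝ) : lc γ (∑ i, c i • x i) = ∑ i, c i • lc γ (x i) := by
  rw [lc_sum]
  exact Finset.sum_congr rfl fun i _ => lc_smul γ (c i) (x i)

/-- positivity for a facet -/
private theorem su_facet_pos (hK : IsSphere ν G n U o) (hf : SuF G U p a)
    (hc : IsClMod dot γ η) {srt : Finset V → List V} (hsrt : IsSrt ν srt)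
    {τ : Finset V} (hτ : τ ∈ fac G n U) :
    ∃ Q : S → ℝ, (∀ x, 0 ≤ Q x ∧ (Q x = 0 → epl (ev γ η p a) srt τ x = 0)) ∧
      ∀ x, dot x (om γ (suq n) (epl (ev γ η p a) srt τ x)) =
        (-1) ^ (n * (n - 1) / 2) * dtl n (suq n) p (srt τ) * Q x := by
  classical
  obtain ⟨hτU, hcl, hcard⟩ := su_memfac.1 hτ
  have hq := suq_dot n
  have hqp : ∀ v, p v = ∑ j, (p v ⬝ᵥ suq n j) • suq n j := fun v => suq_sum n (p v)
  generalize hqdef : suq n = q at *
  have hlen : (srt τ).length = n := by rw [hsrt.length, hcard]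
  set e : Fin n → V := fun i => (srt τ).get (Fin.cast hlen.symm i) with he
  have hemem : ∀ i, e i ∈ τ := by
    intro i
    have h1 : e i ∈ srt τ := List.get_mem _ _
    rw [← hsrt.toFinset τ]
    exact List.mem_toFinset.mpr h1
  set B : Matrix (Fin n) (Fin n) ℝ := fun i j => p (e i) ⬝ᵥ q j with hB
  have hdet : dtl n q p (srt τ) = B.det := by
    unfold dtl
    rw [dif_pos hlen]
  have hdet0 : B.det ≠ 0 := by
    rw [← hdet, ← hqdef]
    exact su_dtl_ne hK hf hsrt hτ
  have hunit : IsUnit B.det := isUnit_iff_ne_zero.mpr hdet0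
  set C : Matrix (Fin n) (Fin n) ℝ := B⁻¹ with hC
  have hCB : C * B = 1 := Matrix.nonsing_inv_mul B hunit
  have hBC : B * C = 1 := Matrix.mul_nonsing_inv B hunit
  have hpe : ∀ i, p (e i) = ∑ j, B i j • q j := fun i => hqp (e i)
  have hcomb : ∀ (M N : Matrix (Fin n) (Fin n) ℝ) {m : ℕ} (x : Fin n → Fin m → ℝ) (j : Fin n),
      ∑ i, M j i • ∑ k, N i k • x k = ∑ k, (M * N) j k • x k := by
    intro M N m x j
    simp only [Finset.smul_sum, smul_smul]
    rw [Finset.sum_comm]
    refine Finset.sum_congr rfl fun k _ => ?_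
    rw [Matrix.mul_apply, Finset.sum_smul]
  have hone : ∀ {m : ℕ} (x : Fin n → Fin m → ℝ) (j : Fin n),
      ∑ k, (1 : Matrix (Fin n) (Fin n) ℝ) j k • x k = x j := by
    intro m x j
    rw [Finset.sum_eq_single j]
    · simp
    · intro b _ hb
      rw [Matrix.one_apply_ne hb.symm, zero_smul]
    · intro h
      exact absurd (Finset.mem_univ j) h
  have hqc : ∀ j, q j = ∑ i, C j i • p (e i) := by
    intro j
    have h1 : ∑ i, C j i • p (e i) = ∑ i, C j i • ∑ k, B i k • q k :=
      Finset.sum_congr rfl fun i _ => by rw [hpe i]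
    rw [h1, hcomb, hCB, hone]
  set a' : Fin n → Fin m → ℝ := fun j => ∑ i, C j i • a (e i) with ha'
  have hae : ∀ i, a (e i) = ∑ j, B i j • a' j := by
    intro i
    have h1 : ∑ j, B i j • a' j = ∑ k, (B * C) i k • a (e k) := hcomb B C (fun k => a (e k)) i
    rw [h1, hBC]
    exact (hone (fun k => a (e k)) i).symm
  have haa : ∀ i j, a' i ⬝ᵥ a' j = if i = j then 1 else 0 := by
    intro i j
    have h1 : a' i ⬝ᵥ a' j = ∑ k, ∑ l, C i k * C j l * (a (e k) ⬝ᵥ a (e l)) :=
      su_dp (C i) (C j) (fun k => a (e k)) (fun l => a (e l))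
    have h2 : q i ⬝ᵥ q j = ∑ k, ∑ l, C i k * C j l * (p (e k) ⬝ᵥ p (e l)) := by
      rw [hqc i, hqc j]
      exact su_dp (C i) (C j) (fun k => p (e k)) (fun l => p (e l))
    rw [← hq i j, h1, h2]
    refine Finset.sum_congr rfl fun k _ => Finset.sum_congr rfl fun l _ => ?_
    rw [hf.zero (e k) (hτU (hemem k)) (e l) (hτU (hemem l))]
    by_cases hkl : e k = e l
    · exact Or.inl hkl
    · exact Or.inr (hcl (e k) (hemem k) (e l) (hemem l) hkl)
  set h : Fin n → Module.End ℝ S := fun j => ev γ η q a' j with hh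
  have hanti : ∀ i j, h i * h j = -(h j * h i) := by
    intro i j
    apply LinearMap.ext
    intro x
    have h1 := hc.ev_anti q a' i j x
    rw [hq, haa, sub_self, mul_zero, zero_smul] at h1
    exact eq_neg_of_add_eq_zero_left h1
  have hev : ∀ i, (ev γ η p a (e i) : Module.End ℝ S) = ∑ j, B i j • h j := by
    intro i
    have h1 : lc γ (p (e i)) = ∑ j, B i j • lc γ (q j) := by
      rw [hpe i]
      exact su_lc_comb γ (B i) q
    have h2 : lc η (a (e i)) = ∑ j, B i j • lc η (a' j) := by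
      rw [hae i]
      exact su_lc_comb η (B i) a'
    show lc γ (p (e i)) + lc η (a (e i)) = ∑ j, B i j • (lc γ (q j) + lc η (a' j))
    rw [h1, h2, ← Finset.sum_add_distrib]
    exact Finset.sum_congr rfl fun j _ => (smul_add _ _ _).symm
  have hepl : epl (ev γ η p a) srt τ = B.det • (List.ofFn h).prod := by
    unfold epl
    rw [← su_ofFn (srt τ) n hlen (fun v => (ev γ η p a v : Module.End ℝ S))]
    rw [← prod_alt h hanti B]
    congr 1
    apply congrArg
    funext i
    exact hev i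
  -- squares
  have hg2 : ∀ i, (lc γ (q i) : Module.End ℝ S) * lc γ (q i) = 1 := by
    intro i
    apply LinearMap.ext
    intro x
    have h1 := hc.lc_γγ (q i) (q i) x
    rw [hq, if_pos rfl, mul_one, ← two_smul ℝ] at h1
    exact smul_right_injective S (two_ne_zero) h1
  have hh2 : ∀ i, (lc η (a' i) : Module.End ℝ S) * lc η (a' i) = -1 := by
    intro i
    apply LinearMap.ext
    intro x
    have h1 := hc.lc_ηη (a' i) (a' i) x
    rw [haa, if_pos rfl, mul_one, ← two_smul ℝ, ← smul_neg] at h1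
    exact smul_right_injective S (two_ne_zero) h1
  have hgg : ∀ i j, i ≠ j → (lc γ (q i) : Module.End ℝ S) * lc γ (q j) =
      -((lc γ (q j) : Module.End ℝ S) * lc γ (q i)) := by
    intro i j hij
    apply LinearMap.ext
    intro x
    have h1 := hc.lc_γγ (q i) (q j) x
    rw [hq, if_neg hij, mul_zero, zero_smul] at h1
    exact eq_neg_of_add_eq_zero_left h1
  have hhh : ∀ i j, i ≠ j → (lc η (a' i) : Module.End ℝ S) * lc η (a' j) =
      -((lc η (a' j) : Module.End ℝ S) * lc η (a' i)) := by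
    intro i j hij
    apply LinearMap.ext
    intro x
    have h1 := hc.lc_ηη (a' i) (a' j) x
    rw [haa, if_neg hij, mul_zero, zero_smul, neg_zero] at h1
    exact eq_neg_of_add_eq_zero_left h1
  have hgh : ∀ i j, (lc γ (q i) : Module.End ℝ S) * lc η (a' j) =
      -((lc η (a' j) : Module.End ℝ S) * lc γ (q i)) := by
    intro i j
    apply LinearMap.ext
    intro x
    exact hc.lc_γη (q i) (a' j) x
  obtain ⟨Q, hQ, hQd⟩ := omega_prod dot hc.symm hc.pos
    (fun i => (lc γ (q i) : Module.End ℝ S)) (fun i => (lc η (a' i) : Module.End ℝ S))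
    hg2 hh2 hgg hhh hgh (fun i x y => hc.lc_γ_adj (q i) x y) (fun i x y => hc.lc_η_adj (a' i) x y)
  have hlist : (List.ofFn fun i => (lc γ (q i) : Module.End ℝ S) + lc η (a' i)) = List.ofFn h :=
    rfl
  refine ⟨Q, fun x => ⟨(hQ x).1, fun hx => ?_⟩, fun x => ?_⟩
  · have h1 := (hQ x).2 hx
    rw [hlist] at h1
    rw [hepl, LinearMap.smul_apply, h1, smul_zero]
  · have h1 := hQd x
    rw [hlist] at h1
    rw [hepl, LinearMap.smul_apply, map_smul, map_smul, smul_eq_mul, hdet]
    have h2 : dot x (om γ q ((List.ofFn h).prod x)) = (-1) ^ (n * (n - 1) / 2) * Q x := h1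
    rw [h2]
    ring

omit [DecidableEq V] [Fintype V] in
/-- an operator which anticommutes with the generators, past the product -/
private theorem su_T_om (T : S →ₗ[ℝ] S) (hT : ∀ i x, T (γ i x) = -γ i (T x)) (x : S) :
    T (om γ (suq n) x) = (-1 : ℝ) ^ n • om γ (suq n) (T x) := by
  have hlc : ∀ i (x : S), T (lc γ (suq n i) x) = -lc γ (suq n i) (T x) := by
    intro i x
    have e : ∀ z : S, lc γ (suq n i) z = ∑ j, suq n i j • γ j z := by
      intro z
      simp [lc, LinearMap.sum_apply]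
    rw [e, e, map_sum, ← Finset.sum_neg_distrib]
    refine Finset.sum_congr rfl fun j _ => ?_
    rw [map_smul, hT, smul_neg]
  have key : ∀ (l : List (Fin n)) (x : S),
      T ((l.map fun i => (lc γ (suq n i) : Module.End ℝ S)).prod x) =
        (-1 : ℝ) ^ l.length • (l.map fun i => (lc γ (suq n i) : Module.End ℝ S)).prod (T x) := by
    intro l
    induction l with
    | nil => intro x; simp
    | cons i l ih =>
      intro x
      have e : ∀ z : S, (((i :: l).map fun i => (lc γ (suq n i) : Module.End ℝ S)).prod) z =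
          lc γ (suq n i) ((l.map fun i => (lc γ (suq n i) : Module.End ℝ S)).prod z) := by
        intro z
        rw [List.map_cons, List.prod_cons]
        rfl
      rw [e, e, hlc, ih, map_smul, List.length_cons, pow_succ, mul_neg_one, neg_smul]
  have h1 := key (List.finRange n) x
  rw [List.length_finRange] at h1
  have e : om γ (suq n) =
      ((List.finRange n).map fun i => (lc γ (suq n i) : Module.End ℝ S)).prod := by
    rw [om, List.ofFn_eq_map]
  rw [e, h1]

end Facet

/-- **Folding vectors give a system**, on a set of vertices; the form is such that skew operators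
which anticommute with the generators of square one are (skew-)adjoint for it. -/
theorem exists_sysU {V : Type} [DecidableEq V] [Fintype V] {S : Type} [AddCommGroup S]
    [Module ℝ S] {ν : V → ℕ} {G : SimpleGraph V} {n m : ℕ} {U : Finset V}
    {o : Finset V → ℝ} {p : V → Fin n → ℝ} {a : V → Fin m → ℝ} {dot : S →ₗ[ℝ] S →ₗ[ℝ] ℝ}
    {γ : Fin n → S →ₗ[ℝ] S} {η : Fin m → S →ₗ[ℝ] S} (hν : Function.Injective ν)
    (hK : IsSphere ν G n U o)
    (hzero : ∀ u ∈ U, ∀ v ∈ U, u = v ∨ G.Adj u v → p u ⬝ᵥ p v = a u ⬝ᵥ a v)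
    (hneg : ∀ u ∈ U, ∀ v ∈ U, u ≠ v → ¬ G.Adj u v → p u ⬝ᵥ p v < a u ⬝ᵥ a v)
    (hc : IsClMod dot γ η) :
    ∃ (ep : Finset V → S →ₗ[ℝ] S) (β : S →ₗ[ℝ] S →ₗ[ℝ] ℝ) (κ : ℝ),
      Sys ν G (ev γ η p a) ep (fun u v => 2 * (p u ⬝ᵥ p v - a u ⬝ᵥ a v)) n U ⊤ β
        ((-1) ^ (n + 1)) κ o ∧
      ∀ T : S →ₗ[ℝ] S, (∀ x y, dot (T x) y = -dot x (T y)) → (∀ i x, T (γ i x) = -γ i (T x)) →
        ∀ x y, β (T x) y = (-1) ^ (n + 1) * β x (T y) := by
  classical
  have hf : SuF G U p a := ⟨hzero, hneg⟩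
  obtain ⟨srt, hsrt⟩ := exists_srt ν hν
  obtain ⟨s, hs, hsgn⟩ := su_sign hK hf hsrt
  have hneg1 : ∀ k : ℕ, ((-1 : ℝ) ^ k) * (-1) ^ k = 1 := by
    intro k
    rw [← mul_pow]
    norm_num
  have hβ : ∀ x y, dot.compl₂ (om γ (suq n)) x y = dot x (om γ (suq n) y) := fun x y => rfl
  refine ⟨epl (ev γ η p a) srt, dot.compl₂ (om γ (suq n)),
    (-1) ^ (n * (n - 1) / 2) * s, ?_, ?_⟩
  · refine
      { inj := hν
        ε_sq := hneg1 _
        κ_sq := by
          calc (-1 : ℝ) ^ (n * (n - 1) / 2) * s * ((-1) ^ (n * (n - 1) / 2) * s)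
              = ((-1 : ℝ) ^ (n * (n - 1) / 2) * (-1) ^ (n * (n - 1) / 2)) * (s * s) := by ring
            _ = 1 := by rw [hneg1, hs, mul_one]
        stable := fun _ _ _ _ => Submodule.mem_top
        anti := fun u _ v _ x _ => hc.ev_anti p a u v x
        b_symm := fun u v => by rw [dotProduct_comm (p u), dotProduct_comm (a u)]
        b_zero := fun u hu v hv huv => by rw [hzero u hu v hv huv, sub_self, mul_zero]
        b_neg := fun u hu v hv hne hadj => by
          have h1 := hneg u hu v hv hne hadj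
          show 2 * (p u ⬝ᵥ p v - a u ⬝ᵥ a v) < 0
          linarith
        adj := ?_
        nondeg := ?_
        sphere := hK
        ep_nil := ?_
        ep_insert := ?_
        pos := ?_ }
    · intro v _ x _ y _
      rw [hβ, hβ]
      have h1 : ev γ η p a v x = lc γ (p v) x + lc η (a v) x := rfl
      have h2 : ev γ η p a v y = lc γ (p v) y + lc η (a v) y := rfl
      rw [h1, h2, map_add, LinearMap.add_apply, hc.lc_γ_adj, hc.lc_η_adj,
        hc.om_γ (suq_dot n) (suq_sum n (p v)) y, hc.om_η (a v) y, map_smul, map_smul, smul_eq_mul,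
        smul_eq_mul, map_add, map_add, pow_succ]
      ring
    · intro y _ hy
      have h1 := hy (om γ (suq n) y) Submodule.mem_top
      rw [hβ] at h1
      apply hc.om_inj (suq_dot n) y
      by_contra h2
      exact absurd h1 (ne_of_gt (hc.pos _ h2))
    · intro x
      unfold epl
      rw [hsrt.nil]
      simp
    · intro v τ hv hU hcl x _
      refine epl_insert hsrt (ev γ η p a) hv (fun u hu z => ?_) x
      have hne : v ≠ u := fun h => hv (h ▸ hu)
      have hadj : G.Adj v u :=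
        hcl v (Finset.mem_insert_self _ _) u (Finset.mem_insert_of_mem hu) hne
      have h1 := hc.ev_anti p a v u z
      rw [hzero v (hU (Finset.mem_insert_self _ _)) u (hU (Finset.mem_insert_of_mem hu))
        (Or.inr hadj), sub_self, mul_zero, zero_smul] at h1
      exact eq_neg_of_add_eq_zero_left h1
    · intro τ hτu hcl hcard x _
      have hτ : τ ∈ fac G n U := su_memfac.2 ⟨hτu, hcl, hcard⟩
      obtain ⟨Q, hQ, hQd⟩ := su_facet_pos hK hf hc hsrt hτ
      rw [hβ, hQd x]
      constructor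
      · have h1 : (-1 : ℝ) ^ (n * (n - 1) / 2) * s * o τ *
            ((-1) ^ (n * (n - 1) / 2) * dtl n (suq n) p (srt τ) * Q x) =
            ((-1 : ℝ) ^ (n * (n - 1) / 2) * (-1) ^ (n * (n - 1) / 2)) *
              (s * (o τ * dtl n (suq n) p (srt τ))) * Q x := by ring
        rw [h1, hneg1, one_mul]
        exact mul_nonneg (hsgn τ hτ).le (hQ x).1
      · intro h1
        apply (hQ x).2
        have h2 : (-1 : ℝ) ^ (n * (n - 1) / 2) * dtl n (suq n) p (srt τ) ≠ 0 :=
          mul_ne_zero (pow_ne_zero _ (by norm_num)) (su_dtl_ne hK hf hsrt hτ)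
        exact (mul_eq_zero.mp h1).resolve_left h2
  · intro T hT1 hT2 x y
    rw [hβ, hβ, hT1, su_T_om T hT2 y, map_smul, smul_eq_mul, pow_succ]
    ring

end Pool.Agent.H4.Fold3
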